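import Pool.Agent.Lib.MP_5591bc_ag.J.Set
import Pool.Agent.Lib.MP_5591bc_ag.E.Cont

/-! Continuation over a ball. -/

namespace Pool.Agent.Lib.MP_5591bc_ag.J

open Matrix Filter Topology Metric G R W M E

noncomputable section

theorem cont_sol {ν : Type*} [Fintype ν] [DecidableEq ν] {A : ℂ → Matrix ν ν ℂ} {r r' : ℝ}
    (r0 : 0 < r) (rr : r < r') (hA : Hol (ball 0 r') A) (M : Matrix ν ν ℂ) :
    ∃ Y : ℂ → Matrix ν ν ℂ, Y 0 = M ∧ ∀ u ∈ ball (0 : ℂ) r, MSol A Y u := by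
  have sub : closedBall (0 : ℂ) r ⊆ ball 0 r' := closedBall_subset_ball rr
  obtain ⟨c, hc⟩ := (isCompact_closedBall (0 : ℂ) r).exists_bound_of_continuousOn
    (f := fun u (a : ν × ν) => A u a.1 a.2)
    (continuousOn_pi.2 fun a => (hA a.1 a.2).continuousOn.mono sub)
  obtain ⟨Φ, Ψ, h0, -, h⟩ := exists_fund (convex_ball (0 : ℂ) r) isOpen_ball
    (mem_ball_self r0) (A := A)
    (fun i j => (hA i j).mono (ball_subset_closedBall.trans sub)) (c := |c|)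
    (fun t ht i j => ((norm_le_pi_norm (fun a : ν × ν => A t a.1 a.2) (i, j)).trans
      (hc t (ball_subset_closedBall ht))).trans (le_abs_self c)) (abs_nonneg c)
  exact ⟨fun u => Φ u * M, by simp only [h0, Matrix.one_mul], fun u hu => (h u hu).1.mul_const M⟩

theorem contB {σ K ν E : Type*} [Fintype σ] [DecidableEq σ] [Field K] [Algebra K ℂ] [Fintype ν]
    [DecidableEq ν] [NormedAddCommGroup E] [NormedSpace ℂ E] {T : MvPolynomial σ K}
    {B : σ → Matrix ν ν (MvPolynomial σ K)} (loc : Loc T B) {V : Set (σ → ℂ)}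
    {P : (σ → ℂ) → Matrix ν ν ℂ} (ho : IsOpen V) (hP : FundM T B V P) {y : E → σ → ℂ}
    (hy : AnalyticOnNhd ℂ y (ball 0 40)) (hT : ∀ p ∈ ball (0 : E) 40, MvPolynomial.aeval (y p) T ≠ 0)
    {p₀ : E} (h0 : ‖p₀‖ ≤ 1) (hV : y p₀ ∈ V) : ∃ Y : E → Matrix ν ν ℂ,
      (∀ i j, AnalyticOnNhd ℂ (Y · i j) (ball 0 36)) ∧ (∀ᶠ p in 𝓝 p₀, Y p = P (y p)) ∧
      ∀ p ∈ ball (0 : E) 36, ∃ U Q, IsOpen U ∧ IsPreconnected U ∧ FundM T B U Q ∧ y p ∈ U ∧
        ContM V P U Q ∧ ∀ᶠ p' in 𝓝 p, Y p' = Q (y p') := by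
  let ℓ : E → ℂ → E := fun θ u => p₀ + u • (θ - p₀)
  have sub : ball (0 : ℂ) (38 / 37) ⊆ ball 0 (39 / 37) := ball_subset_ball (by norm_num)
  have s40 : ball (0 : E) 36 ⊆ ball 0 40 := ball_subset_ball (by norm_num)
  have m0 : p₀ ∈ ball (0 : E) 36 := mem_ball_zero_iff.2 (by linarith)
  have hl : ∀ θ ∈ ball (0 : E) 36, ∀ u ∈ ball (0 : ℂ) (39 / 37), ℓ θ u ∈ ball (0 : E) 40 := by
    intro θ hθ u hu
    rw [mem_ball_zero_iff] at *
    have h1 := norm_sub_le θ p₀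
    have h2 := norm_add_le p₀ (u • (θ - p₀))
    rw [norm_smul] at h2
    nlinarith [norm_nonneg u, norm_nonneg (θ - p₀)]
  have l0 : ∀ θ, ℓ θ 0 = p₀ := fun θ => by simp [ℓ]
  have l1 : ∀ θ, ℓ θ 1 = θ := fun θ => by simp [ℓ]
  have dΦ : ∀ θ ∈ ball (0 : E) 36, DifferentiableOn ℂ (fun u => y (ℓ θ u)) (ball 0 (39 / 37)) :=
    fun θ hθ => hy.differentiableOn.comp (f := ℓ θ) (by fun_prop) (hl θ hθ)
  have hol := fun θ hθ => apb_hol (B := B) isOpen_ball (dΦ θ hθ) fun u hu => hT _ (hl θ hθ u hu)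
  choose! Y Y0 Y1 using fun θ (hθ : θ ∈ ball (0 : E) 36) => cont_sol (r := 38 / 37) (by norm_num)
    (by norm_num) (hol θ hθ) (P (y (ℓ θ 0)))
  have cΦ : ContinuousOn (fun p : E × ℂ => y (ℓ p.1 p.2)) (ball 0 36 ×ˢ ball 0 (38 / 37)) :=
    hy.continuousOn.comp (f := fun p : E × ℂ => ℓ p.1 p.2) (by fun_prop)
      fun p hp => hl _ hp.1 _ (sub hp.2)
  have o1 : (1 : ℂ) ∈ ball (0 : ℂ) (38 / 37) := by rw [mem_ball_zero_iff, norm_one]; norm_num
  have c1 : ∀ x ∈ ball (0 : E) 36, ∃ V' G, IsOpen V' ∧ FundM T B V' G ∧ y x ∈ V' ∧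
      ∀ᶠ p in 𝓝 x, Y p 1 = G (y p) := fun x hx => by
    obtain ⟨V', G, g1, g2, g3, g4⟩ := (cont (Φ := fun θ u => y (ℓ θ u)) loc ho hP isOpen_ball
      (fun θ hθ => (dΦ θ hθ).mono sub) cΦ (fun θ hθ u hu => hT _ (hl θ hθ u (sub hu)))
      (fun θ _ => by rwa [l0]) fun θ hθ => ⟨Y0 θ hθ, Y1 θ hθ⟩).1 x hx 1 o1
    have c : ContinuousAt (fun η : E => (η, (1 : ℂ))) x := by fun_prop
    exact ⟨V', G, g1, g2, by rwa [l1] at g3, (c.eventually g4).mono fun p hp => by rwa [l1] at hp⟩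
  have c0 : ∀ᶠ p in 𝓝 p₀, Y p 1 = P (y p) := by
    obtain ⟨r, r0, hr⟩ := Metric.eventually_nhds_iff_ball.1
      ((hy _ (s40 m0)).continuousAt.eventually (ho.mem_nhds hV))
    filter_upwards [ball_mem_nhds p₀ (half_pos r0), isOpen_ball.mem_nhds m0] with θ h1 hθ
    have hm : ∀ u ∈ ball (0 : ℂ) (38 / 37), ℓ θ u ∈ ball p₀ r := fun u hu => by
      rw [mem_ball_iff_norm] at h1
      rw [mem_ball_zero_iff] at hu
      rw [mem_ball_iff_norm, add_sub_cancel_left, norm_smul]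
      nlinarith [norm_nonneg u, norm_nonneg (θ - p₀)]
    have := muniq isOpen_ball (convex_ball (0 : ℂ) (38 / 37)).isPreconnected
      (fun i j => (hol θ hθ i j).mono sub) (Y1 θ hθ) (fun u hu => cont_comp hP
        ((dΦ θ hθ).differentiableAt (isOpen_ball.mem_nhds (sub hu))) (hr _ (hm u hu))
        (hT _ (hl θ hθ u (sub hu)))) (mem_ball_self (by norm_num)) (Y0 θ hθ) o1
    simpa only [l1] using this
  have an : ∀ {U Q}, FundM T B U Q → ∀ i j, AnalyticOnNhd ℂ (fun t => Q t i j) U :=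
    fun h i j t ht => ((h t ht).2 i j).1
  refine ⟨fun p => Y p 1, fun i j x hx => ?_, c0, ?_⟩
  · obtain ⟨V', G, -, g2, g3, g4⟩ := c1 x hx
    exact ((an g2 i j _ g3).comp (hy x (s40 hx))).congr
      (g4.mono fun p hp => by simp only [hp, Function.comp])
  let S : E → Prop := fun p => ∃ U Q, IsOpen U ∧ IsPreconnected U ∧ FundM T B U Q ∧ y p ∈ U ∧
    ContM V P U Q ∧ ∀ᶠ p' in 𝓝 p, Y p' 1 = Q (y p')
  have st : ∀ x ∈ ball (0 : E) 36, ∃ N ∈ 𝓝 x, ∀ w ∈ N, S w → ∀ v ∈ N, S v := fun x hx => by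
    obtain ⟨V', G, g1, g2, g3, g4⟩ := c1 x hx
    obtain ⟨ε, ε0, hε⟩ := Metric.isOpen_iff.1 g1 _ g3
    have f : FundM T B (ball (y x) ε) G := fun t ht => g2 t (hε ht)
    refine ⟨_, (g4.eventually_nhds.and ((hy _ (s40 hx)).continuousAt.eventually
      (ball_mem_nhds _ ε0))).and (isOpen_ball.mem_nhds (s40 hx)), ?_⟩
    rintro w ⟨⟨w1, w2⟩, w3⟩ ⟨U, Q, u1, -, u3, u4, u5, u6⟩ v ⟨⟨v1, v2⟩, -⟩
    refine ⟨_, G, isOpen_ball, (convex_ball _ _).isPreconnected, f, v2, .step _ _ _ _ (y w) u5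
      isOpen_ball (convex_ball _ _).isPreconnected (an f) u4 w2 ?_, v1⟩
    filter_upwards [fund_uniq u1 isOpen_ball u3 f u4 w2 (hT w w3)] with z hz
    rw [hz, ← u6.self_of_nhds, w1.self_of_nhds, nonsing_inv_mul _ (f _ w2).1.isUnit,
      Matrix.mul_one]
  intro p hp
  refine (convex_ball (0 : E) 36).isPreconnected.induction₂' (fun a b => S a → S b)
    (fun x hx => ?_) (fun _ _ _ _ _ _ a b c => b (a c)) m0 hp ?_
  · obtain ⟨N, hN, h⟩ := st x hx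
    exact mem_nhdsWithin_of_mem_nhds (mem_of_superset hN fun v hv =>
      ⟨fun q => h x (mem_of_mem_nhds hN) q v hv, fun q => h v hv q x (mem_of_mem_nhds hN)⟩)
  · obtain ⟨ε, ε0, hε⟩ := Metric.isOpen_iff.1 ho _ hV
    have f : FundM T B (ball (y p₀) ε) P := fun t ht => hP t (hε ht)
    exact ⟨_, P, isOpen_ball, (convex_ball _ _).isPreconnected, f, mem_ball_self ε0,
      .step _ _ _ _ (y p₀) .base isOpen_ball (convex_ball _ _).isPreconnected (an f) hV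
        (mem_ball_self ε0) (Eventually.of_forall fun _ => rfl), c0⟩

end

end Pool.Agent.Lib.MP_5591bc_ag.J
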