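import Pool.Agent.Lib.MP_5591bc_ag.J.Sz
import Pool.Agent.Lib.MP_5591bc_ag.J.RootA
import Pool.Agent.Lib.MP_5591bc_ag.E.Harn

/-! Roots over a ball. -/

namespace Pool.Agent.Lib.MP_5591bc_ag.J

open Polynomial Metric Finset Function Filter Topology

noncomputable section

variable {E : Type*} [NormedAddCommGroup E] [NormedSpace ℂ E] [FiniteDimensional ℂ E] {R : ℝ}

theorem rootsE {g : E → ℂ[X]} {n : ℕ}
    (hc : ∀ i, AnalyticOnNhd ℂ (fun u => (g u).coeff i) (ball 0 R))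
    (hn : ∀ u ∈ ball (0 : E) R, (g u).natDegree = n)
    (hs : ∀ u ∈ ball (0 : E) R, ∀ a, (g u).eval a = 0 → (g u).derivative.eval a ≠ 0) :
    ∃ a : Fin n → E → ℂ, (∀ j, AnalyticOnNhd ℂ (a j) (ball 0 R)) ∧ ∀ u ∈ ball (0 : E) R,
      Injective (a · u) ∧ g u = C (g u).leadingCoeff * ∏ j, (X - C (a j u)) :=
  rootA hc hn hs

theorem evZ_ana {τ : Type*} [Fintype τ] {θ : E → τ → ℂ} {u : E} (hθ : AnalyticAt ℂ θ u) (p : ZP τ) :
    AnalyticAt ℂ (fun v => evZ (θ v) p) u := by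
  simp only [evZ_eq]
  exact (AnalyticOnNhd.eval_mvPolynomial _ (θ u) trivial).comp hθ

theorem rootsZ {τ : Type*} [Fintype τ] {g : (ZP τ)[X]} (g0 : 0 < g.natDegree) {θ : E → τ → ℂ}
    (hθ : AnalyticOnNhd ℂ θ (ball 0 R))
    (h0 : ∀ u ∈ ball (0 : E) R, evZ (θ u) (g.leadingCoeff * dsc g) ≠ 0) :
    ∃ r : Fin g.natDegree → E → ℂ, (∀ j, AnalyticOnNhd ℂ (r j) (ball 0 R)) ∧
      ∀ u ∈ ball (0 : E) R, Injective (r · u) ∧
        g.map (evZ (θ u)) = C (evZ (θ u) g.leadingCoeff) * ∏ j, (X - C (r j u)) := by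
  have l0 : ∀ u ∈ ball (0 : E) R, evZ (θ u) g.leadingCoeff ≠ 0 :=
    fun u hu => left_ne_zero_of_mul ((map_mul _ _ _).symm.trans_ne (h0 u hu))
  obtain ⟨r, r1, r2⟩ := rootA (g := fun u => g.map (evZ (θ u))) (R := R) (n := g.natDegree)
    (fun i u hu => by simpa only [coeff_map] using evZ_ana (hθ u hu) _)
    (fun u hu => natDegree_map_of_leadingCoeff_ne_zero _ (l0 u hu)) fun u hu a ha => by
      rw [derivative_map, ← evP_eq]
      exact dsc_ne g0 ((evP_eq _ _ _).trans ha)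
        (right_ne_zero_of_mul ((map_mul _ _ _).symm.trans_ne (h0 u hu)))
  exact ⟨r, r1, fun u hu => ⟨(r2 u hu).1,
    leadingCoeff_map_of_leadingCoeff_ne_zero _ (l0 u hu) ▸ (r2 u hu).2⟩⟩

/-- an analytic function that takes its values among finitely many analytic functions -/
theorem roots_pick {ι : Type*} [Finite ι] {r : ι → E → ℂ} {f : E → ℂ} (R0 : 0 < R)
    (hr : ∀ j, AnalyticOnNhd ℂ (r j) (ball 0 R)) (hf : AnalyticOnNhd ℂ f (ball 0 R))
    (h : ∀ u ∈ ball (0 : E) R, ∃ j, f u = r j u) : ∃ j, ∀ u ∈ ball (0 : E) R, f u = r j u := by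
  have := FiniteDimensional.complete ℂ E
  have : BaireSpace (ball (0 : E) R) := isOpen_ball.baireSpace
  have : Nonempty (ball (0 : E) R) := ⟨⟨0, mem_ball_self R0⟩⟩
  obtain ⟨j, u, hu⟩ := nonempty_interior_of_iUnion_of_closed
    (f := fun j => {u : ball (0 : E) R | f u = r j u})
    (fun j => isClosed_eq hf.continuousOn.domRestrict (hr j).continuousOn.domRestrict)
    (Set.eq_univ_of_forall fun u => Set.mem_iUnion.2 (h u u.2))
  refine ⟨j, hf.eqOn_of_preconnected_of_eventuallyEq (hr j) (convex_ball _ _).isPreconnected u.2 ?_⟩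
  rw [EventuallyEq, ← isOpen_ball.isOpenEmbedding_subtypeVal.map_nhds_eq u, eventually_map]
  exact mem_interior_iff_mem_nhds.1 hu

theorem harnE {h : E → ℂ} {S ε : ℝ} {L : ℕ} (hh : AnalyticOnNhd ℂ h (ball 0 S))
    (hM : ∀ u ∈ ball (0 : E) S, (2 ^ L)⁻¹ ≤ ‖h u‖ ∧ ‖h u‖ ≤ 2 ^ L) (hε : 0 < ε) (hε1 : ε ≤ 1)
    (hS : R * (5 + 64 * (L + 1) / ε) ≤ S) {u v : E} (hu : u ∈ ball (0 : E) R)
    (hv : v ∈ ball (0 : E) R) : ‖h u - h v‖ ≤ ε * ‖h v‖ := by
  have R0 : 0 < R := (norm_nonneg u).trans_lt (mem_ball_zero_iff.1 hu)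
  have key : ∀ w ∈ ball (0 : E) R,
      ‖h w - h 0‖ ≤ ε / 4 * ‖h 0‖ ∧ ‖h 0 - h w‖ ≤ ε / 4 * ‖h w‖ := by
    intro w hw
    obtain ⟨e, e1, e2⟩ : ∃ e : E, ‖e‖ ≤ 1 ∧ (‖w‖ : ℂ) • e = w := by
      rcases eq_or_ne w 0 with rfl | w0
      · exact ⟨0, by simp, by simp⟩
      · have : (‖w‖ : ℂ) ≠ 0 := by simpa using w0
        exact ⟨(‖w‖ : ℂ)⁻¹ • w, by simp [norm_smul, w0], smul_inv_smul₀ this _⟩
    have m : ∀ ζ ∈ ball (0 : ℂ) S, ζ • e ∈ ball (0 : E) S := fun ζ hζ =>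
      mem_ball_zero_iff.2 ((norm_smul_le _ _).trans_lt
        ((mul_le_of_le_one_right (norm_nonneg _) e1).trans_lt (mem_ball_zero_iff.1 hζ)))
    have w1 : (‖w‖ : ℂ) ∈ ball (0 : ℂ) R := by simpa using hw
    have w0 : (0 : ℂ) ∈ ball (0 : ℂ) R := mem_ball_self R0
    have k := fun a b => MP_5591bc_ag.E.harn (h := fun ζ => h (ζ • e)) (R := R) (ε := ε / 4) (L := L) (u := a)
      (v := b) (hh.differentiableOn.comp (f := fun ζ : ℂ => ζ • e) (by fun_prop) m) (fun ζ hζ =>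
        ⟨(inv_le_iff_one_le_mul₀' (by positivity)).1 (hM _ (m ζ hζ)).1, (hM _ (m ζ hζ)).2⟩)
      (by positivity) (by linarith) (le_trans (by
        rw [show 16 * (L + 1 : ℝ) / (ε / 4) = 64 * (L + 1) / ε by field_simp; norm_num]
        gcongr
        norm_num) hS)
    exact ⟨by simpa only [e2, zero_smul] using k _ _ w1 w0,
      by simpa only [e2, zero_smul] using k _ _ w0 w1⟩
  have a1 : ‖h 0‖ ≤ 2 * ‖h v‖ := by
    nlinarith [(key v hv).2, norm_le_norm_sub_add (h 0) (h v), norm_nonneg (h v)]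
  nlinarith [(key u hu).1, (key v hv).2, norm_sub_le_norm_sub_add_norm_sub (h u) (h 0) (h v),
    norm_nonneg (h v), mul_le_mul_of_nonneg_left a1 hε.le]

end

end Pool.Agent.Lib.MP_5591bc_ag.J
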