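import Mathlib

/-! The projector on one sheet, and no drop of the closure of the graph along algebraic arcs. -/

namespace Pool.Agent.Lib.MP_5591bc_ag.J

open MvPolynomial Filter Topology

/-- `C0` is a projector, and `P * C0 * P⁻¹` is a polynomial over `K` in `t`, `1 / T` and the entries
of `P * C1`. -/
def Proj {K σ ν : Type*} [Field K] [Algebra K ℂ] [Fintype ν] (T : MvPolynomial σ K)
    (U : Set (σ → ℂ)) (P : (σ → ℂ) → Matrix ν ν ℂ) (C1 C0 : Matrix ν ν ℂ) : Prop :=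
  C0 * C0 = C0 ∧ ∃ (N : ℕ) (A : Matrix ν ν (MvPolynomial (σ ⊕ ν × ν) K)), ∀ t ∈ U,
    aeval t T ^ N • (P t * C0) = A.map (aeval (Sum.elim t fun a => (P t * C1) a.1 a.2)) * P t

/-- the determinant of `Z` and the entries of `C0 * adj Z` -/
def dj {ν : Type*} [Fintype ν] [DecidableEq ν] (C0 Z : Matrix ν ν ℂ) : Option (ν × ν) → ℂ :=
  fun o => o.elim Z.det fun a => (C0 * Z.adjugate) a.1 a.2

/-- Along every non constant algebraic arc `y` through `x`, a complex polynomial relation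
`H(u, y u, det P (y u), C0 * adj P (y u)) = 0` specialises at `u = 0` to a relation on the fibre:
`H(0, x, det Z, C0 * adj Z) = H'(x, P x * C1, Z)` for all `Z`, with `H'(t, P t * C1, P t) = 0`
near `x`. -/
def FullP {σ ν : Type*} [Fintype σ] [Fintype ν] [DecidableEq ν] (P : (σ → ℂ) → Matrix ν ν ℂ)
    (C1 C0 : Matrix ν ν ℂ) (x : σ → ℂ) : Prop :=
  ∀ y : ℂ → σ → ℂ, AnalyticAt ℂ y 0 → y 0 = x → (¬ ∀ᶠ u in 𝓝 (0 : ℂ), y u = x) →
    (∀ l, ∃ q : MvPolynomial (Fin 2) ℂ, q ≠ 0 ∧ ∀ᶠ u in 𝓝 (0 : ℂ), eval ![u, y u l] q = 0) →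
    ∀ H : MvPolynomial (Option σ ⊕ Option (ν × ν)) ℂ,
      (∀ᶠ u in 𝓝 (0 : ℂ), eval (Sum.elim (fun o => o.elim u (y u)) (dj C0 (P (y u)))) H = 0) →
      ∃ H' : MvPolynomial (σ ⊕ (ν × ν) ⊕ (ν × ν)) ℂ,
        (∀ᶠ t in 𝓝 x, eval (Sum.elim t (Sum.elim (fun a => (P t * C1) a.1 a.2)
          fun a => P t a.1 a.2)) H' = 0) ∧
        ∀ Z : Matrix ν ν ℂ, eval (Sum.elim x (Sum.elim (fun a => (P x * C1) a.1 a.2)
          fun a => Z a.1 a.2)) H' = eval (Sum.elim (fun o => o.elim 0 x) (dj C0 Z)) H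

end Pool.Agent.Lib.MP_5591bc_ag.J
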