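import Pool.Agent.Lib.MP_5591bc_ag.J.CoreA

/-! The counting theorem with an auxiliary module. -/

namespace Pool.Agent.Lib.MP_5591bc_ag.J

open MvPowerSeries G W M Finset
open scoped Classical

section

variable {σ : Type} [Fintype σ]

theorem corej_fix {A K L : Type} [Fintype A] [Field K] [NumberField K] [Field L] [NumberField L]
    [Algebra K L] (ι : L →+* ℂ) {Λ : ℕ} {s : σ → K} {T : MvPolynomial σ L}
    {W : A → A → MvPowerSeries σ K} {P : Finset (σ → L)}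
    {Φ : (σ → L) → A → MvPowerSeries σ L} {μ : (σ → L) → A → ℂ}
    (hW : GKm (2 ^ Λ) fun q : A × A => W q.1 q.2) (hP : ∀ x ∈ P, DatJ Λ s T x (Φ x))
    (hU : UpV ι Λ (fun l => algebraMap K L (s l)) P Φ
      fun x α => ∑ β, C (μ x β) * map (ι.comp (algebraMap K L)) (W β α))
    {a b k n τ g ρ w : ℕ} (hb : b = Fintype.card σ) (k0 : 0 < k) (ak : a ≤ k)
    (hτ : τ = (Λ + 1) * (b + 1) * (28 * (Λ + 1) ^ 2 + 5)) (hg : g = 2 * (a + 1) * k ^ 2 * τ)
    {I : Finset (Fin a → A)} (I0 : I.Nonempty) (n0 : 0 < n)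
    (hgr : ∃ e, ∀ (m D μ : ℕ) (c : (Fin m → I × (σ → Fin D)) → L),
      Fintype.card σ * (n * (Fintype.card σ * D + n * e)) <
        2 * (b + 1) ^ 2 * (2 * (Λ + 1) * k) * n * (μ - n) →
      (∀ (x : Fin m → σ → L) (κ : Fin m → σ →₀ ℕ), (∀ b, x b ∈ P) → (∀ b, (κ b).degree < μ) →
        ∑ ν, c ν * ∏ b, coeff (κ b) (τm (x b) (mns (fun l => algebraMap K L (s l))
          fun l => (ν b).2 l) * ∏ l, Φ (x b) ((ν b).1.1 l)) = 0) → c = 0)
    {E : Finset (Finset (Fin k → Fin a → A))} (hE : #E ≤ ρ ^ k * w)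
    (hρ : 6 * (2 * (Λ + 1)) * (6 * τ) ^ b * ρ ≤ #I) (hw : (g + 1) * w ≤ 2 ^ k)
    (env : ∀ y : (Fin k → Fin a → A) → ℂ, (∀ t ∈ E, ∑ β ∈ t, y β = 0) → ∀ ξ : Fin k → σ → L,
      (∀ i, ξ i ∈ P) → ∑ β, (∏ i, ∏ l, μ (ξ i) (β i l)) * y β = 0) : False := by
  obtain ⟨m, hm⟩ : ∃ m, m = 2 * (Λ + 1) * k := ⟨_, rfl⟩
  have km : k ≤ m := by nlinarith
  have τ0 : 0 < τ := by rw [hτ]; positivity
  have g0 : 0 < g := by rw [hg]; positivity
  have h0 : 0 < 2 ^ Λ := by positivity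
  have h1 : (1 : ℝ) ≤ 2 ^ Λ := one_le_pow₀ one_le_two
  obtain ⟨C, C1, hC⟩ := corem_sie h0 hW a k
  choose! F F1 F2 F3 F4 using fun x hx => (hP x hx).fld
  choose! Cp hCp using fun x hx => (hP x hx).den.elim fun d hd =>
    corem_pt h0 (hP x hx).gk hd.1 hd.2.1 hd.2.2 (by simpa using (hP x hx).hou) a
  obtain ⟨S, S0, hS⟩ := hU a
  obtain ⟨e, hgr⟩ := hgr
  obtain ⟨u, hu⟩ : ∃ u, u = ⌈C⌉₊ + ∑ x ∈ P, Cp x + ⌈S⌉₊ + #I + (n * e + 2 * n + 1) := ⟨_, rfl⟩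
  obtain ⟨D, hD⟩ : ∃ D, D = m * u := ⟨_, rfl⟩
  have uD : u ≤ D := by nlinarith
  have D0 : 0 < D := by omega
  obtain ⟨D', hD'⟩ : ∃ D', D' = (b + 1) * D := ⟨_, rfl⟩
  have DD : b * D + D = D' := by rw [hD']; ring
  obtain ⟨Z, hZ⟩ : ∃ Z : ℝ, (2 * 2 ^ Λ) ^ D' = Z := ⟨_, rfl⟩
  have Z2 : (2 : ℝ) ^ D' ≤ Z := (pow_le_pow_left₀ zero_le_two (by linarith) D').trans_eq hZ
  have DZ : (D : ℝ) < Z := lt_of_lt_of_le (b := 2 ^ D) (by exact_mod_cast Nat.lt_two_pow_self)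
    ((pow_le_pow_right₀ one_le_two (by omega)).trans Z2)
  have Z1 : 1 < Z := lt_of_le_of_lt (by exact_mod_cast D0) DZ
  have uZ : ∀ z : ℕ, z ≤ u → (z : ℝ) ≤ Z := fun z hz =>
    le_trans (by exact_mod_cast hz.trans uD) DZ.le
  have J1 : Fintype.card (I × (σ → Fin D)) = #I * D ^ b := by simp [hb]
  have J0 : 0 < Fintype.card (I × (σ → Fin D)) := J1 ▸ Nat.mul_pos (card_pos.2 I0) (pow_pos D0 b)
  have JZ : (Fintype.card (I × (σ → Fin D)) : ℝ) ≤ Z ^ 2 := by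
    rw [J1, Nat.cast_mul, sq]
    refine mul_le_mul (uZ _ (by omega)) (le_trans ?_ Z2) (by positivity) (by linarith)
    exact_mod_cast (Nat.pow_le_pow_left D.lt_two_pow_self.le b).trans (by
      rw [← pow_mul, mul_comm]; exact Nat.pow_le_pow_right two_pos (by omega))
  obtain ⟨c, c0, c1, c2, c3⟩ := hC m g (τ * D) (I × (σ → Fin D)) (fun j => j.1.1)
    (fun j l => j.2 l) E g0 J0 km (by
      rw [J1, hm, ← hb]
      exact numm_sub (Nat.mul_pos τ0 D0) hρ hw (Nat.mul_le_mul_right _ hE))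
  have c4 : ∀ γ (φ : K →+* ℂ), ‖φ (c γ)‖ ≤ Z ^ (5 * m) := fun γ φ => by
    refine le_of_pow_le_pow_left₀ g0.ne' (by positivity) ((c3 γ φ).trans ?_)
    calc _ ≤ Z ^ (g + 1) * ((Z ^ 2) ^ m * Z ^ g) := by
          gcongr
          · exact (Nat.le_ceil C).trans (uZ _ (by omega))
          · rw [← hZ, ← pow_mul]
            push_cast
            refine pow_le_pow_right₀ (by linarith) ?_
            calc _ = D * g := by rw [hg]; ring
              _ ≤ _ := Nat.mul_le_mul_right _ (by omega)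
      _ ≤ _ := by
        rw [← pow_mul, ← pow_mul, ← pow_add, ← pow_add]
        exact pow_le_pow_right₀ Z1.le (by nlinarith [k0.trans_le km])
  refine c0 (funext fun γ => (algebraMap K L).injective ((congrFun (hgr m D u
    (fun γ => algebraMap K L (c γ)) ?_ fun x i hx hi => ?_) γ).trans (map_zero _).symm))
  · obtain ⟨v, hv⟩ : ∃ v, u = v + (n * e + 2 * n + 1) := ⟨_, hu⟩
    obtain ⟨y, hy⟩ : ∃ y, y = u - n := ⟨_, rfl⟩
    have m0 := k0.trans_le km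
    rw [← hm, ← hb, hD, ← hy]
    calc _ ≤ b * (n * (b * (m * (2 * y)) + m * y)) := by
          gcongr b * (n * (b * (m * ?_) + ?_))
          · omega
          · exact le_trans (by omega : n * e ≤ y) (Nat.le_mul_of_pos_left y m0)
      _ = (2 * b ^ 2 + b) * (m * n * y) := by ring
      _ < 2 * (b + 1) ^ 2 * (m * n * y) :=
          Nat.mul_lt_mul_of_pos_right (by nlinarith) (Nat.mul_pos (Nat.mul_pos m0 n0) (by omega))
      _ = _ := by ring
  choose N N0 N1 N2 using fun j => hCp (x j) (hx j) u D D' (le_trans (by nlinarith) (DD ▸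
    Nat.le_add_left D (b * D))) uD (by rw [hD', hb])
  have CZ : ∀ j, (Cp (x j) : ℝ) ≤ Z := fun j => uZ _ ((single_le_sum (f := Cp)
    (fun _ _ => Nat.zero_le _) (hx j)).trans (by omega))
  refine sub_low ι (b := Λ + 1) (fun j => F (x j)) (fun j => (F1 _ (hx j)).trans (Nat.le_succ _)) k0
    km (by omega) J0 _ (fun b j => thxM (fun l => algebraMap K L (s l))
      (fun j : I × (σ → Fin D) => j.1.1) (fun j l => j.2 l) (x b) (Φ (x b)) (i b) j)
    (fun b γ => F2 _ (hx b) _)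
    (fun b j => mul_mem (inFM_mns (fun l => sub_mem (F3 _ (hx b) l) (F2 _ (hx b) _)) _)
      (prod_mem fun l _ => F4 _ (hx b) _) _) (N := ∏ b, N b) (prod_pos fun b _ => N0 b) ?_
    (C := Z ^ (5 * m)) (M := Z ^ 4) (ε := Z ^ (8 * k) / Z ^ (k * (56 * (Λ + 1) ^ 2 + 10)))
    (one_le_pow₀ Z1.le) (by positivity) ((div_le_one (by positivity)).2
      (pow_le_pow_right₀ Z1.le (by nlinarith [Nat.zero_le (k * (Λ + 1) ^ 2)])))
    (fun γ φ => c4 γ (φ.comp (algebraMap K L))) (fun b j φ => ?_) (fun Q hQ β => ?_) ?_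
  · rw [mul_sum]
    refine IsIntegral.sum _ fun γ _ => ?_
    rw [mul_left_comm, Nat.cast_prod, ← prod_mul_distrib]
    exact (map_isIntegral_int _ (c1 γ)).mul (IsIntegral.prod _ fun b _ =>
      (N2 b _ _ (fun l => ((γ b).2 l).2.le) _ (hi b).le).2)
  · refine ((N2 b _ _ (fun l => (j.2 l).2.le) _ (hi b).le).1 φ).trans ?_
    push_cast
    rw [mul_comm 3, pow_mul, hZ, pow_succ' Z 3]
    gcongr
    exact CZ b
  · refine (hS _ _ _ D (k * (τ * D)) k _ _ _ (fun j l => (j.2 l).2.le) (fun l => hx _)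
      (fun γ => c4 _ (ι.comp (algebraMap K L))) (fun κ hκ => ?_) _).trans
      (mul_le_mul_of_nonneg_left (corem_eps k0 hZ h1 (by positivity) JZ S0
        ((Nat.le_ceil _).trans (uZ _ (by omega))) (by rw [← hb]; omega) ?_ ?_) (by positivity))
    · refine (sum_congr rfl fun γ _ => congrArg _ (ths_sum (ι.comp (algebraMap K L)) W
        (fun j : I × (σ → Fin D) => j.1.1) (fun j l => j.2 l)
        (fun l => μ (x (Q.orderEmbOfFin hQ l))) κ γ)).trans ?_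
      simp only [mul_sum]
      rw [sum_comm]
      simp only [mul_left_comm ((ι.comp (algebraMap K L)) (c _)), ← mul_sum]
      refine env _ (fun t ht => ?_) _ fun l => hx _
      simpa using congrArg (ι.comp (algebraMap K L)) (c2 Q hQ β t ht κ hκ)
    · exact (sum_le_card_nsmul _ _ u fun l _ => (hi _).le).trans
        (le_trans (by simp; nlinarith) (DD ▸ Nat.le_add_left D (b * D)))
    · rw [← hZ, ← pow_succ', show (4 : ℝ) = 2 ^ 2 by norm_num, ← pow_mul, ← pow_mul, ← pow_mul, hτ,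
        hD']
      congr 1
      ring
  · have b1 : ((∏ b, N b : ℕ) : ℝ) ≤ (Z ^ 3) ^ m := by
      rw [Nat.cast_prod]
      refine (prod_le_prod (fun _ _ => by positivity) fun b _ => ?_).trans (by
        rw [prod_const, card_univ, Fintype.card_fin])
      refine le_trans (Nat.cast_le.2 (N1 b)) ?_
      push_cast
      rw [mul_comm 2 D', pow_mul, hZ, pow_succ' Z 2]
      gcongr
      exact CZ b
    calc _ ≤ ((Z ^ 3) ^ m * ((Z ^ 2 * Z ^ 4) ^ m * Z ^ (5 * m))) ^ (2 * (Λ + 1)) *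
          (Z ^ (8 * k) / Z ^ (k * (56 * (Λ + 1) ^ 2 + 10))) := by gcongr
      _ = Z ^ (k * (56 * (Λ + 1) ^ 2 + 8)) / Z ^ (k * (56 * (Λ + 1) ^ 2 + 10)) := by rw [hm]; ring
      _ < 1 := (div_lt_one (by positivity)).2 (pow_lt_pow_right₀ Z1 (by nlinarith))

end

/-- the counting theorem from the arithmetic data and the analytic estimate -/
theorem coreJV (σ : Type) [Fintype σ] : ∃ c : ℕ, ∀ (A : Type) [Fintype A]
    (K L R : Type) [Field K] [NumberField K] [Field L] [NumberField L] [Algebra K L] [CommRing R]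
      [IsDomain R] [Algebra ℂ R] (ι : L →+* ℂ) (Λ : ℕ) (s : σ → K) (T : MvPolynomial σ L)
      (W : A → A → MvPowerSeries σ K) (P : Finset (σ → L))
      (Φ : (σ → L) → A → MvPowerSeries σ L) (ev : R →ₐ[ℂ] ℂ) (p : (σ → L) → A → R) (v : A → ℂ)
      (J : Type) [Fintype J] (j0 : J) (Z : (σ → L) → J → MvPowerSeries σ L) (zv : J → ℂ),
      Fintype.card J ≤ Λ → (∀ x ∈ P, Z x j0 = 1) → zv j0 = 1 →
      (∀ a, ∃ B, ∀ x ∈ P, IsM (τm x) T B fun i : J × (Fin a → A) => Z x i.1 * ∏ l, Φ x (i.2 l)) →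
      MvPolynomial.eval (fun l => algebraMap K L (s l)) T ≠ 0 →
      GKm (2 ^ Λ) (fun q : A × A => W q.1 q.2) → (∀ x ∈ P, DatJ Λ s T x (Φ x)) →
      (UpV ι Λ (fun l => algebraMap K L (s l)) P Φ
        fun x α => ∑ β, C (ev (p x β)) * map (ι.comp (algebraMap K L)) (W β α)) →
      (∀ x ∈ P, ∑ j, v j • p x j ≠ 0) → (∀ x ∈ P, ∑ j, v j * ev (p x j) = 0) →
      (∀ a, ∀ x ∈ P, ∀ φ : J × (Fin a → A) → MvPolynomial σ L,
        ∑ i, τm x (φ i) * (Z x i.1 * ∏ l, Φ x (i.2 l)) = 0 →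
        ∑ i, (ι (MvPolynomial.eval (fun l => algebraMap K L (s l)) (φ i)) * zv i.1) •
          ∏ l, p x (i.2 l) = 0) →
      Hyp (P : Set (σ → L)) ((Λ + Fintype.card A + 2) ^ (c * (Fintype.card A + 1))) := by
  classical
  obtain ⟨b, hb⟩ : ∃ b, b = Fintype.card σ := ⟨_, rfl⟩
  let τ : ℕ → ℕ := fun Λ => (Λ + 1) * (b + 1) * (28 * (Λ + 1) ^ 2 + 5)
  let b0 : ℕ → ℕ → ℕ := fun Λ N => 4 * ((6 * (2 * (Λ + 1)) * (6 * τ Λ) ^ b + 1) * (N + 1)) ^ 2
  let z : ℕ → ℕ → ℕ := fun Λ N =>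
    3 * (b0 Λ N + 1) * τ Λ + b0 Λ N + 3 * (N * (b0 Λ N + 1) ^ N + 1) + 4
  have p2 : QB 0 fun Λ _ => τ Λ :=
    (QB.fst.mul (.const _)).mul (((QB.const 28).mul QB.fst.sq).add (.const 5))
  have p3 : QB 0 b0 := (QB.const 4).mul ((((((QB.const 6).mul ((QB.const 2).mul QB.fst)).mul
    (qb_pow ((QB.const 6).mul p2) b)).add (.const 1)).mul QB.snd).sq)
  have p4 : QB 1 fun Λ N => b0 Λ N + 1 := p3.up.add (.const 1)
  have p5 : QB 1 z := (((((QB.const 3).mul p4).mul p2.up).add p3.up).add ((QB.const 3).mul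
    (((QB.snd.mono fun _ N => N.le_succ).mul p3.pw).add (.const 1)))).add (.const 4)
  obtain ⟨c, hf⟩ := ((p3.pw.mul p4).add (.const 1)).mul (((QB.const (2 * (b + 1) ^ 2)).mul
    (((QB.const 2).mul QB.fst).mul p5.sq)).mul (QB.fst.mul p3.pw))
  refine ⟨c, fun A _ => ?_⟩
  obtain ⟨N, hN⟩ : ∃ N, N = Fintype.card A := ⟨_, rfl⟩
  let a0 : ℕ → ℕ := fun Λ => b0 Λ N
  let y : ℕ → ℕ := fun Λ => z Λ N
  intro K L R _ _ _ _ _ _ _ _ ι Λ s T W P Φ ev p v J _ j0 Z zv hJ hZ hz hB hT hW hP hU h0 h1 he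
  choose B hB using hB
  rw [← hN]
  refine am_mono ?_ Set.Subset.rfl (by simpa using hf Λ N)
  by_contra hc
  have y0 : 0 < y Λ := by simp only [y, z]; omega
  have τ0 : 0 < τ Λ := by simp only [τ]; positivity
  have a1 : 0 < a0 Λ := by simp only [a0, b0]; positivity
  obtain ⟨S, hS, a, ha, I, E, -, I0, -, e1, e2, e3, e4⟩ := ampJ (6 * (2 * (Λ + 1)) * (6 * τ Λ) ^ b)
    (2 * (b + 1) ^ 2 * (2 * (Λ + 1) * y Λ ^ 2) * ((Λ + 1) * (a0 Λ + 1) ^ N)) (a0 := a0 Λ)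
    (by rw [← hN]) ev p v P (fun x a => {φ | x ∈ P ∧ ∑ α, τm x (φ α) * ∏ l, Φ x (α l) = 0})
    (by rw [← hN]; exact hc) h0 h1 fun a => leadJ ι hT hZ (hB a) hz (he a)
  obtain ⟨U, u1, u2⟩ := env_poly (σ := Fin (y Λ ^ 2)) (fun x β => ev (p x β)) S E e3
  have e5 : (a + 1) ^ Fintype.card A ≤ (a0 Λ + 1) ^ N := by rw [← hN]; gcongr
  have e6 : a0 Λ ≤ y Λ ^ 2 :=
    le_trans (by simp only [y, z, a0]; omega) (Nat.le_self_pow two_ne_zero _)
  refine corej_fix ι hW (fun x hx => hP x (hS hx)) (hU.sub hS id fun _ _ _ => rfl) hb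
    (pow_pos y0 2) (ha.trans e6) rfl rfl I0 (by positivity)
    (gridJ (fun x hx => (hP x (hS hx)).ne) (fun x hx => hZ x (hS hx)) (fun x hx => hB a x (hS hx))
      I0 (fun φ a b h => e4 φ a b (am_mono h (fun x hx => ⟨hx.1, fun e => hx.2 ⟨hS hx.1, e⟩⟩)
        le_rfl)) (Nat.mul_le_mul (hJ.trans Λ.le_succ) e5) _) (by simpa using u1) e1 ?_ u2
  refine le_trans ?_ (num_m (3 * (a0 Λ + 1) * τ Λ) (a0 Λ) (N * (a0 Λ + 1) ^ N + 1) le_rfl)
  obtain ⟨k, hk⟩ : ∃ k, y Λ ^ 2 = k := ⟨_, rfl⟩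
  have k0 : 0 < k := hk ▸ pow_pos y0 2
  rw [hk, pow_succ' (a0 Λ * k + 1), ← mul_assoc (_ * k), ← hN]
  refine Nat.mul_le_mul ?_ ((Nat.pow_le_pow_left (m := a0 Λ * k + 1) (by gcongr) _).trans
    (Nat.pow_le_pow_right (Nat.succ_pos _) (Nat.mul_le_mul_left _ (e2.trans e5))))
  calc _ ≤ 2 * (a0 Λ + 1) * k ^ 2 * τ Λ + (a0 Λ + 1) * k ^ 2 * τ Λ :=
        add_le_add (Nat.mul_le_mul_right _ (by gcongr)) (Nat.succ_le_of_lt (by positivity))
    _ = 3 * (a0 Λ + 1) * τ Λ * k * k := by ring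
    _ ≤ _ := Nat.mul_le_mul_left _ ((Nat.le_mul_of_pos_left k a1).trans (Nat.le_succ _))

/-- the same for solutions that factor through a quotient of the index set -/
theorem coreJ (σ : Type) [Fintype σ] : ∃ c : ℕ,
    ∀ (A A' : Type) [Fintype A] [Fintype A'] (q : A → A') (ρ : A' → A)
      (K L R : Type) [Field K] [NumberField K] [Field L] [NumberField L] [Algebra K L] [CommRing R]
      [IsDomain R] [Algebra ℂ R] (ι : L →+* ℂ) (Λ : ℕ) (s : σ → K) (T : MvPolynomial σ L)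
      (W : A → A → MvPowerSeries σ K) (P : Finset (σ → L))
      (Φ : (σ → L) → A → MvPowerSeries σ L) (ev : R →ₐ[ℂ] ℂ) (p : (σ → L) → A → R) (v : A → ℂ)
      (J : Type) [Fintype J] (j0 : J) (Z : (σ → L) → J → MvPowerSeries σ L) (zv : J → ℂ),
      Fintype.card J ≤ Λ → (∀ x ∈ P, Z x j0 = 1) → zv j0 = 1 →
      (∀ a, ∃ B, ∀ x ∈ P, IsM (τm x) T B fun i : J × (Fin a → A) => Z x i.1 * ∏ l, Φ x (i.2 l)) →
      MvPolynomial.eval (fun l => algebraMap K L (s l)) T ≠ 0 →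
      GKm (2 ^ Λ) (fun q : A × A => W q.1 q.2) → (∀ x ∈ P, DatJ Λ s T x (Φ x)) →
      (UpV ι Λ (fun l => algebraMap K L (s l)) P Φ
        fun x α => ∑ β, C (ev (p x β)) * map (ι.comp (algebraMap K L)) (W β α)) →
      (∀ x ∈ P, ∑ j, v j • p x j ≠ 0) → (∀ x ∈ P, ∑ j, v j * ev (p x j) = 0) →
      (∀ a, ∀ x ∈ P, ∀ φ : J × (Fin a → A) → MvPolynomial σ L,
        ∑ i, τm x (φ i) * (Z x i.1 * ∏ l, Φ x (i.2 l)) = 0 →
        ∑ i, (ι (MvPolynomial.eval (fun l => algebraMap K L (s l)) (φ i)) * zv i.1) •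
          ∏ l, p x (i.2 l) = 0) →
      (∀ x ∈ P, ∀ i, Φ x (ρ (q i)) = Φ x i ∧ p x (ρ (q i)) = p x i) →
      Hyp (P : Set (σ → L)) ((Λ + Fintype.card A' + 2) ^ (c * (Fintype.card A' + 1))) := by
  classical
  obtain ⟨c, hc⟩ := coreJV σ
  refine ⟨c, ?_⟩
  intro A A' _ _ q ρ K L R _ _ _ _ _ _ _ _ ι Λ s T W P Φ ev p v J _ j0 Z zv hJ hZ hz hB hT hW hP hU
    h0 h1 he hq
  have e : ∀ x ∈ P, ∑ j, (∑ i ∈ {i | q i = j}, v i) • p x (ρ j) = ∑ j, v j • p x j := fun x hx => by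
    rw [← sum_fiberwise univ q]
    refine sum_congr rfl fun j _ => ?_
    rw [sum_smul]
    exact sum_congr rfl fun i hi => by rw [← (mem_filter.1 hi).2, (hq x hx i).2]
  refine hc A' K L R ι Λ s T
    (fun β α => ∑ i ∈ {i | q i = β}, W i (ρ α)) P (fun x b => Φ x (ρ b)) ev (fun x b => p x (ρ b))
    (fun j => ∑ i ∈ {i | q i = j}, v i) J j0 Z zv hJ hZ hz (fun a => ?_) hT ?_ (fun x hx => ?_)
    (hU.sub Subset.rfl ρ fun x hx α => ?_)
    (fun x hx => e x hx ▸ h0 x hx) (fun x hx => ?_) fun a x hx φ h => ?_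
  · obtain ⟨B, hB⟩ := hB a
    exact ⟨_, fun x hx => zm_quot (fun i : J × (Fin a → A) => (i.1, fun l => q (i.2 l)))
      (fun i : J × (Fin a → A') => (i.1, fun l => ρ (i.2 l)))
      (fun i => by simp only [(hq x hx _).1]) (hB x hx)⟩
  · simpa using hW.lin (I := fun _ : A' × A' => A) (fun y => {i | q i = y.1}) (fun _ _ => 1)
      fun y i => (i, ρ y.2)
  · obtain ⟨a1, ⟨F, b1, b2, b3, b4⟩, a4, a5, a6⟩ := hP x hx
    exact ⟨a1, ⟨F, b1, b2, b3, fun α => b4 _⟩, a4.comp ρ, a5, a6⟩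
  · rw [← sum_fiberwise univ q]
    refine sum_congr rfl fun j _ => ?_
    rw [map_sum, mul_sum]
    exact sum_congr rfl fun i hi => by rw [← (mem_filter.1 hi).2, (hq x hx i).2]
  · have := congrArg ev (e x hx)
    simp only [map_sum ev, map_smul, smul_eq_mul] at this
    exact this.trans (h1 x hx)
  · let f : J × (Fin a → A') → J × (Fin a → A) := fun i => (i.1, fun l => ρ (i.2 l))
    have := he a x hx (fun α => ∑ β ∈ {β | f β = α}, φ β) (by
      rw [← h, ← sum_fiberwise univ f]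
      refine sum_congr rfl fun α _ => ?_
      rw [map_sum, sum_mul]
      exact sum_congr rfl fun β hβ => by rw [← (mem_filter.1 hβ).2])
    rw [← this, ← sum_fiberwise univ f]
    refine sum_congr rfl fun α _ => ?_
    rw [map_sum, map_sum, sum_mul, sum_smul]
    exact sum_congr rfl fun β hβ => by rw [← (mem_filter.1 hβ).2]

end Pool.Agent.Lib.MP_5591bc_ag.J
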