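import Pool.Agent.Lib.MP_5591bc_ag.J.GapC

/-! A formal relation at a point of the cell holds near the centre. -/

namespace Pool.Agent.Lib.MP_5591bc_ag.J

open Matrix Filter Topology MvPowerSeries G R W M N E Metric

noncomputable section

variable {τ σ : Type} [Fintype τ] [DecidableEq τ] [Fintype σ] [DecidableEq σ] {Λ : ℕ}
  {G : σ → Polynomial (ZP τ)} {g : Polynomial (ZP τ)} {Ψ : (τ → ℂ) → τ → ℂ}
  {y : (τ → ℂ) × (τ → ℂ) → σ → ℂ} {a a₀ : τ → ℂ} {F : Type} [Field F] [Algebra F ℂ]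
  {u : τ → F} {x : σ → F} {w : σ → MvPowerSeries τ F}

variable {ν : Type} [Fintype ν] [DecidableEq ν] {T : MvPolynomial σ F} {T' : MvPolynomial σ ℂ}
  {B : σ → Matrix ν ν (MvPolynomial σ F)} {U : Set (σ → ℂ)} {Q : (σ → ℂ) → Matrix ν ν ℂ} {δ : ℕ}

/-- the Taylor series of the function on the section through `a` vanishes (`gap_tay`, `gap_self`),
then `Cel.tr0` with `gap_ana`, then the section through `a₀` -/
theorem gap_he (h : Cel Λ G g T' Ψ y) (hG : ∀ l, 0 < (G l).natDegree) (b : Br G Ψ y a u x w)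
    (ho : IsOpen U) (hQ : FundM T B U Q) (hx : pc x ∈ U) (hT : MvPolynomial.eval x T ≠ 0)
    (f : Mo δ ν → F) {Y : (τ → ℂ) × (τ → ℂ) → Matrix ν ν ℂ} {P : (σ → ℂ) → Matrix ν ν ℂ}
    (hY : ∀ i j, AnalyticOnNhd ℂ (Y · i j) (ball 0 36))
    (e : ∀ᶠ p in 𝓝 (a, (0 : τ → ℂ)), Y p = Q (y p)) (h0 : ‖a₀‖ ≤ 1)
    (e0 : ∀ᶠ p in 𝓝 (a₀, (0 : τ → ℂ)), Y p = P (y p)) {ι : Type} [Fintype ι] {n : ℕ}
    (φ : ι → MvPolynomial τ F) (ex : ι → σ → ℕ) (α : ι → Fin n → Mo δ ν)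
    (hr : ∑ i, τm u (φ i) * ((∏ l, (w l + C (x l)) ^ ex i l) *
      ∏ k, subst w (LserM T B δ x f (α i k))) = 0) :
    ∀ᶠ t in 𝓝 (Ψ a₀), ∑ i, MvPolynomial.eval t (TM ℂ (φ i)) * (∏ l, y (sc Λ Ψ a₀ t) l ^ ex i l) *
      ∏ k, ((fun μ => algebraMap F ℂ (f μ)) ᵥ*
        Adj δ (P (y (sc Λ Ψ a₀ t)) * (Q (pc x))⁻¹)) (α i k) = 0 := by
  have ev (i : ι) : (fun t : τ → ℂ => MvPolynomial.eval t (TM ℂ (φ i))) =
      fun t => MvPolynomial.aeval t (φ i) :=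
    funext fun t => by simp only [TM, MvPolynomial.eval_map, MvPolynomial.aeval_def]
  have an (i : ι) (t : τ → ℂ) : AnalyticAt ℂ (fun t => MvPolynomial.eval t (TM ℂ (φ i))) t := by
    rw [ev]; exact aeval_ana _
  have ts (c : τ → ℂ) : Tendsto (sc Λ Ψ c) (𝓝 (Ψ c)) (𝓝 (c, 0)) := by
    have := (sc_ana (Λ := Λ) (Ψ := Ψ) (a := c) (Ψ c)).continuousAt.tendsto
    rwa [sc_self] at this
  have a1 (l : σ) : AnalyticAt ℂ (fun t => y (sc Λ Ψ a t) l) (Ψ a) :=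
    analyticAt_pi_iff.1 (gap_tay h hG b l).1 l
  have a2 := gap_self h hG b ho hQ hx hT f (δ := δ)
  have p1 (i : ι) := Finset.analyticAt_fun_prod Finset.univ fun l _ => (a1 l).fun_pow (ex i l)
  have p2 (i : ι) := Finset.analyticAt_fun_prod Finset.univ fun k _ => (a2 (α i k)).1
  have z : ∀ᶠ t in 𝓝 (Ψ a), ∑ i, MvPolynomial.eval t (TM ℂ (φ i)) *
      (∏ l, y (sc Λ Ψ a t) l ^ ex i l) * ∏ k, lamM Q δ x f (y (sc Λ Ψ a t)) (α i k) = 0 := by
    have a3 (i : ι) := ((an i (Ψ a)).fun_mul (p1 i)).fun_mul (p2 i)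
    rw [← tayM_eq_zero_iff (Finset.analyticAt_fun_sum _ fun i _ => a3 i),
      tayM_sum _ fun i _ => a3 i, ← map_zero (mpM F), ← hr, map_sum]
    refine Finset.sum_congr rfl fun i _ => ?_
    rw [tayM_mul ((an i _).fun_mul (p1 i)) (p2 i), tayM_mul (an i _) (p1 i),
      tayM_prod _ fun l _ => (a1 l).fun_pow _, tayM_prod _ fun k _ => (a2 _).1, ev, map_mul,
      map_mul, map_prod, map_prod, mul_assoc, ← tayM_aeval_pc, b.hu]
    simp only [tayM_pow (a1 _), (gap_tay h hG b _).2, (a2 _).2, map_pow]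
  have sub : ball (0 : (τ → ℂ) × (τ → ℂ)) 36 ⊆ ball 0 40 := ball_subset_ball (by norm_num)
  have k := h.tr0 hG b.na (f := fun p => ∑ i, MvPolynomial.eval (th Λ Ψ p) (TM ℂ (φ i)) *
      (∏ l, y p l ^ ex i l) * ∏ k, ((fun μ => algebraMap F ℂ (f μ)) ᵥ*
        Adj δ (Y p * (Q (pc x))⁻¹)) (α i k))
    (f1 := fun t z => ∑ i, MvPolynomial.eval t (TM ℂ (φ i)) * (∏ l, z l ^ ex i l) *
      ∏ k, lamM Q δ x f z (α i k))
    (fun p hp => Finset.analyticAt_fun_sum _ fun i _ =>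
      (((an i _).comp (h.loc_th (sub hp))).fun_mul (Finset.analyticAt_fun_prod _ fun l _ =>
        (analyticAt_pi_iff.1 (h.ay p (sub hp)) l).fun_pow _)).fun_mul
        (Finset.analyticAt_fun_prod _ fun k _ => gap_ana hY _ _ _ p hp))
    (e.mono fun p hp => by simp only [hp, lamM])
    (by
      filter_upwards [z, (ts a).eventually e] with t h1 h2
      simpa only [th_sc, h2, lamM] using h1)
  filter_upwards [(ts a₀).eventually e0,
    (ts a₀).eventually (isOpen_ball.eventually_mem (loc_mem h0 (by norm_num : (1 : ℝ) < 36)))]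
    with t h1 h2
  simpa only [th_sc, h1] using k _ h2

end

end Pool.Agent.Lib.MP_5591bc_ag.J
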