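import Pool.Agent.Lib.MP_5591bc_ag.J.Elim

/-! One variable less. -/

namespace Pool.Agent.Lib.MP_5591bc_ag.J

open Polynomial Finset

noncomputable section

theorem desc_prod {A ι : Type*} [CommRing A] (u : ι → A[X]) (hu : ∀ i, (u i).natDegree ≤ 1)
    (k : ι → ℕ) (s : Finset ι) : (∏ i ∈ s, u i ^ k i).natDegree ≤ ∑ i ∈ s, k i ∧
      (∏ i ∈ s, u i ^ k i).coeff (∑ i ∈ s, k i) = ∏ i ∈ s, (u i).coeff 1 ^ k i := by
  classical
  induction s using Finset.induction_on with
  | empty => simp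
  | insert i s hi ih =>
    have h1 : (u i ^ k i).natDegree ≤ k i :=
      natDegree_pow_le.trans (by simpa using Nat.mul_le_mul_left (k i) (hu i))
    have h2 := coeff_pow_of_natDegree_le (m := k i) (hu i)
    rw [mul_one] at h2
    rw [prod_insert hi, sum_insert hi, prod_insert hi]
    exact ⟨natDegree_mul_le.trans (Nat.add_le_add h1 ih.1),
      by rw [coeff_mul_add_eq_of_natDegree_le h1 ih.1, h2, ih.2]⟩

/-- the shear -/
def descSh {τ : Type*} (s : τ → ℤ) (o : Option τ) : ZP (Option τ) :=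
  o.elim (MvPolynomial.X none) fun i =>
    MvPolynomial.X (some i) + MvPolynomial.C (s i) * MvPolynomial.X none

theorem desc_pt {τ : Type*} [Fintype τ] {Λ : ℕ} {Θ : ZP (Option τ)} (h0 : Θ ≠ 0)
    (hd : Θ.totalDegree ≤ Λ) : ∃ s : τ → ℤ, (∀ i, (s i).natAbs ≤ Λ) ∧
      ∑ κ ∈ Θ.support with ∑ o, κ o = Θ.totalDegree,
        Θ.coeff κ * ∏ i, s i ^ κ (some i) ≠ 0 := by
  classical
  obtain ⟨κ0, k1, k2⟩ := Finset.exists_mem_eq_sup Θ.support (MvPolynomial.support_nonempty.2 h0)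
    fun κ => κ.sum fun _ e => e
  have k3 : ∑ o, κ0 o = Θ.totalDegree := by
    rw [MvPolynomial.totalDegree, k2, Finsupp.sum_fintype _ _ fun _ => rfl]
  by_contra hc
  push Not at hc
  have hz := MvPolynomial.eq_zero_of_eval_zero_at_prod_finset
    (∑ κ ∈ Θ.support with ∑ o, κ o = Θ.totalDegree, MvPolynomial.monomial κ.some (Θ.coeff κ))
    (fun _ => Finset.Icc (0 : ℤ) Λ) (fun i => ?_) fun x hx => ?_
  · have h1 := congrArg (MvPolynomial.coeff κ0.some) hz
    rw [MvPolynomial.coeff_sum, sum_eq_single κ0, MvPolynomial.coeff_monomial, if_pos rfl] at h1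
    · exact MvPolynomial.mem_support_iff.1 k1 h1
    · intro κ hκ hne
      rw [MvPolynomial.coeff_monomial, if_neg]
      intro e
      have e1 : ∀ i, κ (some i) = κ0 (some i) := fun i => DFunLike.congr_fun e i
      have e2 := (mem_filter.1 hκ).2.trans k3.symm
      rw [Fintype.sum_option, Fintype.sum_option, sum_congr rfl fun i _ => e1 i] at e2
      refine hne (Finsupp.ext fun o => ?_)
      cases o with
      | none => exact Nat.add_right_cancel e2
      | some i => exact e1 i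
    · exact fun h => absurd (mem_filter.2 ⟨k1, k3⟩) h
  · have : #(Finset.Icc (0 : ℤ) Λ) = Λ + 1 := by simp
    rw [this]
    refine Nat.lt_succ_of_le ((MvPolynomial.degreeOf_le_totalDegree _ _).trans
      (MvPolynomial.totalDegree_finsetSum_le fun κ hκ =>
        (MvPolynomial.totalDegree_monomial_le _ _).trans ?_))
    have e2 := (mem_filter.1 hκ).2
    rw [Fintype.sum_option] at e2
    rw [Finsupp.sum_fintype _ _ fun _ => rfl]
    change ∑ i, κ (some i) ≤ Λ
    omega
  · rw [map_sum]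
    refine Eq.trans (sum_congr rfl fun κ _ => ?_) (hc x fun i => ?_)
    · rw [MvPolynomial.eval_monomial, Finsupp.prod_fintype _ _ fun _ => pow_zero _]
      rfl
    · have := mem_Icc.1 (hx i)
      omega

theorem desc_QM {τ : Type*} [Fintype τ] {Θ : ZP (Option τ)} {s : τ → ℤ}
    (h : ∑ κ ∈ Θ.support with ∑ o, κ o = Θ.totalDegree, Θ.coeff κ * ∏ i, s i ^ κ (some i) ≠ 0) :
    QM (MvPolynomial.optionEquivLeft ℤ τ (evZ (descSh s) Θ)) := by
  classical
  let u : Option τ → (ZP τ)[X] := fun o => MvPolynomial.optionEquivLeft ℤ τ (descSh s o)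
  have u0 : u none = X := by simp [u, descSh]
  have u1 : ∀ i, u (some i) = C (MvPolynomial.X i) + C (MvPolynomial.C (s i)) * X := fun i => by
    simp only [u, descSh, Option.elim, map_add, map_mul, MvPolynomial.optionEquivLeft_X_some,
      MvPolynomial.optionEquivLeft_X_none, MvPolynomial.optionEquivLeft_C]
  have hu : ∀ o, (u o).natDegree ≤ 1 := fun o => by
    cases o with
    | none => rw [u0]; exact natDegree_X_le
    | some i => rw [u1, add_comm]; exact natDegree_linear_le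
  have e1 : MvPolynomial.optionEquivLeft ℤ τ (evZ (descSh s) Θ) =
      ∑ κ ∈ Θ.support, C (MvPolynomial.C (Θ.coeff κ)) * ∏ o, u o ^ κ o := by
    refine (map_evZ (MvPolynomial.optionEquivLeft ℤ τ).toRingEquiv.toRingHom _ Θ).trans ?_
    rw [evZ, MvPolynomial.coe_eval₂Hom, MvPolynomial.eval₂_eq']
    refine sum_congr rfl fun κ _ => ?_
    rw [eq_intCast, eq_intCast, map_intCast]
    rfl
  have dk : ∀ κ ∈ Θ.support, ∑ o, κ o ≤ Θ.totalDegree := fun κ hκ => by
    have := MvPolynomial.le_totalDegree hκ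
    rwa [Finsupp.sum_fintype _ _ fun _ => rfl] at this
  have e2 : (MvPolynomial.optionEquivLeft ℤ τ (evZ (descSh s) Θ)).natDegree ≤ Θ.totalDegree := by
    rw [e1]
    exact natDegree_sum_le_of_forall_le _ _ fun κ hκ =>
      (natDegree_C_mul_le _ _).trans ((desc_prod u hu κ univ).1.trans (dk κ hκ))
  have e3 : (MvPolynomial.optionEquivLeft ℤ τ (evZ (descSh s) Θ)).coeff Θ.totalDegree =
      MvPolynomial.C (∑ κ ∈ Θ.support with ∑ o, κ o = Θ.totalDegree,
        Θ.coeff κ * ∏ i, s i ^ κ (some i)) := by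
    rw [e1, finsetSum_coeff, sum_filter, map_sum]
    refine sum_congr rfl fun κ hκ => ?_
    rw [coeff_C_mul]
    split_ifs with e
    · rw [← e, (desc_prod u hu κ univ).2, Fintype.prod_option, u0]
      simp [u1]
    · rw [coeff_eq_zero_of_natDegree_lt
        ((desc_prod u hu κ univ).1.trans_lt (lt_of_le_of_ne (dk κ hκ) e)), mul_zero, map_zero]
  refine ⟨_, h, ?_⟩
  rw [leadingCoeff, natDegree_eq_of_le_of_coeff_ne_zero e2
    (by rw [e3]; exact MvPolynomial.C_ne_zero.2 h), e3]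

theorem desc (τ : Type) [Fintype τ] : ∃ c : ℕ, ∀ Λ : ℕ, 2 ≤ Λ → ∀ Θ : ZP (Option τ), Θ ≠ 0 →
    Sz Λ Θ → ∃ s : τ → ℤ, (∀ i, (s i).natAbs ≤ Λ) ∧ ∀ Q : (ZP (Option τ))[X], QM Q → SzP Λ Q →
      ∃ Q' : (ZP τ)[X], QM Q' ∧ SzP (Λ ^ c) Q' ∧ ∀ (t : Option τ → ℂ) (z : ℂ), evZ t Θ = 0 →
        evP t z Q = 0 → evP (fun i => t (some i) - s i * t none) z Q' = 0 := by
  obtain ⟨c, hc⟩ := elim
  refine ⟨4 * c, fun Λ h2 Θ h0 sΘ => ?_⟩
  obtain ⟨s, s1, s2⟩ := desc_pt h0 sΘ.1
  refine ⟨s, s1, fun Q hQ sQ => ?_⟩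
  have s3 : ∀ o, Sz (Λ + 2) (descSh s o) := fun o => by
    cases o with
    | none => exact (Sz.X none).mono (by omega)
    | some i =>
      exact ((Sz.X (some i)).mono (by omega)).add
        ((Sz.C ((s1 i).trans Nat.lt_two_pow_self.le)).mul (Sz.X none))
  have l1 : Λ * (Λ + 2 + 1) ≤ Λ ^ 4 := by
    have : 2 * 2 * Λ ≤ Λ * Λ * Λ := Nat.mul_le_mul_right _ (Nat.mul_le_mul h2 h2)
    calc _ ≤ Λ * (Λ * Λ * Λ) := Nat.mul_le_mul_left _ (by omega)
      _ = _ := by ring
  have l2 : Λ ≤ Λ ^ 4 := Nat.le_self_pow (by omega) Λ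
  obtain ⟨R, h1, h3, h4⟩ := hc τ (Λ ^ 4) (h2.trans l2) _ (Q.map (evZ (descSh s))) (desc_QM s2)
    ((sΘ.ev s3).mono l1).opt (elim_QM hQ _)
    ⟨natDegree_map_le.trans (sQ.1.trans l2), fun i => by
      rw [coeff_map]; exact ((sQ.2 i).ev s3).mono l1⟩
  refine ⟨R, h1, by rwa [pow_mul], fun t z k1 k2 => ?_⟩
  have e : (fun o => evZ (fun o : Option τ => o.elim (t none) fun i => t (some i) - s i * t none)
      (descSh s o)) = t := by
    funext o
    cases o with
    | none => simp [descSh, evZ]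
    | some i =>
      simp only [descSh, Option.elim, map_add, map_mul, eq_intCast, map_intCast]
      simp [evZ]
  refine h4 _ (t none) z ?_ ?_
  · refine (evZ_opt (fun o : Option τ => o.elim (t none) fun i => t (some i) - s i * t none)
      _).symm.trans ?_
    rw [map_evZ, e, k1]
  · rw [elim_ev_map]
    simp only [evZ, MvPolynomial.eval₂Hom_X'] at e ⊢
    rw [e, k2]

end

end Pool.Agent.Lib.MP_5591bc_ag.J
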