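import Pool.Agent.Lib.MP_5591bc_ag.M.Set

/-! Integer equations of controlled size for algebraic points on a complex hypersurface. -/

namespace Pool.Agent.Lib.MP_5591bc_ag.J

open Finset MvPolynomial W M

noncomputable section

/-- the box principle for real linear forms -/
theorem int_box {I J : Type*} [Fintype I] [Fintype J] (a : I → J → ℝ) {A : ℕ} (A0 : 0 < A)
    (ha : ∀ i j, |a i j| ≤ A) (h : 2 * Fintype.card I < Fintype.card J) :
    ∃ c : J → ℤ, c ≠ 0 ∧ (∀ j, |c j| ≤ (2 * Fintype.card J * A : ℕ)) ∧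
      ∀ i, |∑ j, (c j : ℝ) * a i j| < 1 := by
  classical
  obtain ⟨N, hN⟩ : ∃ N, N = 2 * Fintype.card J * A := ⟨_, rfl⟩
  have N0 : 0 < N := hN ▸ Nat.mul_pos (by omega) A0
  obtain ⟨S, hS⟩ : ∃ S, S = Fintype.card J * (N * A) := ⟨_, rfl⟩
  have b : ∀ (c : J → Fin (N + 1)) i, |∑ j, ((c j : ℕ) : ℝ) * a i j| ≤ S := fun c i => by
    refine (abs_sum_le_sum_abs _ _).trans ((sum_le_card_nsmul _ _ ((N : ℝ) * A) fun j _ => ?_).trans
      (by simp [hS]))
    rw [abs_mul, Nat.abs_cast]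
    exact mul_le_mul (by exact_mod_cast Nat.lt_succ_iff.1 (c j).2) (ha i j) (abs_nonneg _)
      (Nat.cast_nonneg _)
  obtain ⟨x, -, y, -, hxy, e⟩ := exists_ne_map_eq_of_card_lt_of_maps_to
    (s := (univ : Finset (J → Fin (N + 1)))) (t := Fintype.piFinset fun _ : I => Icc (-S : ℤ) S)
    (f := fun c i => ⌊∑ j, ((c j : ℕ) : ℝ) * a i j⌋) (by
      have e1 : (S + 1 - -S : ℤ).toNat = N * N + 1 := by
        have : 2 * S = N * N := by rw [hS]; nth_rw 3 [hN]; ring
        omega
      simp only [Fintype.card_piFinset, Int.card_Icc, e1, prod_const, card_univ, Fintype.card_pi,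
        Fintype.card_fin]
      refine lt_of_le_of_lt ?_ (Nat.pow_lt_pow_right (by omega) h)
      rw [pow_mul]
      exact Nat.pow_le_pow_left (by nlinarith) _) fun c _ => by
      refine Fintype.mem_piFinset.2 fun i => mem_Icc.2 ⟨Int.le_floor.2 ?_, ?_⟩
      · simpa using (abs_le.1 (b c i)).1
      · exact_mod_cast (Int.floor_le _).trans (abs_le.1 (b c i)).2
  refine ⟨fun j => (x j : ℕ) - (y j : ℕ), fun h0 => hxy (funext fun j => Fin.ext ?_), fun j => ?_,
    fun i => ?_⟩
  · have := congrFun h0 j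
    simp only [Pi.zero_apply] at this
    omega
  · have := (x j).2
    have := (y j).2
    rw [← hN, abs_le]
    beta_reduce
    omega
  · have := Int.abs_sub_lt_one_of_floor_eq_floor (congrFun e i)
    simpa [sub_mul, sum_sub_distrib] using this

/-- simultaneous integer relations of algebraic integers in several number fields -/
theorem int_rel {I J : Type*} [Fintype I] [Fintype J] {E : I → Type*} [∀ i, Field (E i)]
    [∀ i, NumberField (E i)] {d A : ℕ} (hd : ∀ i, Module.finrank ℚ (E i) ≤ d) (A0 : 0 < A)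
    (w : ∀ i, J → E i) (h1 : ∀ i j, IsIntegral ℤ (w i j))
    (h2 : ∀ i j (φ : E i →+* ℂ), ‖φ (w i j)‖ ≤ A) (h : 4 * d * Fintype.card I < Fintype.card J) :
    ∃ c : J → ℤ, c ≠ 0 ∧ (∀ j, |c j| ≤ (4 * Fintype.card J * A : ℕ)) ∧
      ∀ i, ∑ j, (c j : E i) * w i j = 0 := by
  obtain ⟨c, c0, c1, c2⟩ := int_box (I := (Σ i, E i →+* ℂ) × Bool) (A := 2 * A)
    (fun p j => 2 * bif p.2 then (p.1.2 (w p.1.1 j)).re else (p.1.2 (w p.1.1 j)).im) (by omega)
    (fun p j => by
      rw [abs_mul, abs_two, Nat.cast_mul, Nat.cast_two]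
      refine mul_le_mul_of_nonneg_left (le_trans ?_ (h2 _ j p.1.2)) zero_le_two
      cases p.2
      exacts [Complex.abs_im_le_norm _, Complex.abs_re_le_norm _]) (by
      have : Fintype.card (Σ i, E i →+* ℂ) ≤ Fintype.card I * d := by
        rw [Fintype.card_sigma]
        exact sum_le_card_nsmul _ _ d fun i _ => (NumberField.Embeddings.card _ ℂ).trans_le (hd i)
      rw [Fintype.card_prod, Fintype.card_bool]
      nlinarith)
  refine ⟨c, c0, fun j => (c1 j).trans_eq (by push_cast; ring), fun i => by_contra fun hn => ?_⟩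
  have hi : IsIntegral ℤ (∑ j, (c j : E i) * w i j) :=
    IsIntegral.sum _ fun j _ => (isIntegral_algebraMap (x := c j)).mul (h1 i j)
  obtain ⟨φ, hφ⟩ := NumberField.exists_conjugate_one_le_norm (α := ⟨_, hi⟩)
    fun e => hn (congrArg Subtype.val e)
  have a1 := c2 (⟨i, φ⟩, true)
  have a2 := c2 (⟨i, φ⟩, false)
  have a3 := Complex.norm_le_abs_re_add_abs_im (φ (∑ j, (c j : E i) * w i j))
  simp only [cond, mul_left_comm _ (2 : ℝ), ← mul_sum, abs_mul, abs_two] at a1 a2
  replace hφ : 1 ≤ ‖φ (∑ j, (c j : E i) * w i j)‖ := hφ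
  replace a3 := hφ.trans a3
  simp only [map_sum, map_mul, map_intCast, Complex.re_sum, Complex.im_sum, Complex.mul_re,
    Complex.mul_im, Complex.intCast_re, Complex.intCast_im, zero_mul, sub_zero, add_zero] at a3
  linarith

variable {σ : Type*} [Fintype σ]

/-- exponent of a box -/
def bx {n : ℕ} (κ : σ → Fin n) : σ →₀ ℕ := Finsupp.equivFunOnFinite.symm fun l => κ l

theorem bx_inj {n : ℕ} : Function.Injective (bx (σ := σ) (n := n)) := fun _ _ h =>
  funext fun l => Fin.ext (DFunLike.congr_fun h l)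

variable [DecidableEq σ] {R : Type*} [CommRing R]

/-- the polynomial with given coefficients on a box -/
def pb {n : ℕ} : ((σ → Fin n) → R) →ₗ[R] MvPolynomial σ R :=
  ∑ κ, monomial (bx κ) ∘ₗ LinearMap.proj κ

theorem pb_coeff {n : ℕ} (c : (σ → Fin n) → R) (κ : σ → Fin n) : coeff (bx κ) (pb c) = c κ := by
  simp [pb, coeff_sum, bx_inj.eq_iff]

theorem pb_supp {n : ℕ} (c : (σ → Fin n) → R) {β : σ →₀ ℕ} (h : coeff β (pb c) ≠ 0) :
    ∃ κ : σ → Fin n, bx κ = β := by
  by_contra hn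
  push Not at hn
  simp [pb, coeff_sum, hn] at h

theorem pb_deg {n : ℕ} (c : (σ → Fin (n + 1)) → R) (l : σ) : degreeOf l (pb c) ≤ n :=
  degreeOf_le_iff.2 fun β h => by
    obtain ⟨κ, rfl⟩ := pb_supp c (mem_support_iff.1 h)
    exact Nat.lt_succ_iff.1 (κ l).2

theorem pb_self {n : ℕ} {p : MvPolynomial σ R} (h : ∀ l, degreeOf l p ≤ n) :
    pb (fun κ : σ → Fin (n + 1) => coeff (bx κ) p) = p := by
  ext β
  by_cases e : ∃ κ : σ → Fin (n + 1), bx κ = β
  · obtain ⟨κ, rfl⟩ := e
    exact pb_coeff _ κ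
  · rw [of_not_not (mt (pb_supp _) e), eq_comm]
    by_contra c
    exact e ⟨fun l => ⟨β l, Nat.lt_succ_iff.2
      ((monomial_le_degreeOf l (mem_support_iff.2 c)).trans (h l))⟩, by ext l; rfl⟩

theorem pb_aeval {n : ℕ} {S : Type*} [CommRing S] [Algebra R S] (c : (σ → Fin n) → R) (t : σ → S) :
    aeval t (pb c) = ∑ κ, algebraMap R S (c κ) * ∏ l, t l ^ (κ l : ℕ) := by
  simp [pb, aeval_monomial, Finsupp.prod_fintype, bx]

theorem int_num (a M m : ℕ) : (a + M) * (a + M) ^ m ≤ (a + M) * a ^ m + m * M * (a + M) ^ m := by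
  induction m with
  | zero => simp
  | succ m ih =>
    have h1 := Nat.mul_le_mul_left a ih
    have h2 : a * (m * M * (a + M) ^ m) ≤ (a + M) * (m * M * (a + M) ^ m) :=
      Nat.mul_le_mul_right _ (Nat.le_add_right _ _)
    rw [pow_succ, pow_succ]
    nlinarith

/-- few points of a set on a hypersurface impose all the conditions -/
theorem int_few {F : Type*} [Field F] {X : Set (σ → F)} {M a : ℕ} (h : Hyp X M) :
    ∃ (r : ℕ) (x : Fin r → σ → F), (∀ i, x i ∈ X) ∧
      r + (a + 1) ^ Fintype.card σ ≤ (a + M + 1) ^ Fintype.card σ ∧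
      ∀ c : (σ → Fin (a + M + 1)) → F, (∀ i, eval (x i) (pb c) = 0) → ∀ t ∈ X, eval t (pb c) = 0 := by
  obtain ⟨Q, Q0, Q1, Q2⟩ := h
  let f : (σ → F) → Module.Dual F ((σ → Fin (a + M + 1)) → F) := fun t =>
    (aeval t).toLinearMap ∘ₗ pb
  let μ : ((σ → Fin (a + 1)) → F) →ₗ[F] (σ → Fin (a + M + 1)) → F :=
    LinearMap.pi fun κ => lcoeff F (bx κ) ∘ₗ LinearMap.mulRight F Q ∘ₗ pb
  have e : ∀ c, pb (μ c) = pb c * Q := fun c => pb_self fun l => (degreeOf_mul_le _ _ _).trans
    (add_le_add (pb_deg c l) ((degreeOf_le_totalDegree _ _).trans Q1))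
  have hμ : Function.Injective μ := (injective_iff_map_eq_zero _).2 fun c hc => funext fun κ => by
    have := e c
    rw [hc, map_zero, eq_comm, mul_eq_zero_iff_right Q0] at this
    rw [← pb_coeff c κ, this, coeff_zero, Pi.zero_apply]
  obtain ⟨g, g1, g2, -⟩ := Submodule.exists_fun_fin_finrank_span_eq F (f '' X)
  choose x x1 x2 using g1
  have k : ∀ (s : Set _) c, c ∈ (Submodule.span F s).dualCoannihilator ↔ ∀ φ ∈ s, φ c = 0 :=
    fun s (c : (σ → Fin (a + M + 1)) → F) => by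
      rw [← SetLike.mem_coe, Submodule.coe_dualCoannihilator_span]
      rfl
  refine ⟨_, x, x1, ?_, fun c hc t ht => ?_⟩
  · have a1 := Subspace.finrank_add_finrank_dualCoannihilator_eq (Submodule.span F (f '' X))
    have a2 : LinearMap.range μ ≤ (Submodule.span F (f '' X)).dualCoannihilator := by
      rintro _ ⟨c, rfl⟩
      refine (k _ _).2 ?_
      rintro _ ⟨t, ht, rfl⟩
      change eval t (pb (μ c)) = 0
      rw [e, map_mul, Q2 t ht, mul_zero]
    have a3 := Submodule.finrank_mono a2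
    rw [LinearMap.finrank_range_of_inj hμ] at a3
    simp only [Module.finrank_fintype_fun_eq_card, Fintype.card_pi, Fintype.card_fin, prod_const,
      card_univ] at a1 a3
    omega
  · refine (k (f '' X) c).1 (g2 ▸ (k _ c).2 ?_) (f t) ⟨t, ht, rfl⟩
    rintro _ ⟨i, rfl⟩
    exact x2 i ▸ hc i

/-- an integer equation of controlled size -/
theorem int_hyp {X : Set (σ → ℂ)} {M d h e : ℕ} (hM : Hyp X M) (h0 : 0 < h)
    (he : 4 * d * Fintype.card σ * M + M ≤ e)
    (hX : ∀ t ∈ X, ∃ (E : Type) (_ : Field E) (_ : NumberField E) (ι : E →+* ℂ) (y : σ → E),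
      (∀ l, ι (y l) = t l) ∧ Module.finrank ℚ E ≤ d ∧ ∀ l, Ht (y l) h) :
    ∃ Θ : MvPolynomial σ ℤ, Θ ≠ 0 ∧ (∀ l, degreeOf l Θ ≤ e) ∧
      (∀ κ, |coeff κ Θ| ≤ (4 * (e + 1) ^ Fintype.card σ * h ^ (2 * e * Fintype.card σ) : ℕ)) ∧
      ∀ t ∈ X, aeval t Θ = 0 := by
  obtain ⟨a, rfl⟩ : ∃ a, e = a + M := ⟨e - M, by omega⟩
  obtain ⟨r, x, x1, hr, x2⟩ := int_few (a := a) hM
  choose E _ _ ι y y1 y2 y3 using fun i => hX _ (x1 i)
  choose D D0 D1 D2 D3 using y3
  have h1 : (1 : ℝ) ≤ h := by exact_mod_cast h0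
  obtain ⟨c, c0, c1, c2⟩ := int_rel (J := σ → Fin (a + M + 1)) y2
    (A := h ^ (2 * (a + M) * Fintype.card σ)) (by positivity)
    (fun i κ => ∏ l, ((D i l : E i) ^ (a + M) * y i l ^ (κ l : ℕ))) (fun i κ => by
      refine IsIntegral.prod _ fun l _ => ?_
      obtain ⟨b, hb⟩ := Nat.exists_eq_add_of_le (Nat.lt_succ_iff.1 (κ l).2)
      generalize (κ l : ℕ) = k at hb
      rw [hb, pow_add, mul_right_comm, ← mul_pow]
      exact ((D2 i l).pow _).mul (IsIntegral.pow (by
        simpa using isIntegral_algebraMap (A := E i) (x := (D i l : ℤ))) _))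
    (fun i κ φ => by
      rw [map_prod, norm_prod, Nat.cast_pow, pow_mul, ← card_univ, ← prod_const]
      refine prod_le_prod (fun _ _ => norm_nonneg _) fun l _ => ?_
      rw [map_mul, map_pow, map_pow, map_natCast, norm_mul, norm_pow, norm_pow, Complex.norm_natCast,
        two_mul, pow_add (h : ℝ)]
      refine mul_le_mul (pow_le_pow_left₀ (Nat.cast_nonneg _) (D1 i l) _) ((pow_le_pow_left₀
        (norm_nonneg _) ((NumberField.norm_embedding_le_house _ φ).trans (D3 i l)) _).trans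
        (pow_le_pow_right₀ h1 (Nat.lt_succ_iff.1 (κ l).2))) (by positivity) (by positivity)) (by
      have a1 := int_num (a + 1) M (Fintype.card σ)
      simp only [Fintype.card_pi, Fintype.card_fin, prod_const, card_univ]
      rw [add_right_comm] at a1
      generalize Fintype.card σ = m at *
      have p0 : 0 < (a + M + 1) ^ m := by positivity
      generalize (a + M + 1) ^ m = p at *
      generalize (a + 1) ^ m = q at *
      have a2 : (a + M + 1) * r ≤ m * M * p := by nlinarith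
      refine Nat.lt_of_mul_lt_mul_left (a := a + M + 1) ?_
      have a3 := Nat.mul_le_mul_left (4 * d) a2
      have a4 : 4 * d * m * M * p < (a + M + 1) * p := Nat.mul_lt_mul_of_pos_right (by omega) p0
      nlinarith)
  have e1 : ∀ t : σ → ℂ, aeval t (pb c) = eval t (pb fun κ => (c κ : ℂ)) := fun t =>
    (pb_aeval c t).trans (pb_aeval (fun κ => (c κ : ℂ)) t).symm
  refine ⟨pb c, fun e => c0 (funext fun κ => by rw [← pb_coeff c κ, e]; rfl), pb_deg c, fun β => ?_,
    fun t ht => (e1 t).trans (x2 _ (fun i => (e1 _).symm.trans ?_) t ht)⟩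
  · by_cases e : coeff β (pb c) = 0
    · rw [e, abs_zero]
      exact Int.natCast_nonneg _
    · obtain ⟨κ, rfl⟩ := pb_supp c e
      simpa [pb_coeff] using c1 κ
  · have := c2 i
    simp only [prod_mul_distrib, mul_left_comm (c _ : E i), ← mul_sum] at this
    have := congrArg (ι i) ((mul_eq_zero.1 this).resolve_left (prod_ne_zero_iff.2 fun l _ =>
      pow_ne_zero _ (Nat.cast_ne_zero.2 (D0 i l).ne')))
    simpa [pb_aeval, y1] using this

end

end Pool.Agent.Lib.MP_5591bc_ag.J
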