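import Pool.Agent.Lib.MP_5591bc_ag.J.Liou
import Pool.Agent.Lib.MP_5591bc_ag.J.IntA

/-! Integer equations of small size. -/

namespace Pool.Agent.Lib.MP_5591bc_ag.J

open Polynomial Finset W M

noncomputable section

theorem int_tot {τ : Type*} [Fintype τ] {Θ : ZP τ} {e : ℕ} (h : ∀ l, Θ.degreeOf l ≤ e) :
    Θ.totalDegree ≤ Fintype.card τ * e := by
  refine Finset.sup_le fun κ hκ => ?_
  rw [Finsupp.sum_fintype _ _ fun _ => rfl]
  exact (sum_le_card_nsmul univ _ e fun l _ =>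
    (MvPolynomial.monomial_le_degreeOf l hκ).trans (h l)).trans (by simp)

/-- polynomials of degree at most `e` in each variable vanish on `S` as soon as they vanish on a
subset of the size of the Hilbert function; each point costs `Λ` small complex linear forms -/
theorem intH (τ : Type) [Fintype τ] : ∃ c : ℕ, ∀ Λ : ℕ, 2 ≤ Λ → ∀ S : Set (τ → ℂ),
    (∀ t ∈ S, Ar Λ t) → Hyp S Λ → ∃ Θ : ZP τ, Θ ≠ 0 ∧ Sz (Λ ^ c) Θ ∧ ∀ t ∈ S, evZ t Θ = 0 := by
  classical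
  obtain ⟨m, hm⟩ : ∃ m, m = Fintype.card τ := ⟨_, rfl⟩
  refine ⟨2 + (4 * m + 1) * (3 * m + (m + 1) * m) + 3, fun Λ hΛ S hS hH => ?_⟩
  obtain ⟨e, he⟩ : ∃ e, e = (4 * m + 1) * Λ ^ 2 := ⟨_, rfl⟩
  obtain ⟨Θ, h0, h1, h2, h3⟩ := int_hyp (d := Λ) (h := 2 ^ Λ) (e := e) hH (by positivity)
    (by rw [← hm, he]; nlinarith) fun t ht => by
      obtain ⟨E, _, _, ι, u, hE, hu, rfl⟩ := hS t ht
      exact ⟨E, _, _, ι, u, fun _ => rfl, hE, fun l => by simpa using hu l⟩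
  refine ⟨Θ, h0, (Sz.of_coeff (int_tot h1) (b := 2 + e * m + Λ * (2 * e * m)) fun κ => ?_).mono
    (le_trans ?_ (liou_pow hΛ _ 3)), fun t ht => ?_⟩
  · have := h2 κ
    rw [Int.abs_eq_natAbs, Int.ofNat_le, ← hm, ← pow_mul] at this
    refine this.trans ?_
    rw [pow_add, pow_add, pow_mul 2 e]
    exact Nat.mul_le_mul_right _ (Nat.mul_le_mul_left _ (Nat.pow_le_pow_left Nat.lt_two_pow_self _))
  · have a1 : Λ ^ 2 ≤ Λ ^ 3 := Nat.pow_le_pow_right (by omega) (by omega)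
    have a2 : 1 ≤ Λ ^ 3 := Nat.one_le_pow _ _ (by omega)
    have a3 : e ≤ (4 * m + 1) * Λ ^ 3 := he ▸ Nat.mul_le_mul_left _ a1
    have a4 : Λ * e = (4 * m + 1) * Λ ^ 3 := by rw [he]; ring
    have a5 := Nat.mul_le_mul_right m a3
    have a6 := Nat.mul_le_mul_left ((m + 1) * m) a3
    have a7 : Λ * (2 * e * m) = 2 * m * ((4 * m + 1) * Λ ^ 3) := by rw [← a4]; ring
    rw [← hm, a7]
    nlinarith
  · rw [← h3 t ht]
    rfl

end

end Pool.Agent.Lib.MP_5591bc_ag.J
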