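import Pool.Agent.Lib.MP_5591bc_ag.J.Sz

/-! Elimination by resultants. -/

namespace Pool.Agent.Lib.MP_5591bc_ag.J

open Polynomial Finset

noncomputable section

section aux
variable {τ τ' B : Type*} [CommRing B] {a : ℕ}

theorem elim_QM {f : (ZP τ)[X]} (h : QM f) (φ : ZP τ →+* ZP τ') : QM (f.map φ) := by
  obtain ⟨c, c0, hc⟩ := h
  have e : φ f.leadingCoeff = MvPolynomial.C c := by rw [hc, eq_intCast, eq_intCast, map_intCast]
  refine ⟨c, c0, ?_⟩
  rw [leadingCoeff_map_of_leadingCoeff_ne_zero _ (by rw [e]; exact MvPolynomial.C_ne_zero.2 c0), e]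

/-- renaming of the variables in the coefficients -/
def elimRn (e : τ → τ') (f : (ZP τ)[X]) : (ZP τ')[X] :=
  f.map (MvPolynomial.rename (R := ℤ) e).toRingHom

theorem elimRn_QM (e : τ → τ') {f : (ZP τ)[X]} (h : QM f) : QM (elimRn e f) := elim_QM h _

theorem elimRn_sz (e : τ → τ') {f : (ZP τ)[X]} (h : SzP a f) : SzP a (elimRn e f) :=
  ⟨natDegree_map_le.trans h.1, fun i => by rw [elimRn, coeff_map]; exact (h.2 i).rename e⟩

theorem elim_ev_map (φ : ZP τ →+* ZP τ') (t : τ' → B) (z : B) (f : (ZP τ)[X]) :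
    evP t z (f.map φ) = evP (fun i => evZ t (φ (MvPolynomial.X i))) z f := by
  rw [evP_eq, evP_eq, Polynomial.map_map]
  congr 2
  exact MvPolynomial.ringHom_ext (fun r => by simp) fun i => by simp [evZ]

theorem elimRn_ev (e : τ → τ') (t : τ' → B) (z : B) (f : (ZP τ)[X]) :
    evP t z (elimRn e f) = evP (fun i => t (e i)) z f := by
  rw [elimRn, elim_ev_map]
  simp [evZ]

/-- exchange of the two outer variables -/
def elimSw (F : (ZP (Option τ))[X]) : (ZP (Option τ))[X] :=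
  MvPolynomial.optionEquivLeft ℤ _ (MvPolynomial.rename
    (fun o : Option (Option τ) => o.elim (some none) fun i => i.elim none fun j => some (some j))
    ((MvPolynomial.optionEquivLeft ℤ _).symm F))

theorem elimSw_sz {F : (ZP (Option τ))[X]} (h : SzP a F) : SzP (2 * a + 1) (elimSw F) :=
  (h.opt.rename _).opt

theorem elimSw_ev (t : τ → B) (u w : B) (F : (ZP (Option τ))[X]) :
    evP (fun o : Option τ => o.elim w t) u (elimSw F) =
      evP (fun o : Option τ => o.elim u t) w F := by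
  have h1 := evZ_opt (fun o : Option (Option τ) => o.elim u fun i => i.elim w t)
  have h2 := evZ_opt (fun o : Option (Option τ) => o.elim w fun i => i.elim u t)
    ((MvPolynomial.optionEquivLeft ℤ _).symm F)
  rw [AlgEquiv.apply_symm_apply] at h2
  refine (h1 _).symm.trans (Eq.trans ?_ h2)
  rw [evZ_rename]
  congr 2
  funext o
  rcases o with _ | _ | j <;> rfl

theorem elim_evX (v : τ → B) (f : (ZP τ)[X]) :
    evP (fun i => C (v i)) X f = f.map (evZ v) := by
  rw [Polynomial.map, evP, coe_eval₂RingHom]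
  congr 1
  exact RingHom.ext fun p => (map_evZ C v p).symm

theorem elim_lead {Θ : (ZP τ)[X]} {F : (ZP (Option τ))[X]} (hΘ : QM Θ) (hF : QM F) :
    QM (MvPolynomial.optionEquivLeft ℤ τ (resultant (elimRn some Θ) (elimSw F) Θ.natDegree
      (elimSw F).natDegree)) := by
  obtain ⟨c, c0, hc⟩ := hΘ
  obtain ⟨d, d0, hd⟩ := hF
  let L := AlgebraicClosure (FractionRing (ZP τ))
  let ι : ZP τ →+* L := (algebraMap (FractionRing (ZP τ)) L).comp (algebraMap (ZP τ) _)
  have hι : Function.Injective ι :=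
    (algebraMap (FractionRing (ZP τ)) L).injective.comp (IsFractionRing.injective (ZP τ) _)
  have e0 : evZ (fun i => ι (MvPolynomial.X i)) = ι :=
    MvPolynomial.ringHom_ext (fun r => by simp) fun i => by simp [evZ]
  let v : Option τ → L[X] := fun o => o.elim X fun i => C (ι (MvPolynomial.X i))
  have e1 : ∀ P, evZ v P = (MvPolynomial.optionEquivLeft ℤ τ P).map ι := fun P => by
    rw [evZ_opt, ← e0, ← elim_evX]
    rfl
  have e2 : (elimRn some Θ).map (evZ v) = (Θ.map ι).map C := by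
    rw [elimRn, Polynomial.map_map, Polynomial.map_map]
    congr 1
    exact MvPolynomial.ringHom_ext (fun r => by simp) fun i => by simp [evZ, v]
  have e3 : ((Θ.map ι).map (C : L →+* L[X])).natDegree = Θ.natDegree := by
    rw [natDegree_map_eq_of_injective C_injective, natDegree_map_eq_of_injective hι]
  have sp := IsAlgClosed.splits (Θ.map ι)
  have e4 := resultant_eq_prod_eval ((Θ.map ι).map C) ((elimSw F).map (evZ v))
    (elimSw F).natDegree natDegree_map_le (sp.map C)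
  rw [e3, ← roots_map_of_injective_of_card_eq_natDegree C_injective
    sp.natDegree_eq_card_roots.symm, leadingCoeff_map_of_injective C_injective,
    leadingCoeff_map_of_injective hι, ← e2, resultant_map_map, e1, Multiset.map_map] at e4
  have dL : ((d : ℤ) : L) ≠ 0 := fun h =>
    MvPolynomial.C_ne_zero.2 d0 (hι (by rw [eq_intCast, map_intCast, h, map_zero]))
  have e5 : ∀ θ : L, (((elimSw F).map (evZ v)).eval (C θ)).leadingCoeff = (d : L) := fun θ => by
    have : (fun o : Option τ => o.elim (C θ) fun i => C (ι (MvPolynomial.X i))) =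
        fun o : Option τ => C (o.elim θ fun i => ι (MvPolynomial.X i)) := by
      funext o
      cases o <;> rfl
    have e : evZ (fun o : Option τ => o.elim θ fun i => ι (MvPolynomial.X i)) F.leadingCoeff =
        (d : L) := by rw [hd, eq_intCast, map_intCast]
    rw [← evP_eq, elimSw_ev, this, elim_evX,
      leadingCoeff_map_of_leadingCoeff_ne_zero _ (by rwa [e]), e]
  have e6 := congrArg leadingCoeff e4
  rw [leadingCoeff_map_of_injective hι, leadingCoeff_mul, leadingCoeff_pow, leadingCoeff_C,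
    leadingCoeff_multiset_prod, Multiset.map_map, hc] at e6
  simp only [Function.comp_def, e5, Multiset.map_const', Multiset.prod_replicate] at e6
  refine ⟨c ^ (elimSw F).natDegree * d ^ (Θ.map ι).roots.card,
    mul_ne_zero (pow_ne_zero _ c0) (pow_ne_zero _ d0), hι ?_⟩
  rw [e6]
  simp

end aux

theorem elim : ∃ c : ℕ, ∀ (τ : Type) (Λ : ℕ), 2 ≤ Λ → ∀ (Θ : (ZP τ)[X]) (F : (ZP (Option τ))[X]),
    QM Θ → SzP Λ Θ → QM F → SzP Λ F → ∃ R : (ZP τ)[X], QM R ∧ SzP (Λ ^ c) R ∧
      ∀ (t : τ → ℂ) (u w : ℂ), evP t u Θ = 0 → evP (fun o => o.elim u t) w F = 0 →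
        evP t w R = 0 := by
  refine ⟨8, fun τ Λ h2 Θ F hΘ sΘ hF sF => ⟨_, elim_lead hΘ hF, ?_, fun t u w h0 h1 => ?_⟩⟩
  · have s1 := elimSw_sz sF
    refine (((elimRn_sz some sΘ).mono (by omega)).res s1 (b := 2 * Λ + 1)
      (sΘ.1.trans (by omega)) s1.1).opt.mono ?_
    have h6 : 2 ^ 6 ≤ Λ ^ 6 := Nat.pow_le_pow_left h2 6
    calc _ ≤ 2 ^ 6 * Λ ^ 2 := by nlinarith
      _ ≤ Λ ^ 6 * Λ ^ 2 := Nat.mul_le_mul_right _ h6
      _ = Λ ^ 8 := by ring
  · have hm : Θ.natDegree ≠ 0 := fun h => by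
      obtain ⟨c, c0, hc⟩ := hΘ
      rw [eq_C_of_natDegree_eq_zero h, ← h, coeff_natDegree, hc, eq_intCast, map_intCast,
        map_intCast] at h0
      exact c0 (Int.cast_eq_zero.1 h0)
    obtain ⟨p, q, -, -, e⟩ := exists_mul_add_mul_eq_C_resultant (elimRn some Θ) (elimSw F)
      (m := Θ.natDegree) natDegree_map_le le_rfl (Or.inl hm)
    have e1 := congrArg (evP (fun o : Option τ => o.elim w t) u) e
    rw [map_add, map_mul, map_mul, elimRn_ev, elimSw_ev, h1] at e1
    have e2 : evP (fun i => (some i).elim w t) u Θ = 0 := h0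
    rw [e2, zero_mul, zero_mul, add_zero, evP, coe_eval₂RingHom, eval₂_C, evZ_opt] at e1
    exact e1.symm

theorem elim_sum (σ : Type) [Finite σ] : ∃ c : ℕ, ∀ (τ : Type) (Λ : ℕ), 2 ≤ Λ →
    ∀ (G : σ → (ZP τ)[X]) (F : (ZP (σ ⊕ τ))[X]), (∀ l, QM (G l) ∧ SzP Λ (G l)) → QM F →
      SzP Λ F → ∃ R : (ZP τ)[X], QM R ∧ SzP (Λ ^ c) R ∧ ∀ (t : τ → ℂ) (y : σ → ℂ) (w : ℂ),
        (∀ l, evP t (y l) (G l) = 0) → evP (Sum.elim y t) w F = 0 → evP t w R = 0 := by
  induction σ using Finite.induction_empty_option with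
  | @of_equiv α β e ih =>
    obtain ⟨c, hc⟩ := ih
    refine ⟨c, fun τ Λ h2 G F hG hF sF => ?_⟩
    obtain ⟨R, h1, h3, h4⟩ := hc τ Λ h2 (fun l => G (e l)) (elimRn (Sum.map e.symm id) F)
      (fun l => hG _) (elimRn_QM _ hF) (elimRn_sz _ sF)
    refine ⟨R, h1, h3, fun t y w k1 k2 => h4 t (fun l => y (e l)) w (fun l => k1 _) ?_⟩
    rw [elimRn_ev, ← k2]
    congr 2
    funext o
    cases o <;> simp
  | h_empty =>
    refine ⟨1, fun τ Λ _ G F _ hF sF => ⟨elimRn (Sum.elim PEmpty.elim id) F, elimRn_QM _ hF,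
      by rw [pow_one]; exact elimRn_sz _ sF, fun t y w _ k2 => ?_⟩⟩
    rw [elimRn_ev, ← k2]
    congr 2
    funext o
    rcases o with o | o
    · exact o.elim
    · rfl
  | @h_option α _ ih =>
    obtain ⟨c, hc⟩ := ih
    obtain ⟨c', hc'⟩ := elim
    refine ⟨(c' + 1) * c, fun τ Λ h2 G F hG hF sF => ?_⟩
    obtain ⟨R1, a1, a2, a3⟩ := hc' (α ⊕ τ) Λ h2 (elimRn Sum.inr (G none))
      (elimRn (Sum.elim (Option.map Sum.inl) fun i => some (Sum.inr i)) F)
      (elimRn_QM _ (hG none).1) (elimRn_sz _ (hG none).2) (elimRn_QM _ hF) (elimRn_sz _ sF)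
    have l1 : Λ ≤ Λ ^ (c' + 1) := Nat.le_self_pow (by omega) Λ
    obtain ⟨R, h1, h3, h4⟩ := hc τ (Λ ^ (c' + 1)) (h2.trans l1) (fun l => G (some l)) R1
      (fun l => ⟨(hG _).1, (hG _).2.mono l1⟩) a1
      (a2.mono (Nat.pow_le_pow_right (by omega) (by omega)))
    refine ⟨R, h1, by rwa [pow_mul], fun t y w k1 k2 => h4 t (fun l => y (some l)) w
      (fun l => k1 _) (a3 _ (y none) w ?_ ?_)⟩
    · rw [elimRn_ev]
      exact k1 none
    · rw [elimRn_ev, ← k2]
      congr 2
      funext o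
      rcases o with (_ | o) | o <;> rfl

theorem elims (σ : Type) [Fintype σ] : ∃ c : ℕ, ∀ (τ : Type) (Λ : ℕ), 2 ≤ Λ →
    ∀ (G : σ → (ZP τ)[X]) (F : (ZP σ)[X]), (∀ l, QM (G l) ∧ SzP Λ (G l)) → QM F → SzP Λ F →
      ∃ R : (ZP τ)[X], QM R ∧ SzP (Λ ^ c) R ∧ ∀ (t : τ → ℂ) (y : σ → ℂ) (w : ℂ),
        (∀ l, evP t (y l) (G l) = 0) → evP y w F = 0 → evP t w R = 0 := by
  obtain ⟨c, hc⟩ := elim_sum σ
  refine ⟨c, fun τ Λ h2 G F hG hF sF => ?_⟩
  obtain ⟨R, h1, h3, h4⟩ := hc τ Λ h2 G (elimRn Sum.inl F) hG (elimRn_QM _ hF) (elimRn_sz _ sF)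
  exact ⟨R, h1, h3, fun t y w k1 k2 => h4 t y w k1 (by rw [elimRn_ev]; exact k2)⟩

/-- a multiple of `T` is integral over the integer polynomials -/
theorem elim_int {σ K : Type*} [Field K] [NumberField K] [Algebra K ℂ] (T : MvPolynomial σ K) :
    ∃ d : ℕ, 0 < d ∧ ∃ F : (ZP σ)[X], F.Monic ∧
      ∀ y : σ → ℂ, evP y (d * MvPolynomial.aeval y T) F = 0 := by
  let φ : ZP σ →+* MvPolynomial σ K := MvPolynomial.map (Int.castRingHom K)
  let _ := φ.toAlgebra
  have iz : ∀ z : ℤ, IsIntegral (ZP σ) (z : MvPolynomial σ K) := fun z => by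
    rw [← map_intCast (algebraMap (ZP σ) (MvPolynomial σ K))]
    exact isIntegral_algebraMap
  have key : ∃ d : ℤ, d ≠ 0 ∧ IsIntegral (ZP σ) (d * T) := by
    induction T using MvPolynomial.induction_on with
    | C a =>
      obtain ⟨d, d0, hd⟩ := ((IsFractionRing.isAlgebraic_iff ℤ ℚ K).2
        (Algebra.IsAlgebraic.isAlgebraic a)).exists_integral_multiple
      refine ⟨d, d0, ?_⟩
      have h1 := hd.map (MvPolynomial.C : K →+* MvPolynomial σ K).toIntAlgHom
      have e : (MvPolynomial.C : K →+* MvPolynomial σ K).toIntAlgHom (d • a) =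
          (d : MvPolynomial σ K) * MvPolynomial.C a := by simp
      rw [e] at h1
      exact h1.tower_top
    | add p q hp hq =>
      obtain ⟨d, d0, hd⟩ := hp
      obtain ⟨e, e0, he⟩ := hq
      refine ⟨d * e, mul_ne_zero d0 e0, ?_⟩
      have := ((iz e).mul hd).add ((iz d).mul he)
      have e1 : ((d * e : ℤ) : MvPolynomial σ K) * (p + q) = e * (d * p) + d * (e * q) := by
        push_cast
        ring
      rwa [e1]
    | mul_X p i hp =>
      obtain ⟨d, d0, hd⟩ := hp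
      refine ⟨d, d0, ?_⟩
      have h1 : IsIntegral (ZP σ) (MvPolynomial.X i : MvPolynomial σ K) := by
        rw [← MvPolynomial.map_X (Int.castRingHom K)]
        exact isIntegral_algebraMap
      rw [← mul_assoc]
      exact hd.mul h1
  obtain ⟨d, d0, hd⟩ := key
  obtain ⟨F, hF, h0⟩ := (iz d).mul hd
  refine ⟨d.natAbs ^ 2, pow_pos (Int.natAbs_pos.2 d0) 2, F, hF, fun y => ?_⟩
  have h1 := congrArg (MvPolynomial.aeval y : MvPolynomial σ K →ₐ[K] ℂ).toRingHom h0
  rw [hom_eval₂, map_zero] at h1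
  have e1 : (MvPolynomial.aeval y : MvPolynomial σ K →ₐ[K] ℂ).toRingHom.comp
      (algebraMap (ZP σ) (MvPolynomial σ K)) = evZ y :=
    MvPolynomial.ringHom_ext (fun r => by simp) fun i => by
      change MvPolynomial.aeval y (φ _) = _
      simp [evZ, φ]
  have e2 : ((d.natAbs ^ 2 : ℕ) : ℂ) = d * d := by
    rw [← Int.cast_natCast, Nat.cast_pow, Int.natAbs_sq]
    push_cast
    ring
  rw [e1] at h1
  rw [e2, evP, coe_eval₂RingHom, ← h1]
  simp [mul_assoc]

end

end Pool.Agent.Lib.MP_5591bc_ag.J
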