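import Pool.Agent.Lib.MP_5591bc_ag.J.Cell
import Pool.Agent.Lib.MP_5591bc_ag.J.Elim

/-! Cells on a subvariety. -/

namespace Pool.Agent.Lib.MP_5591bc_ag.J

open Polynomial Metric Finset

noncomputable section

theorem vcell_le {Λ : ℕ} (h : 2 ≤ Λ) (k : ℕ) : k ≤ Λ ^ k :=
  k.lt_two_pow_self.le.trans (Nat.pow_le_pow_left h k)

theorem vcell_sz {σ : Type} (F : (ZP σ)[X]) : ∃ a, SzP a F := by
  have h : ∀ p : ZP σ, ∃ a, Sz a p := fun p =>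
    ⟨p.totalDegree + ∑ κ ∈ p.support, (p.coeff κ).natAbs, Nat.le_add_right _ _,
      (Nat.le_add_left _ _).trans Nat.lt_two_pow_self.le⟩
  choose a ha using h
  refine ⟨F.natDegree + ∑ i ∈ range (F.natDegree + 1), a (F.coeff i), Nat.le_add_right _ _,
    fun i => ?_⟩
  by_cases hi : i ≤ F.natDegree
  · exact (ha _).mono ((single_le_sum (f := fun i => a (F.coeff i)) (fun _ _ => Nat.zero_le _)
      (mem_range.2 (Nat.lt_succ_of_le hi))).trans (Nat.le_add_left _ _))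
  · rw [coeff_eq_zero_of_natDegree_lt (not_le.1 hi)]
    exact ⟨by simp, by simp⟩

variable {τ σ : Type}

theorem vcell_ne {f : (ZP τ)[X]} (h : QM f) : f ≠ 0 := by
  obtain ⟨c, c0, e⟩ := h
  rintro rfl
  rw [leadingCoeff_zero] at e
  exact c0 (MvPolynomial.C_eq_zero.1 e.symm)

theorem vcell_lc {f : (ZP τ)[X]} (h : QM f) (t : τ → ℂ) : evZ t f.leadingCoeff ≠ 0 := by
  obtain ⟨c, c0, e⟩ := h
  rw [e]
  simpa [evZ] using c0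

theorem vcell_rad {f g q : (ZP τ)[X]} {β : ZP τ} {N : ℕ} (e : f * q = C β * g ^ N) {t : τ → ℂ}
    {z : ℂ} (hβ : evZ t β ≠ 0) (h : evP t z f = 0) : evP t z g = 0 := by
  have := congrArg (evP t z) e
  rw [map_mul, map_mul, map_pow, h, zero_mul] at this
  have e1 : evP t z (C β) = evZ t β := by simp [evP]
  rw [e1] at this
  exact eq_zero_of_pow_eq_zero ((mul_eq_zero.1 this.symm).resolve_left hβ)

theorem vcell_root {g : (ZP τ)[X]} {t : τ → ℂ} {n : ℕ} {r : Fin n → ℂ}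
    (e : g.map (evZ t) = C (evZ t g.leadingCoeff) * ∏ j, (X - C (r j))) (hg : QM g) (z : ℂ) :
    evP t z g = 0 ↔ ∃ j, z = r j := by
  rw [evP_eq, e, eval_mul, eval_C, mul_eq_zero, or_iff_right (vcell_lc hg t), eval_prod,
    prod_eq_zero_iff]
  simp [sub_eq_zero]

variable [Fintype τ] [Fintype σ]

theorem vcell_th {Ψ : (τ → ℂ) → τ → ℂ} (h : AnalyticOnNhd ℂ Ψ (ball 0 40)) (L : ℕ) :
    AnalyticOnNhd ℂ (th L Ψ) (ball 0 40) := fun p hp =>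
  ((h p.1 (mem_ball_zero_iff.2 ((norm_fst_le p).trans_lt (mem_ball_zero_iff.1 hp)))).comp
    analyticAt_fst).add (analyticAt_snd.const_smul (c := ((2 : ℂ) ^ L)⁻¹))

theorem vcell_far {Ψ : (τ → ℂ) → τ → ℂ} {P : ZP τ} {a n L : ℕ} (hP : Sz a P)
    (h : ∀ u ∈ ball (0 : τ → ℂ) 40, ‖Ψ u‖ ≤ 2 ^ n ∧ (2 ^ n)⁻¹ ≤ ‖evZ (Ψ u) P‖)
    (hL : a * (n + 3) + n + 6 ≤ L) {p : (τ → ℂ) × (τ → ℂ)} (hp : p ∈ ball 0 40) :
    evZ (th L Ψ p) P ≠ 0 := by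
  rw [mem_ball_zero_iff] at hp
  obtain ⟨h1, h2⟩ := h p.1 (mem_ball_zero_iff.2 ((norm_fst_le p).trans_lt hp))
  have h3 : ‖Ψ p.1 - th L Ψ p‖ < (2 ^ (a * (n + 3)) * 2 ^ n)⁻¹ := by
    rw [th, sub_add_cancel_left, norm_neg, norm_smul, norm_inv, norm_pow, Complex.norm_ofNat,
      inv_mul_lt_iff₀ (by positivity), ← div_eq_mul_inv, lt_div_iff₀ (by positivity)]
    have h4 : (2 : ℝ) ^ (a * (n + 3) + n + 6) ≤ 2 ^ L := pow_le_pow_right₀ one_le_two hL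
    rw [pow_add, pow_add] at h4
    have h5 : (0 : ℝ) < 2 ^ (a * (n + 3)) * 2 ^ n := by positivity
    nlinarith [norm_snd_le p]
  have h6 : (1 : ℝ) ≤ 2 ^ n := one_le_pow₀ one_le_two
  have h7 : ((2 : ℝ) ^ (a * (n + 3)) * 2 ^ n)⁻¹ ≤ 1 :=
    inv_le_one_of_one_le₀ (one_le_mul_of_one_le_of_one_le (one_le_pow₀ one_le_two) h6)
  have h8 := hP.lip (n := n + 1) (t := Ψ p.1) (t' := th L Ψ p) (by rw [pow_succ]; linarith) (by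
    have := norm_sub_norm_le (th L Ψ p) (Ψ p.1)
    rw [norm_sub_rev] at this
    rw [pow_succ]
    linarith)
  intro e
  rw [e, sub_zero] at h8
  have h9 := (h2.trans h8).trans_lt (mul_lt_mul_of_pos_left h3 (by positivity))
  rw [mul_inv, mul_inv_cancel_left₀ (by positivity)] at h9
  exact lt_irrefl _ h9

theorem vcell_cel {L : ℕ} {G : σ → (ZP τ)[X]} {g : (ZP τ)[X]} {T : MvPolynomial σ ℂ}
    {Ψ : (τ → ℂ) → τ → ℂ} {y : (τ → ℂ) × (τ → ℂ) → σ → ℂ} (an : AnalyticOnNhd ℂ Ψ (ball 0 40))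
    (bd : ∀ a ∈ ball (0 : τ → ℂ) 40, ‖Ψ a‖ ≤ 2 ^ L) (ay : AnalyticOnNhd ℂ y (ball 0 40))
    (rt : ∀ p ∈ ball (0 : (τ → ℂ) × (τ → ℂ)) 40, ∀ l, evP (th L Ψ p) (y p l) (G l) = 0)
    (ne : ∀ p ∈ ball (0 : (τ → ℂ) × (τ → ℂ)) 40,
      (∀ l, evZ (th L Ψ p) (dsc (G l)) ≠ 0) ∧ evZ (th L Ψ p) (dsc g) ≠ 0)
    (tr : ∀ p ∈ ball (0 : (τ → ℂ) × (τ → ℂ)) 40,
      evP (th L Ψ p) (MvPolynomial.eval (y p) T) g = 0)
    (g0 : 0 < g.natDegree) (g1 : g.coeff 0 = 0) (hg : QM g) {p₀ : (τ → ℂ) × (τ → ℂ)}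
    (m0 : p₀ ∈ ball 0 40) (t0 : MvPolynomial.eval (y p₀) T ≠ 0) : Cel L G g T Ψ y := by
  have z : ∀ t : τ → ℂ, evP t 0 g = 0 := fun t => by
    rw [evP, coe_eval₂RingHom, eval₂_at_zero, g1, map_zero]
  refine ⟨an, bd, ay, rt, fun p hp => ?_, tr, ?_⟩
  · rw [den, map_mul, map_prod]
    refine mul_ne_zero (prod_ne_zero_iff.2 fun l _ => (ne p hp).1 l) ?_
    have := dsc_ne g0 (z _) (ne p hp).2
    rw [evP, coe_eval₂RingHom, eval₂_at_zero, coeff_derivative] at this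
    simpa using this
  · obtain ⟨r, r1, r2⟩ := rootsZ g0 (vcell_th an L) fun p hp => by
      rw [map_mul]; exact mul_ne_zero (vcell_lc hg _) (ne p hp).2
    obtain ⟨i, hi⟩ := roots_pick (f := fun p => MvPolynomial.eval (y p) T) (by norm_num) r1
      (fun p hp => (AnalyticOnNhd.eval_mvPolynomial T _ (Set.mem_univ _)).comp (ay p hp))
      fun p hp => (vcell_root (r2 p hp).2 hg _).1 (tr p hp)
    obtain ⟨j, hj⟩ := roots_pick (f := fun _ => 0) (by norm_num) r1 analyticOnNhd_const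
      fun p hp => (vcell_root (r2 p hp).2 hg _).1 (z _)
    intro p hp e
    have : i = j := (r2 p hp).1 ((hi p hp).symm.trans (e.trans (hj p hp)))
    exact t0 ((hi p₀ m0).trans (this ▸ (hj p₀ m0).symm))

omit [Fintype τ] [Fintype σ] in
theorem vcell (τ σ : Type) [Fintype τ] [Fintype σ] (T : MvPolynomial σ ℂ) {F : (ZP σ)[X]}
    (hF : F.Monic) (h0 : ∀ y : σ → ℂ, evP y (MvPolynomial.eval y T) F = 0) : ∃ c : ℕ, ∀ Λ : ℕ,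
    2 ≤ Λ → ∀ Q : σ → (ZP τ)[X], (∀ l, QM (Q l) ∧ SzP Λ (Q l)) →
      ∃ (G : σ → (ZP τ)[X]) (g : (ZP τ)[X]) (T' : ZP τ), T' ≠ 0 ∧ Sz (Λ ^ c) T' ∧
        (∀ l, QM (G l) ∧ 0 < (G l).natDegree ∧ SzP (Λ ^ c) (G l)) ∧ g.coeff 0 = 0 ∧
        ∀ Λ' : ℕ, Λ ≤ Λ' →
          ∃ 𝒞 : Finset (((τ → ℂ) → τ → ℂ) × ((τ → ℂ) × (τ → ℂ) → σ → ℂ)), #𝒞 ≤ Λ' ^ c ∧
            (∀ D ∈ 𝒞, Cel (Λ' ^ c) G g T D.1 D.2) ∧
            ∀ (t : τ → ℂ) (x : σ → ℂ), ‖t‖ ≤ 2 ^ Λ' → (2 ^ Λ')⁻¹ ≤ ‖evZ t T'‖ →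
              (∀ l, evP t (x l) (Q l) = 0) → MvPolynomial.eval x T ≠ 0 →
              ∃ D ∈ 𝒞, ∃ a, ‖a‖ ≤ 1 ∧ D.1 a = t ∧ D.2 (a, 0) = x := by
  classical
  obtain ⟨c1, h1⟩ := radZ τ
  obtain ⟨c2, h2⟩ := elims σ
  obtain ⟨c3, h3⟩ := pcell τ
  obtain ⟨a0, ha0⟩ := vcell_sz F
  obtain ⟨k, hk⟩ : ∃ k, k = Fintype.card σ := ⟨_, rfl⟩
  obtain ⟨e1, he1⟩ : ∃ e, e = c1 + a0 + 1 := ⟨_, rfl⟩
  obtain ⟨e3, he3⟩ : ∃ e, e = e1 * (c2 + 1) * c1 + e1 := ⟨_, rfl⟩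
  obtain ⟨e4, he4⟩ : ∃ e, e = 9 * (k + 1) + 2 * e3 := ⟨_, rfl⟩
  obtain ⟨c, hc⟩ : ∃ e, e = 11 + (e4 + e4 * c3) + ((e4 + 40) * c3 + e3 * k) + e3 := ⟨_, rfl⟩
  refine ⟨c, fun Λ hΛ Q hQ => ?_⟩
  have pw : ∀ {M a b : ℕ}, 2 ≤ M → a ≤ b → M ^ a ≤ M ^ b := fun h e =>
    Nat.pow_le_pow_right (by omega) e
  have two : ∀ {M a : ℕ}, 2 ≤ M → 1 ≤ a → 2 ≤ M ^ a := fun h e =>
    h.trans ((pow_one _).symm.trans_le (pw h e))
  choose G q β N G0 G1 β0 d0 eG _ sG _ sβ mG using fun l =>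
    h1 Λ hΛ (Q l) (vcell_ne (hQ l).1) (hQ l).2
  obtain ⟨R, mR, sR, hR⟩ := h2 τ (Λ ^ e1) (two hΛ (by omega)) G F
    (fun l => ⟨mG l (hQ l).1, (sG l).mono (pw hΛ (by omega))⟩) ⟨1, one_ne_zero, by simp [hF]⟩
    (ha0.mono ((vcell_le hΛ a0).trans (pw hΛ (by omega))))
  obtain ⟨g, q', β', N', g0, g1, β1, d1, eg, -, sg, -, sβ', mg⟩ := h1 (Λ ^ (e1 * (c2 + 1)))
    (two hΛ (Nat.mul_pos (by omega) (by omega))) R (vcell_ne mR)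
    (sR.mono (by rw [← pow_mul]; exact pw hΛ (Nat.mul_le_mul_left _ (by omega))))
  rw [← pow_mul] at sg sβ'
  have l1 : Λ ^ c1 ≤ Λ ^ e3 := pw hΛ (by omega)
  have l2 : Λ ^ (e1 * (c2 + 1) * c1) ≤ Λ ^ e3 := pw hΛ (by omega)
  have sT : Sz (Λ ^ e4) ((∏ l, (dsc (G l) * β l)) * (dsc g * β')) := by
    refine ((Sz.prod fun l _ => ((sG l).mono l1).dsc.mul ((sβ l).mono l1)).mul
      ((sg.mono l2).dsc.mul (sβ'.mono l2))).mono ?_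
    rw [card_univ, ← hk, he4, pow_add, mul_comm 2, pow_mul Λ e3]
    refine le_trans ?_ (Nat.mul_le_mul_right _ (vcell_le hΛ _))
    nlinarith [Nat.le_self_pow two_ne_zero (Λ ^ e3)]
  obtain ⟨T', T0, sT', hT'⟩ := h3 (Λ ^ e4) (two hΛ (by omega)) _ (mul_ne_zero
    (prod_ne_zero_iff.2 fun l _ => mul_ne_zero (d0 l) (β0 l)) (mul_ne_zero d1 β1)) sT
  refine ⟨G, g, T', T0, sT'.mono (by rw [← pow_mul]; exact pw hΛ (by omega)), fun l =>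
    ⟨mG l (hQ l).1, G0 l, (sG l).mono (l1.trans (pw hΛ (by omega)))⟩, g1, fun Λ' hΛ' => ?_⟩
  have h2' : 2 ≤ Λ' := hΛ.trans hΛ'
  have l3 : Λ ^ e4 ≤ Λ' ^ e4 := Nat.pow_le_pow_left hΛ' _
  obtain ⟨𝒞, n𝒞, b𝒞, c𝒞⟩ := hT' (Λ' ^ e4) 40 l3 (by norm_num)
  rw [Nat.cast_ofNat] at b𝒞
  have l4 : Λ ^ e4 * ((Λ' ^ e4) ^ c3 + 3) + (Λ' ^ e4) ^ c3 + 6 ≤ Λ' ^ c := by
    refine le_trans ?_ (pw (a := 11 + (e4 + e4 * c3)) h2' (by omega))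
    rw [pow_add, pow_add, pow_mul]
    refine le_trans ?_ (Nat.mul_le_mul_right _ (vcell_le h2' _))
    have a1 : 1 ≤ Λ' ^ e4 := Nat.one_le_pow _ _ (by omega)
    have a2 : 1 ≤ (Λ' ^ e4) ^ c3 := Nat.one_le_pow _ _ a1
    nlinarith
  have far : ∀ Ψ ∈ 𝒞, ∀ p ∈ ball (0 : (τ → ℂ) × (τ → ℂ)) 40,
      (∀ l, evZ (th (Λ' ^ c) Ψ p) (dsc (G l)) ≠ 0 ∧ evZ (th (Λ' ^ c) Ψ p) (β l) ≠ 0) ∧
        evZ (th (Λ' ^ c) Ψ p) (dsc g) ≠ 0 ∧ evZ (th (Λ' ^ c) Ψ p) β' ≠ 0 := fun Ψ hΨ p hp => by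
    simpa only [map_mul, map_prod, mul_ne_zero_iff, prod_ne_zero_iff, mem_univ, forall_true_left]
      using vcell_far sT (b𝒞 Ψ hΨ).2 l4 hp
  choose! r r1 r2 using fun Ψ (hΨ : Ψ ∈ 𝒞) l => rootsZ (G0 l) (vcell_th (b𝒞 Ψ hΨ).1 (Λ' ^ c))
    fun p hp => by
      rw [map_mul]; exact mul_ne_zero (vcell_lc (mG l (hQ l).1) _) ((far Ψ hΨ p hp).1 l).1
  refine ⟨((𝒞 ×ˢ (univ : Finset (∀ l, Fin (G l).natDegree))).image fun z =>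
    (z.1, fun p l => r z.1 l (z.2 l) p)).filter fun D => Cel (Λ' ^ c) G g T D.1 D.2, ?_,
    fun D hD => (mem_filter.1 hD).2, fun t x ht hT hx hx' => ?_⟩
  · refine (card_filter_le _ _).trans (card_image_le.trans ?_)
    refine le_trans ?_ (pw (a := (e4 + 40) * c3 + e3 * k) h2' (by omega))
    rw [card_product, card_univ, Fintype.card_pi, pow_add, pow_mul, pow_mul, pow_add]
    refine Nat.mul_le_mul (n𝒞.trans (Nat.pow_le_pow_left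
      (Nat.mul_le_mul_left _ (vcell_le h2' _)) _)) ?_
    rw [hk, ← card_univ]
    exact prod_le_pow_card _ _ _ fun l _ => by
      rw [Fintype.card_fin]
      exact (sG l).1.trans (l1.trans (Nat.pow_le_pow_left hΛ' _))
  · have l5 : (2 : ℝ) ^ Λ' ≤ 2 ^ Λ' ^ e4 :=
      pow_le_pow_right₀ one_le_two (Nat.le_self_pow (by omega) _)
    obtain ⟨Ψ, hΨ, a, ha, e⟩ := c𝒞 t (ht.trans l5) ((inv_anti₀ (by positivity) l5).trans hT)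
    have m : (a, (0 : τ → ℂ)) ∈ ball (0 : (τ → ℂ) × (τ → ℂ)) 40 := by
      rw [mem_ball_zero_iff, Prod.norm_mk, norm_zero]
      exact max_lt (by linarith) (by norm_num)
    have e' : th (Λ' ^ c) Ψ (a, 0) = t := by simp [th, e]
    choose j hj using fun l => (vcell_root (r2 Ψ hΨ l _ m).2 (mG l (hQ l).1) (x l)).1
      (vcell_rad (eG l) ((far Ψ hΨ _ m).1 l).2 (e' ▸ hx l))
    have ex : (fun l => r Ψ l (j l) (a, 0)) = x := funext fun l => (hj l).symm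
    have rt : ∀ p ∈ ball (0 : (τ → ℂ) × (τ → ℂ)) 40, ∀ l,
        evP (th (Λ' ^ c) Ψ p) (r Ψ l (j l) p) (G l) = 0 := fun p hp l =>
      (vcell_root (r2 Ψ hΨ l p hp).2 (mG l (hQ l).1) _).2 ⟨_, rfl⟩
    refine ⟨(Ψ, fun p l => r Ψ l (j l) p), mem_filter.2 ⟨mem_image.2
      ⟨(Ψ, j), mem_product.2 ⟨hΨ, mem_univ _⟩, rfl⟩, ?_⟩, a, ha, e, ex⟩
    exact vcell_cel (b𝒞 Ψ hΨ).1 (fun u hu => ((b𝒞 Ψ hΨ).2 u hu).1.trans
      (pow_le_pow_right₀ one_le_two (by omega)))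
      (fun p hp => analyticAt_pi_iff.2 fun l => r1 Ψ hΨ l _ p hp) rt
      (fun p hp => ⟨fun l => ((far Ψ hΨ p hp).1 l).1, (far Ψ hΨ p hp).2.1⟩)
      (fun p hp => vcell_rad eg (far Ψ hΨ p hp).2.2 (hR _ _ _ (rt p hp) (h0 _))) g0 g1 (mg mR) m
      (fun c => hx' (ex ▸ c))

end

end Pool.Agent.Lib.MP_5591bc_ag.J
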