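import Pool.Agent.Lib.MP_5591bc_ag.J.SetB
import Pool.Agent.Lib.MP_5591bc_ag.J.VCell
import Pool.Agent.Lib.MP_5591bc_ag.J.Desc
import Pool.Agent.Lib.MP_5591bc_ag.J.Int
import Pool.Agent.Lib.MP_5591bc_ag.M.Hyp

/-! Induction on the dimension. -/

namespace Pool.Agent.Lib.MP_5591bc_ag.J

open W M

noncomputable section

theorem main_cel {τ σ : Type*} [Fintype τ] [Fintype σ] {Λ Λ' : ℕ} {G : σ → Polynomial (ZP τ)}
    {g : Polynomial (ZP τ)} {T : MvPolynomial σ ℂ} {Ψ : (τ → ℂ) → τ → ℂ}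
    {y : (τ → ℂ) × (τ → ℂ) → σ → ℂ} (h : Cel Λ G g T Ψ y) (k : Λ ≤ Λ') :
    ∃ y', Cel Λ' G g T Ψ y' ∧ ∀ a, y' (a, 0) = y (a, 0) := by
  obtain ⟨j, rfl⟩ := Nat.exists_eq_add_of_le k
  let f : (τ → ℂ) × (τ → ℂ) → (τ → ℂ) × (τ → ℂ) := fun p => (p.1, ((2 : ℂ) ^ j)⁻¹ • p.2)
  have fm : ∀ p ∈ Metric.ball (0 : (τ → ℂ) × (τ → ℂ)) 40, f p ∈ Metric.ball 0 40 := fun p hp => by
    rw [mem_ball_zero_iff, Prod.norm_def, max_lt_iff] at hp ⊢
    refine ⟨hp.1, lt_of_le_of_lt ?_ hp.2⟩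
    rw [norm_smul, norm_inv, norm_pow, Complex.norm_ofNat]
    exact mul_le_of_le_one_left (norm_nonneg _) (inv_le_one_of_one_le₀ (one_le_pow₀ one_le_two))
  have ft : ∀ p, th (Λ + j) Ψ p = th Λ Ψ (f p) := fun p => by
    simp only [th, f, smul_smul, pow_add, mul_inv]
  refine ⟨fun p => y (f p), ⟨h.an, fun a ha => (h.bd a ha).trans (pow_le_pow_right₀ one_le_two k),
    fun p hp => (h.ay _ (fm p hp)).comp (analyticAt_fst.prod analyticAt_snd.fun_const_smul),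
    fun p hp l => ft p ▸ h.rt _ (fm p hp) l, fun p hp => ft p ▸ h.ne _ (fm p hp),
    fun p hp => ft p ▸ h.tr _ (fm p hp), fun p hp => h.tn _ (fm p hp)⟩, fun a => ?_⟩
  simp only [f, smul_zero]

open scoped Classical in
theorem main_root {τ σ : Type*} [Fintype σ] {Λ : ℕ} {Q : σ → Polynomial (ZP τ)}
    (hQ : ∀ l, QM (Q l) ∧ SzP Λ (Q l)) (t : τ → ℂ) {S : Finset (σ → ℂ)}
    (h : ∀ x ∈ S, ∀ l, evP t (x l) (Q l) = 0) : S.card ≤ Λ ^ Fintype.card σ := by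
  have h0 : ∀ l, (Q l).map (evZ t) ≠ 0 := fun l e => by
    obtain ⟨c, c0, hc⟩ := (hQ l).1
    have := congrArg (Polynomial.coeff · (Q l).natDegree) e
    simp only [Polynomial.coeff_map, Polynomial.coeff_natDegree, hc, Polynomial.coeff_zero, evZ,
      eq_intCast, map_intCast, Int.cast_eq_zero] at this
    exact c0 this
  refine (Finset.card_le_card (t := Fintype.piFinset fun l => ((Q l).map (evZ t)).roots.toFinset)
    fun x hx => ?_).trans ?_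
  · refine Fintype.mem_piFinset.2 fun l => Multiset.mem_toFinset.2 ?_
    rw [Polynomial.mem_roots (h0 l), Polynomial.IsRoot, ← evP_eq]
    exact h x hx l
  · rw [Fintype.card_piFinset, ← Finset.card_univ]
    exact Finset.prod_le_pow_card _ _ _ fun l _ => (Multiset.toFinset_card_le _).trans
      ((Polynomial.card_roots' _).trans (Polynomial.natDegree_map_le.trans (hQ l).2.1))

section
variable {σ K τ : Type} [Field K] [Algebra K ℂ]
  {Bad : ∀ E : IntermediateField K ℂ, (σ → E) → Prop} {Λ Λ' : ℕ} {x : σ → ℂ} {t : τ → ℂ}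

theorem main_mono (h : PtA Bad Λ x t) (k : Λ ≤ Λ') : PtA Bad Λ' x t := by
  obtain ⟨E, _, y, u, h1, h2, h3, h4, h5, h6⟩ := h
  have e : (2 : ℝ) ^ Λ ≤ 2 ^ Λ' := pow_le_pow_right₀ one_le_two k
  exact ⟨E, _, y, u, h1, h2, h3.trans k, fun l => (h4 l).mono e, fun i => (h5 i).mono e, h6⟩

theorem main_ar (h : PtA Bad Λ x t) : Ar Λ t := by
  obtain ⟨E, _, y, u, -, h2, h3, -, h5, -⟩ := h
  exact ⟨E, _, _, algebraMap E ℂ, u, h3, h5, h2⟩

theorem main_shear (τ : Type) [Fintype τ] : ∃ c : ℕ, ∀ {σ K : Type} [Field K] [Algebra K ℂ]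
    (Bad : ∀ E : IntermediateField K ℂ, (σ → E) → Prop) (Λ : ℕ), 2 ≤ Λ → ∀ s : τ → ℤ,
    (∀ i, (s i).natAbs ≤ Λ) → ∀ (x : σ → ℂ) (t : Option τ → ℂ), PtA Bad Λ x t →
      PtA Bad (Λ ^ (c + 1)) x fun i => t (some i) - s i * t none := by
  obtain ⟨c, hc⟩ := ht_ev (Option τ)
  refine ⟨2 * c, fun Bad Λ h2 s hs x t ⟨E, _, y, u, h1, h2', h3, h4, h5, h6⟩ => ?_⟩
  have k1 : Λ ≤ Λ ^ (2 * c + 1) := Nat.le_self_pow (by omega) _
  have k2 : Λ + 2 ≤ Λ ^ 2 := by nlinarith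
  refine ⟨E, _, y, fun i => u (some i) - s i * u none, h1, ?_, h3.trans k1,
    fun l => (h4 l).mono (pow_le_pow_right₀ one_le_two k1), fun i => ?_, h6⟩
  · subst h2'
    funext i
    simp [pc]
  · have h7 := hc (Λ ^ 2) (by omega) E u _ (fun i => (h5 i).mono (pow_le_pow_right₀ one_le_two
      (by omega))) ((((Sz.X (some i)).mono (by omega : 1 ≤ Λ + 1)).add
        ((Sz.C ((hs i).trans Nat.lt_two_pow_self.le)).mul (Sz.X none)).neg).mono k2)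
    rw [← sub_eq_add_neg] at h7
    simp only [evZ, map_sub, map_mul, MvPolynomial.eval₂Hom_X', eq_intCast, map_intCast] at h7
    refine h7.mono (pow_le_pow_right₀ one_le_two ?_)
    rw [← pow_mul]
    exact Nat.pow_le_pow_right (by omega) (by omega)

end

theorem main_add {Λ : ℕ} (h : 2 ≤ Λ) (a b : ℕ) : Λ ^ a + Λ ^ b ≤ Λ ^ (a + b + 1) := by
  have h1 : Λ ^ a ≤ Λ ^ (a + b) := Nat.pow_le_pow_right (by omega) (by omega)
  have h2 : Λ ^ b ≤ Λ ^ (a + b) := Nat.pow_le_pow_right (by omega) (by omega)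
  have h3 := Nat.mul_le_mul_left (Λ ^ (a + b)) h
  rw [pow_succ]
  omega

open scoped Classical in
/-- few points, and points over a hypersurface -/
theorem main_hyp {σ K : Type} [Fintype σ] [Field K] [NumberField K] [Algebra K ℂ]
    (T : MvPolynomial σ K) (τ : Type) [Fintype τ] (c : ℕ) : ∃ c' : ℕ,
    ∀ (Bad : ∀ E : IntermediateField K ℂ, (σ → E) → Prop) (r : ℕ), CellP T Bad τ r c →
      ∀ Λ : ℕ, 2 ≤ Λ → r ≤ Λ → ∀ Q : σ → Polynomial (ZP τ), (∀ l, QM (Q l) ∧ SzP Λ (Q l)) →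
      ∀ S : Finset ((σ → ℂ) × (τ → ℂ)), (∀ p ∈ S, (∀ l, evP p.2 (p.1 l) (Q l) = 0) ∧
        MvPolynomial.aeval p.1 T ≠ 0 ∧ PtA Bad Λ p.1 p.2) → ∃ X : Finset (σ → ℂ),
        X.card ≤ Λ ^ c' ∧ Hyp {t | ∃ p ∈ S, p.1 ∉ X ∧ p.2 = t} (Λ ^ c') := by
  obtain ⟨d, d0, F, F1, F2⟩ := elim_int T
  have ev : ∀ y : σ → ℂ, MvPolynomial.eval y (TM ℂ ((d : MvPolynomial σ K) * T)) =
      d * MvPolynomial.aeval y T := fun y => by
    rw [MvPolynomial.eval_map, ← MvPolynomial.aeval_def, map_mul, map_natCast]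
  obtain ⟨c1, h1⟩ := vcell τ σ (TM ℂ ((d : MvPolynomial σ K) * T)) F1 fun y => ev y ▸ F2 y
  obtain ⟨c2, h2⟩ := liou τ
  obtain ⟨e, he⟩ : ∃ e, e = (c1 + 1) * (c2 + 1) := ⟨_, rfl⟩
  refine ⟨e * c1 + e * (c1 + 1) * c + c1 + 1, fun Bad r hC Λ L2 Lr Q hQ S hS => ?_⟩
  have pw : ∀ {a b}, a ≤ b → Λ ^ a ≤ Λ ^ b := Nat.pow_le_pow_right (by omega)
  have p1 : ∀ {a}, 1 ≤ a → Λ ≤ Λ ^ a := fun h => Nat.le_self_pow (by omega) _
  have e1 : c1 + 1 ≤ e := by nlinarith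
  have e2 : e ≤ e * (c1 + 1) := Nat.le_mul_of_pos_right _ (by omega)
  obtain ⟨G, g, T', T0, T1, hG, g0, h3⟩ := h1 Λ L2 Q hQ
  obtain ⟨𝒞, C1, C2, C3⟩ := h3 (Λ ^ e) (p1 (by omega))
  rw [← pow_mul] at C1 C2
  have ex : ∀ p ∈ S, evZ p.2 T' ≠ 0 → ∃ D ∈ 𝒞, ∃ a, ‖a‖ ≤ 1 ∧ D.1 a = p.2 ∧ D.2 (a, 0) = p.1 := by
    intro p hp h
    have a := main_ar (hS p hp).2.2
    refine C3 _ _ (a.mono (p1 (a := e) (by omega))).norm_le ?_ (hS p hp).1
      (by rw [ev]; exact mul_ne_zero (Nat.cast_ne_zero.2 d0.ne') (hS p hp).2.1)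
    refine le_trans ?_ (h2 (Λ ^ (c1 + 1)) (L2.trans (p1 (by omega))) _ _ (a.mono (p1 (by omega)))
      (T1.mono (pw (by omega))) h)
    rw [← pow_mul]
    exact inv_anti₀ (by positivity) (pow_le_pow_right₀ one_le_two (pw (by nlinarith)))
  choose! D hD a a1 a2 a3 using ex
  let A : _ → Finset (τ → ℂ) := fun E => (S.filter fun p => evZ p.2 T' ≠ 0 ∧ D p = E).image a
  have key : ∀ E ∈ 𝒞, (∃ x, ∀ b ∈ A E, E.2 (b, 0) = x) ∨
      Hyp (((A E).image E.1 : Finset _) : Set (τ → ℂ)) (Λ ^ (e * (c1 + 1) * c)) := fun E hE => by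
    obtain ⟨y, y1, y2⟩ := main_cel (C2 E hE) (pw (by nlinarith : e * c1 ≤ e * (c1 + 1)))
    have k : Λ ≤ Λ ^ (e * (c1 + 1)) := p1 (by omega)
    refine (hC _ (L2.trans k) (Lr.trans k) _ G g _ y (fun l => ⟨(hG l).1, (hG l).2.1,
      (hG l).2.2.mono (pw (by omega))⟩) g0 y1 (A E) fun b hb => ?_).imp (fun h => ?_) fun h => ?_
    · obtain ⟨p, hp, rfl⟩ := Finset.mem_image.1 hb
      obtain ⟨p1, p2, rfl⟩ := Finset.mem_filter.1 hp
      rw [y2, a2 p p1 p2, a3 p p1 p2]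
      exact ⟨a1 p p1 p2, main_mono (hS p p1).2.2 k⟩
    · rcases (A E).eq_empty_or_nonempty with h0 | ⟨b, hb⟩
      · exact ⟨0, by simp [h0]⟩
      · exact ⟨E.2 (b, 0), fun b' hb' => by rw [← y2, ← y2]; exact h b' hb' b hb⟩
    · rwa [Finset.coe_image, pow_mul]
  let 𝒜 := 𝒞.filter fun E => ∃ x, ∀ b ∈ A E, E.2 (b, 0) = x
  have key2 : ∀ E ∈ 𝒜, ∃ x, ∀ b ∈ A E, E.2 (b, 0) = x := fun E hE => (Finset.mem_filter.1 hE).2
  choose! X hX using key2
  refine ⟨𝒜.image X, (Finset.card_image_le.trans ((Finset.card_filter_le _ _).trans C1)).trans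
    (pw (by omega)), ?_⟩
  have H1 : Hyp {t : τ → ℂ | evZ t T' = 0} (Λ ^ c1) :=
    ⟨MvPolynomial.map (Int.castRingHom ℂ) T', (map_ne_zero_iff _
      (MvPolynomial.map_injective _ Int.cast_injective)).2 T0,
      (Finset.sup_mono (MvPolynomial.support_map_subset _ _)).trans T1.1,
      fun t ht => by rwa [← evZ_eq]⟩
  have H2 := Hyp.cover (A := {t | ∃ E ∈ 𝒞 \ 𝒜, t ∈ (A E).image E.1})
    (Cs := (𝒞 \ 𝒜).image fun E => (A E).image E.1) (n := Λ ^ (e * (c1 + 1) * c)) (fun B hB => by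
      obtain ⟨E, hE, rfl⟩ := Finset.mem_image.1 hB
      obtain ⟨h4, h5⟩ := Finset.mem_sdiff.1 hE
      exact (key E h4).resolve_left fun h => h5 (Finset.mem_filter.2 ⟨h4, h⟩))
    fun t ⟨E, hE, ht⟩ => ⟨_, Finset.mem_image_of_mem _ hE, ht⟩
  refine (H2.union H1).mono ?_ (le_trans (Nat.add_le_add_right ?_ _) (main_add L2 _ _))
  · rintro _ ⟨p, hp, hx, rfl⟩
    refine (em (evZ p.2 T' = 0)).symm.imp (fun h => ?_) id
    have m : a p ∈ A (D p) := Finset.mem_image_of_mem _ (Finset.mem_filter.2 ⟨hp, h, rfl⟩)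
    refine ⟨D p, Finset.mem_sdiff.2 ⟨hD p hp h, fun h4 => hx ?_⟩,
      a2 p hp h ▸ Finset.mem_image_of_mem _ m⟩
    rw [← a3 p hp h, hX _ h4 _ m]
    exact Finset.mem_image_of_mem _ h4
  · rw [pow_add]
    exact Nat.mul_le_mul_right _ ((Finset.card_image_le.trans
      (Finset.card_le_card Finset.sdiff_subset)).trans C1)

open scoped Classical in
theorem cntA {σ K : Type} [Fintype σ] [Field K] [NumberField K] [Algebra K ℂ]
    (T : MvPolynomial σ K) (c : ℕ → ℕ) (m : ℕ) : ∃ c' : ℕ,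
    ∀ (Bad : ∀ E : IntermediateField K ℂ, (σ → E) → Prop) (r : ℕ),
      (∀ j, CellP T Bad (OT j) r (c j)) → ∀ Λ : ℕ, 2 ≤ Λ → r ≤ Λ →
      ∀ Q : σ → Polynomial (ZP (OT m)), (∀ l, QM (Q l) ∧ SzP Λ (Q l)) →
      ∀ S : Finset ((σ → ℂ) × (OT m → ℂ)), (∀ p ∈ S, (∀ l, evP p.2 (p.1 l) (Q l) = 0) ∧
        MvPolynomial.aeval p.1 T ≠ 0 ∧ PtA Bad Λ p.1 p.2) →
        (S.image Prod.fst).card ≤ Λ ^ c' := by
  induction m with
  | zero =>
    refine ⟨Fintype.card σ, fun Bad r _ Λ _ _ Q hQ S hS => main_root hQ (fun _ => 0) ?_⟩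
    intro x hx l
    obtain ⟨p, hp, rfl⟩ := Finset.mem_image.1 hx
    rw [← (hS p hp).1 l]
    congr 2
    exact funext fun i => PEmpty.elim i
  | succ m ih =>
    obtain ⟨c0, h0⟩ := ih
    obtain ⟨c1, h1⟩ := main_hyp T (Option (OT m)) (c (m + 1))
    obtain ⟨c2, h2⟩ := intH (Option (OT m))
    obtain ⟨c3, h3⟩ := desc (OT m)
    obtain ⟨c4, h4⟩ := main_shear (OT m)
    obtain ⟨e, he⟩ : ∃ e, e = (c1 + 1) * (c2 + 1) := ⟨_, rfl⟩
    obtain ⟨f, hf⟩ : ∃ f, f = e * (c3 + c4 + 1) := ⟨_, rfl⟩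
    refine ⟨c1 + f * c0 + 1, fun Bad r hC Λ L2 Lr Q hQ S hS => ?_⟩
    have pw : ∀ {a b}, a ≤ b → Λ ^ a ≤ Λ ^ b := Nat.pow_le_pow_right (by omega)
    have p1 : ∀ {a}, 1 ≤ a → Λ ≤ Λ ^ a := fun h => Nat.le_self_pow (by omega) _
    have e1 : 1 ≤ e := by nlinarith
    have f1 : 1 ≤ f := by nlinarith
    obtain ⟨X, X1, X2⟩ := h1 Bad r (hC (m + 1)) Λ L2 Lr Q hQ S hS
    obtain ⟨Θ, t0, t1, t2⟩ := h2 (Λ ^ (c1 + 1)) (L2.trans (p1 (by omega))) _ (by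
      rintro _ ⟨p, hp, -, rfl⟩
      exact (main_ar (hS p hp).2.2).mono (p1 (by omega))) (X2.mono le_rfl (pw (by omega)))
    rw [← pow_mul] at t1
    obtain ⟨s, s1, s2⟩ := h3 (Λ ^ e) (L2.trans (p1 e1)) Θ t0 (t1.mono (pw (by nlinarith)))
    choose Q' q1 q2 q3 using fun l => s2 (Q l) (hQ l).1 ((hQ l).2.mono (p1 e1))
    have h5 := h0 Bad r hC (Λ ^ f) (L2.trans (p1 f1)) (Lr.trans (p1 f1)) Q'
      (fun l => ⟨q1 l, (q2 l).mono (by rw [← pow_mul]; exact pw (by nlinarith))⟩)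
      ((S.filter fun p => p.1 ∉ X).image fun p => (p.1, fun i => p.2 (some i) - s i * p.2 none))
      fun p' hp' => by
        obtain ⟨p, hp, rfl⟩ := Finset.mem_image.1 hp'
        obtain ⟨hp, hx⟩ := Finset.mem_filter.1 hp
        exact ⟨fun l => q3 l _ _ (t2 _ ⟨p, hp, hx, rfl⟩) ((hS p hp).1 l), (hS p hp).2.1,
          main_mono (h4 Bad _ (L2.trans (p1 e1)) s s1 _ _ (main_mono (hS p hp).2.2 (p1 e1)))
            (by rw [← pow_mul]; exact pw (by nlinarith))⟩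
    rw [← pow_mul] at h5
    refine le_trans ?_ ((Nat.add_le_add X1 h5).trans (main_add L2 _ _))
    refine le_trans (Finset.card_le_card fun x hx => ?_) (Finset.card_union_le _ _)
    obtain ⟨p, hp, rfl⟩ := Finset.mem_image.1 hx
    exact Finset.mem_union.2 ((em _).imp id fun h => Finset.mem_image.2
      ⟨_, Finset.mem_image_of_mem _ (Finset.mem_filter.2 ⟨hp, h⟩), rfl⟩)

theorem main_card (m : ℕ) : Fintype.card (OT m) = m := by
  induction m with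
  | zero => rfl
  | succ m ih => exact Fintype.card_option.trans (by rw [ih])

/-- start with `t = x`, and pass to a real height -/
theorem cntB {σ K : Type} [Fintype σ] [Field K] [NumberField K] [Algebra K ℂ]
    (T : MvPolynomial σ K) (c : ℕ → ℕ) (r : ℕ) : ∃ C : ℕ,
    ∀ Bad : ∀ E : IntermediateField K ℂ, (σ → E) → Prop, (∀ j, CellP T Bad (OT j) r (c j)) →
      ∀ (d : ℕ) (H : ℝ), 2 ≤ H → ∀ S : Finset (σ → ℂ), (∀ t ∈ S, MvPolynomial.aeval t T ≠ 0 ∧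
        (∀ j, ∃ q : Polynomial ℤ, q ≠ 0 ∧ (∀ i, |(q.coeff i : ℝ)| ≤ H) ∧
          Polynomial.aeval (t j) q = 0) ∧
        ∃ (E : IntermediateField K ℂ) (x : σ → E), pc x = t ∧ FiniteDimensional ℚ E ∧
          Module.finrank ℚ E ≤ d ∧ Bad E x) → (S.card : ℝ) ≤ (C * d * Real.log H) ^ C := by
  classical
  obtain ⟨c', hc⟩ := cntA T c (Fintype.card σ)
  let e : OT (Fintype.card σ) ≃ σ := Fintype.equivOfCardEq (main_card _)
  refine ⟨8 * (r + 2) + c', fun Bad hC d H H2 S hS => ?_⟩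
  have l0 := Real.log_two_gt_d9
  have l2 : Real.log 2 ≤ Real.log H := Real.log_le_log two_pos H2
  rcases Nat.eq_zero_or_pos d with rfl | d0
  · rcases S.eq_empty_or_nonempty with rfl | ⟨t, ht⟩
    · exact Nat.cast_zero.trans_le (pow_nonneg (by simp) _)
    · obtain ⟨-, -, E, x, -, _, hd, -⟩ := hS t ht
      exact absurd Module.finrank_pos (not_lt.2 hd)
  obtain ⟨L, L0, L1, L2⟩ : ∃ L : ℕ, 0 < L ∧ H ≤ 2 ^ L ∧ (L : ℝ) ≤ 4 * Real.log H := by
    refine ⟨⌈2 * Real.log H⌉₊, Nat.ceil_pos.2 (by linarith), ?_, ?_⟩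
    · rw [← Real.log_le_log_iff (by linarith) (by positivity), Real.log_pow]
      nlinarith [Nat.le_ceil (2 * Real.log H)]
    · linarith [Nat.ceil_lt_add_one (show 0 ≤ 2 * Real.log H by linarith)]
  obtain ⟨w, hw⟩ : ∃ w, w = (L + 1) * d := ⟨_, rfl⟩
  have w1 : d ≤ w := by nlinarith
  have w2 : w ≤ (r + 2) * w := by nlinarith
  have h := hc Bad r hC ((r + 2) * w) (by nlinarith) (by nlinarith)
    (fun l => Polynomial.X - Polynomial.C (MvPolynomial.X (e.symm l)))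
    (fun l => ⟨⟨1, one_ne_zero, (Polynomial.monic_X_sub_C _).leadingCoeff.trans (map_one _).symm⟩,
      (SzP.X.sub (SzP.C (Sz.X _))).mono (by nlinarith)⟩)
    (S.image fun x => (x, fun i => x (e i))) fun p hp => by
      obtain ⟨t, ht, rfl⟩ := Finset.mem_image.1 hp
      obtain ⟨h1, h2, E, x, rfl, _, hd, hb⟩ := hS t ht
      have : NumberField E := {}
      have k : ∀ l, Hd (x l) (2 ^ ((r + 2) * w)) := fun l => by
        obtain ⟨q, q0, q1, q2⟩ := h2 l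
        refine ⟨2 ^ (L + 1), le_self_pow₀ one_le_two (by omega), (Ht_of_poly q0 q1 ?_).mono
          (by rw [pow_succ]; linarith), ?_⟩
        · rwa [pc, Polynomial.aeval_algebraMap_apply, map_eq_zero] at q2
        · rw [← pow_mul]
          exact pow_le_pow_right₀ one_le_two (((Nat.mul_le_mul_left _ hd).trans hw.ge).trans w2)
      exact ⟨fun l => by simp [evP, evZ], h1, E, _, x, fun i => x (e i), rfl, rfl,
        hd.trans (w1.trans w2), k, fun i => (k _).ht, hb⟩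
  rw [Finset.image_image, show (Prod.fst ∘ fun x : σ → ℂ => (x, fun i => x (e i))) = id from rfl,
    Finset.image_id] at h
  have k1 : (((r + 2) * w : ℕ) : ℝ) ≤ (8 * (r + 2) + c' : ℕ) * d * Real.log H := by
    have L3 : (1 : ℝ) ≤ L := by exact_mod_cast L0
    rw [hw]
    push_cast
    calc _ ≤ (r + 2) * (8 * Real.log H * d : ℝ) := by gcongr; linarith
      _ = 8 * (r + 2) * d * Real.log H := by ring
      _ ≤ _ := mul_le_mul_of_nonneg_right (mul_le_mul_of_nonneg_right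
        (le_add_of_nonneg_right c'.cast_nonneg) d.cast_nonneg) (by linarith)
  have k2 : (1 : ℝ) ≤ ((r + 2) * w : ℕ) := by exact_mod_cast (by nlinarith : 1 ≤ (r + 2) * w)
  calc (S.card : ℝ) ≤ (((r + 2) * w : ℕ) : ℝ) ^ c' := by exact_mod_cast h
    _ ≤ (((r + 2) * w : ℕ) : ℝ) ^ (8 * (r + 2) + c') := pow_le_pow_right₀ k2 (by omega)
    _ ≤ _ := pow_le_pow_left₀ (by positivity) k1 _

end

end Pool.Agent.Lib.MP_5591bc_ag.J
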