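import Pool.Agent.Lib.MP_5591bc_ag.J.Set
import Pool.Agent.Lib.MP_5591bc_ag.M.TayB
import Pool.Agent.Lib.MP_5591bc_ag.M.GK

/-! Substitution of series. -/

namespace Pool.Agent.Lib.MP_5591bc_ag.J

open MvPowerSeries Finset W M

noncomputable section

variable {τ σ : Type} [Fintype τ] [Fintype σ]

theorem subs_mem {n : ℕ} {d : σ →₀ ℕ} :
    d ∈ (Finsupp.finite_of_degree_le (σ := σ) n).toFinset ↔ d.degree ≤ n :=
  Set.Finite.mem_toFinset _

section
variable {F : Type*} [Field F] {w : σ → MvPowerSeries τ F}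

omit [Fintype σ] [Fintype τ] in
theorem subs_zero (hw : ∀ l, constantCoeff (w l) = 0) {d : σ →₀ ℕ} {e : τ →₀ ℕ}
    (h : e.degree < d.degree) : coeff e (d.prod fun s k => w s ^ k) = 0 := by
  rw [Finsupp.prod]
  refine coeff_of_lt_order ((Nat.cast_lt.2 h).trans_le (.trans ?_ (le_order_prod _ d.support)))
  exact_mod_cast sum_le_sum fun i _ => le_order_pow_of_constantCoeff_eq_zero _ (hw i)

omit [Fintype τ] in
theorem subs_sum (hw : ∀ l, constantCoeff (w l) = 0) (f : MvPowerSeries σ F) (e : τ →₀ ℕ) :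
    coeff e (subst w f) = ∑ d ∈ (Finsupp.finite_of_degree_le (σ := σ) e.degree).toFinset,
      coeff d f * coeff e (d.prod fun s k => w s ^ k) := by
  rw [coeff_subst (hasSubst_of_constantCoeff_zero hw)]
  refine finsum_eq_sum_of_support_subset _ fun d hd => ?_
  exact subs_mem.2 (Nat.le_of_not_lt fun h => hd (by simp only [subs_zero hw h, smul_zero]))

omit [Fintype τ] in
theorem subs_loc (hw : ∀ l, constantCoeff (w l) = 0) {f f' : MvPowerSeries σ F} {e : τ →₀ ℕ}
    (h : ∀ d : σ →₀ ℕ, d.degree ≤ e.degree → coeff d f = coeff d f') :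
    coeff e (subst w f) = coeff e (subst w f') := by
  rw [subs_sum hw, subs_sum hw]
  exact sum_congr rfl fun d hd => by rw [h d (subs_mem.1 hd)]

end

theorem subs_card (σ : Type) [Fintype σ] (n : ℕ) :
    #(Finsupp.finite_of_degree_le (σ := σ) n).toFinset ≤ (2 ^ Fintype.card σ) ^ n := by
  classical
  refine (card_le_card_of_injOn (t := Fintype.piFinset fun _ : σ => range (n + 1)) (fun d i => d i)
    (fun d hd => ?_) fun _ _ _ _ e => Finsupp.ext (congrFun e)).trans ?_
  · have : d.degree ≤ n := subs_mem.1 (mem_coe.1 hd)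
    exact Fintype.mem_piFinset.2 fun i =>
      mem_range.2 (Nat.lt_succ_of_le ((Finsupp.le_degree i d).trans this))
  · rw [Fintype.card_piFinset, prod_const, card_range, card_univ, ← pow_mul, mul_comm, pow_mul]
    exact Nat.pow_le_pow_left Nat.lt_two_pow_self _

theorem subs_geo [DecidableEq τ] (κ : τ →₀ ℕ) :
    ∑ p ∈ antidiagonal κ, (2⁻¹ : ℝ) ^ p.1.degree ≤ 2 ^ Fintype.card τ := by
  have e : ∑ p ∈ antidiagonal κ, (2⁻¹ : ℝ) ^ p.1.degree =
      ∑ x ∈ (antidiagonal κ).image fun p i => p.1 i, ∏ i, (2⁻¹ : ℝ) ^ x i := by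
    rw [sum_image fun p hp q hq e => ?_]
    · exact sum_congr rfl fun p _ => by rw [prod_pow_eq_pow_sum, Finsupp.degree_eq_sum]
    · have e : p.1 = q.1 := Finsupp.ext (congrFun e)
      refine Prod.ext e (add_left_cancel (a := p.1) ?_)
      rw [mem_antidiagonal.1 hp, e, mem_antidiagonal.1 hq]
  rw [e]
  refine (sum_le_sum_of_subset_of_nonneg (t := Fintype.piFinset fun i => range (κ i + 1))
    (fun x hx => ?_) fun _ _ _ => by positivity).trans ?_
  · obtain ⟨p, hp, rfl⟩ := mem_image.1 hx
    refine Fintype.mem_piFinset.2 fun i => mem_range.2 (Nat.lt_succ_of_le ?_)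
    rw [← mem_antidiagonal.1 hp]
    exact Nat.le_add_right _ _
  · rw [← prod_univ_sum (fun i => range (κ i + 1)) fun _ j => (2⁻¹ : ℝ) ^ j, ← card_univ,
      ← prod_const]
    refine prod_le_prod (fun _ _ => by positivity) fun i _ => ?_
    simpa using sum_geometric_two_le (κ i + 1)

theorem subs_pow {F : Type*} [Field F] {w : σ → MvPowerSeries τ F} {h : ℕ} (φ : F →+* ℂ)
    (hw : ∀ a (κ : τ →₀ ℕ), ‖φ (coeff κ (w a))‖ ≤ h ^ κ.degree) (d : σ →₀ ℕ) (κ : τ →₀ ℕ) :
    ‖φ (coeff κ (d.prod fun s k => w s ^ k))‖ ≤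
      (2 ^ Fintype.card τ) ^ d.degree * (2 * h) ^ κ.degree := by
  classical
  induction d using idx_ind generalizing κ with
  | h0 =>
    rw [Finsupp.prod_zero_index, coeff_one]
    split_ifs with e
    · simp [e]
    · rw [map_zero, norm_zero]; positivity
  | hs d l ih =>
    rw [Finsupp.prod_add_index' (fun _ => pow_zero _) (fun _ _ _ => pow_add _ _ _),
      Finsupp.prod_single_index (h := fun s k => w s ^ k) (pow_zero _), pow_one, mul_comm, coeff_mul,
      map_sum, map_add, Finsupp.degree_single, pow_succ', mul_assoc]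
    refine (norm_sum_le _ _).trans (le_trans ?_
      (mul_le_mul_of_nonneg_right (subs_geo κ) (by positivity)))
    rw [sum_mul]
    refine sum_le_sum fun p hp => ?_
    rw [map_mul, norm_mul, ← mem_antidiagonal.1 hp, map_add, pow_add]
    refine (mul_le_mul (hw l p.1) (ih p.2) (norm_nonneg _) (by positivity)).trans_eq ?_
    rw [mul_pow 2 (h : ℝ) p.1.degree, inv_pow]
    field_simp

omit [Fintype τ] in
theorem subs_int {F : Type*} [Field F] {w : σ → MvPowerSeries τ F} {c : F}
    (hw : ∀ a (κ : τ →₀ ℕ), IsIntegral ℤ (c ^ κ.degree * coeff κ (w a))) (d : σ →₀ ℕ)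
    (κ : τ →₀ ℕ) : IsIntegral ℤ (c ^ κ.degree * coeff κ (d.prod fun s k => w s ^ k)) := by
  classical
  induction d using idx_ind generalizing κ with
  | h0 =>
    rw [Finsupp.prod_zero_index, coeff_one]
    split_ifs with e
    · simp [e, isIntegral_one]
    · rw [mul_zero]; exact isIntegral_zero
  | hs d l ih =>
    rw [Finsupp.prod_add_index' (fun _ => pow_zero _) (fun _ _ _ => pow_add _ _ _),
      Finsupp.prod_single_index (h := fun s k => w s ^ k) (pow_zero _), pow_one, coeff_mul, mul_sum]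
    refine IsIntegral.sum _ fun p hp => ?_
    rw [← mem_antidiagonal.1 hp, map_add, pow_add, mul_mul_mul_comm]
    exact (ih _).mul (hw _ _)

theorem gk_subst (τ σ : Type) [Fintype τ] [Fintype σ] : ∃ c : ℕ, ∀ (F α : Type) [Field F]
    (h h' : ℕ) (g : α → MvPowerSeries σ F) (w : σ → MvPowerSeries τ F), GKm h g → Eis h' w →
      GKm (c * h * h') fun a => subst w (g a) := by
  refine ⟨2 ^ Fintype.card σ * 2 ^ Fintype.card τ * 2, ?_⟩
  rintro F α _ h h' g w ⟨C, C0, k⟩ ⟨hw, w1, e, e0, e1, e2⟩
  have a1 : (1 : ℝ) ≤ h' := by exact_mod_cast e0.trans_le e1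
  refine ⟨C, C0, fun t => ?_⟩
  obtain ⟨k0, d, d0, d1, d2⟩ := k t
  refine ⟨fun x φ κ hκ => ?_, d * e ^ t, by positivity, ?_, fun x κ hκ => ?_⟩
  · rw [subs_sum hw, map_sum]
    refine (norm_sum_le _ _).trans ((sum_le_card_nsmul _ _ ((C * (h : ℝ) ^ t) *
      ((2 ^ Fintype.card τ) ^ t * (2 * h') ^ t)) fun a ha => ?_).trans ?_)
    · have ha : a.degree ≤ t := le_trans (subs_mem.1 ha) hκ
      rw [map_mul, norm_mul]
      refine mul_le_mul (k0 x φ a ha) ((subs_pow φ (fun a => w1 a φ) a κ).trans ?_) (norm_nonneg _)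
        (by positivity)
      gcongr
      · exact one_le_pow₀ one_le_two
      · linarith
    · have c : (#(Finsupp.finite_of_degree_le (σ := σ) κ.degree).toFinset : ℝ) ≤
          (2 ^ Fintype.card σ) ^ t := by
        exact_mod_cast (subs_card σ _).trans (Nat.pow_le_pow_right (by positivity) hκ)
      rw [nsmul_eq_mul]
      refine (mul_le_mul_of_nonneg_right c (by positivity)).trans_eq ?_
      push_cast
      simp only [mul_pow]
      ring
  · refine (Nat.mul_le_mul d1 (Nat.pow_le_pow_left e1 t)).trans ?_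
    rw [mul_assoc, ← mul_pow, mul_assoc _ h]
    exact Nat.mul_le_mul_left _ (Nat.pow_le_pow_left (Nat.le_mul_of_pos_left _ (by positivity)) _)
  · rw [subs_sum hw, mul_sum]
    refine IsIntegral.sum _ fun a ha => ?_
    obtain ⟨n, rfl⟩ := Nat.exists_eq_add_of_le' hκ
    rw [Nat.cast_mul, Nat.cast_pow, mul_mul_mul_comm, pow_add, mul_assoc ((e : F) ^ n)]
    exact (d2 x a (le_trans (subs_mem.1 ha) hκ)).mul
      (((isIntegral_natCast e).pow n).mul (subs_int e2 a κ))

theorem pderiv_subst {F : Type*} [Field F] {w : σ → MvPowerSeries τ F}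
    (hw : ∀ l, constantCoeff (w l) = 0) (f : MvPowerSeries σ F) (i : τ) :
    pderiv F i (subst w f) = ∑ l, subst w (pderiv F l f) * pderiv F i (w l) := by
  classical
  have hs := hasSubst_of_constantCoeff_zero hw
  have key (p : MvPolynomial σ F) : pderiv F i (subst w (p : MvPowerSeries σ F)) =
      ∑ l, subst w (pderiv F l (p : MvPowerSeries σ F)) * pderiv F i (w l) := by
    simp only [pderiv_coe, subst_coe]
    induction p using MvPolynomial.induction_on with
    | C a => simp [MvPowerSeries.algebraMap_apply]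
    | add p q hp hq => simp only [map_add, hp, hq, add_mul, sum_add_distrib]
    | mul_X p m hp =>
      simp only [map_mul, Derivation.leibniz, hp, smul_eq_mul, map_add, MvPolynomial.aeval_X,
        MvPolynomial.pderiv_X, Pi.single_apply, add_mul, sum_add_distrib, mul_sum, mul_ite,
        mul_one, mul_zero, apply_ite (MvPolynomial.aeval w), map_zero, ite_mul, zero_mul,
        sum_ite_eq, mem_univ, if_true, mul_assoc]
  ext e
  have c (d : σ →₀ ℕ) (hd : d.degree ≤ e.degree + 1) :
      coeff d f = coeff d (truncTotal (e.degree + 2) f : MvPowerSeries σ F) := by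
    rw [MvPolynomial.coeff_coe, coeff_truncTotal _ (Nat.lt_succ_of_le hd)]
  rw [coeff_pderiv, subs_loc hw fun d hd => c d (by rwa [map_add, Finsupp.degree_single] at hd),
    ← coeff_pderiv, key, map_sum, map_sum]
  refine sum_congr rfl fun l _ => ?_
  rw [coeff_mul, coeff_mul]
  refine sum_congr rfl fun p hp => congrArg (· * _) (subs_loc hw fun d hd => ?_)
  rw [coeff_pderiv, coeff_pderiv, c]
  rw [map_add, Finsupp.degree_single]
  exact Nat.succ_le_succ (hd.trans (anti_deg hp le_rfl).1)

theorem subst_τm {F : Type*} [Field F] {w : σ → MvPowerSeries τ F}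
    (hw : ∀ l, constantCoeff (w l) = 0) (x : σ → F) (p : MvPolynomial σ F) :
    subst w (τm x p) = MvPolynomial.aeval (fun l => w l + C (x l)) p := by
  have hs := hasSubst_of_constantCoeff_zero hw
  rw [τm_eq, ← substAlgHom_apply hs, MvPolynomial.comp_aeval_apply]
  simp only [substAlgHom_apply, subst_add hs, subst_X hs, subst_C]

theorem tay_subst [DecidableEq τ] [DecidableEq σ] {g : (σ → ℂ) → ℂ} {y : (τ → ℂ) → σ → ℂ}
    {t : τ → ℂ} (hy : AnalyticAt ℂ y t) (hg : AnalyticAt ℂ g (y t)) :
    tayM (fun z => g (y z)) t = subst (fun l => tayM (y · l) t - C (y t l)) (tayM g (y t)) := by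
  have hl (l : σ) : AnalyticAt ℂ (y · l) t := analyticAt_pi_iff.1 hy l
  have hw (l : σ) : constantCoeff (tayM (y · l) t - C (y t l)) = 0 := by
    rw [map_sub, constantCoeff_tayM (hl l), constantCoeff_C, sub_self]
  have z {g : (σ → ℂ) → ℂ} (hg : AnalyticAt ℂ g (y t)) : coeff 0 (tayM (fun z => g (y z)) t) =
      coeff 0 (subst (fun l => tayM (y · l) t - C (y t l)) (tayM g (y t))) := by
    rw [coeff_zero_tayM (hg.fun_comp hy), subs_loc hw (f' := C (g (y t))) fun d hd => ?_, subst_C,
      coeff_zero_C]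
    rw [map_zero, Nat.le_zero, Finsupp.degree_eq_zero_iff] at hd
    rw [hd, coeff_zero_tayM hg, coeff_zero_C]
  ext κ
  obtain ⟨n, hn⟩ : ∃ n, κ.degree ≤ n := ⟨_, le_rfl⟩
  induction n generalizing g κ with
  | zero =>
    rw [Nat.le_zero, Finsupp.degree_eq_zero_iff] at hn
    exact hn ▸ z hg
  | succ n ih =>
    induction κ using idx_ind with
    | h0 => exact z hg
    | hs κ i _ =>
      rw [map_add, Finsupp.degree_single, Nat.add_le_add_iff_right] at hn
      have e : (fun s => fderiv ℂ (fun z => g (y z)) s (Pi.single i 1)) =ᶠ[nhds t]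
          fun s => ∑ l, pd l g (y s) * pd i (y · l) s := by
        filter_upwards [hy.eventually_analyticAt,
          hy.continuousAt.eventually hg.eventually_analyticAt] with s h1 h2
        rw [fderiv_fun_comp s h2.differentiableAt h1.differentiableAt,
          ContinuousLinearMap.comp_apply, pi_eq_sum_univ' (fderiv ℂ y s (Pi.single i 1)), map_sum]
        refine sum_congr rfl fun l _ => ?_
        rw [map_smul, smul_eq_mul, mul_comm, pd, pd, fderiv_apply h1.differentiableAt]
        rfl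
      apply coeff_succ_eq
      rw [← tayM_pd (hg.fun_comp hy), pderiv_subst hw]
      refine (congrArg _ ((tayM_congr e).trans (tayM_sum _ fun l _ =>
        ((pd_ana hg l).fun_comp hy).fun_mul (pd_ana (hl l) i)))).trans ?_
      rw [map_sum, map_sum]
      refine sum_congr rfl fun l _ => ?_
      rw [tayM_mul ((pd_ana hg l).fun_comp hy) (pd_ana (hl l) i), map_sub, pderiv_C, sub_zero,
        ← tayM_pd (hl l), ← tayM_pd hg, coeff_mul, coeff_mul]
      exact sum_congr rfl fun p hp => congrArg (· * _) (ih (pd_ana hg l) _ (anti_deg hp hn).1)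

end

end Pool.Agent.Lib.MP_5591bc_ag.J
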