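import Pool.Agent.Lib.MP_5591bc_ag.J.Sz
import Pool.Agent.Lib.MP_5591bc_ag.J.Sub

/-! The system on the subvariety. -/

namespace Pool.Agent.Lib.MP_5591bc_ag.J

open MvPowerSeries Finset W M

noncomputable section

section
variable {R S σ A : Type*} [CommRing R] [CommRing S] [Fintype σ] [DecidableEq σ] {f : R →+* S}
  {η : σ → S} {r : ℕ} {p : σ → Polynomial R}

/-- reduction modulo monic equations -/
theorem sys_red (hp : ∀ l, (p l).Monic ∧ (p l).natDegree ≤ r ∧ (p l).eval₂ f (η l) = 0)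
    (q : MvPolynomial σ R) : ∃ c : (σ → Fin (r + 1)) → R,
      MvPolynomial.eval₂Hom f η q = ∑ j, f (c j) * ∏ l, η l ^ (j l : ℕ) := by
  induction q using MvPolynomial.induction_on' with
  | add q q' h h' =>
    obtain ⟨c, h⟩ := h
    obtain ⟨c', h'⟩ := h'
    exact ⟨c + c', by simp only [map_add, h, h', Pi.add_apply, add_mul, sum_add_distrib]⟩
  | monomial m a =>
    have e : ∀ l, η l ^ m l = ∑ k : Fin (r + 1),
        f ((Polynomial.X ^ m l %ₘ p l).coeff k) * η l ^ (k : ℕ) := fun l => by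
      rw [Fin.sum_univ_eq_sum_range fun k => f ((Polynomial.X ^ m l %ₘ p l).coeff k) * η l ^ k,
        ← Polynomial.eval₂_eq_sum_range' f (Nat.lt_succ_of_le
          ((Polynomial.natDegree_modByMonic_le _ (hp l).1).trans (hp l).2.1)),
        Polynomial.eval₂_modByMonic_eq_self_of_root (hp l).2.2, Polynomial.eval₂_X_pow]
    refine ⟨fun j => a * ∏ l, (Polynomial.X ^ m l %ₘ p l).coeff (j l), ?_⟩
    rw [MvPolynomial.eval₂Hom_monomial, Finsupp.prod_fintype _ _ fun _ => pow_zero _,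
      prod_congr rfl fun l _ => e l, prod_univ_sum, Fintype.piFinset_univ, mul_sum]
    simp only [map_mul, map_prod, prod_mul_distrib, mul_assoc]

theorem sys_abs [Fintype A] (hp : ∀ l, (p l).Monic ∧ (p l).natDegree ≤ r ∧ (p l).eval₂ f (η l) = 0)
    {d : S → S} (d1 : d 1 = 0) (dm : ∀ u v, d (u * v) = u * d v + v * d u)
    (hη : ∀ l, d (η l) ∈ (MvPolynomial.eval₂Hom f η).range) {Ψ : A → S}
    (hΨ : ∀ α, ∃ m : A → MvPolynomial σ R,
      d (Ψ α) = ∑ β, MvPolynomial.eval₂Hom f η (m β) * Ψ β) (a : ℕ) :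
    ∃ B : Matrix ((σ → Fin (r + 1)) × (Fin a → A)) ((σ → Fin (r + 1)) × (Fin a → A)) R, ∀ q,
      d ((∏ l, η l ^ (q.1 l : ℕ)) * ∏ i, Ψ (q.2 i)) =
        ∑ q', f (B q q') * ((∏ l, η l ^ (q'.1 l : ℕ)) * ∏ i, Ψ (q'.2 i)) := by
  classical
  let _ := f.toAlgebra
  set P := (MvPolynomial.eval₂Hom f η).range
  set V := Submodule.span R (Set.range fun q : (σ → Fin (r + 1)) × (Fin a → A) =>
    (∏ l, η l ^ (q.1 l : ℕ)) * ∏ i, Ψ (q.2 i))
  have h1 : ∀ u ∈ P, ∀ α : Fin a → A, u * ∏ i, Ψ (α i) ∈ V := by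
    rintro _ ⟨q, rfl⟩ α
    obtain ⟨c, h⟩ := sys_red hp q
    rw [h, sum_mul]
    refine sum_mem fun j _ => ?_
    rw [mul_assoc]
    exact V.smul_mem (c j) (Submodule.subset_span ⟨(j, α), rfl⟩)
  have h2 : ∀ j : σ → ℕ, ∏ l, η l ^ j l ∈ P ∧ d (∏ l, η l ^ j l) ∈ P := fun j => by
    have m : ∀ u v, u ∈ P ∧ d u ∈ P → v ∈ P ∧ d v ∈ P → u * v ∈ P ∧ d (u * v) ∈ P :=
      fun u v hu hv => ⟨mul_mem hu.1 hv.1, dm u v ▸ add_mem (mul_mem hu.1 hv.2) (mul_mem hv.1 hu.2)⟩
    have o : (1 : S) ∈ P ∧ d 1 ∈ P := ⟨one_mem _, d1 ▸ zero_mem _⟩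
    refine prod_induction _ (fun u => u ∈ P ∧ d u ∈ P) m o fun l _ => ?_
    induction j l with
    | zero => rwa [pow_zero]
    | succ n ih => exact pow_succ (η l) n ▸ m _ _ ih ⟨⟨MvPolynomial.X l, by simp⟩, hη l⟩
  have h3 : ∀ (g : Fin a → S) (s : Finset (Fin a)),
      d (∏ i ∈ s, g i) = ∑ i ∈ s, (∏ j ∈ s.erase i, g j) * d (g i) := fun g s => by
    induction s using Finset.induction_on with
    | empty => simpa using d1
    | insert x s hx ih =>
      rw [prod_insert hx, sum_insert hx, dm, ih, erase_insert hx, add_comm, mul_sum]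
      refine congrArg _ (sum_congr rfl fun l hl => ?_)
      rw [erase_insert_of_ne (ne_of_mem_of_not_mem hl hx).symm,
        prod_insert fun h => hx (mem_of_mem_erase h), mul_assoc]
  have h4 : ∀ q : (σ → Fin (r + 1)) × (Fin a → A),
      d ((∏ l, η l ^ (q.1 l : ℕ)) * ∏ i, Ψ (q.2 i)) ∈ V := fun q => by
    rw [dm, h3, mul_sum, mul_comm (∏ i, Ψ (q.2 i))]
    refine add_mem (sum_mem fun i _ => ?_) (h1 _ (h2 _).2 _)
    obtain ⟨m, hm⟩ := hΨ (q.2 i)
    rw [hm, mul_sum, mul_sum]
    refine sum_mem fun β _ => ?_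
    have := h1 _ (mul_mem (h2 fun l => q.1 l).1 ⟨m β, rfl⟩) (Function.update q.2 i β)
    rw [← prod_erase_mul _ _ (mem_univ i), Function.update_self,
      prod_congr (s₁ := univ.erase i) (g := fun j => Ψ (q.2 j)) rfl fun j hj => by
        rw [Function.update_of_ne (ne_of_mem_erase hj)]] at this
    convert this using 1
    ring
  choose B hB using fun q => (Submodule.mem_span_range_iff_exists_fun R).1 (h4 q)
  exact ⟨Matrix.of B, fun q => (hB q).symm⟩

end

section
variable {τ L : Type} [Field L] [DecidableEq τ]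

theorem sys_dZ (t : τ → L) (i : τ) (p : ZP τ) :
    pderiv L i (evZ (vx t) p) = evZ (vx t) (MvPolynomial.pderiv i p) := by
  induction p using MvPolynomial.induction_on with
  | C a => simp [evZ]
  | add p q hp hq => simp only [map_add, hp, hq]
  | mul_X p j hp =>
    have : evZ (vx t) (MvPolynomial.X j) = vx t j := MvPolynomial.eval₂Hom_X' _ _ _
    rw [map_mul, Derivation.leibniz, Derivation.leibniz, hp, map_add, smul_eq_mul, smul_eq_mul,
      smul_eq_mul, smul_eq_mul, map_mul, map_mul, this]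
    by_cases h : j = i
    · subst h; simp [vx]
    · simp [vx, h]

theorem sys_dP (i : τ) (G : Polynomial (ZP τ)) : ∃ G' : Polynomial (ZP τ), ∀ (t : τ → L) z,
    pderiv L i (evP (vx t) z G) =
      evP (vx t) z G' + evP (vx t) z (Polynomial.derivative G) * pderiv L i z := by
  induction G using Polynomial.induction_on' with
  | add p q hp hq =>
    obtain ⟨p', hp⟩ := hp
    obtain ⟨q', hq⟩ := hq
    exact ⟨p' + q', fun t z => by simp only [map_add, hp, hq]; ring⟩
  | monomial n a =>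
    refine ⟨Polynomial.monomial n (MvPolynomial.pderiv i a), fun t z => ?_⟩
    simp only [evP, Polynomial.coe_eval₂RingHom, Polynomial.derivative_monomial,
      Polynomial.eval₂_monomial, Derivation.leibniz, Derivation.leibniz_pow, sys_dZ, smul_eq_mul,
      map_mul, map_natCast, nsmul_eq_mul]
    ring

omit [DecidableEq τ] in
theorem sys_ne {σ : Type} {w : σ → MvPowerSeries τ L} (hw : ∀ l, constantCoeff (w l) = 0) {x : σ → L}
    {T : MvPolynomial σ L} (h : MvPolynomial.eval x T ≠ 0) :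
    MvPolynomial.aeval (fun l => w l + C (x l)) T ≠ 0 := fun e => h (by
  have := congrArg constantCoeff e
  rw [MvPolynomial.map_aeval, map_zero] at this
  rw [← this, MvPolynomial.coe_eval₂Hom, MvPolynomial.eval, MvPolynomial.coe_eval₂Hom]
  congr 1
  ext l
  simp [hw])

omit [DecidableEq τ] in
theorem sys_one {S : Type*} [CommRing S] [NoZeroDivisors S] {g : Polynomial (ZP τ)} (g0 : g.coeff 0 = 0)
    {t : τ → S} {z : S} (z0 : z ≠ 0) (h : evP t z g = 0) :
    evZ t (g.coeff 1) = -(z * evP t z g.divX.divX) := by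
  have e2 : g = Polynomial.X * (Polynomial.X * g.divX.divX + Polynomial.C (g.coeff 1)) := by
    rw [← Polynomial.coeff_divX, Polynomial.X_mul_divX_add]
    simpa [g0] using (Polynomial.X_mul_divX_add g).symm
  generalize g.divX.divX = g2 at e2 ⊢
  generalize g.coeff 1 = g1 at e2 ⊢
  rw [e2] at h
  simp only [evP, Polynomial.coe_eval₂RingHom, Polynomial.eval₂_mul, Polynomial.eval₂_add,
    Polynomial.eval₂_X, Polynomial.eval₂_C] at h ⊢
  exact eq_neg_of_add_eq_zero_right ((mul_eq_zero.1 h).resolve_left z0)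

end

theorem sys {τ σ A L : Type} [Fintype τ] [Fintype σ] [DecidableEq σ] [Fintype A] [Field L]
    [CharZero L] {r : ℕ} {G : σ → Polynomial (ZP τ)}
    (hG : ∀ l, QM (G l) ∧ 0 < (G l).natDegree ∧ (G l).natDegree ≤ r) {g : Polynomial (ZP τ)}
    (g0 : g.coeff 0 = 0) (T T1 : MvPolynomial σ L) (B : σ → Matrix A A (MvPolynomial σ L)) (a : ℕ) :
    ∃ Ba : τ → Matrix ((σ → Fin (r + 1)) × (Fin a → A)) ((σ → Fin (r + 1)) × (Fin a → A))
      (MvPolynomial τ L), ∀ (t : τ → L) (x : σ → L) (w : σ → MvPowerSeries τ L)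
      (Φ : A → MvPowerSeries σ L), (∀ l, constantCoeff (w l) = 0) →
      (∀ l, evP (vx t) (w l + C (x l)) (G l) = 0) → MvPolynomial.eval x (T1 * T) ≠ 0 →
      evP (vx t) (MvPolynomial.aeval (fun l => w l + C (x l)) (T1 * T)) g = 0 →
      IsM (τm x) T B Φ → IsM (τm t) (MvPolynomial.map (Int.castRingHom L) (den G g)) Ba
        fun q => (∏ l, (w l + C (x l)) ^ (q.1 l : ℕ)) * ∏ i, subst w (Φ (q.2 i)) := by
  classical
  let Pt := {p : (τ → L) × (σ → L) × (σ → MvPowerSeries τ L) × (A → MvPowerSeries σ L) //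
    (∀ l, constantCoeff (p.2.2.1 l) = 0) ∧
    (∀ l, evP (vx p.1) (p.2.2.1 l + C (p.2.1 l)) (G l) = 0) ∧
    MvPolynomial.eval p.2.1 (T1 * T) ≠ 0 ∧
    evP (vx p.1) (MvPolynomial.aeval (fun l => p.2.2.1 l + C (p.2.1 l)) (T1 * T)) g = 0 ∧
    IsM (τm p.2.1) T B p.2.2.2}
  let f : MvPolynomial τ L →+* Pt → MvPowerSeries τ L := RingHom.pi fun p => τm p.1.1
  let η : σ → Pt → MvPowerSeries τ L := fun l p => p.1.2.2.1 l + C (p.1.2.1 l)
  let ι : ZP τ →+* MvPolynomial τ L := MvPolynomial.map (Int.castRingHom L)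
  let tt : τ → MvPolynomial σ (MvPolynomial τ L) := fun i => MvPolynomial.C (MvPolynomial.X i)
  let E : Pt → MvPolynomial σ (MvPolynomial τ L) →+* MvPowerSeries τ L := fun p =>
    (Pi.evalRingHom _ p).comp (MvPolynomial.eval₂Hom f η)
  have EX : ∀ p l, E p (MvPolynomial.X l) = η l p := fun p l => by simp [E]
  have EC : ∀ p u, E p (MvPolynomial.C u) = τm p.1.1 u := fun p u => by simp [E, f]
  have Et : ∀ p, (fun i => E p (tt i)) = vx p.1.1 := fun p => funext fun i => by
    rw [EC, τm_eq, MvPolynomial.aeval_X, vx]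
  have EZ : ∀ p u, E p (evZ tt u) = evZ (vx p.1.1) u := fun p u => by rw [map_evZ, Et]
  have EP : ∀ p z u, E p (evP tt z u) = evP (vx p.1.1) (E p z) u := fun p z u => by
    rw [map_evP, Et]
  have EL : ∀ p (u : MvPolynomial σ L), E p (MvPolynomial.map MvPolynomial.C u) =
      MvPolynomial.aeval (η · p) u := fun p u => by
    induction u using MvPolynomial.induction_on with
    | C c =>
      rw [MvPolynomial.map_C, EC, τm_eq, MvPolynomial.aeval_C, MvPolynomial.aeval_C]
    | add u v hu hv => simp only [map_add, hu, hv]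
    | mul_X u l hu => simp only [map_mul, hu, MvPolynomial.map_X, EX, MvPolynomial.aeval_X]
  choose c c0 hc using fun l => (hG l).1
  have hp : ∀ l, (Polynomial.C (MvPolynomial.C (c l : L)⁻¹) * (G l).map ι).Monic ∧
      (Polynomial.C (MvPolynomial.C (c l : L)⁻¹) * (G l).map ι).natDegree ≤ r ∧
      (Polynomial.C (MvPolynomial.C (c l : L)⁻¹) * (G l).map ι).eval₂ f (η l) = 0 := fun l => by
    refine ⟨Polynomial.monic_C_mul_of_mul_leadingCoeff_eq_one ?_, (Polynomial.natDegree_C_mul_le _ _).trans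
      (Polynomial.natDegree_map_le.trans (hG l).2.2), ?_⟩
    · rw [Polynomial.leadingCoeff_map_of_injective
        (MvPolynomial.map_injective _ Int.cast_injective), hc, MvPolynomial.map_C, ← map_mul,
        eq_intCast, inv_mul_cancel₀ (Int.cast_ne_zero.2 (c0 l)), map_one]
    · rw [Polynomial.eval₂_mul, Polynomial.eval₂_map]
      refine mul_eq_zero_of_right _ (funext fun p => ?_)
      have e : (Pi.evalRingHom (fun _ : Pt => MvPowerSeries τ L) p).comp (f.comp ι) =
          evZ (vx p.1.1) := RingHom.ext fun u => τm_evZ p.1.1 u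
      have := Polynomial.hom_eval₂ (G l) (f.comp ι)
        (Pi.evalRingHom (fun _ : Pt => MvPowerSeries τ L) p) (η l)
      rw [e] at this
      exact this.trans (p.2.2.1 l)
  choose u v huv using fun l => dsc_bez (G l) (hG l).2.1
  let D : τ → (Pt → MvPowerSeries τ L) → Pt → MvPowerSeries τ L := fun i z p =>
    τm p.1.1 (ι (den G g)) * pderiv L i (z p)
  let Ψ : A → Pt → MvPowerSeries τ L := fun α p => subst p.1.2.2.1 (p.1.2.2.2 α)
  suffices H : ∀ i, (∀ l, D i (η l) ∈ (MvPolynomial.eval₂Hom f η).range) ∧ ∀ α,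
      ∃ m : A → MvPolynomial σ (MvPolynomial τ L),
        D i (Ψ α) = ∑ β, MvPolynomial.eval₂Hom f η (m β) * Ψ β by
    have d1 : ∀ i, D i 1 = 0 := fun i => funext fun p => by simp [D]
    have dm : ∀ i y z, D i (y * z) = y * D i z + z * D i y := fun i y z => funext fun p => by
      simp only [D, Pi.mul_apply, Pi.add_apply, Derivation.leibniz, smul_eq_mul]
      ring
    choose Ba hBa using fun i => sys_abs hp (d1 i) (dm i) (H i).1 (H i).2 a
    refine ⟨Ba, fun t x w Φ h1 h2 h3 h4 h5 i q => ?_⟩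
    have := congrFun (hBa i q) ⟨(t, x, w, Φ), h1, h2, h3, h4, h5⟩
    simp only [D, Pi.mul_apply, Finset.sum_apply, Finset.prod_apply, Pi.pow_apply] at this
    exact this
  intro i
  choose G' hG' using fun l => sys_dP (L := L) i (G l)
  have h1 : ∀ l (p : Pt), (∏ l, evZ (vx p.1.1) (dsc (G l))) * pderiv L i (η l p) =
      E p (-(∏ k ∈ univ.erase l, evZ tt (dsc (G k))) * evP tt (MvPolynomial.X l) (v l * G' l)) :=
    fun l p => by
      have e1 := hG' l p.1.1 (η l p)
      have e2 := congrArg (evP (vx p.1.1) (η l p)) (huv l)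
      have e3 : evP (vx p.1.1) (η l p) (G l) = 0 := p.2.2.1 l
      rw [e3, map_zero] at e1
      rw [map_add, map_mul, map_mul, e3, show evP (vx p.1.1) (η l p) (Polynomial.C (dsc (G l))) =
        evZ (vx p.1.1) (dsc (G l)) from Polynomial.eval₂_C _ _] at e2
      rw [← prod_erase_mul _ _ (mem_univ l), map_mul, map_neg, map_prod, EP, EX, map_mul, ← e2]
      simp only [EZ]
      linear_combination (-(∏ k ∈ univ.erase l, evZ (vx p.1.1) (dsc (G k))) *
        evP (vx p.1.1) (η l p) (v l)) * e1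
  constructor
  · refine fun l => ⟨evZ tt (g.coeff 1) * (-(∏ k ∈ univ.erase l, evZ tt (dsc (G k))) *
      evP tt (MvPolynomial.X l) (v l * G' l)), funext fun p => ?_⟩
    change E p _ = τm p.1.1 (ι (den G g)) * pderiv L i (η l p)
    rw [map_mul, ← h1, EZ, τm_evZ, den, map_mul, map_prod]
    ring
  · refine fun α => ⟨fun β => ∑ l, -(-(∏ k ∈ univ.erase l, evZ tt (dsc (G k))) *
      evP tt (MvPolynomial.X l) (v l * G' l)) * (MvPolynomial.map MvPolynomial.C (T1 * B l α β) *
      evP tt (MvPolynomial.map MvPolynomial.C (T1 * T)) g.divX.divX), funext fun p => ?_⟩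
    obtain ⟨p1, -, p3, p4, p5⟩ := p.2
    have hs := hasSubst_of_constantCoeff_zero p1
    have e1 : evZ (vx p.1.1) (g.coeff 1) = -(MvPolynomial.aeval (η · p) (T1 * T) *
        evP (vx p.1.1) (MvPolynomial.aeval (η · p) (T1 * T)) g.divX.divX) :=
      sys_one g0 (sys_ne p1 p3) p4
    have e3 : ∀ l, MvPolynomial.aeval (η · p) T * subst p.1.2.2.1 (pderiv L l (p.1.2.2.2 α)) =
        ∑ β, MvPolynomial.aeval (η · p) (B l α β) * subst p.1.2.2.1 (p.1.2.2.2 β) := fun l => by
      have := congrArg (substAlgHom (R := L) hs) (p5 l α)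
      simpa only [map_mul, map_sum, substAlgHom_apply, subst_τm p1] using this
    have e4 : ∀ l, pderiv L i (p.1.2.2.1 l) = pderiv L i (η l p) := fun l => by simp [η]
    rw [Finset.sum_apply]
    change τm p.1.1 (ι (den G g)) * pderiv L i (subst p.1.2.2.1 (p.1.2.2.2 α)) =
      ∑ β, E p _ * subst p.1.2.2.1 (p.1.2.2.2 β)
    simp only [map_sum, sum_mul]
    rw [sum_comm, pderiv_subst p1, mul_sum]
    refine sum_congr rfl fun l _ => ?_
    rw [sum_congr rfl (g := fun β => -((∏ l, evZ (vx p.1.1) (dsc (G l))) * pderiv L i (η l p)) *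
      (MvPolynomial.aeval (η · p) T1 *
        evP (vx p.1.1) (MvPolynomial.aeval (η · p) (T1 * T)) g.divX.divX) *
      (MvPolynomial.aeval (η · p) (B l α β) * subst p.1.2.2.1 (p.1.2.2.2 β))) fun β _ => by
        rw [map_mul, map_neg, ← h1, map_mul, EP, EL, EL, map_mul _ T1 (B l α β)]
        ring, ← mul_sum, ← e3, τm_evZ, den, map_mul, map_prod, e1, e4]
    generalize evP (vx p.1.1) (MvPolynomial.aeval (η · p) (T1 * T)) g.divX.divX = z
    rw [map_mul]
    ring

end

end Pool.Agent.Lib.MP_5591bc_ag.J
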