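import Pool.Agent.Lib.MP_5591bc_ag.J.SetB
import Pool.Agent.Lib.MP_5591bc_ag.J.Gap
import Pool.Agent.Lib.MP_5591bc_ag.J.Cont
import Pool.Agent.Lib.MP_5591bc_ag.Z.Main

/-! One cell. -/

namespace Pool.Agent.Lib.MP_5591bc_ag.J

open Matrix Filter Topology G R W M N E Z Metric

noncomputable section

variable {σ K : Type} [Fintype σ] [DecidableEq σ] [Field K] [NumberField K]
  [Algebra K ℂ] {n : ℕ} {T : MvPolynomial σ K}
  {B : σ → Matrix (Fin n) (Fin n) (MvPolynomial σ K)}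

omit [DecidableEq σ] in
theorem mainA_trans {ν : Type*} {U V W : Set (σ → ℂ)} {P Q Y : (σ → ℂ) → Matrix ν ν ℂ}
    (h : ContM U P V Q) (k : ContM V Q W Y) : ContM U P W Y := by
  induction k with
  | base => exact h
  | step _ _ _ _ s _ o c a s1 s2 e ih => exact .step _ _ _ _ s ih o c a s1 s2 e

/-- a branch at `y` is full and fails the degree property -/
def BadR (T : MvPolynomial σ K) (B : σ → Matrix (Fin n) (Fin n) (MvPolynomial σ K))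
    (U : Set (σ → ℂ)) (P : (σ → ℂ) → Matrix (Fin n) (Fin n) ℂ) (C1 C0 : Matrix (Fin n) (Fin n) ℂ)
    (δ : ℕ) (E : IntermediateField K ℂ) (y : σ → E) : Prop :=
  ∃ U' P', ContM U P U' P' ∧ FundM T B U' P' ∧ pc y ∈ U' ∧ FullP P' C1 C0 (pc y) ∧
    ∃ z : Matrix (Fin n) (Fin n) E, z.map (algebraMap E ℂ) = P' (pc y) * C1 ∧
      ¬ GoodRM U' P' C1 C0 δ y z

/-- For each `a` let `Y a` be the continuation over the ball of the bad branch at `y (a, 0)`.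
Classes by the values at the centre of the ball; in a class `Y a = Y c * g`. -/
theorem cellJ (T0 : T ≠ 0) (h : GalM T B) (τ : Type) [Fintype τ] : ∃ c : ℕ,
    ∀ (δ r : ℕ) (U : Set (σ → ℂ)) (P : (σ → ℂ) → Matrix (Fin n) (Fin n) ℂ)
      (C1 C0 : Matrix (Fin n) (Fin n) ℂ), IsOpen U → IsPreconnected U → FundM T B U P →
      ConnRM U P (fun t => P t * C1) → Proj T U P C1 C0 → FinMon K U P C1 C0 r →
      CellP T (BadR T B U P C1 C0 δ) τ (r + δ + 1) (c * (δ + 1) ^ n ^ 2) := by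
  classical
  obtain ⟨c, hg⟩ := gapJ h τ
  refine ⟨c + 1, fun δ r U P C1 C0 ho hU hP hC hj hM Λ L2 rL T1 G g Ψ y hG g0 cel A hA => ?_⟩
  replace hg := hg δ Λ L2 (by omega)
  rw [Fintype.card_prod, Fintype.card_fin, ← sq] at hg
  by_cases hc : ∃ a ∈ A, ∀ᶠ t in 𝓝 (Ψ a), y (sc Λ Ψ a t) = y (a, 0)
  · obtain ⟨a, ha, e⟩ := hc
    have k := fun b hb => cel.const (fun l => (hG l).2.1) (hA a ha).1 e (hA b hb).1
    exact .inl fun b hb b' hb' => (k b hb).trans (k b' hb').symm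
  right
  have an : ∀ {V Q}, FundM T B V Q → ∀ t ∈ V, ∀ i j, AnalyticAt ℂ (Q · i j) t :=
    fun h t ht i j => ((h t ht).2 i j).1
  have nT : ∀ p ∈ ball (0 : (τ → ℂ) × (τ → ℂ)) 40, MvPolynomial.aeval (y p) T ≠ 0 := fun p hp e =>
    cel.tn p hp (by rw [MvPolynomial.eval_map, ← MvPolynomial.aeval_def, map_mul, e, mul_zero])
  have n1 : ∀ a ∈ A, ‖(a, (0 : τ → ℂ))‖ ≤ 1 := fun a ha => by simpa using (hA a ha).1
  have n2 : ∀ a ∈ A, (a, (0 : τ → ℂ)) ∈ ball (0 : (τ → ℂ) × (τ → ℂ)) 36 := fun a ha =>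
    mem_ball_zero_iff.2 ((n1 a ha).trans_lt (by norm_num))
  have n3 : (0 : (τ → ℂ) × (τ → ℂ)) ∈ ball (0 : (τ → ℂ) × (τ → ℂ)) 36 := mem_ball_self (by norm_num)
  have n4 := ball_subset_ball (x := (0 : (τ → ℂ) × (τ → ℂ))) (show (36 : ℝ) ≤ 40 by norm_num)
  have key : ∀ a ∈ A, ∃ V Q, ContM U P V Q ∧ FundM T B V Q ∧ y (a, 0) ∈ V ∧
      FullP Q C1 C0 (y (a, 0)) ∧ PtA (fun (E : IntermediateField K ℂ) x => ∃ z : Matrix _ _ E,
        z.map (algebraMap E ℂ) = Q (pc x) * C1 ∧ ¬ GoodRM V Q C1 C0 δ x z) Λ (y (a, 0)) (Ψ a) := by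
    intro a ha
    obtain ⟨E, _, x, u, e1, e2, e3, e4, e5, V, Q, b1, b2, b3, b4, b5⟩ := (hA a ha).2
    exact ⟨V, Q, b1, b2, e1 ▸ b3, e1 ▸ b4, E, inferInstance, x, u, e1, e2, e3, e4, e5, b5⟩
  choose! V Q hV hQ mV hF hb using key
  have dom := fun a ha => cont_dom ho hU (fun i j t ht => an hP t ht i j) (hV a ha)
  choose! Y aY eY cY using fun a ha => contB (loc_fund (dom a ha).1 ⟨_, mV a ha⟩ (hQ a ha) T0)
    (dom a ha).1 (hQ a ha) cel.ay nT (n1 a ha) (mV a ha)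
  choose! U' Q' o' c' f' m' k' e' using cY
  have dY : ∀ a ∈ A, (Y a 0).det ≠ 0 := fun a ha =>
    (e' a ha 0 n3).self_of_nhds ▸ (f' a ha 0 n3 _ (m' a ha 0 n3)).1
  have gY : ∀ a ∈ A, ∀ b ∈ A, ∀ p ∈ ball (0 : (τ → ℂ) × (τ → ℂ)) 36,
      Y b p = Y a p * ((Y a 0)⁻¹ * Y b 0) := fun a ha b hb p hp => by
    ext i j
    refine AnalyticOnNhd.eqOn_of_preconnected_of_eventuallyEq (𝕜 := ℂ) (f := (Y b · i j))
      (g := fun p => (Y a p * ((Y a 0)⁻¹ * Y b 0)) i j) (aY b hb i j) (fun p hp => ?_)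
      (convex_ball _ _).isPreconnected n3 ?_ hp
    · generalize (Y a 0)⁻¹ * Y b 0 = M
      simp only [mul_apply]
      exact Finset.analyticAt_fun_sum _ fun k _ => (aY a ha i k p hp).fun_mul analyticAt_const
    filter_upwards [e' a ha 0 n3, e' b hb 0 n3, (cel.ay 0 (n4 n3)).continuousAt.tendsto.eventually
      (fund_uniq (o' b hb 0 n3) (o' a ha 0 n3) (f' b hb 0 n3) (f' a ha 0 n3) (m' b hb 0 n3)
        (m' a ha 0 n3) (nT 0 (n4 n3)))] with p p1 p2 p3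
    rw [p1, p2, p3, (e' a ha 0 n3).self_of_nhds, (e' b hb 0 n3).self_of_nhds]
  obtain ⟨I, i1, i2, i3⟩ := cls_rep (S := A) (m := r) (r := fun a b => Y b 0 * C1 = Y a 0 * C1 ∧
    ∃ γ : Matrix (Fin n) (Fin n) K, γ.det ≠ 0 ∧ Y b 0 * C0 = Y a 0 * C0 * γ.map (algebraMap K ℂ))
    (fun a => ⟨rfl, 1, by simp, by simp⟩) (fun a b ⟨h1, γ, h2, h3⟩ => ⟨h1.symm, γ⁻¹, by
      rw [det_nonsing_inv, Ring.inverse_eq_inv]
      exact inv_ne_zero h2, by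
      rw [h3, Matrix.mul_assoc _ _ (γ⁻¹.map _), ← Matrix.map_mul, mul_nonsing_inv _ h2.isUnit]
      simp⟩) fun f hf => by
    obtain ⟨i, j, e, γ, h2, h3⟩ := hM (y 0) (fun i => U' (f i) 0) (fun i => Q' (f i) 0)
      fun i => ⟨mainA_trans (hV _ (hf i)) (k' _ (hf i) 0 n3), m' _ (hf i) 0 n3⟩
    refine ⟨i, j, e, ?_⟩
    rw [(e' _ (hf i) 0 n3).self_of_nhds, (e' _ (hf j) 0 n3).self_of_nhds]
    exact ⟨h3.self_of_nhds.1, γ, h2, h3.self_of_nhds.2⟩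
  refine (Hyp.cover (n := Λ ^ (c * (δ + 1) ^ n ^ 2)) (Cs := I.image fun a => (A.filter fun b =>
    Y b 0 * C1 = Y a 0 * C1 ∧ ∃ γ : Matrix (Fin n) (Fin n) K, γ.det ≠ 0 ∧
      Y b 0 * C0 = Y a 0 * C0 * γ.map (algebraMap K ℂ)).image Ψ) (fun S hS => ?_) ?_).mono
    subset_rfl (by
      rw [add_one_mul, pow_add, mul_comm (Λ ^ _)]
      exact Nat.mul_le_mul_right _ (Finset.card_image_le.trans (i2.trans
        (le_trans (by omega) (Nat.le_self_pow (by positivity) Λ)))))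
  swap
  · rintro _ ⟨b, hb, rfl⟩
    obtain ⟨a, a1, a2⟩ := i3 b hb
    exact ⟨_, Finset.mem_image_of_mem _ a1,
      Finset.mem_image_of_mem _ (Finset.mem_filter.2 ⟨hb, a2⟩)⟩
  obtain ⟨a, ha, rfl⟩ := Finset.mem_image.1 hS
  replace ha := i1 ha
  refine hg T1 G g Ψ y hG g0 cel a (V a) (Q a) C1 C0 (Y a) (hA a ha).1 (dom a ha).1
    (dom a ha).2.1 (hQ a ha) (mV a ha) (ConnRM.cont ho hU (an hP) C1 hC (hV a ha))
    (proj_cont ho hj (hV a ha)) (hF a ha) (fun e => hc ⟨a, ha, e⟩) ?_ (aY a ha) (eY a ha) _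
    fun t ht => ?_
  · obtain ⟨E, _, x, u, e1, e2, e3, e4, e5, -⟩ := hb a ha
    exact ⟨E, inferInstance, x, u, e1, e2, e3, e4, e5, trivial⟩
  obtain ⟨b, h1, rfl⟩ := Finset.mem_image.1 ht
  obtain ⟨h1, h2, γ, h3, h4⟩ := Finset.mem_filter.1 h1
  have h5 := n2 b h1
  refine ⟨b, U' a (b, 0), Q' a (b, 0), (hA b h1).1, rfl, o' a ha _ h5, c' a ha _ h5, f' a ha _ h5,
    m' a ha _ h5, k' a ha _ h5, e' a ha _ h5, ?_⟩
  obtain ⟨E, _, x, u, e1, e2, e3, e4, e5, z, e6, e7⟩ := hb b h1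
  have g1 := fund_uniq (dom b h1).1 (o' a ha _ h5) (hQ b h1) (f' a ha _ h5) (mV b h1)
    (m' a ha _ h5) (nT _ (n4 h5))
  rw [← (eY b h1).self_of_nhds, gY a ha b h1 _ h5, (e' a ha _ h5).self_of_nhds,
    nonsing_inv_mul_cancel_left _ _ (f' a ha _ h5 _ (m' a ha _ h5)).1.isUnit, ← e1] at g1
  replace g1 : ∀ᶠ w in 𝓝 (pc x), Q b w * C1 = Q' a (b, 0) w * C1 ∧
      Q b w * C0 = Q' a (b, 0) w * C0 * γ.map (algebraMap K ℂ) := g1.mono fun w hw => by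
    simp only [hw, Matrix.mul_assoc, h2, h4, nonsing_inv_mul_cancel_left _ _ (dY a ha).isUnit,
      and_self]
  refine ⟨E, inferInstance, x, u, e1, e2, e3, e4, e5, z, e6.trans g1.self_of_nhds.1, fun k => e7 ?_⟩
  exact good_mulR (o' a ha _ h5) (dom b h1).1 (dom b h1).2.1 (an (hQ b h1))
    (e1.symm ▸ m' a ha _ h5) (e1.symm ▸ mV b h1) (γ := γ.map (algebraMap K E)) (by
      rw [← RingHom.mapMatrix_apply, ← RingHom.map_det]
      exact (_root_.map_ne_zero _).2 h3) g1 k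

end

end Pool.Agent.Lib.MP_5591bc_ag.J
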