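import Pool.Agent.Lib.MP_5591bc_ag.J.DefP
import Pool.Agent.Lib.MP_5591bc_ag.N.Good

/-! Bad covectors can be taken on one sheet. -/

namespace Pool.Agent.Lib.MP_5591bc_ag.J

open Matrix Filter Topology G R W M N

noncomputable section

variable {σ K ν : Type*} [Fintype σ] [Field K] [Algebra K ℂ] [Fintype ν]
  {U U' : Set (σ → ℂ)} {P P' : (σ → ℂ) → Matrix ν ν ℂ} {C1 C0 : Matrix ν ν ℂ}
  {T : MvPolynomial σ K}

theorem proj_cont (ho : IsOpen U) (h : Proj T U P C1 C0) (hU : ContM U P U' P') :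
    Proj T U' P' C1 C0 := by
  obtain ⟨h0, N, A, h⟩ := h
  suffices IsOpen U' ∧ ∀ t ∈ U', MvPolynomial.aeval t T ^ N • (P' t * C0) =
    A.map (MvPolynomial.aeval (Sum.elim t fun a => (P' t * C1) a.1 a.2)) * P' t from
      ⟨h0, N, A, this.2⟩
  induction hU with
  | base => exact ⟨ho, h⟩
  | step U1 U2 P1 P2 s' _ o2 c2 d2 s1 s2 e ih =>
    refine ⟨o2, fun t ht => ?_⟩
    have an : ∀ (M : Matrix ν ν ℂ) i j, AnalyticOnNhd ℂ (fun t => (P2 t * M) i j) U2 :=
      fun M i j t ht => Finset.analyticAt_fun_sum _ fun k _ => (d2 i k t ht).fun_mul analyticAt_const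
    have co : ∀ l (t : σ → ℂ), AnalyticAt ℂ (fun z : σ → ℂ => z l) t := fun l t =>
      (ContinuousLinearMap.proj (R := ℂ) (φ := fun _ : σ => ℂ) l).analyticAt t
    ext i j
    refine AnalyticOnNhd.eqOn_of_preconnected_of_eventuallyEq (𝕜 := ℂ)
      (f := fun t => (MvPolynomial.aeval t T ^ N • (P2 t * C0)) i j)
      (g := fun t => (A.map (MvPolynomial.aeval (Sum.elim t fun a => (P2 t * C1) a.1 a.2)) *
        P2 t) i j) (fun t ht => ?_) (fun t ht => ?_) c2 s2 ?_ ht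
    · exact ((AnalyticAt.aeval_mvPolynomial (f := fun z => z) (co · t) T).fun_pow N).fun_mul
        (an C0 i j t ht)
    · refine Finset.analyticAt_fun_sum _ fun k _ => AnalyticAt.fun_mul ?_ (d2 k j t ht)
      refine AnalyticAt.aeval_mvPolynomial
        (f := fun t => Sum.elim t fun a : ν × ν => (P2 t * C1) a.1 a.2) ?_ (A i k)
      rintro (l | a)
      exacts [co l t, an C1 a.1 a.2 t ht]
    · filter_upwards [e, ih.1.mem_nhds s1] with t h3 h4
      rw [← h3, ih.2 t h4]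

variable [DecidableEq ν] {δ : ℕ}

/-- the action of `(ε, Y)` on the monomials -/
def Rp {S : Type*} [CommRing S] (δ : ℕ) (ε : S) (Y : Matrix ν ν S) : Matrix (Mo δ ν) (Mo δ ν) S :=
  piM fun _ : Fin δ => exg ε Y

omit [Fintype ν] in
theorem Rp_map {S S' : Type*} [CommRing S] [CommRing S'] (φ : S →+* S') (ε : S)
    (Y : Matrix ν ν S) : (Rp δ ε Y).map φ = Rp δ (φ ε) (Y.map φ) := by
  rw [Rp, piM_map, exg_map _ (map_zero φ), Rp]

omit [Fintype ν] in
theorem Rp_smul {S : Type*} [CommRing S] (a ε : S) (Y : Matrix ν ν S) :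
    Rp δ (a * ε) (a • Y) = a ^ δ • Rp δ ε Y := by
  ext μ η
  simp [Rp, ← exg_smul, piM, Finset.prod_mul_distrib]

theorem Rp_mono {S : Type*} [CommRing S] {ε : S} {Y Z Z' : Matrix ν ν S} (h : Y * Z = ε • Z') :
    Rp δ ε Y *ᵥ mono δ Z = ε ^ δ • mono δ Z' := by
  have e : exg ε Y *ᵥ hatg Z = ε • hatg Z' := by
    ext (_ | ⟨p, q⟩)
    · simp [exg, hatg, mulVec, dotProduct, Fintype.sum_option]
    · simpa [exg, hatg, mulVec, dotProduct, Fintype.sum_option, Fintype.sum_prod_type,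
        mul_apply] using congrFun₂ h p q
  rw [Rp, mono, piM_mulVec, e]
  ext μ
  simp [tens, mono, Finset.prod_mul_distrib]

theorem Rp_sy {S : Type*} [CommRing S] {F : Mo δ ν → S} (h : Sy F) (ε : S) (Y : Matrix ν ν S) :
    Sy (F ᵥ* Rp δ ε Y) := fun π μ => by
  simp only [vecMul, dotProduct]
  rw [← sy_sum π]
  refine Finset.sum_congr rfl fun η _ => ?_
  rw [h]
  exact congrArg _ (Equiv.prod_comp π fun l => exg ε Y (η l) (μ l))

theorem Rp_vec {S S' : Type*} [CommRing S] [CommRing S'] (φ : S →+* S') (F : Mo δ ν → S) (ε : S)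
    (Y : Matrix ν ν S) :
    (fun μ => φ ((F ᵥ* Rp δ ε Y) μ)) = (fun μ => φ (F μ)) ᵥ* Rp δ (φ ε) (Y.map φ) := by
  funext μ
  rw [RingHom.map_vecMul, Rp_map]
  rfl

theorem proj_map {S S' : Type*} [CommRing S] [CommRing S'] (φ : S →+* S') (g F : Mo δ ν → S)
    (c ε : S) (Y : Matrix ν ν S) :
    (fun μ => φ ((g + c ^ δ • (ε ^ δ • F - F ᵥ* Rp δ ε Y) : Mo δ ν → S) μ)) = (fun μ => φ (g μ)) +
      φ c ^ δ • (φ ε ^ δ • (fun μ => φ (F μ)) - (fun μ => φ (F μ)) ᵥ* Rp δ (φ ε) (Y.map φ)) := by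
  rw [← Rp_vec]
  funext μ
  simp only [Pi.add_apply, Pi.smul_apply, Pi.sub_apply, smul_eq_mul, map_add, map_mul, map_pow,
    map_sub]

/-- the horizontal covector is a polynomial in `det Z` and `C0 * adj Z` -/
theorem proj_pol {F : Mo δ ν → ℂ} {p N : Matrix ν ν ℂ} (hN : N.det ≠ 0) (h : p * N = N * C0) :
    ∃ w : Mo δ ν → MvPolynomial (Option (ν × ν)) ℂ, ∀ Z μ, MvPolynomial.eval (dj C0 Z) (w μ) =
      ((F ᵥ* Rp δ 1 p) ᵥ* Adj δ (Z * N⁻¹)) μ := by
  refine ⟨(fun μ => MvPolynomial.C (F μ)) ᵥ* Rp δ (MvPolynomial.X none * MvPolynomial.C N⁻¹.det)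
    ((N⁻¹.det • N).map MvPolynomial.C * of fun i j => MvPolynomial.X (some (i, j))),
    fun Z μ => (congrFun (Rp_vec (MvPolynomial.eval (dj C0 Z)) _ _ _) μ).trans ?_⟩
  have e1 : N⁻¹.adjugate = N⁻¹.det • N := by
    have := adjugate_mul N⁻¹
    rw [← Matrix.mul_one N⁻¹.adjugate, ← nonsing_inv_mul N hN.isUnit, ← Matrix.mul_assoc, this,
      Matrix.smul_mul, Matrix.one_mul]
  have e2 : (of fun i j => MvPolynomial.X (some (i, j)) : Matrix ν ν _).map
      (MvPolynomial.eval (dj C0 Z)) = C0 * Z.adjugate := by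
    ext i j
    simp [dj]
  have e3 : ((N⁻¹.det • N).map MvPolynomial.C).map (MvPolynomial.eval (dj C0 Z)) =
      N⁻¹.det • N := by
    ext i j
    simp only [map_apply, MvPolynomial.eval_C]
  rw [vecMul_vecMul, Adj, Rp, Rp, piM_mul, Matrix.map_mul, e2, e3]
  simp only [exg_mul, MvPolynomial.eval_C, map_mul, MvPolynomial.eval_X, one_mul, det_mul,
    adjugate_mul_distrib, e1, Matrix.smul_mul, Matrix.mul_smul, ← Matrix.mul_assoc, h]
  rfl

theorem proj_bad {E : Type*} [Field E] [Algebra E ℂ] [Algebra K E] [IsScalarTower K E ℂ]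
    (ho : IsOpen U) (h : Proj T U P C1 C0) {x : σ → E} {z : Matrix ν ν E} (hx : pc x ∈ U)
    (hT : MvPolynomial.aeval (pc x) T ≠ 0) (hz : z.map (algebraMap E ℂ) = P (pc x) * C1) :
    ∃ p : Matrix ν ν E, p.map (algebraMap E ℂ) * P (pc x) = P (pc x) * C0 ∧
      ∀ F : Mo δ ν → E, LGN P C1 C0 δ x z (F ᵥ* Rp δ 1 p) → LGN P C1 C0 δ x z F := by
  obtain ⟨h0, N, A, h⟩ := h
  let j : MvPolynomial (σ ⊕ ν × ν) K →ₐ[K] MvPolynomial (ν × ν) (MvPolynomial σ E) :=
    MvPolynomial.aeval (Sum.elim (fun l => MvPolynomial.C (MvPolynomial.X l)) MvPolynomial.X)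
  let ψ : (σ → ℂ) → MvPolynomial (ν × ν) (MvPolynomial σ E) →+* ℂ := fun t =>
    MvPolynomial.eval₂Hom (MvPolynomial.aeval t).toRingHom (uuN P C1 t)
  let χ : MvPolynomial (ν × ν) (MvPolynomial σ E) →+* E :=
    MvPolynomial.eval₂Hom (MvPolynomial.eval x) fun a => z a.1 a.2
  have e1 : ∀ t q, ψ t (j q) =
      MvPolynomial.aeval (Sum.elim t fun a => (P t * C1) a.1 a.2) q := fun t q => by
    rw [MvPolynomial.map_aeval, MvPolynomial.aeval_eq_eval₂Hom]
    congr 2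
    · ext a
      exact (MvPolynomial.eval₂Hom_C _ _ (MvPolynomial.C (algebraMap K E a))).trans
        ((MvPolynomial.aeval_C _ _).trans (IsScalarTower.algebraMap_apply K E ℂ a).symm)
    · funext o
      rcases o with l | a <;> simp [ψ, uuN]
  have e2 : ∀ q, algebraMap E ℂ (χ q) = ψ (pc x) q := fun q => by
    rw [MvPolynomial.map_eval₂Hom]
    congr 2
    · ext a <;> simp
    · funext a
      exact congrFun₂ hz a.1 a.2
  obtain ⟨τ, hτ⟩ : ∃ τ, τ = j (MvPolynomial.rename Sum.inl T ^ N) := ⟨_, rfl⟩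
  have e3 : ∀ t, ψ t τ = MvPolynomial.aeval t T ^ N := fun t => by
    rw [hτ, e1, map_pow, MvPolynomial.aeval_rename]
    rfl
  have e4 : ∀ t ∈ U, (A.map j).map (ψ t) * P t = ψ t τ • (P t * C0) := fun t ht => by
    rw [e3, h t ht]
    congr 1
    ext a b
    exact e1 t _
  have c0 : ψ (pc x) τ ≠ 0 := e3 _ ▸ pow_ne_zero _ hT
  have c1 : χ τ ≠ 0 := fun e => c0 (by rw [← e2, e, map_zero])
  refine ⟨(χ τ)⁻¹ • (A.map j).map χ, ?_, fun F ⟨g, g1, g2⟩ => ?_⟩
  · rw [← inv_smul_smul₀ c0 (P (pc x) * C0), ← e4 _ hx, ← Matrix.smul_mul]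
    congr 1
    ext a b
    simp [e2]
  refine ⟨_, fun μ => (congrFun (proj_map χ g (fun μ => MvPolynomial.C (MvPolynomial.C (F μ)))
    (MvPolynomial.C (MvPolynomial.C (χ τ)⁻¹)) τ (A.map j)) μ).trans ?_, ?_⟩
  · have e6 : ∀ c, χ (MvPolynomial.C (MvPolynomial.C c)) = c := fun c => by simp [χ]
    rw [show (fun μ => χ (g μ)) = _ from funext g1]
    simp only [e6]
    rw [smul_sub, smul_smul, ← mul_pow, inv_mul_cancel₀ c1, one_pow, one_smul, ← vecMul_smul,
      ← Rp_smul, inv_mul_cancel₀ c1, add_sub_cancel]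
  · filter_upwards [g2, ho.mem_nhds hx] with t g3 ht
    refine (congrArg (· ⬝ᵥ _) (proj_map (ψ t) _ _ _ _ _)).trans ?_
    rw [add_dotProduct, smul_dotProduct, sub_dotProduct, ← dotProduct_mulVec, smul_dotProduct,
      Rp_mono (Z' := P t * C0) (by
        rw [← Matrix.mul_assoc, e4 t ht, Matrix.smul_mul, Matrix.mul_assoc, h0]),
      dotProduct_smul, sub_self, smul_zero, add_zero]
    exact g3

end

end Pool.Agent.Lib.MP_5591bc_ag.J
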