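import Mathlib

/-! Fixed points of contracting polynomial maps on power series, with size and denominators. -/

namespace Pool.Agent.Lib.MP_5591bc_ag.J

open MvPowerSeries Finset
open scoped ENNReal

noncomputable section

variable {τ F : Type*}

theorem eis_diff [CommRing F] {p : Polynomial (MvPowerSeries τ F)}
    (h1 : constantCoeff (p.coeff 1) = 0) {u v : MvPowerSeries τ F} (hu : constantCoeff u = 0)
    (hv : constantCoeff v = 0) :
    ∃ z, constantCoeff z = 0 ∧ p.eval u - p.eval v = z * (u - v) := by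
  obtain ⟨q, hq⟩ := Polynomial.sub_dvd_eval_sub u v p.divX.divX
  have e : ∀ y, p.eval y = p.coeff 0 + p.coeff 1 * y + y ^ 2 * p.divX.divX.eval y := by
    intro y
    have a1 := congrArg (Polynomial.eval y) (Polynomial.divX_mul_X_add p)
    have a2 := congrArg (Polynomial.eval y) (Polynomial.divX_mul_X_add p.divX)
    simp only [Polynomial.eval_add, Polynomial.eval_mul, Polynomial.eval_X, Polynomial.eval_C,
      Polynomial.coeff_divX, zero_add] at a1 a2
    rw [← a1, ← a2]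
    ring
  refine ⟨p.coeff 1 + (u + v) * p.divX.divX.eval u + v ^ 2 * q, ?_, ?_⟩
  · simp [h1, hu, hv]
  · rw [e u, e v]
    linear_combination v ^ 2 * hq

theorem eis_const [CommRing F] {p : Polynomial (MvPowerSeries τ F)}
    (h0 : constantCoeff (p.coeff 0) = 0) {u : MvPowerSeries τ F} (hu : constantCoeff u = 0) :
    constantCoeff (p.eval u) = 0 := by
  have a1 := congrArg (Polynomial.eval u) (Polynomial.divX_mul_X_add p)
  simp only [Polynomial.eval_add, Polynomial.eval_mul, Polynomial.eval_X, Polynomial.eval_C] at a1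
  rw [← a1]
  simp [h0, hu]

theorem eis_ord [CommRing F] {p : Polynomial (MvPowerSeries τ F)}
    (h1 : constantCoeff (p.coeff 1) = 0) {u v : MvPowerSeries τ F} (hu : constantCoeff u = 0)
    (hv : constantCoeff v = 0) {n : ℕ} (h : (n : ℕ∞) ≤ (u - v).order) :
    ((n + 1 : ℕ) : ℕ∞) ≤ (p.eval u - p.eval v).order := by
  obtain ⟨z, hz, e⟩ := eis_diff h1 hu hv
  rw [e]
  refine le_trans ?_ le_order_mul
  rw [add_comm n 1, Nat.cast_add, Nat.cast_one]
  exact add_le_add (one_le_order_iff_constCoeff_eq_zero.2 hz) h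

theorem eis_fix [CommRing F] {p : Polynomial (MvPowerSeries τ F)}
    (h0 : constantCoeff (p.coeff 0) = 0) (h1 : constantCoeff (p.coeff 1) = 0) :
    ∃ w, constantCoeff w = 0 ∧ p.eval w = w ∧
      ∀ κ, ∃ n, coeff κ w = coeff κ ((fun u => p.eval u)^[n] 0) := by
  set s : ℕ → MvPowerSeries τ F := fun n => (fun u => p.eval u)^[n] 0 with hs
  have ss : ∀ n, s (n + 1) = p.eval (s n) := fun n => Function.iterate_succ_apply' _ _ _
  have c : ∀ n, constantCoeff (s n) = 0 := by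
    intro n
    induction n with
    | zero => simp [hs]
    | succ n ih => rw [ss]; exact eis_const h0 ih
  have o : ∀ n m : ℕ, (n : ℕ∞) ≤ (s n - s (n + m)).order := by
    intro n m
    induction n with
    | zero => simp
    | succ n ih =>
      rw [Nat.add_right_comm n 1 m, ss, ss]
      exact eis_ord h1 (c _) (c _) ih
  let w : MvPowerSeries τ F := fun κ => coeff κ (s (κ.degree + 1))
  have hw : ∀ κ, coeff κ w = coeff κ (s (κ.degree + 1)) := fun _ => rfl
  have o2 : ∀ n : ℕ, (n : ℕ∞) ≤ (w - s n).order := by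
    intro n
    refine nat_le_order fun κ hκ => ?_
    obtain ⟨m, rfl⟩ := Nat.exists_eq_add_of_le (Nat.succ_le_of_lt hκ)
    rw [map_sub, hw, ← map_sub]
    refine coeff_of_lt_order (lt_of_lt_of_le ?_ (o _ m))
    exact Nat.cast_lt.2 (Nat.lt_succ_self _)
  have cw : constantCoeff w = 0 := by
    rw [← coeff_zero_eq_constantCoeff_apply, hw, coeff_zero_eq_constantCoeff_apply, c]
  refine ⟨w, cw, ?_, fun κ => ⟨_, hw κ⟩⟩
  ext κ
  rw [hw, ss, ← sub_eq_zero, ← map_sub]
  refine coeff_of_lt_order (lt_of_lt_of_le ?_ (eis_ord h1 cw (c _) (o2 _)))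
  exact Nat.cast_lt.2 (Nat.lt_succ_self _)

/-! ### Denominators -/

/-- series with geometric denominators -/
def eisS (τ F : Type*) [CommRing F] (c : F) : Subring (MvPowerSeries τ F) where
  carrier := {f | ∀ κ : τ →₀ ℕ, IsIntegral ℤ (c ^ κ.degree * coeff κ f)}
  zero_mem' := fun κ => by simpa using isIntegral_zero
  one_mem' := fun κ => by
    classical
    rw [coeff_one]
    split_ifs with h
    · simpa [h] using isIntegral_one
    · simpa using isIntegral_zero
  add_mem' := fun ha hb κ => by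
    rw [map_add, mul_add]
    exact (ha κ).add (hb κ)
  neg_mem' := fun ha κ => by
    rw [map_neg, mul_neg]
    exact (ha κ).neg
  mul_mem' := fun {a b} ha hb κ => by
    classical
    rw [coeff_mul, mul_sum]
    refine IsIntegral.sum _ fun x hx => ?_
    rw [← mem_antidiagonal.1 hx, map_add, pow_add, mul_mul_mul_comm]
    exact (ha _).mul (hb _)

theorem eis_mem [CommRing F] {c : F} {f : MvPowerSeries τ F} :
    f ∈ eisS τ F c ↔ ∀ κ : τ →₀ ℕ, IsIntegral ℤ (c ^ κ.degree * coeff κ f) := Iff.rfl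

theorem eis_nat [CommRing F] (D k : ℕ) : IsIntegral ℤ ((D : F) ^ k) :=
  (isIntegral_natCast D).pow k

theorem eis_coeff_nat [CommRing F] (D : ℕ) (f : MvPowerSeries τ F) (κ : τ →₀ ℕ) :
    coeff κ ((D : MvPowerSeries τ F) * f) = (D : F) * coeff κ f := by
  rw [← map_natCast (C : F →+* MvPowerSeries τ F) D, coeff_C_mul]

theorem eis_den [Field F] [CharZero F] {p : Polynomial (MvPowerSeries τ F)}
    (h0 : constantCoeff (p.coeff 0) = 0) (h1 : constantCoeff (p.coeff 1) = 0) {D : ℕ} (hD : 0 < D)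
    (hp : ∀ j, (D : MvPowerSeries τ F) * p.coeff j ∈ eisS τ F 1) (n : ℕ) :
    (fun u => p.eval u)^[n] 0 ∈ eisS τ F ((D : F) ^ 2) := by
  have D0 : (D : F) ≠ 0 := Nat.cast_ne_zero.2 hD.ne'
  have a : ∀ j κ, IsIntegral ℤ ((D : F) * coeff κ (p.coeff j)) := fun j κ => by
    simpa only [one_pow, one_mul, eis_coeff_nat] using hp j κ
  have b : ∀ j, (D : MvPowerSeries τ F) * p.coeff j ∈ eisS τ F ((D : F) ^ 2) := fun j κ => by
    rw [eis_coeff_nat, ← pow_mul]
    exact (eis_nat D _).mul (a j κ)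
  have c : ∀ j, constantCoeff (p.coeff j) = 0 →
      C (D : F)⁻¹ * p.coeff j ∈ eisS τ F ((D : F) ^ 2) := fun j hj κ => by
    rw [coeff_C_mul]
    by_cases hκ : κ = 0
    · rw [hκ, coeff_zero_eq_constantCoeff_apply, hj, mul_zero, mul_zero]
      exact isIntegral_zero
    · obtain ⟨m, hm⟩ := Nat.exists_eq_succ_of_ne_zero (mt (Finsupp.degree_eq_zero_iff κ).1 hκ)
      have e : ((D : F) ^ 2) ^ κ.degree * ((D : F)⁻¹ * coeff κ (p.coeff j)) =
          (D : F) ^ (2 * m) * ((D : F) * coeff κ (p.coeff j)) := by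
        rw [hm, Nat.succ_eq_add_one]
        field_simp
        ring
      rw [e]
      exact (eis_nat D _).mul (a j κ)
  have i : (D : MvPowerSeries τ F) * C (D : F)⁻¹ = 1 := by
    rw [← map_natCast (C : F →+* MvPowerSeries τ F) D, ← map_mul, mul_inv_cancel₀ D0, map_one]
  have key : ∃ v ∈ eisS τ F ((D : F) ^ 2), (fun u => p.eval u)^[n] 0 = D * v := by
    induction n with
    | zero => exact ⟨0, zero_mem _, by simp⟩
    | succ n ih =>
      obtain ⟨v, hv, e⟩ := ih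
      rw [Function.iterate_succ_apply', e]
      have t : ∀ j, ∃ y ∈ eisS τ F ((D : F) ^ 2), p.coeff j * (D * v) ^ j = D * y := by
        intro j
        match j with
        | 0 => exact ⟨_, c 0 h0, by rw [← mul_assoc, i]; ring⟩
        | 1 =>
          refine ⟨(D : MvPowerSeries τ F) * (C (D : F)⁻¹ * p.coeff 1) * v,
            mul_mem (mul_mem (natCast_mem _ D) (c 1 h1)) hv, ?_⟩
          rw [← mul_assoc (D : MvPowerSeries τ F) (C _), i]
          ring
        | j + 2 =>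
          exact ⟨D * p.coeff (j + 2) * (D ^ j * v ^ (j + 2)),
            mul_mem (b _) (mul_mem (pow_mem (natCast_mem _ D) _) (pow_mem hv _)), by ring⟩
      choose y hy ey using t
      refine ⟨∑ j ∈ range (p.natDegree + 1), y j, sum_mem fun j _ => hy j, ?_⟩
      rw [Polynomial.eval_eq_sum_range, mul_sum]
      exact sum_congr rfl fun j _ => ey j
  obtain ⟨v, hv, e⟩ := key
  rw [e]
  exact mul_mem (natCast_mem _ D) hv

theorem eis_ev_den [CommRing F] {ι : Type*} (S : Subring F) {u : ι → F} {d a : ℕ}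
    (hu : ∀ i, (d : F) * u i ∈ S) (P : MvPolynomial ι ℤ) (hP : P.totalDegree ≤ a) :
    (d : F) ^ a * MvPolynomial.eval₂Hom (Int.castRingHom F) u P ∈ S := by
  rw [MvPolynomial.coe_eval₂Hom, MvPolynomial.eval₂_eq, mul_sum]
  refine sum_mem fun κ hκ => ?_
  have h1 : ∑ i ∈ κ.support, κ i ≤ a := (MvPolynomial.le_totalDegree hκ).trans hP
  obtain ⟨m, rfl⟩ := Nat.exists_eq_add_of_le h1
  have e : (d : F) ^ (∑ i ∈ κ.support, κ i + m) *
      ((Int.castRingHom F) (P.coeff κ) * ∏ i ∈ κ.support, u i ^ κ i) =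
      (d : F) ^ m * (((P.coeff κ : ℤ) : F) * ∏ i ∈ κ.support, ((d : F) * u i) ^ κ i) := by
    simp only [mul_pow, prod_mul_distrib, prod_pow_eq_pow_sum, pow_add, eq_intCast]
    ring
  rw [e]
  exact mul_mem (pow_mem (natCast_mem _ d) _)
    (mul_mem (intCast_mem _ _) (prod_mem fun i _ => pow_mem (hu i) _))

/-! ### Sizes -/

/-- weighted sum of the absolute values of the coefficients -/
def eisN (ρ : ℝ≥0∞) (f : MvPowerSeries τ ℂ) : ℝ≥0∞ := ∑' κ : τ →₀ ℕ, ‖coeff κ f‖ₑ * ρ ^ κ.degree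

variable {ρ : ℝ≥0∞} {f g : MvPowerSeries τ ℂ}

theorem eisN_zero : eisN ρ (0 : MvPowerSeries τ ℂ) = 0 := by simp [eisN]

theorem eisN_add : eisN ρ (f + g) ≤ eisN ρ f + eisN ρ g := by
  unfold eisN
  rw [← ENNReal.tsum_add]
  refine ENNReal.tsum_le_tsum fun κ => ?_
  rw [map_add, ← add_mul]
  exact mul_le_mul_left (enorm_add_le _ _) _

theorem eisN_neg : eisN ρ (-f) = eisN ρ f := by simp [eisN]

theorem eisN_sub : eisN ρ (f - g) ≤ eisN ρ f + eisN ρ g := by
  rw [sub_eq_add_neg, ← eisN_neg (f := g)]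
  exact eisN_add

theorem eisN_sum {ι : Type*} (s : Finset ι) (u : ι → MvPowerSeries τ ℂ) :
    eisN ρ (∑ i ∈ s, u i) ≤ ∑ i ∈ s, eisN ρ (u i) :=
  le_sum_of_subadditive _ eisN_zero.le (fun _ _ => eisN_add) s u

theorem eisN_mul : eisN ρ (f * g) ≤ eisN ρ f * eisN ρ g := by
  classical
  unfold eisN
  have e : (∑' κ : τ →₀ ℕ, ‖coeff κ f‖ₑ * ρ ^ κ.degree) *
      ∑' κ : τ →₀ ℕ, ‖coeff κ g‖ₑ * ρ ^ κ.degree = ∑' κ : τ →₀ ℕ, ∑ x ∈ antidiagonal κ,
        ‖coeff x.1 f‖ₑ * ρ ^ x.1.degree * (‖coeff x.2 g‖ₑ * ρ ^ x.2.degree) := by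
    rw [← ENNReal.tsum_mul_right]
    simp only [← ENNReal.tsum_mul_left]
    rw [← ENNReal.tsum_prod, ← HasAntidiagonal.sigmaAntidiagonalEquivProd.tsum_eq,
      ENNReal.tsum_sigma']
    refine tsum_congr fun κ => ?_
    rw [← Finset.tsum_subtype]
    rfl
  rw [e]
  refine ENNReal.tsum_le_tsum fun κ => ?_
  rw [coeff_mul]
  refine (mul_le_mul_left (enorm_sum_le _ _) _).trans ?_
  rw [sum_mul]
  refine sum_le_sum fun x hx => le_of_eq ?_
  rw [← mem_antidiagonal.1 hx, map_add, pow_add, enorm_mul, mul_mul_mul_comm]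

theorem eisN_mono (κ : τ →₀ ℕ) (c : ℂ) : eisN ρ (monomial κ c) = ‖c‖ₑ * ρ ^ κ.degree := by
  classical
  unfold eisN
  rw [tsum_eq_single κ, coeff_monomial_same]
  intro b hb
  rw [coeff_monomial_ne hb, enorm_zero, zero_mul]

theorem eisN_C (c : ℂ) : eisN ρ (C c : MvPowerSeries τ ℂ) = ‖c‖ₑ := by
  rw [← monomial_zero_eq_C_apply, eisN_mono, map_zero, pow_zero, mul_one]

theorem eisN_one : eisN ρ (1 : MvPowerSeries τ ℂ) = 1 := by
  rw [← map_one (C : ℂ →+* MvPowerSeries τ ℂ), eisN_C, enorm_one]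

theorem eisN_X (i : τ) : eisN ρ (X i : MvPowerSeries τ ℂ) = ρ := by
  rw [X_def, eisN_mono, Finsupp.degree_single, pow_one, enorm_one, one_mul]

theorem eisN_pow (n : ℕ) : eisN ρ (f ^ n) ≤ eisN ρ f ^ n := by
  induction n with
  | zero => rw [pow_zero, pow_zero, eisN_one]
  | succ n ih =>
    rw [pow_succ, pow_succ]
    exact eisN_mul.trans (mul_le_mul_left ih _)

theorem eisN_prod {ι : Type*} (s : Finset ι) (u : ι → MvPowerSeries τ ℂ) :
    eisN ρ (∏ i ∈ s, u i) ≤ ∏ i ∈ s, eisN ρ (u i) :=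
  le_prod_of_submultiplicative _ eisN_one.le (fun _ _ => eisN_mul) s u

theorem eisN_le (h : ρ ≤ 1) : eisN ρ f ≤ eisN 1 f :=
  ENNReal.tsum_le_tsum fun _ => mul_le_mul_right (pow_le_pow_left' h _) _

theorem eisN_le0 (h : ρ ≤ 1) (h0 : constantCoeff f = 0) : eisN ρ f ≤ ρ * eisN 1 f := by
  unfold eisN
  rw [← ENNReal.tsum_mul_left]
  refine ENNReal.tsum_le_tsum fun κ => ?_
  by_cases hκ : κ = 0
  · rw [hκ, coeff_zero_eq_constantCoeff_apply, h0, enorm_zero, zero_mul]
    exact zero_le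
  · rw [one_pow, mul_one, mul_comm ρ]
    exact mul_le_mul_right (pow_le_of_le_one zero_le h (mt (Finsupp.degree_eq_zero_iff κ).1 hκ)) _

theorem eisN_ev {ι : Type*} {u : ι → MvPowerSeries τ ℂ} {a n : ℕ} (hu : ∀ i, eisN 1 (u i) ≤ 2 ^ n)
    (P : MvPolynomial ι ℤ) (hP : P.totalDegree ≤ a)
    (hc : ∑ κ ∈ P.support, (P.coeff κ).natAbs ≤ 2 ^ a) :
    eisN 1 (MvPolynomial.eval₂Hom (Int.castRingHom _) u P) ≤ 2 ^ (a * (n + 1)) := by
  rw [MvPolynomial.coe_eval₂Hom, MvPolynomial.eval₂_eq]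
  refine (eisN_sum _ _).trans ?_
  have h : ∀ κ ∈ P.support, eisN 1 ((Int.castRingHom (MvPowerSeries τ ℂ)) (P.coeff κ) *
      ∏ i ∈ κ.support, u i ^ κ i) ≤ ((P.coeff κ).natAbs : ℝ≥0∞) * 2 ^ (a * n) := by
    intro κ hκ
    have h1 : ∑ i ∈ κ.support, κ i ≤ a := (MvPolynomial.le_totalDegree hκ).trans hP
    refine eisN_mul.trans (mul_le_mul' (le_of_eq ?_) ((eisN_prod _ _).trans ?_))
    · rw [eq_intCast, ← map_intCast (C : ℂ →+* MvPowerSeries τ ℂ), eisN_C, enorm_eq_nnnorm,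
        Complex.nnnorm_intCast, ← NNReal.natCast_natAbs, ENNReal.coe_natCast]
    · refine (prod_le_prod' fun i _ => (eisN_pow _).trans (pow_le_pow_left' (hu i) _)).trans ?_
      rw [prod_pow_eq_pow_sum, ← pow_mul, mul_comm a n]
      exact pow_le_pow_right₀ one_le_two (Nat.mul_le_mul_left _ h1)
  refine (sum_le_sum h).trans ?_
  rw [← sum_mul, ← Nat.cast_sum, Nat.mul_succ, pow_add, mul_comm]
  refine mul_le_mul_right ?_ _
  exact_mod_cast hc

theorem eis_size {p : Polynomial (MvPowerSeries τ ℂ)} (h0 : constantCoeff (p.coeff 0) = 0)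
    (h1 : constantCoeff (p.coeff 1) = 0) {b : ℕ}
    (hp : ∑ j ∈ range (p.natDegree + 1), eisN 1 (p.coeff j) ≤ 2 ^ b) (n : ℕ) (κ : τ →₀ ℕ) :
    ‖coeff κ ((fun u => p.eval u)^[n] 0)‖ ≤ (2 ^ (2 * b)) ^ κ.degree := by
  set ε : ℝ≥0∞ := (2 ^ b)⁻¹ with hε
  have t0 : (2 : ℝ≥0∞) ^ b ≠ 0 := pow_ne_zero _ two_ne_zero
  have t1 : (2 : ℝ≥0∞) ^ b ≠ ⊤ := ENNReal.pow_ne_top ENNReal.ofNat_ne_top
  have e1 : ε ≤ 1 := ENNReal.inv_le_one.2 (one_le_pow₀ one_le_two)
  have e2 : ε ^ 2 ≤ 1 := pow_le_one₀ zero_le e1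
  have e3 : ε * 2 ^ b = 1 := ENNReal.inv_mul_cancel t0 t1
  have key : eisN (ε ^ 2) ((fun u => p.eval u)^[n] 0) ≤ ε := by
    induction n with
    | zero => simp [eisN_zero]
    | succ n ih =>
      rw [Function.iterate_succ_apply', Polynomial.eval_eq_sum_range]
      refine (eisN_sum _ _).trans ?_
      have t : ∀ j ∈ range (p.natDegree + 1),
          eisN (ε ^ 2) (p.coeff j * ((fun u => p.eval u)^[n] 0) ^ j) ≤
            ε ^ 2 * eisN 1 (p.coeff j) := by
        intro j _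
        refine eisN_mul.trans ((mul_le_mul_right
          ((eisN_pow j).trans (pow_le_pow_left' ih j)) _).trans ?_)
        match j with
        | 0 => rw [pow_zero, mul_one]; exact eisN_le0 e2 h0
        | 1 => exact (mul_le_of_le_one_right zero_le (by rwa [pow_one])).trans (eisN_le0 e2 h1)
        | j + 2 =>
          rw [mul_comm]
          exact mul_le_mul' (pow_le_pow_right_of_le_one' e1 (Nat.le_add_left _ _)) (eisN_le e2)
      refine (sum_le_sum t).trans ?_
      rw [← mul_sum]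
      refine (mul_le_mul_right hp _).trans (le_of_eq ?_)
      rw [pow_two, mul_assoc, e3, mul_one]
  have k2 : ‖coeff κ ((fun u => p.eval u)^[n] 0)‖ₑ * (ε ^ 2) ^ κ.degree ≤ 1 :=
    (ENNReal.le_tsum κ).trans (key.trans e1)
  have k3 : ‖coeff κ ((fun u => p.eval u)^[n] 0)‖ₑ ≤ (2 ^ (2 * b)) ^ κ.degree := by
    have e4 : (ε ^ 2) ^ κ.degree * (2 ^ (2 * b)) ^ κ.degree = 1 := by
      rw [← mul_pow, mul_comm 2 b, pow_mul, ← mul_pow, e3, one_pow, one_pow]
    calc _ = ‖coeff κ ((fun u => p.eval u)^[n] 0)‖ₑ * (ε ^ 2) ^ κ.degree *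
          (2 ^ (2 * b)) ^ κ.degree := by rw [mul_assoc, e4, mul_one]
      _ ≤ 1 * (2 ^ (2 * b)) ^ κ.degree := mul_le_mul_left k2 _
      _ = _ := one_mul _
  rw [enorm_eq_nnnorm] at k3
  exact_mod_cast k3

end

end Pool.Agent.Lib.MP_5591bc_ag.J
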