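import Pool.Agent.Lib.MP_5591bc_ag.J.Set

/-! The statement for one cell. -/

namespace Pool.Agent.Lib.MP_5591bc_ag.J

open W M

noncomputable section

variable {σ K τ : Type} [Field K] [Algebra K ℂ]

/-- `x` is bad over a small field, `x` and `t` are small -/
def PtA (Bad : ∀ E : IntermediateField K ℂ, (σ → E) → Prop) (Λ : ℕ) (x : σ → ℂ) (t : τ → ℂ) :
    Prop :=
  ∃ (E : IntermediateField K ℂ) (_ : NumberField E) (y : σ → E) (u : τ → E), pc y = x ∧ pc u = t ∧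
    Module.finrank ℚ E ≤ Λ ∧ (∀ l, Hd (y l) (2 ^ Λ)) ∧ (∀ i, Ht (u i) (2 ^ Λ)) ∧ Bad E y

/-- the bad points of a cell coincide or lie over a hypersurface -/
def CellP [Fintype σ] (T : MvPolynomial σ K) (Bad : ∀ E : IntermediateField K ℂ, (σ → E) → Prop)
    (τ : Type) [Fintype τ] (r c : ℕ) : Prop :=
  ∀ Λ : ℕ, 2 ≤ Λ → r ≤ Λ → ∀ (T1 : MvPolynomial σ K) (G : σ → Polynomial (ZP τ))
    (g : Polynomial (ZP τ)) (Ψ : (τ → ℂ) → τ → ℂ) (y : (τ → ℂ) × (τ → ℂ) → σ → ℂ),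
    (∀ l, QM (G l) ∧ 0 < (G l).natDegree ∧ SzP Λ (G l)) → g.coeff 0 = 0 →
    Cel Λ G g (TM ℂ (T1 * T)) Ψ y → ∀ A : Finset (τ → ℂ),
      (∀ a ∈ A, ‖a‖ ≤ 1 ∧ PtA Bad Λ (y (a, 0)) (Ψ a)) →
      (∀ a ∈ A, ∀ a' ∈ A, y (a, 0) = y (a', 0)) ∨ Hyp (Ψ '' (A : Set (τ → ℂ))) (Λ ^ c)

/-- a type with `m` elements -/
def OT : ℕ → Type
  | 0 => PEmpty
  | m + 1 => Option (OT m)

instance otFin : ∀ m, Fintype (OT m)
  | 0 => inferInstanceAs (Fintype PEmpty)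
  | m + 1 => @instFintypeOption _ (otFin m)

end

end Pool.Agent.Lib.MP_5591bc_ag.J
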