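import Pool.Agent.Lib.MP_5591bc_ag.J.Sz
import Pool.Agent.Lib.MP_5591bc_ag.E.Set

/-! Local structure of a cell. -/

namespace Pool.Agent.Lib.MP_5591bc_ag.J

open Filter Topology Metric Finset M E

noncomputable section

theorem loc_cont {τ : Type*} (q : ZP τ) : Continuous fun t : τ → ℂ => evZ t q := by
  induction q using MvPolynomial.induction_on with
  | C a => simpa [evZ] using continuous_const
  | add p q hp hq => simpa only [map_add] using hp.fun_add hq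
  | mul_X p i hp => simpa [evZ] using hp.fun_mul (continuous_apply i)

/-- a simple root is locally unique -/
theorem loc_root {τ Z : Type*} [TopologicalSpace Z] {θ : Z → τ → ℂ} {u v : Z → ℂ} {p0 : Z}
    (hθ : ContinuousAt θ p0) (hu : ContinuousAt u p0) (hv : ContinuousAt v p0)
    {G : Polynomial (ZP τ)} (h1 : ∀ᶠ p in 𝓝 p0, evP (θ p) (u p) G = 0)
    (h2 : ∀ᶠ p in 𝓝 p0, evP (θ p) (v p) G = 0) (e : u p0 = v p0)
    (hd : evP (θ p0) (u p0) (Polynomial.derivative G) ≠ 0) : ∀ᶠ p in 𝓝 p0, u p = v p := by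
  have key : ∀ G : Polynomial (ZP τ), ContinuousAt (fun p => evP (θ p) (v p) G) p0 ∧
      ∃ H : Z → ℂ, ContinuousAt H p0 ∧ H p0 = evP (θ p0) (u p0) (Polynomial.derivative G) ∧
        ∀ p, evP (θ p) (u p) G - evP (θ p) (v p) G = (u p - v p) * H p := fun G => by
    have eX : ∀ (t : τ → ℂ) (z : ℂ), evP t z (Polynomial.X : Polynomial (ZP τ)) = z := by
      simp [evP]
    induction G using Polynomial.induction_on with
    | C a =>
      have eC : ∀ (t : τ → ℂ) (z : ℂ), evP t z (Polynomial.C a) = evZ t a := by simp [evP]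
      simp only [eC]
      exact ⟨(loc_cont a).continuousAt.comp hθ, 0, continuousAt_const, by simp, by simp⟩
    | add p q hp hq =>
      obtain ⟨a1, H1, a2, a3, a4⟩ := hp
      obtain ⟨b1, H2, b2, b3, b4⟩ := hq
      simp only [map_add]
      exact ⟨a1.add b1, fun p => H1 p + H2 p, a2.add b2, by simp only [a3, b3], fun p => by
        linear_combination a4 p + b4 p⟩
    | monomial n a ih =>
      obtain ⟨a1, H, a2, a3, a4⟩ := ih
      rw [pow_succ, ← mul_assoc, Polynomial.derivative_mul, Polynomial.derivative_X, mul_one]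
      generalize Polynomial.C a * Polynomial.X ^ n = g at *
      simp only [map_add, map_mul, eX]
      exact ⟨a1.mul hv, fun p => H p * u p + evP (θ p) (v p) g, (a2.mul hu).add a1,
        by simp only [a3, e], fun p => by linear_combination u p * a4 p⟩
  obtain ⟨-, H, a2, a3, a4⟩ := key G
  filter_upwards [h1, h2, a2.eventually_ne (a3 ▸ hd)] with p b1 b2 b3
  have := a4 p
  rw [b1, b2, sub_self] at this
  exact sub_eq_zero.1 ((mul_eq_zero.1 this.symm).resolve_right b3)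

variable {τ σ : Type} [Fintype τ] [Fintype σ] {Λ : ℕ} {G : σ → Polynomial (ZP τ)}
  {g : Polynomial (ZP τ)} {T : MvPolynomial σ ℂ} {Ψ : (τ → ℂ) → τ → ℂ}
  {y : (τ → ℂ) × (τ → ℂ) → σ → ℂ} {a a' : τ → ℂ}

theorem sc_self : sc Λ Ψ a (Ψ a) = (a, 0) := by
  simp [sc]

theorem th_sc (t : τ → ℂ) : th Λ Ψ (sc Λ Ψ a t) = t := by
  simp [th, sc, smul_smul]

theorem sc_ana (t : τ → ℂ) : AnalyticAt ℂ (sc Λ Ψ a) t := by
  exact analyticAt_const.prod (analyticAt_id.fun_sub analyticAt_const).fun_const_smul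

theorem loc_mem (ha : ‖a‖ ≤ 1) {R : ℝ} (hR : 1 < R) :
    (a, (0 : τ → ℂ)) ∈ ball (0 : (τ → ℂ) × (τ → ℂ)) R := by
  rw [mem_ball_zero_iff, Prod.norm_mk, norm_zero, max_eq_left (norm_nonneg a)]
  linarith

omit [Fintype τ] in
theorem loc_th0 : th Λ Ψ (a, 0) = Ψ a := by simp [th]

theorem Cel.loc_th (h : Cel Λ G g T Ψ y) {p : (τ → ℂ) × (τ → ℂ)} (hp : p ∈ ball 0 40) :
    AnalyticAt ℂ (th Λ Ψ) p :=
  ((h.an p.1 (mem_ball_zero_iff.2 ((norm_fst_le p).trans_lt (mem_ball_zero_iff.1 hp)))).comp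
    analyticAt_fst).fun_add analyticAt_snd.fun_const_smul

theorem Cel.loc_t1 (h : Cel Λ G g T Ψ y) (ha : ‖a‖ ≤ 1) :
    Tendsto (th Λ Ψ) (𝓝 (a, 0)) (𝓝 (Ψ a)) :=
  loc_th0 (Λ := Λ) (Ψ := Ψ) (a := a) ▸ (h.loc_th (loc_mem ha (by norm_num))).continuousAt

theorem Cel.loc_t2 (h : Cel Λ G g T Ψ y) (ha : ‖a‖ ≤ 1) :
    Tendsto (fun p => sc Λ Ψ a (th Λ Ψ p)) (𝓝 (a, 0)) (𝓝 (a, 0)) := by
  have := (sc_ana (Λ := Λ) (Ψ := Ψ) (a := a) (Ψ a)).continuousAt.tendsto.comp (h.loc_t1 ha)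
  rwa [sc_self] at this

/-- near `(a, 0)` the point of the variety depends only on the point of the base -/
theorem Cel.loc (h : Cel Λ G g T Ψ y) (hG : ∀ l, 0 < (G l).natDegree) (ha : ‖a‖ ≤ 1) :
    ∀ᶠ p in 𝓝 (a, (0 : τ → ℂ)), y p = y (sc Λ Ψ a (th Λ Ψ p)) := by
  have m := loc_mem ha (by norm_num : (1 : ℝ) < 40)
  have e : sc Λ Ψ a (th Λ Ψ (a, 0)) = (a, 0) := by rw [loc_th0, sc_self]
  have c := (h.ay _ m).continuousAt
  have c2 : ContinuousAt (fun p => y (sc Λ Ψ a (th Λ Ψ p))) (a, 0) := by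
    rw [ContinuousAt, e]
    exact c.tendsto.comp (h.loc_t2 ha)
  have b := isOpen_ball.eventually_mem m
  simp only [funext_iff]
  refine eventually_all.2 fun l => loc_root (G := G l) (h.loc_th m).continuousAt
    (continuousAt_pi.1 c l) (continuousAt_pi.1 c2 l) (b.mono fun p hp => h.rt p hp l)
    (((h.loc_t2 ha).eventually b).mono fun p hp => ?_) (by rw [e])
    (dsc_ne (hG l) (h.rt _ m l) fun c => h.ne _ m ?_)
  · simpa only [th_sc] using h.rt _ hp l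
  · rw [den, map_mul, map_prod, prod_eq_zero (mem_univ l) c, zero_mul]

theorem Cel.const (h : Cel Λ G g T Ψ y) (hG : ∀ l, 0 < (G l).natDegree) (ha : ‖a‖ ≤ 1)
    (e : ∀ᶠ t in 𝓝 (Ψ a), y (sc Λ Ψ a t) = y (a, 0)) (ha' : ‖a'‖ ≤ 1) : y (a', 0) = y (a, 0) := by
  refine h.ay.eqOn_of_preconnected_of_eventuallyEq analyticOnNhd_const
    (convex_ball _ _).isPreconnected (loc_mem ha (by norm_num)) ?_ (loc_mem ha' (by norm_num))
  filter_upwards [h.loc hG ha, (h.loc_t1 ha).eventually e] with p b1 b2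
  exact b1.trans b2

/-- a function that is locally a function of the two points and vanishes on one section -/
theorem Cel.tr0 (h : Cel Λ G g T Ψ y) (hG : ∀ l, 0 < (G l).natDegree) (ha : ‖a‖ ≤ 1)
    {f : (τ → ℂ) × (τ → ℂ) → ℂ} (hf : AnalyticOnNhd ℂ f (ball 0 36)) {f1 : (τ → ℂ) → (σ → ℂ) → ℂ}
    (e : ∀ᶠ p in 𝓝 (a, (0 : τ → ℂ)), f p = f1 (th Λ Ψ p) (y p))
    (h0 : ∀ᶠ t in 𝓝 (Ψ a), f (sc Λ Ψ a t) = 0) : ∀ p ∈ ball (0 : (τ → ℂ) × (τ → ℂ)) 36, f p = 0 := by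
  refine hf.eqOn_zero_of_preconnected_of_eventuallyEq_zero
    (convex_ball _ _).isPreconnected (loc_mem ha (by norm_num)) ?_
  filter_upwards [h.loc hG ha, (h.loc_t1 ha).eventually h0, e, (h.loc_t2 ha).eventually e]
    with p b1 b2 b3 b4
  rw [b3, b1, Pi.zero_apply, ← b2, b4, th_sc]

theorem Cel.cur (h : Cel Λ G g T Ψ y) (hG : ∀ l, 0 < (G l).natDegree) (ha : ‖a‖ ≤ 1)
    (ha' : ‖a'‖ ≤ 1) {α : Type*} [Finite α] {f : α → (τ → ℂ) × (τ → ℂ) → ℂ}
    (hf : ∀ i, AnalyticOnNhd ℂ (f i) (ball 0 36)) {f1 : α → (σ → ℂ) → ℂ}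
    (e : ∀ i, ∀ᶠ p in 𝓝 (a, (0 : τ → ℂ)), f i p = f1 i (y p)) {Λ' : ℕ} (hΛ : Λ + 5 ≤ Λ') :
    ∃ S, Cur (2 ^ Λ') S (2 ^ Λ')⁻¹ (Ψ a) (Ψ a') (fun i t => f i (sc Λ Ψ a t))
      fun i t => f i (sc Λ Ψ a' t) := by
  have sub : closedBall (0 : (τ → ℂ) × (τ → ℂ)) 35 ⊆ ball 0 36 :=
    closedBall_subset_ball (by norm_num)
  choose S hS using fun i => (isCompact_closedBall 0 35).exists_bound_of_continuousOn
    ((hf i).continuousOn.mono sub)
  obtain ⟨S0, h0⟩ := Finite.exists_le S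
  have l1 : (1 : ℝ) ≤ 2 ^ Λ := one_le_pow₀ one_le_two
  have l2 : (32 : ℝ) * 2 ^ Λ ≤ 2 ^ Λ' := by
    refine le_trans (le_of_eq ?_) (pow_le_pow_right₀ one_le_two hΛ)
    ring
  have n2 : ∀ t, ‖t - Ψ a'‖ ≤ (2 ^ Λ')⁻¹ → ‖(sc Λ Ψ a' t).2‖ ≤ 1 := fun t ht => by
    rw [sc, norm_smul, norm_pow, Complex.norm_ofNat]
    refine (mul_le_mul_of_nonneg_left ht (by positivity)).trans ?_
    rw [← div_eq_mul_inv, div_le_one (by positivity)]
    linarith
  have n1 : ∀ t, ‖t - Ψ a'‖ ≤ (2 ^ Λ')⁻¹ → ‖sc Λ Ψ a' t‖ ≤ 1 := fun t ht =>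
    max_le ha' (n2 t ht)
  refine ⟨S0, fun i => (hf i _ ?_).comp (sc_ana _), fun i t ht => (hf i _ ?_).comp (sc_ana _),
    fun t ht => ?_⟩
  · rw [sc_self]
    exact loc_mem ha (by norm_num)
  · exact mem_ball_zero_iff.2 ((n1 t (mem_closedBall_iff_norm.1 ht)).trans_lt (by norm_num))
  obtain ⟨q, hq⟩ : ∃ q, q = sc Λ Ψ a' t := ⟨_, rfl⟩
  have q1 := hq ▸ n1 t ht
  have q2 := hq ▸ n2 t ht
  obtain ⟨ℓ, hl⟩ : ∃ ℓ : ℂ → (τ → ℂ) × (τ → ℂ), ℓ = fun u => (a, 0) + u • (q - (a, 0)) := ⟨_, rfl⟩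
  have a0 : ‖(a, (0 : τ → ℂ))‖ ≤ 1 := max_le ha (by simp)
  have dl : Differentiable ℂ ℓ := by rw [hl]; fun_prop
  have l0 : ℓ 0 = (a, 0) := by simp [hl]
  have le : ℓ 1 = q := by simp [hl]
  have ml : ∀ u ∈ ball (0 : ℂ) 17, ℓ u ∈ closedBall (0 : (τ → ℂ) × (τ → ℂ)) 35 := fun u hu => by
    rw [mem_closedBall_zero_iff, hl]
    refine (norm_add_le _ _).trans ?_
    have := mul_le_mul (mem_ball_zero_iff.1 hu).le ((norm_sub_le q (a, 0)).trans
      (add_le_add q1 a0)) (norm_nonneg _) (by norm_num)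
    rw [norm_smul]
    linarith
  have m4 : ∀ u ∈ ball (0 : ℂ) 17, ℓ u ∈ ball (0 : (τ → ℂ) × (τ → ℂ)) 40 := fun u hu =>
    closedBall_subset_ball (by norm_num) (ml u hu)
  refine ⟨fun u => th Λ Ψ (ℓ u), fun u i => f i (ℓ u), fun u hu =>
    ((h.loc_th (m4 u hu)).differentiableAt.comp u (dl u)).differentiableWithinAt,
    by simp only [l0, loc_th0], by simp only [le, hq, th_sc], fun u hu => ?_, fun i => ⟨fun u hu =>
    ((hf i _ (sub (ml u hu))).differentiableAt.comp u (dl u)).differentiableWithinAt,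
    fun u hu => (hS i _ (ml u hu)).trans (h0 i), by simp only [le, hq], ?_⟩⟩
  · have b1 := h.bd (ℓ u).1 (mem_ball_zero_iff.2 ((norm_fst_le _).trans_lt
      (mem_ball_zero_iff.1 (m4 u hu))))
    have b2 := h.bd a (mem_ball_zero_iff.2 (ha.trans_lt (by norm_num)))
    have b3 : ‖((2 : ℂ) ^ Λ)⁻¹ • (ℓ u).2‖ ≤ 1 * (17 * 1) := by
      have : (ℓ u).2 = u • q.2 := by simp [hl]
      rw [this, norm_smul, norm_smul, norm_inv, norm_pow, Complex.norm_ofNat]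
      exact mul_le_mul (inv_le_one_of_one_le₀ l1) (mul_le_mul (mem_ball_zero_iff.1 hu).le q2
        (norm_nonneg _) (by norm_num)) (by positivity) zero_le_one
    refine (norm_sub_le _ _).trans ((add_le_add (norm_add_le _ _) le_rfl).trans ?_)
    linarith
  · have tl : Tendsto ℓ (𝓝 0) (𝓝 (a, 0)) := l0 ▸ (dl 0).continuousAt
    refine tl.eventually (p := fun p => f i p = f i (sc Λ Ψ a (th Λ Ψ p))) ?_
    filter_upwards [h.loc hG ha, e i, (h.loc_t2 ha).eventually (e i)] with p b1 b2 b3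
    rw [b2, b3, ← b1]

end

end Pool.Agent.Lib.MP_5591bc_ag.J
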