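import Pool.Agent.Lib.MP_5591bc_ag.J.Main

/-! Induction on the dimension, with a parameter in the exponent. -/

namespace Pool.Agent.Lib.MP_5591bc_ag.J

open W M

noncomputable section

open scoped Classical in
/-- few points, and points over a hypersurface -/
theorem main_hypU {σ K : Type} [Fintype σ] [Field K] [NumberField K] [Algebra K ℂ]
    (T : MvPolynomial σ K) (τ : Type) [Fintype τ] : ∃ c' : ℕ, ∀ (c : ℕ)
      (Bad : ∀ E : IntermediateField K ℂ, (σ → E) → Prop) (r : ℕ), CellP T Bad τ r c →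
      ∀ Λ : ℕ, 2 ≤ Λ → r ≤ Λ → ∀ Q : σ → Polynomial (ZP τ), (∀ l, QM (Q l) ∧ SzP Λ (Q l)) →
      ∀ S : Finset ((σ → ℂ) × (τ → ℂ)), (∀ p ∈ S, (∀ l, evP p.2 (p.1 l) (Q l) = 0) ∧
        MvPolynomial.aeval p.1 T ≠ 0 ∧ PtA Bad Λ p.1 p.2) → ∃ X : Finset (σ → ℂ),
        X.card ≤ Λ ^ c' ∧ Hyp {t | ∃ p ∈ S, p.1 ∉ X ∧ p.2 = t} (Λ ^ (c' * (c + 1))) := by
  obtain ⟨d, d0, F, F1, F2⟩ := elim_int T
  have ev : ∀ y : σ → ℂ, MvPolynomial.eval y (TM ℂ ((d : MvPolynomial σ K) * T)) =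
      d * MvPolynomial.aeval y T := fun y => by
    rw [MvPolynomial.eval_map, ← MvPolynomial.aeval_def, map_mul, map_natCast]
  obtain ⟨c1, h1⟩ := vcell τ σ (TM ℂ ((d : MvPolynomial σ K) * T)) F1 fun y => ev y ▸ F2 y
  obtain ⟨c2, h2⟩ := liou τ
  obtain ⟨e, he⟩ : ∃ e, e = (c1 + 1) * (c2 + 1) := ⟨_, rfl⟩
  refine ⟨e * c1 + e * (c1 + 1) + c1 + 1, fun c Bad r hC Λ L2 Lr Q hQ S hS => ?_⟩
  have pw : ∀ {a b}, a ≤ b → Λ ^ a ≤ Λ ^ b := Nat.pow_le_pow_right (by omega)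
  have p1 : ∀ {a}, 1 ≤ a → Λ ≤ Λ ^ a := fun h => Nat.le_self_pow (by omega) _
  have e1 : c1 + 1 ≤ e := by nlinarith
  have e2 : e ≤ e * (c1 + 1) := Nat.le_mul_of_pos_right _ (by omega)
  obtain ⟨G, g, T', T0, T1, hG, g0, h3⟩ := h1 Λ L2 Q hQ
  obtain ⟨𝒞, C1, C2, C3⟩ := h3 (Λ ^ e) (p1 (by omega))
  rw [← pow_mul] at C1 C2
  have ex : ∀ p ∈ S, evZ p.2 T' ≠ 0 → ∃ D ∈ 𝒞, ∃ a, ‖a‖ ≤ 1 ∧ D.1 a = p.2 ∧ D.2 (a, 0) = p.1 := by
    intro p hp h
    have a := main_ar (hS p hp).2.2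
    refine C3 _ _ (a.mono (p1 (a := e) (by omega))).norm_le ?_ (hS p hp).1
      (by rw [ev]; exact mul_ne_zero (Nat.cast_ne_zero.2 d0.ne') (hS p hp).2.1)
    refine le_trans ?_ (h2 (Λ ^ (c1 + 1)) (L2.trans (p1 (by omega))) _ _ (a.mono (p1 (by omega)))
      (T1.mono (pw (by omega))) h)
    rw [← pow_mul]
    exact inv_anti₀ (by positivity) (pow_le_pow_right₀ one_le_two (pw (by nlinarith)))
  choose! D hD a a1 a2 a3 using ex
  let A : _ → Finset (τ → ℂ) := fun E => (S.filter fun p => evZ p.2 T' ≠ 0 ∧ D p = E).image a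
  have key : ∀ E ∈ 𝒞, (∃ x, ∀ b ∈ A E, E.2 (b, 0) = x) ∨
      Hyp (((A E).image E.1 : Finset _) : Set (τ → ℂ)) (Λ ^ (e * (c1 + 1) * c)) := fun E hE => by
    obtain ⟨y, y1, y2⟩ := main_cel (C2 E hE) (pw (by nlinarith : e * c1 ≤ e * (c1 + 1)))
    have k : Λ ≤ Λ ^ (e * (c1 + 1)) := p1 (by omega)
    refine (hC _ (L2.trans k) (Lr.trans k) _ G g _ y (fun l => ⟨(hG l).1, (hG l).2.1,
      (hG l).2.2.mono (pw (by omega))⟩) g0 y1 (A E) fun b hb => ?_).imp (fun h => ?_) fun h => ?_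
    · obtain ⟨p, hp, rfl⟩ := Finset.mem_image.1 hb
      obtain ⟨p1, p2, rfl⟩ := Finset.mem_filter.1 hp
      rw [y2, a2 p p1 p2, a3 p p1 p2]
      exact ⟨a1 p p1 p2, main_mono (hS p p1).2.2 k⟩
    · rcases (A E).eq_empty_or_nonempty with h0 | ⟨b, hb⟩
      · exact ⟨0, by simp [h0]⟩
      · exact ⟨E.2 (b, 0), fun b' hb' => by rw [← y2, ← y2]; exact h b' hb' b hb⟩
    · rwa [Finset.coe_image, pow_mul]
  let 𝒜 := 𝒞.filter fun E => ∃ x, ∀ b ∈ A E, E.2 (b, 0) = x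
  have key2 : ∀ E ∈ 𝒜, ∃ x, ∀ b ∈ A E, E.2 (b, 0) = x := fun E hE => (Finset.mem_filter.1 hE).2
  choose! X hX using key2
  refine ⟨𝒜.image X, (Finset.card_image_le.trans ((Finset.card_filter_le _ _).trans C1)).trans
    (pw (by omega)), ?_⟩
  have H1 : Hyp {t : τ → ℂ | evZ t T' = 0} (Λ ^ c1) :=
    ⟨MvPolynomial.map (Int.castRingHom ℂ) T', (map_ne_zero_iff _
      (MvPolynomial.map_injective _ Int.cast_injective)).2 T0,
      (Finset.sup_mono (MvPolynomial.support_map_subset _ _)).trans T1.1,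
      fun t ht => by rwa [← evZ_eq]⟩
  have H2 := Hyp.cover (A := {t | ∃ E ∈ 𝒞 \ 𝒜, t ∈ (A E).image E.1})
    (Cs := (𝒞 \ 𝒜).image fun E => (A E).image E.1) (n := Λ ^ (e * (c1 + 1) * c)) (fun B hB => by
      obtain ⟨E, hE, rfl⟩ := Finset.mem_image.1 hB
      obtain ⟨h4, h5⟩ := Finset.mem_sdiff.1 hE
      exact (key E h4).resolve_left fun h => h5 (Finset.mem_filter.2 ⟨h4, h⟩))
    fun t ⟨E, hE, ht⟩ => ⟨_, Finset.mem_image_of_mem _ hE, ht⟩
  refine (H2.union H1).mono ?_ (le_trans (Nat.add_le_add_right ?_ _)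
    ((main_add L2 (e * c1 + e * (c1 + 1) * c) _).trans (pw (by
      nlinarith [Nat.zero_le (e * c1 * c), Nat.zero_le (c1 * c), Nat.zero_le (e * (c1 + 1))]))))
  · rintro _ ⟨p, hp, hx, rfl⟩
    refine (em (evZ p.2 T' = 0)).symm.imp (fun h => ?_) id
    have m : a p ∈ A (D p) := Finset.mem_image_of_mem _ (Finset.mem_filter.2 ⟨hp, h, rfl⟩)
    refine ⟨D p, Finset.mem_sdiff.2 ⟨hD p hp h, fun h4 => hx ?_⟩,
      a2 p hp h ▸ Finset.mem_image_of_mem _ m⟩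
    rw [← a3 p hp h, hX _ h4 _ m]
    exact Finset.mem_image_of_mem _ h4
  · rw [pow_add]
    exact Nat.mul_le_mul_right _ ((Finset.card_image_le.trans
      (Finset.card_le_card Finset.sdiff_subset)).trans C1)

open scoped Classical in
theorem cntAU {σ K : Type} [Fintype σ] [Field K] [NumberField K] [Algebra K ℂ]
    (T : MvPolynomial σ K) (c : ℕ → ℕ) (m : ℕ) : ∃ c' : ℕ, ∀ N : ℕ, 0 < N →
    ∀ (Bad : ∀ E : IntermediateField K ℂ, (σ → E) → Prop) (r : ℕ),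
      (∀ j, CellP T Bad (OT j) r (c j * N)) → ∀ Λ : ℕ, 2 ≤ Λ → r ≤ Λ →
      ∀ Q : σ → Polynomial (ZP (OT m)), (∀ l, QM (Q l) ∧ SzP Λ (Q l)) →
      ∀ S : Finset ((σ → ℂ) × (OT m → ℂ)), (∀ p ∈ S, (∀ l, evP p.2 (p.1 l) (Q l) = 0) ∧
        MvPolynomial.aeval p.1 T ≠ 0 ∧ PtA Bad Λ p.1 p.2) →
        (S.image Prod.fst).card ≤ Λ ^ (c' * N ^ m) := by
  induction m with
  | zero =>
    refine ⟨Fintype.card σ, fun N _ Bad r _ Λ _ _ Q hQ S hS =>
      (main_root hQ (fun _ => 0) ?_).trans_eq (by simp)⟩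
    intro x hx l
    obtain ⟨p, hp, rfl⟩ := Finset.mem_image.1 hx
    rw [← (hS p hp).1 l]
    congr 2
    exact funext fun i => PEmpty.elim i
  | succ m ih =>
    obtain ⟨c0, h0⟩ := ih
    obtain ⟨b1, h1⟩ := main_hypU T (Option (OT m))
    obtain ⟨c2, h2⟩ := intH (Option (OT m))
    obtain ⟨c3, h3⟩ := desc (OT m)
    obtain ⟨c4, h4⟩ := main_shear (OT m)
    obtain ⟨w, hw⟩ : ∃ w, w = (b1 * (c (m + 1) + 1) + 1) * (c2 + 1) * (c3 + c4 + 1) := ⟨_, rfl⟩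
    refine ⟨b1 + w * c0 + 1, fun N N0 Bad r hC Λ L2 Lr Q hQ S hS => ?_⟩
    obtain ⟨c1, hc1⟩ : ∃ c1, c1 = b1 * (c (m + 1) * N + 1) := ⟨_, rfl⟩
    obtain ⟨e, he⟩ : ∃ e, e = (c1 + 1) * (c2 + 1) := ⟨_, rfl⟩
    obtain ⟨f, hf⟩ : ∃ f, f = e * (c3 + c4 + 1) := ⟨_, rfl⟩
    have fw : f ≤ w * N := by
      have : c1 + 1 ≤ (b1 * (c (m + 1) + 1) + 1) * N := by
        rw [hc1]
        nlinarith [Nat.mul_le_mul_left b1 N0]
      calc f ≤ (b1 * (c (m + 1) + 1) + 1) * N * (c2 + 1) * (c3 + c4 + 1) := by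
            rw [hf, he]; gcongr
        _ = _ := by rw [hw]; ring
    have pw : ∀ {a b}, a ≤ b → Λ ^ a ≤ Λ ^ b := Nat.pow_le_pow_right (by omega)
    have p1 : ∀ {a}, 1 ≤ a → Λ ≤ Λ ^ a := fun h => Nat.le_self_pow (by omega) _
    have e1 : 1 ≤ e := by nlinarith
    have f1 : 1 ≤ f := by nlinarith
    obtain ⟨X, X1, X2⟩ := h1 _ Bad r (hC (m + 1)) Λ L2 Lr Q hQ S hS
    rw [← hc1] at X2
    obtain ⟨Θ, t0, t1, t2⟩ := h2 (Λ ^ (c1 + 1)) (L2.trans (p1 (by omega))) _ (by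
      rintro _ ⟨p, hp, -, rfl⟩
      exact (main_ar (hS p hp).2.2).mono (p1 (by omega))) (X2.mono le_rfl (pw (by omega)))
    rw [← pow_mul] at t1
    obtain ⟨s, s1, s2⟩ := h3 (Λ ^ e) (L2.trans (p1 e1)) Θ t0 (t1.mono (pw (by nlinarith)))
    choose Q' q1 q2 q3 using fun l => s2 (Q l) (hQ l).1 ((hQ l).2.mono (p1 e1))
    have h5 := h0 N N0 Bad r hC (Λ ^ f) (L2.trans (p1 f1)) (Lr.trans (p1 f1)) Q'
      (fun l => ⟨q1 l, (q2 l).mono (by rw [← pow_mul]; exact pw (by nlinarith))⟩)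
      ((S.filter fun p => p.1 ∉ X).image fun p => (p.1, fun i => p.2 (some i) - s i * p.2 none))
      fun p' hp' => by
        obtain ⟨p, hp, rfl⟩ := Finset.mem_image.1 hp'
        obtain ⟨hp, hx⟩ := Finset.mem_filter.1 hp
        exact ⟨fun l => q3 l _ _ (t2 _ ⟨p, hp, hx, rfl⟩) ((hS p hp).1 l), (hS p hp).2.1,
          main_mono (h4 Bad _ (L2.trans (p1 e1)) s s1 _ _ (main_mono (hS p hp).2.2 (p1 e1)))
            (by rw [← pow_mul]; exact pw (by nlinarith))⟩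
    rw [← pow_mul] at h5
    refine le_trans ?_ ((Nat.add_le_add X1 h5).trans ((main_add L2 _ _).trans (pw ?_)))
    swap
    · have n1 : 0 < N ^ (m + 1) := pow_pos N0 _
      have n2 : f * (c0 * N ^ m) ≤ w * c0 * N ^ (m + 1) :=
        (Nat.mul_le_mul_right _ fw).trans_eq (by ring)
      nlinarith [Nat.mul_le_mul_left b1 n1]
    refine le_trans (Finset.card_le_card fun x hx => ?_) (Finset.card_union_le _ _)
    obtain ⟨p, hp, rfl⟩ := Finset.mem_image.1 hx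
    exact Finset.mem_union.2 ((em _).imp id fun h => Finset.mem_image.2
      ⟨_, Finset.mem_image_of_mem _ (Finset.mem_filter.2 ⟨hp, h⟩), rfl⟩)

/-- start with `t = x`, and pass to a real height -/
theorem cntBU {σ K : Type} [Fintype σ] [Field K] [NumberField K] [Algebra K ℂ]
    (T : MvPolynomial σ K) (c : ℕ → ℕ) : ∃ C : ℕ, ∀ N r : ℕ, 0 < N → 0 < r →
    ∀ Bad : ∀ E : IntermediateField K ℂ, (σ → E) → Prop, (∀ j, CellP T Bad (OT j) r (c j * N)) →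
      ∀ (d : ℕ) (H : ℝ), 2 ≤ H → ∀ S : Finset (σ → ℂ), (∀ t ∈ S, MvPolynomial.aeval t T ≠ 0 ∧
        (∀ j, ∃ q : Polynomial ℤ, q ≠ 0 ∧ (∀ i, |(q.coeff i : ℝ)| ≤ H) ∧
          Polynomial.aeval (t j) q = 0) ∧
        ∃ (E : IntermediateField K ℂ) (x : σ → E), pc x = t ∧ FiniteDimensional ℚ E ∧
          Module.finrank ℚ E ≤ d ∧ Bad E x) →
        (S.card : ℝ) ≤ (C * r * d * Real.log H) ^ (C * N ^ Fintype.card σ) := by
  classical
  obtain ⟨c', hc⟩ := cntAU T c (Fintype.card σ)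
  let e : OT (Fintype.card σ) ≃ σ := Fintype.equivOfCardEq (main_card _)
  refine ⟨24 + c', fun N r N0 r1 Bad hC d H H2 S hS => ?_⟩
  have l0 := Real.log_two_gt_d9
  have l2 : Real.log 2 ≤ Real.log H := Real.log_le_log two_pos H2
  rcases Nat.eq_zero_or_pos d with rfl | d0
  · rcases S.eq_empty_or_nonempty with rfl | ⟨t, ht⟩
    · exact Nat.cast_zero.trans_le (pow_nonneg (by simp) _)
    · obtain ⟨-, -, E, x, -, _, hd, -⟩ := hS t ht
      exact absurd Module.finrank_pos (not_lt.2 hd)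
  obtain ⟨L, L0, L1, L2⟩ : ∃ L : ℕ, 0 < L ∧ H ≤ 2 ^ L ∧ (L : ℝ) ≤ 4 * Real.log H := by
    refine ⟨⌈2 * Real.log H⌉₊, Nat.ceil_pos.2 (by linarith), ?_, ?_⟩
    · rw [← Real.log_le_log_iff (by linarith) (by positivity), Real.log_pow]
      nlinarith [Nat.le_ceil (2 * Real.log H)]
    · linarith [Nat.ceil_lt_add_one (show 0 ≤ 2 * Real.log H by linarith)]
  obtain ⟨w, hw⟩ : ∃ w, w = (L + 1) * d := ⟨_, rfl⟩
  have w1 : d ≤ w := by nlinarith
  have w2 : w ≤ (r + 2) * w := by nlinarith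
  have h := hc N N0 Bad r hC ((r + 2) * w) (by nlinarith) (by nlinarith)
    (fun l => Polynomial.X - Polynomial.C (MvPolynomial.X (e.symm l)))
    (fun l => ⟨⟨1, one_ne_zero, (Polynomial.monic_X_sub_C _).leadingCoeff.trans (map_one _).symm⟩,
      (SzP.X.sub (SzP.C (Sz.X _))).mono (by nlinarith)⟩)
    (S.image fun x => (x, fun i => x (e i))) fun p hp => by
      obtain ⟨t, ht, rfl⟩ := Finset.mem_image.1 hp
      obtain ⟨h1, h2, E, x, rfl, _, hd, hb⟩ := hS t ht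
      have : NumberField E := {}
      have k : ∀ l, Hd (x l) (2 ^ ((r + 2) * w)) := fun l => by
        obtain ⟨q, q0, q1, q2⟩ := h2 l
        refine ⟨2 ^ (L + 1), le_self_pow₀ one_le_two (by omega), (Ht_of_poly q0 q1 ?_).mono
          (by rw [pow_succ]; linarith), ?_⟩
        · rwa [pc, Polynomial.aeval_algebraMap_apply, map_eq_zero] at q2
        · rw [← pow_mul]
          exact pow_le_pow_right₀ one_le_two (((Nat.mul_le_mul_left _ hd).trans hw.ge).trans w2)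
      exact ⟨fun l => by simp [evP, evZ], h1, E, _, x, fun i => x (e i), rfl, rfl,
        hd.trans (w1.trans w2), k, fun i => (k _).ht, hb⟩
  rw [Finset.image_image, show (Prod.fst ∘ fun x : σ → ℂ => (x, fun i => x (e i))) = id from rfl,
    Finset.image_id] at h
  have k1 : (((r + 2) * w : ℕ) : ℝ) ≤ (24 + c' : ℕ) * r * d * Real.log H := by
    have L3 : (1 : ℝ) ≤ L := by exact_mod_cast L0
    have r0 : (1 : ℝ) ≤ r := by exact_mod_cast r1
    rw [hw]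
    push_cast
    calc _ ≤ (3 * r) * (8 * Real.log H * d : ℝ) := by gcongr <;> linarith
      _ = 24 * r * d * Real.log H := by ring
      _ ≤ _ := mul_le_mul_of_nonneg_right (mul_le_mul_of_nonneg_right (mul_le_mul_of_nonneg_right
        (le_add_of_nonneg_right c'.cast_nonneg) (by linarith)) d.cast_nonneg) (by linarith)
  have k2 : (1 : ℝ) ≤ ((r + 2) * w : ℕ) := by exact_mod_cast (by nlinarith : 1 ≤ (r + 2) * w)
  calc (S.card : ℝ) ≤ (((r + 2) * w : ℕ) : ℝ) ^ (c' * N ^ Fintype.card σ) := by exact_mod_cast h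
    _ ≤ (((r + 2) * w : ℕ) : ℝ) ^ ((24 + c') * N ^ Fintype.card σ) :=
      pow_le_pow_right₀ k2 (Nat.mul_le_mul_right _ (by omega))
    _ ≤ _ := pow_le_pow_left₀ (by positivity) k1 _

end

end Pool.Agent.Lib.MP_5591bc_ag.J
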