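import Pool.Agent.Lib.MP_5591bc_ag.N.Ring

/-! The ring of the relative fibre. -/

namespace Pool.Agent.Lib.MP_5591bc_ag.J

open Matrix Filter Topology MvPowerSeries G R W M N

noncomputable section

/-- `Q` is the value at `s` of a relation over `ℂ[t, P C1]` of `P * (P s)⁻¹` -/
def InFibR {σ ν : Type*} [Fintype σ] [Fintype ν] [DecidableEq ν] (P : (σ → ℂ) → Matrix ν ν ℂ)
    (C1 : Matrix ν ν ℂ) (s : σ → ℂ) (Q : MvPolynomial (ν × ν) ℂ) : Prop :=
  ∃ H : MvPolynomial (σ ⊕ (ν × ν) ⊕ (ν × ν)) ℂ,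
    (∀ᶠ t in 𝓝 s, MvPolynomial.eval (Sum.elim t (Sum.elim (fun a => (P t * C1) a.1 a.2)
      fun a => (P t * (P s)⁻¹) a.1 a.2)) H = 0) ∧
    ∀ Z : ν × ν → ℂ, MvPolynomial.eval (Sum.elim s (Sum.elim (fun a => (P s * C1) a.1 a.2) Z)) H =
      MvPolynomial.eval Z Q

theorem ringJ_ev {σ κ S : Type*} [CommRing S] [Algebra ℂ S] (φ : S →ₐ[ℂ] ℂ) (a : σ → S) (b : κ → S)
    (Z : κ → ℂ) (H : MvPolynomial (σ ⊕ κ ⊕ κ) ℂ) :
    MvPolynomial.eval Z (MvPolynomial.map φ.toRingHom (MvPolynomial.aeval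
      (Sum.elim (fun l => MvPolynomial.C (a l)) (Sum.elim (fun l => MvPolynomial.C (b l))
        MvPolynomial.X)) H)) =
      MvPolynomial.eval (Sum.elim (fun l => φ (a l)) (Sum.elim (fun l => φ (b l)) Z)) H := by
  induction H using MvPolynomial.induction_on with
  | C c => simp
  | add p q hp hq => simp only [map_add, hp, hq]
  | mul_X p o hp => rcases o with l | l | l <;> simp only [map_mul, hp] <;> simp

section
variable {σ ν : Type} [Fintype ν] [DecidableEq ν]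

/-- the formal statement over a stable algebra -/
theorem ringJ_formal {S : Subalgebra ℂ (MvPowerSeries σ ℂ)} {s : σ → ℂ} (hS : ∀ p, τm s p ∈ S)
    {T : MvPolynomial σ ℂ} (hT : MvPolynomial.eval s T ≠ 0) (hD : DN (τm s T) S)
    {B : σ → Matrix ν ν (MvPolynomial σ ℂ)} {Y : Matrix ν ν (MvPowerSeries σ ℂ)}
    (h0 : Y.map constantCoeff = 1)
    (ode : ∀ l, τm s T • Y.map (pderiv ℂ l) = (B l).map (τm s) * Y)
    {𝒜 : Subring (MvPowerSeries σ ℂ)} (h1 : ∀ p ∈ S, p ∈ 𝒜) (h2 : ∀ i j, Y i j ∈ 𝒜)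
    (hC : ConnTN S 𝒜) : ∃ I : Ideal (MvPolynomial (ν × ν) ℂ), I.IsPrime ∧
      (∀ p ∈ I, V.evm (RingHom.id ℂ) 1 p = 0) ∧
      (∀ q : MvPolynomial (ν × ν) S, gev S.val Y q = 0 →
        MvPolynomial.map ((ccM σ).comp S.val).toRingHom q ∈ I) ∧
      ∀ (δ : ℕ) (u m : Mo δ ν → ℂ), (pX δ u ⬝ᵥ fun μ => MvPolynomial.C (m μ)) ∈ I →
        ∃ l : Mo δ ν → MvPowerSeries σ ℂ, (∀ μ, l μ ∈ S) ∧ (∀ μ, constantCoeff (l μ) = m μ) ∧
          l ⬝ᵥ ((fun β => C (u β)) ᵥ* Adj δ Y) = 0 := by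
  have : IsDomain (MvPowerSeries σ ℂ) := NoZeroDivisors.to_isDomain _
  let j : MvPolynomial σ ℂ →+* S := (τm s).codRestrict S hS
  let d : σ → S → S := fun l a => ⟨_, hD l a a.2⟩
  have ht : IsUnit (τm s T) := by rwa [isUnit_iff_constantCoeff, isUnit_iff_ne_zero, frT_const]
  have hA : ∀ q : MvPolynomial (ν × ν) S, gev S.val Y q ∈ 𝒜 := fun q => by
    induction q using MvPolynomial.induction_on with
    | C p => exact gev_C (τ := S.val) (G := Y) p ▸ h1 _ p.2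
    | add p q hp hq => exact map_add (gev S.val Y) p q ▸ add_mem hp hq
    | mul_X p a hp =>
      rw [map_mul, gev_X]
      exact mul_mem hp (h2 _ _)
  obtain ⟨I, h⟩ := ggen_of (τ := S.val) (cc := ccM σ) (ev := (ccM σ).comp S.val) (G := Y)
    Subtype.val_injective (fun _ => rfl) h0 fun u v n p hv hp e => by
      obtain ⟨i, hi, hp⟩ := hp
      obtain ⟨a, ha, b, hb, b0, r⟩ := hC _ (hA u) _ (hA v) n (fun i => p i) (fun i => (p i).2) hv
        ⟨i, hi, fun c => hp (Subtype.ext c)⟩ e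
      exact ⟨⟨a, ha⟩, ⟨b, hb⟩, fun c => b0 (congrArg Subtype.val c), r⟩
  refine ⟨I, h.prime, h.one, fun q hq => ?_, fun δ u m hm => ?_⟩
  · exact (h.mem_iff (δ := d) (B := fun l => (B l).map j) ht (fun _ _ => rfl) h0 ode _).2
      ⟨q, hq, rfl⟩
  · have hu : IsUnit Y.det := by
      rw [isUnit_iff_constantCoeff, RingHom.map_det, RingHom.mapMatrix_apply, h0, det_one]
      exact isUnit_one
    obtain ⟨l, l1, l2⟩ := (h.rep _ _ (ringN_rep δ) u (by
      rw [ringN_map]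
      refine gtay_of (δ := d) (B := fun l => (Bd δ (B l)).map j) ht (fun _ _ => rfl)
        (by rw [transpose_map, Adj_map, h0, Adj_one, transpose_one]) (fun l => ?_) u
      have := congrArg transpose (der_Adj (ode l) hu δ)
      rw [transpose_mul, transpose_transpose, ← Bd_map] at this
      exact this) m).1 (by
        rw [mulVec_transpose, dotProduct_comm]
        exact hm)
    rw [ringN_map, mulVec_transpose] at l1
    exact ⟨fun μ => l μ, fun μ => (l μ).2, l2, l1⟩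

end

theorem fib_ringJ {σ ν : Type} {K : Type*} [Fintype σ] [DecidableEq σ] [Field K] [Algebra K ℂ]
    [Fintype ν] [DecidableEq ν] {T : MvPolynomial σ K} {B : σ → Matrix ν ν (MvPolynomial σ K)}
    {U : Set (σ → ℂ)} {P : (σ → ℂ) → Matrix ν ν ℂ} (ho : IsOpen U) (hc : IsPreconnected U)
    (hP : FundM T B U P) {C1 : Matrix ν ν ℂ} (hC : ConnRM U P fun t => P t * C1) {s : σ → ℂ}
    (hs : s ∈ U) (hT : MvPolynomial.aeval s T ≠ 0) :
    ∃ (R : Type) (_ : CommRing R) (_ : IsDomain R) (_ : Algebra ℂ R)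
      (π : MvPolynomial (ν × ν) ℂ →ₐ[ℂ] R) (ev : R →ₐ[ℂ] ℂ),
      (∀ Q, InFibR P C1 s Q → π Q = 0) ∧
      (∀ (δ : ℕ) (u : Mo δ ν → ℂ) (μ : Mo δ ν), ev (π (pX δ u μ)) = u μ) ∧
      ∀ (δ : ℕ) (u m : Mo δ ν → ℂ),
        π (pX δ u ⬝ᵥ fun μ => MvPolynomial.C (m μ)) = 0 → LiftN P C1 δ s u m := by
  have a := fun t ht i j => ((hP t ht).2 i j).1
  have an : ∀ (M : Matrix ν ν ℂ), ∀ t ∈ U, ∀ i j, AnalyticAt ℂ (fun t => (P t * M) i j) t :=
    fun M t ht i j => Finset.analyticAt_fun_sum _ fun k _ => (a t ht i k).fun_mul analyticAt_const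
  have e : ∀ M : Matrix ν ν ℂ, tayX (fun t => P t * M) s = tayX P s * M.map C := fun M => by
    ext1 i j
    refine (tayM_sum _ fun k _ => (a s hs i k).fun_mul analyticAt_const).trans
      (Finset.sum_congr rfl fun k _ => ?_)
    rw [tayM_mul (a s hs i k) analyticAt_const, tayM_const]
    rfl
  have m : ∀ (M : Matrix ν ν ℂ) i j, tayX (fun t => P t * M) s i j ∈ (evGM s (tayX P s)).range :=
    fun M i j => ⟨∑ k, MvPolynomial.X (i, k) * MvPolynomial.C (MvPolynomial.C (M k j)), by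
      simp [e, evGM, mul_apply, frT_C]⟩
  obtain ⟨I, hp, h1, h2, h3⟩ := ringJ_formal (S := SN fun a => tayM (uuN P C1 · a) s) (s := s)
    (τm_mem_SN s _) (T := TM ℂ T) (by rwa [MvPolynomial.eval_map]) (DN_SN (uuN_ode ho hP C1 hs))
    (B := BM ℂ B) (Y := tayX (fun t => P t * (P s)⁻¹) s) (by
      rw [← mul_nonsing_inv _ (hP s hs).1.isUnit]
      ext i j
      exact constantCoeff_tayM (an _ s hs i j)) (fun l => by
      rw [e, ← Matrix.mul_assoc, ← irr_ode ho hP hs, Matrix.smul_mul]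
      congr 1
      ext1 i j
      simp [mul_apply, mul_comm]) (𝒜 := (evGM s (tayX P s)).range) (fun p hp => by
      obtain ⟨q, rfl⟩ := (mem_SN s).1 hp
      exact range_evGM (G' := tayX (fun t => P t * C1) s) (m C1) ⟨q, rfl⟩) (m _)
    ((connRM_iff ho hc a (an C1) hs).1 hC)
  refine ⟨_ ⧸ I, inferInstance, inferInstance, inferInstance, Ideal.Quotient.mkₐ ℂ I,
    Ideal.Quotient.liftₐ I (MvPolynomial.aeval fun a : ν × ν => (1 : Matrix ν ν ℂ) a.1 a.2) h1,
    fun Q hQ => Ideal.Quotient.eq_zero_iff_mem.2 ?_, fun δ u μ => ?_, fun δ u m hm => ?_⟩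
  · obtain ⟨H, q1, q2⟩ := hQ
    have hf : ∀ o, AnalyticAt ℂ (fun t => Sum.elim t (Sum.elim (fun a : ν × ν => (P t * C1) a.1 a.2)
        fun a : ν × ν => (P t * (P s)⁻¹) a.1 a.2) o) s := by
      rintro (l | b | b)
      exacts [coord_ana l, an _ s hs _ _, an _ s hs _ _]
    obtain ⟨q3, q4⟩ := tayM_mv hf H
    rw [(tayM_eq_zero_iff q3).2 q1] at q4
    have m1 : ∀ l, tayM (· l) s ∈ SN fun a => tayM (uuN P C1 · a) s := fun l =>
      tayM_coord (p := s) l ▸ add_mem (Algebra.subset_adjoin (.inl ⟨l, rfl⟩)) (algebraMap_mem _ _)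
    have := h2 (MvPolynomial.aeval (Sum.elim (fun l => MvPolynomial.C ⟨_, m1 l⟩) (Sum.elim
      (fun b => MvPolynomial.C ⟨_, Algebra.subset_adjoin (.inr ⟨b, rfl⟩)⟩) MvPolynomial.X)) H) (by
        rw [MvPolynomial.map_aeval, q4, MvPolynomial.aeval_eq_eval₂Hom]
        congr 2
        · exact RingHom.ext fun c => gev_C _
        · funext o
          rcases o with l | b | b
          exacts [gev_C _, gev_C _, gev_X _])
    convert this using 1
    refine MvPolynomial.funext fun Z => ?_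
    rw [← q2, ringJ_ev]
    refine congrArg (MvPolynomial.eval · H) (funext ?_)
    rintro (l | b | b)
    exacts [(constantCoeff_tayM (hf (.inl l))).symm,
      (constantCoeff_tayM (hf (.inr (.inl b)))).symm, rfl]
  · refine (spc_pX (MvPolynomial.aeval fun a : ν × ν => (1 : Matrix ν ν ℂ) a.1 a.2) δ u μ).trans ?_
    simp only [MvPolynomial.aeval_X]
    rw [show (of fun i j => (1 : Matrix ν ν ℂ) i j) = 1 from rfl, Adj_one, vecMul_one]
    rfl
  · obtain ⟨l, l1, l2, l3⟩ := h3 δ u m (Ideal.Quotient.eq_zero_iff_mem.1 hm)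
    choose q hq using fun μ => (mem_SN s).1 (l1 μ)
    have b0 := fun μ => (tay_vlN (u := uuN P C1) (uuN_an hP C1 hs) (q μ)).1
    have b1 := fun μ => (tay_vlC (u := uuN P C1) (uuN_an hP C1 hs) (q μ)).trans (hq μ)
    have b2 := serM_adj (Y := fun t => P t * (P s)⁻¹) (an _ s hs) δ
    have b3 := fun μ => covM_ana hP (P s)⁻¹ u μ hs
    refine ⟨q, fun μ => by rw [← l2, ← b1, constantCoeff_tayM (b0 μ)],
      eventually_zero_of_tayM (Finset.analyticAt_fun_sum _ fun μ _ => (b0 μ).fun_mul (b3 μ)) ?_⟩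
    refine (tayM_sum _ fun μ _ => (b0 μ).fun_mul (b3 μ)).trans (Eq.trans ?_ l3)
    refine Finset.sum_congr rfl fun μ _ => ?_
    rw [tayM_mul (b0 μ) (b3 μ), b1]
    refine congrArg _ ((tayM_sum _ fun β _ => analyticAt_const.fun_mul (b2 β μ).1).trans
      (Finset.sum_congr rfl fun β _ => ?_))
    rw [tayM_mul analyticAt_const (b2 β μ).1, tayM_const, (b2 β μ).2]

end

end Pool.Agent.Lib.MP_5591bc_ag.J
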