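import Pool.Agent.Lib.MP_5591bc_ag.J.Sz

/-! Tools for the polydisc cells. -/

namespace Pool.Agent.Lib.MP_5591bc_ag.J

open Polynomial Metric Finset

noncomputable section

/-- polynomially many polydisc cells -/
def CellAP (τ : Type) [Fintype τ] : Prop :=
  ∃ c : ℕ, ∀ Λ : ℕ, 2 ≤ Λ → ∀ T : ZP τ, T ≠ 0 → Sz Λ T →
    ∃ T' : ZP τ, T' ≠ 0 ∧ Sz (Λ ^ c) T' ∧ ∀ Λ' R : ℕ, Λ ≤ Λ' → 2 ≤ R →
      ∃ 𝒞 : Finset ((τ → ℂ) → τ → ℂ), #𝒞 ≤ (Λ' * R) ^ c ∧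
        (∀ Ψ ∈ 𝒞, AnalyticOnNhd ℂ Ψ (ball 0 R) ∧ ∀ a ∈ ball (0 : τ → ℂ) R,
          ‖Ψ a‖ ≤ 2 ^ Λ' ^ c ∧ (2 ^ Λ' ^ c)⁻¹ ≤ ‖evZ (Ψ a) T‖) ∧
        ∀ t : τ → ℂ, ‖t‖ ≤ 2 ^ Λ' → (2 ^ Λ')⁻¹ ≤ ‖evZ t T'‖ → ∃ Ψ ∈ 𝒞, ∃ a, ‖a‖ < 1 ∧ Ψ a = t

theorem cellA_empty : CellAP PEmpty := by
  refine ⟨0, fun Λ _ T T0 _ => ⟨MvPolynomial.C 1, by simp, Sz.C (by simp), fun Λ' R _ _ =>
    ⟨{fun _ => 0}, by simp, fun Ψ h => ?_, fun t _ _ =>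
      ⟨_, mem_singleton_self _, 0, by simp, Subsingleton.elim _ _⟩⟩⟩⟩
  obtain rfl := mem_singleton.1 h
  refine ⟨analyticOnNhd_const, fun a _ => ⟨by simp, ?_⟩⟩
  rw [MvPolynomial.eq_C_of_isEmpty T] at T0 ⊢
  have : (1 : ℝ) ≤ |((T.coeff 0 : ℤ) : ℝ)| := by
    exact_mod_cast Int.one_le_abs fun e => T0 (by rw [e, map_zero])
  rw [evZ, MvPolynomial.eval₂Hom_C, eq_intCast, Complex.norm_intCast]
  exact le_trans (by norm_num) this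

theorem cellA_comp {α β : Type} [Fintype α] [Fintype β] (e : α → β) (t : β → ℂ) :
    ‖fun i => t (e i)‖ ≤ ‖t‖ :=
  (pi_norm_le_iff_of_nonneg (norm_nonneg _)).2 fun _ => norm_le_pi_norm t _

theorem cellA_ana {α β : Type} [Fintype α] [Fintype β] (e : α → β) (t : β → ℂ) :
    AnalyticAt ℂ (fun (t : β → ℂ) i => t (e i)) t :=
  analyticAt_pi_iff.2 fun i => (ContinuousLinearMap.proj (R := ℂ) (φ := fun _ => ℂ) (e i)).analyticAt t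

theorem cellA_equiv {α β : Type} [Fintype α] [Fintype β] (e : α ≃ β) (h : CellAP α) :
    CellAP β := by
  classical
  obtain ⟨c, hc⟩ := h
  refine ⟨c, fun Λ Λ2 T T0 hT => ?_⟩
  obtain ⟨T', T1, T2, h⟩ := hc Λ Λ2 (MvPolynomial.rename e.symm T)
    ((map_ne_zero_iff _ (MvPolynomial.rename_injective _ e.symm.injective)).2 T0) (hT.rename _)
  refine ⟨MvPolynomial.rename e T', (map_ne_zero_iff _
    (MvPolynomial.rename_injective _ e.injective)).2 T1, T2.rename _, fun Λ' R h1 h2 => ?_⟩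
  obtain ⟨𝒞, n1, n2, n3⟩ := h Λ' R h1 h2
  refine ⟨𝒞.image fun Ψ a i => Ψ (fun j => a (e j)) (e.symm i), card_image_le.trans n1,
    fun Ψ hΨ => ?_, fun t t1 t2 => ?_⟩
  · obtain ⟨Ψ, k, rfl⟩ := mem_image.1 hΨ
    have m : ∀ a ∈ ball (0 : β → ℂ) R, (fun j => a (e j)) ∈ ball (0 : α → ℂ) R := fun a ha =>
      mem_ball_zero_iff.2 ((cellA_comp e a).trans_lt (mem_ball_zero_iff.1 ha))
    exact ⟨fun a ha => (cellA_ana e.symm _).comp (((n2 Ψ k).1 _ (m a ha)).comp (cellA_ana e a)),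
      fun a ha => ⟨(cellA_comp _ _).trans ((n2 Ψ k).2 _ (m a ha)).1,
        evZ_rename (Ψ _) e.symm T ▸ ((n2 Ψ k).2 _ (m a ha)).2⟩⟩
  · obtain ⟨Ψ, k, a, a1, a2⟩ := n3 _ ((cellA_comp e t).trans t1) (evZ_rename t e T' ▸ t2)
    exact ⟨_, mem_image_of_mem _ k, fun i => a (e.symm i), (cellA_comp _ _).trans_lt a1,
      by simp [a2]⟩

theorem cellA_num (c0 c1 cs : ℕ) : ∃ c : ℕ, ∀ M : ℕ, 2 ≤ M → ∀ a b : ℕ, a ≤ M ^ c1 →
    b ≤ M ^ (2 * c1 + 4) → ∃ M1 M3 M4 A : ℕ, M + (2 * a + 1) * (M + 1) ≤ M1 ∧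
      M + b ^ c0 * (M + 1) ≤ M1 ∧ b ≤ M1 ∧ M1 ^ c0 + (a + b) * (M1 ^ c0 + 1) ≤ M3 ∧ 2 + a ≤ M3 ∧
      M + M3 ^ cs + 1 ≤ M4 ∧ M1 + (a * (M3 + 1) + M4 * a) ≤ A ∧ M4 + M3 ≤ A ∧
      M3 + (M3 ^ cs + (A + 1) * a) * a + (2 * a + 1) * (A + 2 + 1) ≤ M ^ c ∧
      2 * a + 1 + b ^ c0 ≤ M ^ c ∧ ∀ R, 2 ≤ R →
        (M1 * (R * (256 * A + 257))) ^ c0 * (a * ((2 * A + 1) * (64 * R + 1) ^ 2)) ≤ (M * R) ^ c := by
  obtain ⟨e, he⟩ : ∃ e, e = (2 * c1 + 4) * (c0 + 3) * (c0 + 3) * (cs + 2) * 4 * 4 := ⟨_, rfl⟩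
  refine ⟨e * (c0 + 2), fun M M2 a b ha hb => ?_⟩
  obtain ⟨P, eP⟩ : ∃ P, P = M ^ (2 * c1 + 4) := ⟨_, rfl⟩
  obtain ⟨M1, e1⟩ : ∃ x, x = P ^ (c0 + 3) := ⟨_, rfl⟩
  obtain ⟨M3, e3⟩ : ∃ x, x = M1 ^ (c0 + 3) := ⟨_, rfl⟩
  obtain ⟨M4, e4⟩ : ∃ x, x = M3 ^ (cs + 2) := ⟨_, rfl⟩
  obtain ⟨A, e5⟩ : ∃ x, x = M4 ^ 4 := ⟨_, rfl⟩
  have e6 : A ^ 4 = M ^ e := by simp only [e5, e4, e3, e1, eP, he, pow_mul]
  have e0 : 0 < e := he ▸ by positivity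
  have e7 : A ^ 4 ≤ M ^ (e * (c0 + 2)) :=
    e6 ▸ Nat.pow_le_pow_right (by omega) (Nat.le_mul_of_pos_right _ (by omega))
  have p1 : a ≤ P := ha.trans (eP ▸ Nat.pow_le_pow_right (by omega) (by omega))
  have p2 : M ≤ P := eP ▸ Nat.le_self_pow (by omega) _
  have p3 : 16 ≤ P := eP ▸ (Nat.pow_le_pow_left M2 4).trans (Nat.pow_le_pow_right (by omega) (by omega))
  rw [← eP] at hb
  have p4 := Nat.pow_le_pow_left hb c0
  rw [pow_add] at e1 e3 e4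
  have p5 : 0 < P ^ c0 := by positivity
  generalize P ^ c0 = x at e1 p4 p5
  have cube : ∀ y : ℕ, 16 ≤ y → 16 * (y * y) ≤ y ^ 3 := fun y h => by
    rw [show y ^ 3 = y * (y * y) by ring]
    exact Nat.mul_le_mul_right _ h
  have p6 := cube P p3
  have p7 : P ^ 3 ≤ M1 := e1 ▸ Nat.le_mul_of_pos_left _ p5
  have p8 : x * (16 * (P * P)) ≤ M1 := e1 ▸ Nat.mul_le_mul_left _ p6
  have p9 : P ≤ P * P := Nat.le_mul_self P
  have p10 : 16 * (x * P) ≤ M1 :=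
    le_trans (by rw [mul_left_comm x]; exact Nat.mul_le_mul_left _ (Nat.mul_le_mul_left _ p9)) p8
  have p11 : x ≤ x * P := Nat.le_mul_of_pos_right _ (by omega)
  have p12 : P ≤ x * P := Nat.le_mul_of_pos_left _ p5
  have q1 : 0 < M1 ^ c0 := pow_pos (by omega) _
  generalize eq : M1 ^ c0 = y at q1 e3 ⊢
  have q3 : M1 ≤ M1 * M1 := Nat.le_mul_self M1
  have q4 : y * (16 * (M1 * M1)) ≤ M3 := e3 ▸ Nat.mul_le_mul_left _ (cube M1 (by omega))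
  have q5 : 16 * (M1 * M1) ≤ M3 := le_trans (Nat.le_mul_of_pos_left _ q1) q4
  have q6 : 16 * (y * M1) ≤ M3 :=
    le_trans (by rw [mul_left_comm y]; exact Nat.mul_le_mul_left _ (Nat.mul_le_mul_left _ q3)) q4
  have q7 : y ≤ y * M1 := Nat.le_mul_of_pos_right _ (by omega)
  have r1 : 0 < M3 ^ cs := pow_pos (by omega) _
  generalize er : M3 ^ cs = z at r1 e4 ⊢
  have r2 : z * (16 * M3) ≤ M4 :=
    e4 ▸ Nat.mul_le_mul_left _ (sq M3 ▸ Nat.mul_le_mul_right _ (by omega))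
  have r3 : 16 * M3 ≤ M4 := le_trans (Nat.le_mul_of_pos_left _ r1) r2
  have r4 : z * 16 ≤ M4 := le_trans (Nat.mul_le_mul_left _ (by omega)) r2
  have s0 : 4 * 4 ≤ M4 * M4 := Nat.mul_le_mul (by omega) (by omega)
  have s1 : 16 * (M4 * M4) ≤ A := by
    rw [e5, show M4 ^ 4 = M4 * M4 * (M4 * M4) by ring]
    exact Nat.mul_le_mul_right _ s0
  have s2 : M4 ≤ M4 * M4 := Nat.le_mul_self M4
  have s3 : a * (M3 + 1) ≤ M4 * M4 := Nat.mul_le_mul (by omega) (by omega)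
  have s4 : M4 * a ≤ M4 * M4 := Nat.mul_le_mul_left _ (by omega)
  have u1 : A ≤ A * A := Nat.le_mul_self A
  have u2 : A * A ≤ A * (A * A) := Nat.le_mul_of_pos_left _ (by omega)
  have u3 : 16 * (A * (A * A)) ≤ A ^ 4 := by
    rw [show A ^ 4 = A * (A * (A * A)) by ring]
    exact Nat.mul_le_mul_right _ (by omega)
  have u4 : (A + 1) * a ≤ 2 * (A * A) := mul_assoc 2 A A ▸ Nat.mul_le_mul (by omega) (by omega)
  have u5 : (z + (A + 1) * a) * a ≤ 3 * (A * (A * A)) :=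
    (Nat.mul_le_mul (show _ ≤ 3 * (A * A) by omega) (show a ≤ A by omega)).trans_eq (by ring)
  have u6 : (2 * a + 1) * (A + 2 + 1) ≤ 2 * (A * A) :=
    (Nat.mul_le_mul (show _ ≤ A by omega) (show _ ≤ 2 * A by omega)).trans_eq (by ring)
  have w1 : (2 * a + 1) * (M + 1) ≤ 6 * (P * P) :=
    (Nat.mul_le_mul (show _ ≤ 3 * P by omega) (show _ ≤ 2 * P by omega)).trans_eq (by ring)
  have w2 : b ^ c0 * (M + 1) ≤ 2 * (x * P) :=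
    (Nat.mul_le_mul p4 (show _ ≤ 2 * P by omega)).trans_eq (by ring)
  have w3 : (a + b) * (y + 1) ≤ 2 * (y * M1) :=
    (Nat.mul_le_mul (show _ ≤ M1 by omega) (show _ ≤ 2 * y by omega)).trans_eq (by ring)
  have w4 : 512 * A ≤ A * A := Nat.mul_le_mul_right _ (by omega)
  refine ⟨M1, M3, M4, A, by omega, by omega, by omega, by rw [eq]; omega, by omega,
    by rw [er]; omega, by omega, by omega, by rw [er]; omega, by omega, fun R R2 => ?_⟩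
  have v0 : 128 * R ≤ A * R := Nat.mul_le_mul_right _ (by omega)
  have v1 : M1 * (R * (256 * A + 257)) ≤ A ^ 4 * R :=
    calc _ = M1 * (256 * A + 257) * R := by ring
      _ ≤ A * (A * A) * R := Nat.mul_le_mul_right _ (Nat.mul_le_mul (by omega) (by omega))
      _ ≤ _ := Nat.mul_le_mul_right _ (by omega)
  have v2 : a * ((2 * A + 1) * (64 * R + 1) ^ 2) ≤ (A ^ 4 * R) ^ 2 :=
    calc _ ≤ A * (A * A * (A * R) ^ 2) := Nat.mul_le_mul (by omega)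
          (Nat.mul_le_mul (by omega) (Nat.pow_le_pow_left (by omega) _))
      _ = A ^ 5 * R ^ 2 := by ring
      _ ≤ A ^ 8 * R ^ 2 := Nat.mul_le_mul_right _ (Nat.pow_le_pow_right (by omega) (by omega))
      _ = _ := by ring
  refine (Nat.mul_le_mul (Nat.pow_le_pow_left v1 _) v2).trans ?_
  rw [← pow_add, pow_mul, mul_pow M, e6]
  exact Nat.pow_le_pow_left (Nat.mul_le_mul_left _ (Nat.le_self_pow e0.ne' _)) _

end

end Pool.Agent.Lib.MP_5591bc_ag.J
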