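import Pool.Agent.Lib.MP_5591bc_ag.J.Sz
import Pool.Agent.Lib.MP_5591bc_ag.E.CellA

/-! Size and separation of the roots. -/

namespace Pool.Agent.Lib.MP_5591bc_ag.J

open Polynomial Metric Finset

noncomputable section

theorem sep_prod {n : ℕ} {p : ℂ[X]} {l : ℂ} {r : Fin n → ℂ} (l0 : l ≠ 0)
    (hp : p = C l * ∏ j, (X - C (r j))) :
    resultant p (derivative p) n n = l ^ n * ∏ i, (l * ∏ k ∈ univ.erase i, (r i - r k)) := by
  have mo : (∏ j, (X - C (r j))).Monic := monic_prod_of_monic _ _ fun j _ => monic_X_sub_C _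
  have lc : p.leadingCoeff = l := by rw [hp, leadingCoeff_mul, mo.leadingCoeff]; simp
  have dg : p.natDegree = n := by
    rw [hp, natDegree_C_mul l0, natDegree_prod_of_monic _ _ fun j _ => monic_X_sub_C _]; simp
  have rt : p.roots = univ.val.map r := by
    rw [hp, roots_C_mul _ l0, ← roots_multiset_prod_X_sub_C (univ.val.map r), Multiset.map_map]
    rfl
  have h := resultant_eq_prod_eval p (derivative p) n
    ((natDegree_derivative_le p).trans (by omega)) (IsAlgClosed.splits _)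
  rw [dg, lc, rt, Multiset.map_map] at h
  rw [h]
  refine congrArg _ (prod_congr rfl fun i _ => ?_)
  rw [Function.comp, hp, derivative_C_mul, eval_mul, eval_C, ← Lagrange.eval_nodal (v := r) (x := r i),
    ← Lagrange.eval_nodal_derivative_eval_node_eq (mem_univ i)]
  rfl

theorem sep_c {n A : ℕ} {p : ℂ[X]} {l : ℂ} {r : Fin n → ℂ} (A0 : 0 < A) (hn : n ≤ A)
    (hp : p = C l * ∏ j, (X - C (r j))) (cp : ∀ i, ‖p.coeff i‖ ≤ 2 ^ A) (l1 : (2 ^ A)⁻¹ ≤ ‖l‖)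
    (hD : (2 ^ A)⁻¹ ≤ ‖resultant p (derivative p) n n‖) :
    (∀ j, ‖r j‖ ≤ 2 ^ (3 * A)) ∧ ∀ i j, i ≠ j →
      (2 ^ (13 * A ^ 3))⁻¹ ≤ ‖r i - r j‖ ∧ ‖r i - r j‖ ≤ 2 ^ (4 * A) := by
  obtain ⟨V, eV⟩ : ∃ V : ℝ, V = 2 ^ A := ⟨_, rfl⟩
  have V2 : 2 ≤ V := eV ▸ le_self_pow₀ one_le_two A0.ne'
  have e3 : (2 : ℝ) ^ (3 * A) = V ^ 3 := by rw [eV, ← pow_mul, mul_comm]
  have e4 : (2 : ℝ) ^ (4 * A) = V ^ 4 := by rw [eV, ← pow_mul, mul_comm]
  rw [← eV] at cp l1 hD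
  rw [e3, e4]
  have V0 : 0 < V := by linarith
  have L0 : 0 < ‖l‖ := (inv_pos.2 V0).trans_le l1
  have mo : (∏ j, (X - C (r j))).Monic := monic_prod_of_monic _ _ fun j _ => monic_X_sub_C _
  have lc : p.leadingCoeff = l := by rw [hp, leadingCoeff_mul, mo.leadingCoeff]; simp
  have l2 : ‖l‖ ≤ V := lc ▸ cp _
  have p0 : p ≠ 0 := leadingCoeff_ne_zero.1 (lc ▸ norm_pos_iff.1 L0)
  have rt : ∀ j, p.eval (r j) = 0 := fun j => by
    rw [hp, eval_mul, eval_prod, prod_eq_zero (mem_univ j) (by simp), mul_zero]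
  have r3 : ∀ j, ‖r j‖ ≤ V ^ 3 := fun j => by
    have h1 : (‖r j‖₊ : ℝ) < cauchyBound p := IsRoot.norm_lt_cauchyBound p0 (rt j)
    have h2 : ((range p.natDegree).sup (‖p.coeff ·‖₊) : NNReal) ≤ ⟨V, V0.le⟩ :=
      Finset.sup_le fun i _ => cp i
    have h3 : (((range p.natDegree).sup (‖p.coeff ·‖₊) : NNReal) : ℝ) ≤ V := h2
    rw [cauchyBound, lc] at h1
    push_cast at h1
    have h4 : (((range p.natDegree).sup (‖p.coeff ·‖₊) : NNReal) : ℝ) / ‖l‖ ≤ V / V⁻¹ := by gcongr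
    rw [div_inv_eq_mul] at h4
    nlinarith [mul_le_mul V2 V2 zero_le_two V0.le]
  have V3 : 0 < V ^ 3 := by positivity
  have r4 : ∀ i j, ‖r i - r j‖ ≤ V ^ 4 := fun i j => by
    have := norm_sub_le (r i) (r j)
    nlinarith [r3 i, r3 j]
  refine ⟨r3, fun i j hij => ⟨?_, r4 i j⟩⟩
  have VW : V ≤ V ^ 4 := le_self_pow₀ (by linarith) (by norm_num)
  have eW : (2 : ℝ) ^ (13 * A ^ 3) = V ^ (13 * A ^ 2) := by rw [eV, ← pow_mul]; congr 1; ring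
  obtain ⟨W, e5⟩ : ∃ W, W = V ^ 4 := ⟨_, rfl⟩
  rw [← e5] at r4 VW
  have W1 : 1 ≤ W := by linarith
  have pr : ∀ (s : Finset (Fin n)) i, ‖∏ k ∈ s, (r i - r k)‖ ≤ W ^ A := fun s i => by
    rw [norm_prod]
    refine (prod_le_prod (fun _ _ => norm_nonneg _) fun k _ => r4 i k).trans ?_
    rw [prod_const]
    exact pow_le_pow_right₀ W1 ((card_le_univ _).trans (by simpa using hn))
  have V1 : 1 ≤ V := by linarith
  have q1 : ‖∏ i' ∈ univ.erase i, (l * ∏ k ∈ univ.erase i', (r i' - r k))‖ ≤ (V * W ^ A) ^ n := by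
    rw [norm_prod]
    refine (prod_le_prod (fun _ _ => norm_nonneg _) fun k _ =>
      (norm_mul_le_of_le l2 (pr _ k))).trans ?_
    rw [prod_const]
    exact pow_le_pow_right₀ (one_le_mul_of_one_le_of_one_le V1 (one_le_pow₀ W1))
      ((card_le_univ _).trans (by simp))
  rw [sep_prod (norm_pos_iff.1 L0) hp, ← mul_prod_erase _ _ (mem_univ i), ← mul_prod_erase _ _
    (mem_erase.2 ⟨hij.symm, mem_univ j⟩), norm_mul, norm_mul, norm_mul, norm_mul, norm_pow] at hD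
  have q2 : V⁻¹ ≤ V ^ n * (V * (‖r i - r j‖ * W ^ A) * (V * W ^ A) ^ n) := hD.trans (by
    have := pr ((univ.erase i).erase j) i
    gcongr)
  rw [inv_le_iff_one_le_mul₀ (by positivity)] at q2 ⊢
  refine q2.trans (le_trans (le_of_eq ?_) (mul_le_mul_of_nonneg_left (eW ▸ pow_le_pow_right₀ V1
    (show 2 * n + 2 + 4 * A + 4 * A * n ≤ 13 * A ^ 2 by nlinarith)) (norm_nonneg _)))
  rw [e5]
  ring

theorem sepZ : ∃ c : ℕ, ∀ (τ : Type) [Fintype τ] (Λ : ℕ), 2 ≤ Λ → ∀ g : (ZP τ)[X], SzP Λ g →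
    ∀ y : τ → ℂ, ‖y‖ ≤ 2 ^ Λ → (2 ^ Λ)⁻¹ ≤ ‖evZ y (g.leadingCoeff * dsc g)‖ →
      ∀ r : Fin g.natDegree → ℂ,
        g.map (evZ y) = C (evZ y g.leadingCoeff) * ∏ j, (X - C (r j)) →
        (2 ^ Λ ^ c)⁻¹ ≤ ‖evZ y g.leadingCoeff‖ ∧ (∀ j, ‖r j‖ ≤ 2 ^ Λ ^ c) ∧
          ∀ i j, i ≠ j → (2 ^ Λ ^ c)⁻¹ ≤ ‖r i - r j‖ ∧ ‖r i - r j‖ ≤ 2 ^ Λ ^ c := by
  refine ⟨25, fun τ _ Λ Λ2 g hg y hy h r hr => ?_⟩
  obtain ⟨A, eA⟩ : ∃ A, A = Λ ^ 7 := ⟨_, rfl⟩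
  have a0 : 2 ^ 4 * Λ ^ 3 ≤ A := by
    rw [eA, show 7 = 4 + 3 from rfl, pow_add]
    gcongr
  have a1 : Λ + 8 * Λ ^ 2 * (Λ + 1) ≤ A := by nlinarith [Nat.mul_le_mul Λ2 Λ2]
  have a2 : Λ + Λ * (Λ + 1) ≤ A := by nlinarith
  have a3 : 13 * A ^ 3 ≤ Λ ^ 25 := by
    rw [eA, ← pow_mul, show 25 = 4 + 7 * 3 from rfl, pow_add]
    exact Nat.mul_le_mul_right _ (le_trans (by norm_num) (Nat.pow_le_pow_left Λ2 4))
  have a4 : A ≤ A ^ 3 := Nat.le_self_pow three_ne_zero _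
  rw [map_mul] at h
  have l1 := E.cell_low h (hg.dsc.norm_le hy) a1
  have l2 := E.cell_low (mul_comm (evZ y g.leadingCoeff) _ ▸ h) ((hg.2 _).norm_le hy) a2
  obtain ⟨b1, b2⟩ := sep_c (by omega) (hg.1.trans (by omega)) hr (fun i => by
    rw [coeff_map]
    exact ((hg.2 i).norm_le hy).trans (pow_le_pow_right₀ one_le_two (by omega))) l1
    (by rwa [derivative_map, resultant_map_map])
  exact ⟨(E.cell_inv (by omega)).trans l1, fun j => (b1 j).trans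
    (pow_le_pow_right₀ one_le_two (by omega)), fun i j e => ⟨(E.cell_inv a3).trans (b2 i j e).1,
      (b2 i j e).2.trans (pow_le_pow_right₀ one_le_two (by omega))⟩⟩

end

end Pool.Agent.Lib.MP_5591bc_ag.J
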