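import Pool.Agent.Lib.MP_5591bc_ag.E.Harn
import Pool.Agent.Lib.MP_5591bc_ag.M.CovA

/-! One step of the cell decomposition by polydiscs. -/

namespace Pool.Agent.Lib.MP_5591bc_ag.J

open Metric Finset

noncomputable section

variable {V : Type*} [NormedAddCommGroup V] [NormedSpace ℂ V]

theorem step_harn {h : V → ℂ} {R r : ℝ} {L : ℕ} (hh : DifferentiableOn ℂ h (ball 0 r))
    (hM : ∀ u ∈ ball (0 : V) r, (2 ^ L)⁻¹ ≤ ‖h u‖ ∧ ‖h u‖ ≤ 2 ^ L)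
    (hr : R * (256 * L + 257) ≤ r) {u v : V} (hu : u ∈ ball (0 : V) R) (hv : v ∈ ball (0 : V) R) :
    ‖h u - h v‖ ≤ 3 / 16 * ‖h v‖ := by
  have key : ∀ w ∈ ball (0 : V) R, ‖h w - h 0‖ ≤ 1 / 16 * ‖h 0‖ ∧ ‖h 0 - h w‖ ≤ 1 / 16 * ‖h w‖ := by
    intro w hw
    obtain ⟨e, e1, e2⟩ : ∃ e : V, ‖e‖ ≤ 1 ∧ (‖w‖ : ℂ) • e = w := by
      rcases eq_or_ne w 0 with rfl | w0
      · exact ⟨0, by simp, by simp⟩
      · have : (‖w‖ : ℂ) ≠ 0 := by simpa using w0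
        exact ⟨(‖w‖ : ℂ)⁻¹ • w, by simp [norm_smul, w0], smul_inv_smul₀ this _⟩
    have m : ∀ ζ ∈ ball (0 : ℂ) r, ζ • e ∈ ball (0 : V) r := fun ζ hζ =>
      mem_ball_zero_iff.2 ((norm_smul_le _ _).trans_lt
        ((mul_le_of_le_one_right (norm_nonneg _) e1).trans_lt (mem_ball_zero_iff.1 hζ)))
    have w1 : (‖w‖ : ℂ) ∈ ball (0 : ℂ) R := by simpa using hw
    have w0 : (0 : ℂ) ∈ ball (0 : ℂ) R :=
      mem_ball_self ((norm_nonneg w).trans_lt (mem_ball_zero_iff.1 hw))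
    have k := fun a b => E.harn (h := fun ζ => h (ζ • e)) (R := R) (ε := 1 / 16) (L := L) (u := a)
      (v := b) (hh.comp (f := fun ζ : ℂ => ζ • e) (by fun_prop) m) (fun ζ hζ =>
        ⟨(inv_le_iff_one_le_mul₀' (by positivity)).1 (hM _ (m ζ hζ)).1, (hM _ (m ζ hζ)).2⟩)
      (by norm_num) (by norm_num) (le_trans (le_of_eq (by ring)) hr)
    exact ⟨by simpa only [e2, zero_smul] using k _ _ w1 w0,
      by simpa only [e2, zero_smul] using k _ _ w0 w1⟩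
  linarith [(key u hu).1, (key v hv).2, norm_sub_le_norm_sub_add_norm_sub (h u) (h 0) (h v),
    norm_le_norm_sub_add (h 0) (h v), norm_nonneg (h v)]

theorem step {n Λ R : ℕ} (n0 : 0 < n) (R0 : 0 < R) {r : ℝ} (hr : R * (256 * Λ + 257) ≤ r)
    {a : Fin n → V → ℂ} (ha : ∀ j, DifferentiableOn ℂ (a j) (ball 0 r))
    (hs : ∀ u ∈ ball (0 : V) r, ∀ i j, i ≠ j →
      (2 ^ Λ)⁻¹ ≤ ‖a i u - a j u‖ ∧ ‖a i u - a j u‖ ≤ 2 ^ Λ) :
    ∃ t : Finset (Fin n × ℂ), #t ≤ n * ((2 * Λ + 1) * (64 * R + 1) ^ 2) ∧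
      (∀ p ∈ t, ∀ u ∈ ball (0 : V) R, ∀ v ∈ ball (0 : ℂ) R, ∀ i,
        (2 ^ (Λ + 1))⁻¹ ≤ ‖a p.1 u + p.2 * (1 + v / (8 * R)) - a i u‖ ∧
          ‖a p.1 u + p.2 * (1 + v / (8 * R)) - a i u‖ ≤ 2 ^ (Λ + 1)) ∧
      ∀ τ ∈ ball (0 : V) 1, ∀ z, (∀ i, (2 ^ Λ)⁻¹ ≤ ‖z - a i τ‖ ∧ ‖z - a i τ‖ ≤ 2 ^ Λ) →
        ∃ p ∈ t, ∃ v ∈ ball (0 : ℂ) 1, z = a p.1 τ + p.2 * (1 + v / (8 * R)) := by
  classical
  have : Nonempty (Fin n) := ⟨⟨0, n0⟩⟩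
  have R1 : (1 : ℝ) ≤ R := by exact_mod_cast R0
  choose j hj using fun x : V × ℂ => Finite.exists_min fun i => ‖x.2 - a i x.1‖
  obtain ⟨t, c, t1, t2, t3⟩ := M.cva_one (lo := (2 ^ Λ)⁻¹) (by positivity) (m := 8 * R)
    (by positivity) (2 * Λ + 1)
  let S : V × ℂ → Prop := fun x => x.1 ∈ ball (0 : V) 1 ∧
    ∀ i, (2 ^ Λ)⁻¹ ≤ ‖x.2 - a i x.1‖ ∧ ‖x.2 - a i x.1‖ ≤ 2 ^ Λ
  let w : V × ℂ → ℂ := fun x => x.2 - a (j x) x.1
  let col : V × ℂ → Fin n × ℕ × ℤ × ℤ := fun x => (j x, c (w x) ‖w x‖)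
  choose! ρ hρ using fun (k : Fin n × ℕ × ℤ × ℤ) (h : ∃ x, S x ∧ col x = k) => h
  refine ⟨((univ ×ˢ t).filter fun k => ∃ x, S x ∧ col x = k).image fun k => (j (ρ k), w (ρ k)),
    card_image_le.trans ((card_filter_le _ _).trans ?_), fun p hp u hu v hv i => ?_,
    fun τ hτ z hz => ?_⟩
  · rw [card_product, card_univ, Fintype.card_fin]
    exact Nat.mul_le_mul_left _ (t1.trans_eq (by ring))
  · obtain ⟨k, hk, rfl⟩ := mem_image.1 hp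
    obtain ⟨⟨s1, s2⟩, -⟩ := hρ k (mem_filter.1 hk).2
    generalize ρ k = s at s1 s2 ⊢
    have a1 : ‖a (j s) u - a i u - (a (j s) s.1 - a i s.1)‖ ≤ 3 / 16 * ‖a (j s) s.1 - a i s.1‖ := by
      rcases eq_or_ne (j s) i with e | e
      · simp [e]
      · exact step_harn (h := fun u => a (j s) u - a i u) ((ha _).sub (ha _))
          (fun u hu => hs u hu _ _ e) hr hu (ball_subset_ball R1 s1)
    have a2 : ‖w s * (v / (8 * R))‖ ≤ ‖w s‖ * (1 / 8) := by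
      rw [norm_mul, norm_div]
      refine mul_le_mul_of_nonneg_left ?_ (norm_nonneg _)
      simp only [norm_mul, Complex.norm_ofNat, Complex.norm_natCast]
      rw [div_le_iff₀ (by positivity)]
      linarith [mem_ball_zero_iff.1 hv]
    have a3 : ‖a (j s) s.1 - a i s.1‖ ≤ ‖s.2 - a i s.1‖ + ‖w s‖ :=
      le_trans (le_of_eq (congrArg _ (by simp only [w]; ring))) (norm_sub_le _ _)
    have a4 : ‖w s‖ ≤ ‖s.2 - a i s.1‖ := hj s i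
    have a5 : ‖a (j s) u + w s * (1 + v / (8 * R)) - a i u - (s.2 - a i s.1)‖ ≤ _ :=
      le_trans (le_of_eq (congrArg _ (by simp only [w]; ring))) (norm_add_le_of_le a1 a2)
    have a6 := abs_le.1 ((abs_norm_sub_norm_le _ _).trans a5)
    rw [pow_succ, mul_inv]
    constructor <;> linarith [a6.1, a6.2, (s2 i).1, (s2 i).2, norm_nonneg (s.2 - a i s.1)]
  · have hx : ∃ x, S x ∧ col x = col (τ, z) := ⟨_, ⟨hτ, hz⟩, rfl⟩
    obtain ⟨⟨s1, s2⟩, s3⟩ := hρ _ hx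
    refine ⟨_, mem_image_of_mem _ (mem_filter.2 ⟨mk_mem_product (mem_univ _)
      (t2 _ _ (hz _).1 ((hz _).2.trans_lt ?_) le_rfl), hx⟩), ?_⟩
    · rw [← div_eq_mul_inv, lt_div_iff₀ (by positivity), ← pow_add]
      exact pow_lt_pow_right₀ one_lt_two (by omega)
    change ∃ v ∈ _, z = a (j (ρ (col (τ, z)))) τ + w (ρ (col (τ, z))) * _
    generalize ρ (col (τ, z)) = s at s1 s2 s3 ⊢
    obtain ⟨e1, e2⟩ := Prod.ext_iff.1 s3
    have b1 := t3 _ _ _ _ (s2 _).1 e2.symm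
    have b2 : 0 < ‖w s‖ := lt_of_lt_of_le (by positivity) (s2 _).1
    have b3 : w s ≠ 0 := norm_pos_iff.1 b2
    have b4 : (R : ℂ) ≠ 0 := by simpa using R0.ne'
    refine ⟨8 * R * ((w (τ, z) - w s) / w s), mem_ball_zero_iff.2 ?_, ?_⟩
    · rw [lt_div_iff₀ (by positivity)] at b1
      rw [norm_mul, norm_div, ← mul_div_assoc, div_lt_one b2, mul_comm]
      simpa using b1
    · rw [show j s = j (τ, z) from e1]
      field_simp
      simp only [w]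
      ring

end

end Pool.Agent.Lib.MP_5591bc_ag.J
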