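import Pool.Agent.Lib.MP_5591bc_ag.J.Rad
import Pool.Agent.Lib.MP_5591bc_ag.J.Roots
import Pool.Agent.Lib.MP_5591bc_ag.J.Sep
import Pool.Agent.Lib.MP_5591bc_ag.J.Step
import Pool.Agent.Lib.MP_5591bc_ag.J.CellA
import Pool.Agent.Lib.MP_5591bc_ag.M.CovB

/-! Polynomially many polydisc cells. -/

namespace Pool.Agent.Lib.MP_5591bc_ag.J

open Polynomial Metric Finset

noncomputable section

theorem cell_option {α : Type} [Fintype α] (ih : CellAP α) : CellAP (Option α) := by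
  classical
  obtain ⟨c0, hc0⟩ := ih
  obtain ⟨c1, hc1⟩ := radZ α
  obtain ⟨cs, hcs⟩ := sepZ
  obtain ⟨c, hc⟩ := cellA_num c0 c1 cs
  refine ⟨c, fun Λ Λ2 T T0 hT => ?_⟩
  obtain ⟨g, q, β, N, m0, -, β0, Δ0, hq, hN, sg, sq, sβ, -⟩ := hc1 Λ Λ2 _
    ((map_ne_zero_iff _ (MvPolynomial.optionEquivLeft ℤ α).injective).2 T0) hT.opt
  obtain ⟨a, ea⟩ : ∃ a, a = Λ ^ c1 := ⟨_, rfl⟩
  obtain ⟨b, eb⟩ : ∃ b, b = Λ ^ (2 * c1 + 4) := ⟨_, rfl⟩
  have ab : 16 * a ^ 2 ≤ b := by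
    rw [ea, eb, pow_add, mul_comm 2, pow_mul, mul_comm]
    exact Nat.mul_le_mul_left _ (Nat.pow_le_pow_left Λ2 4)
  have a1 : a ≤ a ^ 2 := Nat.le_self_pow two_ne_zero _
  have a0 : 0 < a := ea ▸ by positivity
  rw [← ea] at hN sg sq sβ
  have g0 : g ≠ 0 := fun e => by simp [e] at m0
  have sl : Sz b (g.leadingCoeff * dsc g) := ((sg.2 _).mul sg.dsc).mono (by omega)
  obtain ⟨T1, T10, sT, h0⟩ := hc0 b (by omega) (β * (g.leadingCoeff * dsc g))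
    (mul_ne_zero β0 (mul_ne_zero (leadingCoeff_ne_zero.2 g0) Δ0))
    ((sβ.mul ((sg.2 _).mul sg.dsc)).mono (by omega))
  refine ⟨(MvPolynomial.optionEquivLeft ℤ α).symm g * MvPolynomial.rename some T1, mul_ne_zero
    ((map_ne_zero_iff _ (MvPolynomial.optionEquivLeft ℤ α).symm.injective).2 g0)
    ((map_ne_zero_iff _ (MvPolynomial.rename_injective _ (Option.some_injective α))).2 T10),
    (sg.opt.mul (sT.rename _)).mono ?_, fun M R hM R2 => ?_⟩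
  · obtain ⟨_, _, _, _, -, -, -, -, -, -, -, -, -, h, -⟩ := hc Λ Λ2 a b ea.le eb.le
    exact h
  obtain ⟨M1, M3, M4, A, n1, n2, n3, n4, n5, n6, n7, n8, n9, -, n11⟩ := hc M (Λ2.trans hM) a b
    (ea ▸ Nat.pow_le_pow_left hM _) (eb ▸ Nat.pow_le_pow_left hM _)
  have RR : R ≤ R * (256 * A + 257) := Nat.le_mul_of_pos_right _ (by omega)
  obtain ⟨𝒞, t1, t2, t3⟩ := h0 M1 (R * (256 * A + 257)) n3 (R2.trans RR)
  generalize eS : ((R * (256 * A + 257) : ℕ) : ℝ) = S at t2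
  have sub : ball (0 : α → ℂ) R ⊆ ball 0 S := ball_subset_ball (eS ▸ by exact_mod_cast RR)
  have mo : ∀ {i j : ℕ}, i ≤ j → (2 : ℝ) ^ i ≤ 2 ^ j := pow_le_pow_right₀ one_le_two
  have two : ∀ {i j k : ℕ}, i < k → j < k → (2 : ℝ) ^ i + 2 ^ j ≤ 2 ^ k := fun {i j k} h h' => by
    obtain ⟨k, rfl⟩ := Nat.exists_eq_succ_of_ne_zero (show k ≠ 0 by omega)
    rw [pow_succ, mul_two]
    exact add_le_add (mo (by omega)) (mo (by omega))
  rw [add_mul a] at n4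
  have f1 : ∀ Ψ ∈ 𝒞, ∀ u ∈ ball (0 : α → ℂ) S, ‖Ψ u‖ ≤ 2 ^ M3 ∧ (2 ^ M3)⁻¹ ≤ ‖evZ (Ψ u) β‖ ∧
      (2 ^ M3)⁻¹ ≤ ‖evZ (Ψ u) (g.leadingCoeff * dsc g)‖ := fun Ψ k u hu => by
    obtain ⟨y1, y2⟩ := (t2 Ψ k).2 u hu
    rw [map_mul] at y2
    exact ⟨y1.trans (mo (by omega)), E.cell_low y2 (sl.norm_le y1) (by omega),
      E.cell_low (mul_comm (evZ (Ψ u) β) _ ▸ y2) (sβ.norm_le y1) (by omega)⟩
  choose! r r1 r2 using fun Ψ (k : Ψ ∈ 𝒞) => rootsZ m0 (t2 Ψ k).1 fun u hu =>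
    norm_pos_iff.1 (lt_of_lt_of_le (by positivity) (f1 Ψ k u hu).2.2)
  have f2 := fun Ψ k u hu => hcs α M3 (by omega) g (sg.mono (by omega)) _ (f1 Ψ k u hu).1
    (f1 Ψ k u hu).2.2 _ (r2 Ψ k u hu).2
  have f3 : ∀ Ψ ∈ 𝒞, ∀ u ∈ ball (0 : α → ℂ) S, ∀ z, evP (Ψ u) z g =
      evZ (Ψ u) g.leadingCoeff * ∏ i, (z - r Ψ i u) := fun Ψ k u hu z => by
    rw [evP_eq, (r2 Ψ k u hu).2]
    simp only [eval_mul, eval_C, eval_prod, eval_sub, eval_X]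
  choose! t s1 s2 s3 using fun Ψ (k : Ψ ∈ 𝒞) => step (Λ := A) (R := R) (r := S) m0 (by omega)
    (by rw [← eS]; push_cast; rfl) (fun j => (r1 Ψ k j).differentiableOn) fun u hu i j e =>
      ⟨(E.cell_inv (by omega)).trans ((f2 Ψ k u hu).2.2 i j e).1,
        ((f2 Ψ k u hu).2.2 i j e).2.trans (mo (by omega))⟩
  have m : ∀ x ∈ ball (0 : Option α → ℂ) R, (fun i => x (some i)) ∈ ball (0 : α → ℂ) R ∧
      x none ∈ ball (0 : ℂ) R := fun x hx =>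
    ⟨mem_ball_zero_iff.2 ((cellA_comp some x).trans_lt (mem_ball_zero_iff.1 hx)),
      mem_ball_zero_iff.2 ((norm_le_pi_norm x _).trans_lt (mem_ball_zero_iff.1 hx))⟩
  refine ⟨𝒞.biUnion fun Ψ => (t Ψ).image fun p x o => o.elim
    (r Ψ p.1 (fun i => x (some i)) + p.2 * (1 + x none / (8 * R))) (Ψ fun i => x (some i)),
    (card_biUnion_le_card_mul _ _ _ fun Ψ k => card_image_le.trans (s1 Ψ k)).trans
      ((Nat.mul_le_mul t1 (Nat.mul_le_mul_right _ sg.1)).trans (n11 R R2)),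
    fun Φ hΦ => ?_, fun x x1 x2 => ?_⟩
  · obtain ⟨Ψ, k, hΦ⟩ := mem_biUnion.1 hΦ
    obtain ⟨p, hp, rfl⟩ := mem_image.1 hΦ
    refine ⟨fun x hx => analyticAt_pi_iff.2 fun o => ?_, fun x hx => ?_⟩
    · have := cellA_ana some x
      cases o with
      | none => exact ((r1 Ψ k _ _ (sub (m x hx).1)).comp this).fun_add (analyticAt_const.fun_mul
          (analyticAt_const.fun_add (((ContinuousLinearMap.proj (R := ℂ) (φ := fun _ => ℂ)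
            none).analyticAt x).div_const)))
      | some l => exact analyticAt_pi_iff.1 (((t2 Ψ k).1 _ (sub (m x hx).1)).comp this) l
    obtain ⟨u1, v1⟩ := m x hx
    have w := s2 Ψ k p hp _ u1 _ v1
    rw [evZ_opt]
    simp only [Option.elim_some, Option.elim_none]
    generalize (fun i => x (some i)) = u at u1 w ⊢
    generalize r Ψ p.1 u + p.2 * (1 + x none / (8 * R)) = z at w ⊢
    obtain ⟨y1, y2, -⟩ := f1 Ψ k u (sub u1)
    obtain ⟨y3, y4, -⟩ := f2 Ψ k u (sub u1)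
    have z1 : ‖z‖ ≤ 2 ^ (A + 2) := (norm_le_norm_sub_add _ (r Ψ p.1 u)).trans
      ((add_le_add (w _).2 (y4 _)).trans (two (by omega) (by omega)))
    have z2 : ‖Ψ u‖ ≤ 2 ^ (A + 2) := y1.trans (mo (by omega))
    have z3 : A + 2 + 1 ≤ (2 * a + 1) * (A + 2 + 1) := Nat.le_mul_of_pos_left _ (by omega)
    refine ⟨le_trans ((pi_norm_le_iff_of_nonneg (by positivity)).2 fun o => ?_)
      (mo (show A + 2 ≤ _ by omega)), E.cell_low (p := M3 + (M3 ^ cs + (A + 1) * a) * a) ?_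
        (sq.norm_le z2 z1) n9⟩
    · cases o with
      | none => exact z1
      | some l => exact (norm_le_pi_norm (Ψ u) l).trans z2
    have z4 : (2 ^ (M3 ^ cs + (A + 1) * g.natDegree))⁻¹ ≤ ‖evP (Ψ u) z g‖ := by
      rw [f3 Ψ k u (sub u1), pow_add, mul_inv, norm_mul, norm_prod, pow_mul, ← inv_pow _ g.natDegree]
      exact mul_le_mul y3 (le_trans (by simp) (prod_le_prod (fun _ _ => by positivity)
        fun i _ => (w i).1)) (by positivity) (norm_nonneg _)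
    refine (E.cell_inv (p := M3 + (M3 ^ cs + (A + 1) * g.natDegree) * N) (Nat.add_le_add_left
      (Nat.mul_le_mul (Nat.add_le_add_left (Nat.mul_le_mul_left _ sg.1) _) hN) _)).trans ?_
    rw [← map_mul, hq, map_mul, map_pow, norm_mul, norm_pow, pow_add, mul_inv, pow_mul,
      ← inv_pow _ N, evP, coe_eval₂RingHom, eval₂_C]
    exact mul_le_mul y2 (pow_le_pow_left₀ (by positivity) z4 _) (by positivity) (norm_nonneg _)
  have x0 := (cellA_comp some x).trans x1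
  have x3 := (norm_le_pi_norm x none).trans x1
  rw [map_mul, evZ_rename, evZ_opt, AlgEquiv.apply_symm_apply] at x2
  obtain ⟨Ψ, k, τ, τ1, τ2⟩ := t3 _ (x0.trans (mo (by omega)))
    (E.cell_low (x2.trans_eq (congrArg _ (mul_comm _ _))) (sg.norm_le x0 x3) n1)
  have x4 := E.cell_low x2 (sT.norm_le x0) n2
  have τ3 : τ ∈ ball (0 : α → ℂ) S :=
    sub (mem_ball_zero_iff.2 (τ1.trans (by exact_mod_cast (by omega : 1 < R))))
  have up : ∀ j, ‖x none - r Ψ j τ‖ ≤ 2 ^ M4 := fun j => (norm_sub_le _ _).trans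
    ((add_le_add x3 ((f2 Ψ k τ τ3).2.1 j)).trans (two (by omega) (by omega)))
  obtain ⟨p, hp, v, hv, e⟩ := s3 Ψ k τ (mem_ball_zero_iff.2 τ1) (x none) fun i =>
    ⟨by
      rw [← τ2, f3 Ψ k τ τ3, ← mul_prod_erase _ _ (mem_univ i), mul_left_comm] at x4
      refine E.cell_low x4 ?_ n7
      rw [pow_add, norm_mul, norm_prod, pow_mul _ M4]
      exact mul_le_mul ((sg.2 _).norm_le (f1 Ψ k τ τ3).1) ((prod_le_prod (fun _ _ => norm_nonneg _)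
        fun j _ => up j).trans ((prod_const _).trans_le (pow_le_pow_right₀ (one_le_pow₀ one_le_two)
          ((card_le_univ _).trans ((Fintype.card_fin _).trans_le sg.1))))) (by positivity)
        (by positivity), (up i).trans (mo (by omega))⟩
  refine ⟨_, mem_biUnion.2 ⟨Ψ, k, mem_image_of_mem _ hp⟩, fun o => o.elim v τ,
    (pi_norm_lt_iff one_pos).2 fun o => ?_, funext fun o => ?_⟩
  · cases o with
    | none => exact mem_ball_zero_iff.1 hv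
    | some l => exact (norm_le_pi_norm τ l).trans_lt τ1
  · cases o with
    | none => exact e.symm
    | some l => exact congrFun τ2 l

theorem pcell (τ : Type) [Fintype τ] : ∃ c : ℕ, ∀ Λ : ℕ, 2 ≤ Λ → ∀ T : ZP τ, T ≠ 0 → Sz Λ T →
    ∃ T' : ZP τ, T' ≠ 0 ∧ Sz (Λ ^ c) T' ∧ ∀ Λ' R : ℕ, Λ ≤ Λ' → 2 ≤ R →
      ∃ 𝒞 : Finset ((τ → ℂ) → τ → ℂ), #𝒞 ≤ (Λ' * R) ^ c ∧
        (∀ Ψ ∈ 𝒞, AnalyticOnNhd ℂ Ψ (ball 0 R) ∧ ∀ a ∈ ball (0 : τ → ℂ) R,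
          ‖Ψ a‖ ≤ 2 ^ Λ' ^ c ∧ (2 ^ Λ' ^ c)⁻¹ ≤ ‖evZ (Ψ a) T‖) ∧
        ∀ t : τ → ℂ, ‖t‖ ≤ 2 ^ Λ' → (2 ^ Λ')⁻¹ ≤ ‖evZ t T'‖ → ∃ Ψ ∈ 𝒞, ∃ a, ‖a‖ ≤ 1 ∧ Ψ a = t := by
  obtain ⟨c, hc⟩ := Fintype.induction_empty_option (P := fun τ _ => CellAP τ)
    (fun α β _ e h => @cellA_equiv α β (.ofEquiv β e.symm) _ e h) cellA_empty
    (fun _ _ => cell_option) τ
  refine ⟨c, fun Λ Λ2 T T0 hT => (hc Λ Λ2 T T0 hT).imp fun T' h => ⟨h.1, h.2.1, fun M R a b =>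
    (h.2.2 M R a b).imp fun 𝒞 k => ⟨k.1, k.2.1, fun t t1 t2 => ?_⟩⟩⟩
  obtain ⟨Ψ, k, u, u1, u2⟩ := k.2.2 t t1 t2
  exact ⟨Ψ, k, u, u1.le, u2⟩

end

end Pool.Agent.Lib.MP_5591bc_ag.J
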