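import Pool.Agent.Lib.MP_5591bc_ag.J.Set
import Pool.Agent.Lib.MP_5591bc_ag.M.Core

/-! Selection and zero estimate with an auxiliary module. -/

namespace Pool.Agent.Lib.MP_5591bc_ag.J

open Finset Function Module G W M
open scoped Classical

section

variable {σ A K C R : Type*} [Fintype A] [Field K] [Field C] [CommRing R] [Algebra C R]

theorem aj_select (p : (σ → K) → A → R) (a0 M' : ℕ)
    (Rel : (σ → K) → ∀ a, Set ((Fin a → A) → MvPolynomial σ K))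
    (hl : ∀ a (I : Finset (Fin a → A)) (φ : (Fin a → A) → MvPolynomial σ K), φ ≠ 0 →
      (∀ α ∉ I, φ α = 0) → ∃ c : (Fin a → A) → C, c ≠ 0 ∧ (∀ α ∉ I, c α = 0) ∧
        ∀ ξ, φ ∈ Rel ξ a → ∑ α, c α • ∏ i, p ξ (α i) = 0) (n : ℕ) :
    ∀ S : Finset (σ → K), ∑ a ∈ range (a0 + 1), ampR C p S a ≤ n →
      ¬ Hyp (S : Set (σ → K)) ((n + 1) * M') →
      ∃ S' ⊆ S, ¬ Hyp (S' : Set (σ → K)) M' ∧ ∀ a ≤ a0, ∀ I : Finset (Fin a → A),
        (∀ c : (Fin a → A) → C, (∀ α ∉ I, c α = 0) → ampM C p S' a c = 0 → c = 0) →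
        ∀ φ : (Fin a → A) → MvPolynomial σ K, φ ≠ 0 → (∀ α ∉ I, φ α = 0) →
          ¬ Hyp {ξ | ξ ∈ S' ∧ φ ∉ Rel ξ a} M' := by
  induction n using Nat.strong_induction_on with
  | _ n ih =>
    intro S h1 h2
    by_contra hn
    have hn' := not_and.1 (not_and.1 (not_exists.1 hn S) Subset.rfl)
      fun h => h2 (am_mono h Set.Subset.rfl (Nat.le_mul_of_pos_left _ n.succ_pos))
    push Not at hn'
    obtain ⟨a, ha, I, hI, φ, φ0, φI, hc⟩ := hn'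
    obtain ⟨c, c0, cI, cR⟩ := hl a I φ φ0 φI
    have sub : {ξ ∈ S | φ ∈ Rel ξ a} ⊆ S := filter_subset _ _
    have lt : ampR C p {ξ ∈ S | φ ∈ Rel ξ a} a < ampR C p S a := by
      refine ampR_lt p sub (c := c) ?_ fun h => c0 (hI _ cI h)
      ext ξ
      rw [ampM_apply]
      exact cR ξ (mem_filter.1 ξ.2).2
    have lt2 := sum_lt_sum (s := range (a0 + 1)) (fun a _ => ampR_mono (C := C) p sub a)
      ⟨a, mem_range.2 (Nat.lt_succ_of_le ha), lt⟩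
    obtain ⟨m, rfl⟩ : ∃ m, n = m + 1 := ⟨n - 1, by omega⟩
    obtain ⟨S', s1, s2⟩ := ih m m.lt_succ_self {ξ ∈ S | φ ∈ Rel ξ a} (by omega) fun h =>
      h2 (am_mono (am_union h hc) (fun ξ hξ => by
        by_cases e : φ ∈ Rel ξ a
        · exact Or.inl (mem_coe.2 (mem_filter.2 ⟨hξ, e⟩))
        · exact Or.inr ⟨hξ, e⟩) (add_one_mul (m + 1) M').ge)
    exact hn ⟨S', s1.trans sub, s2⟩

/-- Amplification and selection, with explicit constants. -/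
theorem ampJ (g M' : ℕ) {a0 : ℕ}
    (ha0 : a0 = 4 * ((g + 1) * (Fintype.card A + 1)) ^ 2) [IsDomain R] (ev : R →ₐ[C] C)
    (p : (σ → K) → A → R) (v : A → C) (S : Finset (σ → K))
    (Rel : (σ → K) → ∀ a, Set ((Fin a → A) → MvPolynomial σ K))
    (hS : ¬ Hyp (S : Set (σ → K)) (((a0 + 1) ^ (Fintype.card A + 1) + 1) * M'))
    (h0 : ∀ ξ ∈ S, ∑ j, v j • p ξ j ≠ 0) (h1 : ∀ ξ ∈ S, ∑ j, v j * ev (p ξ j) = 0)
    (hl : ∀ a (I : Finset (Fin a → A)) (φ : (Fin a → A) → MvPolynomial σ K), φ ≠ 0 →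
      (∀ α ∉ I, φ α = 0) → ∃ c : (Fin a → A) → C, c ≠ 0 ∧ (∀ α ∉ I, c α = 0) ∧
        ∀ ξ, φ ∈ Rel ξ a → ∑ α, c α • ∏ i, p ξ (α i) = 0) :
    ∃ S' ⊆ S, ∃ a ≤ a0, ∃ (I : Finset (Fin a → A)) (E : Submodule C ((Fin a → A) → C)),
      0 < a ∧ I.Nonempty ∧ Set.InjOn cnt (I : Set (Fin a → A)) ∧ g * finrank C E ≤ #I ∧
      finrank C E ≤ (a + 1) ^ Fintype.card A ∧
      (∀ ξ ∈ S', (fun α => ∏ i, ev (p ξ (α i))) ∈ E) ∧
      ∀ φ : (Fin a → A) → MvPolynomial σ K, φ ≠ 0 → (∀ α ∉ I, φ α = 0) →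
        ¬ Hyp {ξ | ξ ∈ S' ∧ φ ∉ Rel ξ a} M' := by
  obtain ⟨S', s1, s2, s3⟩ := aj_select p a0 M' Rel hl _ S
    ((sum_le_card_nsmul _ _ ((a0 + 1) ^ Fintype.card A) fun a ha => (ampR_le p S a).trans
      (Nat.pow_le_pow_left (mem_range.1 ha) _)).trans (by simp [pow_succ'])) hS
  have ne : S'.Nonempty := nonempty_iff_ne_empty.2 fun e => s2 (by simpa [e] using am_empty M')
  obtain ⟨a, ha, hg⟩ := amp_gap g _ (ampR C p S') (ampR_zero p ne) (ampR_le p S')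
  rw [← ha0] at ha
  obtain ⟨I, i1, i2⟩ := amp_basis (C := C) p S' (a + 1)
  obtain ⟨E, e1, e2⟩ := amp_gain ev p v S' (fun ξ hξ => h0 ξ (s1 hξ)) (fun ξ hξ => h1 ξ (s1 hξ)) a
  refine ⟨S', s1, a + 1, ha, I, E, a.succ_pos, ?_, fun α hα β hβ e => by_contra fun ne => ?_, ?_,
    (Nat.le_of_add_right_le e1).trans (ampR_le p S' _), e2, s3 _ ha I i2⟩
  · have : ∀ j, 1 ≤ ampR C p S' j := fun j => by
      induction j with
      | zero => exact ampR_zero p ne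
      | succ j ih =>
        obtain ⟨_, e, -⟩ := amp_gain ev p v S' (fun ξ hξ => h0 ξ (s1 hξ)) (fun ξ hξ => h1 ξ (s1 hξ)) j
        omega
    exact card_pos.1 ((this _).trans i1)
  · have := congrFun (i2 (Pi.single α 1 - Pi.single β 1) (fun γ hγ => by
      rw [Pi.sub_apply, Pi.single_eq_of_ne (ne_of_mem_of_not_mem (mem_coe.1 hα) hγ).symm,
        Pi.single_eq_of_ne (ne_of_mem_of_not_mem (mem_coe.1 hβ) hγ).symm, sub_zero]) (by
      ext ξ
      simp only [map_sub, ampM, Fintype.linearCombination_apply_single, one_smul, Pi.sub_apply,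
        prod_cnt, e, sub_self, Pi.zero_apply])) α
    simp [ne] at this
  · exact ((Nat.mul_le_mul_left g (Nat.le_sub_of_add_le e1)).trans hg).trans i1

end

section

open MvPowerSeries Matrix

variable {σ A J L : Type*} [Fintype σ] [Fintype A] [Fintype J] [Field L] [CharZero L]
  {T : MvPolynomial σ L} {P : Finset (σ → L)} {Φ : (σ → L) → A → MvPowerSeries σ L}
  {Z : (σ → L) → J → MvPowerSeries σ L} {j0 : J} {a : ℕ}
  {B : σ → Matrix (J × (Fin a → A)) (J × (Fin a → A)) (MvPolynomial σ L)}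

omit [Fintype σ] in
theorem leadJ {C R : Type*} [Field C] [CommRing R] [Algebra C R] (ι : L →+* C) {s : σ → L}
    (hT : MvPolynomial.eval s T ≠ 0) (hZ : ∀ x ∈ P, Z x j0 = 1)
    (hS : ∀ x ∈ P, IsM (τm x) T B fun i => Z x i.1 * ∏ l, Φ x (i.2 l)) {p : (σ → L) → A → R}
    {zv : J → C} (hz : zv j0 = 1)
    (he : ∀ x ∈ P, ∀ φ : J × (Fin a → A) → MvPolynomial σ L,
      ∑ i, τm x (φ i) * (Z x i.1 * ∏ l, Φ x (i.2 l)) = 0 →
        ∑ i, (ι (MvPolynomial.eval s (φ i)) * zv i.1) • ∏ l, p x (i.2 l) = 0)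
    (I : Finset (Fin a → A)) (φ : (Fin a → A) → MvPolynomial σ L) (φ0 : φ ≠ 0)
    (φI : ∀ α ∉ I, φ α = 0) : ∃ c : (Fin a → A) → C, c ≠ 0 ∧ (∀ α ∉ I, c α = 0) ∧
      ∀ x, (x ∈ P ∧ ∑ α, τm x (φ α) * ∏ l, Φ x (α l) = 0) → ∑ α, c α • ∏ i, p x (α i) = 0 := by
  obtain ⟨ψ, ψR, ψI, j, hj⟩ := leadM B {ψ | ∀ x, (x ∈ P ∧ ∑ α, τm x (φ α) * ∏ l, Φ x (α l) = 0) →
      prm (τm x) (fun i : J × (Fin a → A) => Z x i.1 * ∏ l, Φ x (i.2 l)) ψ = 0}
    (fun l y hy x h => (zm_prm (hS x h.1) l y).trans (by rw [hy x h, map_zero, mul_zero])) hT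
    {i | i.1 = j0 ∧ i.2 ∈ I} (φ := fun i => if i.1 = j0 then φ i.2 else 0)
    (fun x h => by
      rw [← h.2, prm, Fintype.sum_prod_type, Finset.sum_eq_single j0 (fun b _ hb => by simp [hb])
        (by simp)]
      simp [hZ x h.1])
    (fun h => φ0 (funext fun α => by simpa using congrFun h (j0, α)))
    fun i hi => by
      by_cases e : i.1 = j0
      · simp [e, φI i.2 fun h => hi ⟨e, h⟩]
      · simp [e]
  have hj' : j.1 = j0 := by_contra fun e => hj (ψI j fun h => e h.1)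
  refine ⟨fun α => ι (MvPolynomial.eval s (ψ (j0, α))), fun h => hj ?_,
    fun α hα => by simp [ψI (j0, α) fun h => hα h.2], fun x h => ?_⟩
  · have := congrFun h j.2
    rw [← hj'] at this
    exact (map_eq_zero ι).1 this
  · rw [← he x h.1 ψ (ψR x h), Fintype.sum_prod_type, Finset.sum_eq_single j0
      (fun b _ hb => Finset.sum_eq_zero fun α _ => by simp [ψI (b, α) fun h => hb h.1]) (by simp)]
    simp [hz]

theorem gridJ (hT : ∀ x ∈ P, MvPolynomial.eval x T ≠ 0) (hZ : ∀ x ∈ P, Z x j0 = 1)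
    (hS : ∀ x ∈ P, IsM (τm x) T B fun i => Z x i.1 * ∏ l, Φ x (i.2 l)) {M n : ℕ}
    {I : Finset (Fin a → A)} (I0 : I.Nonempty)
    (hsel : ∀ φ : (Fin a → A) → MvPolynomial σ L, φ ≠ 0 → (∀ α ∉ I, φ α = 0) →
      ¬ Hyp {x | x ∈ P ∧ ∑ α, τm x (φ α) * ∏ l, Φ x (α l) ≠ 0} M)
    (hn : Fintype.card J * (a + 1) ^ Fintype.card A ≤ n) (s : σ → L) : ∃ e, ∀ (m D μ : ℕ)
      (c : (Fin m → I × (σ → Fin D)) → L),
      Fintype.card σ * (n * (Fintype.card σ * D + n * e)) < M * (μ - n) →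
      (∀ (x : Fin m → σ → L) (κ : Fin m → σ →₀ ℕ), (∀ b, x b ∈ P) → (∀ b, (κ b).degree < μ) →
        ∑ ν, c ν * ∏ b, coeff (κ b) (τm (x b) (mns s fun l => (ν b).2 l) *
          ∏ l, Φ (x b) ((ν b).1.1 l)) = 0) → c = 0 := by
  have hne : Nonempty (Fin a → A) := ⟨I0.choose⟩
  have hr : ∀ x (α : Fin a → A), ∏ l, Φ x (invFun cnt (cnt α) l) = ∏ l, Φ x (α l) := fun x α => by
    rw [prod_cnt, invFun_eq (f := cnt) ⟨α, rfl⟩, ← prod_cnt]
  obtain ⟨B', hB'⟩ : ∃ B' : σ → Matrix (J × (A → Fin (a + 1))) (J × (A → Fin (a + 1)))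
      (MvPolynomial σ L), ∀ x ∈ P, IsM (τm x) T B'
        fun i => Z x i.1 * ∏ l, Φ x ((invFun cnt i.2 : Fin a → A) l) :=
    ⟨_, fun x hx => zm_quot (fun i : J × (Fin a → A) => (i.1, cnt i.2))
      (fun i => (i.1, invFun cnt i.2)) (fun i => by simp only [hr]) (hS x hx)⟩
  obtain ⟨e, e1, e2⟩ : ∃ e, T.totalDegree ≤ e ∧ ∀ l i j, (B' l i j).totalDegree ≤ e :=
    ⟨T.totalDegree + univ.sup fun q : σ × _ × _ => (B' q.1 q.2.1 q.2.2).totalDegree,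
      Nat.le_add_right _ _, fun l i j => (le_sup (f := fun q : σ × _ × _ =>
        (B' q.1 q.2.1 q.2.2).totalDegree) (mem_univ (l, i, j))).trans (Nat.le_add_left _ _)⟩
  refine ⟨e, fun m D μ c hM hc => ?_⟩
  have hk : Fintype.card (J × (A → Fin (a + 1))) ≤ n := by simpa using hn
  have h1 : n < μ := Nat.lt_of_sub_pos (Nat.pos_of_mul_pos_left (Nat.zero_lt_of_lt hM))
  refine zm_grid hT hB' e1 e2 (fun α : I => (j0, cnt α.1)) (M := M) (μ := μ) (fun φ h0 => ?_)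
    (hk.trans_lt h1) (lt_of_le_of_lt (by gcongr) (hM.trans_le (by gcongr))) s fun x i hx hi => ?_
  · refine fun h => hsel (fun α => if h : α ∈ I then φ ⟨α, h⟩ else 0)
      (fun h => h0 (funext fun α => by simpa using congrFun h α)) (fun α h => dif_neg h)
      (am_mono h (fun x hx => ⟨hx.1, fun e => hx.2 ?_⟩) le_rfl)
    simp only [hr, hZ x hx.1, one_mul] at e
    rw [← e, ← Finset.sum_subset (Finset.subset_univ I) fun α _ h => by simp [h],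
      ← Finset.sum_coe_sort I]
    simp
  · refine Eq.trans (Finset.sum_congr rfl fun ν _ => ?_) (hc x i hx hi)
    simp only [tens, hr, hZ _ (hx _), one_mul]

end

end Pool.Agent.Lib.MP_5591bc_ag.J
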