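import Mathlib

/-! No drop of the closure of the graph along algebraic arcs. -/

namespace Pool.Agent.Lib.MP_5591bc_ag.J

open MvPolynomial Filter Topology

/-- Along every non constant algebraic arc `y` through `x`, a complex polynomial relation
`H(u, y u, P (y u)) = 0` specialises at `u = 0` to the value at `t = x` of a complex polynomial
relation `H'(t, P t) = 0` valid near `x`. -/
def Full {σ ν : Type*} [Fintype σ] (P : (σ → ℂ) → Matrix ν ν ℂ) (x : σ → ℂ) : Prop :=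
  ∀ y : ℂ → σ → ℂ, AnalyticAt ℂ y 0 → y 0 = x → (¬ ∀ᶠ u in 𝓝 (0 : ℂ), y u = x) →
    (∀ l, ∃ q : MvPolynomial (Fin 2) ℂ, q ≠ 0 ∧ ∀ᶠ u in 𝓝 (0 : ℂ), eval ![u, y u l] q = 0) →
    ∀ H : MvPolynomial (Option σ ⊕ ν × ν) ℂ,
      (∀ᶠ u in 𝓝 (0 : ℂ),
        eval (Sum.elim (fun o => o.elim u (y u)) fun a => P (y u) a.1 a.2) H = 0) →
      ∃ H' : MvPolynomial (σ ⊕ ν × ν) ℂ,
        (∀ᶠ t in 𝓝 x, eval (Sum.elim t fun a => P t a.1 a.2) H' = 0) ∧
        ∀ Z : ν × ν → ℂ, eval (Sum.elim x Z) H' = eval (Sum.elim (fun o => o.elim 0 x) Z) H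

end Pool.Agent.Lib.MP_5591bc_ag.J
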