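import Pool.Agent.Lib.MP_5591bc_ag.J.Liou
import Pool.Agent.Lib.MP_5591bc_ag.J.EisA

/-! The formal root at a simple root. -/

namespace Pool.Agent.Lib.MP_5591bc_ag.J

open Polynomial Finset W M
open scoped ENNReal

noncomputable section

section aux

variable {τ F F' : Type*} [CommRing F] [CommRing F']

/-- the map whose fixed point is the root -/
def eisP (t : τ → F) (x b : F) (G : (ZP τ)[X]) : (MvPowerSeries τ F)[X] :=
  X - C (MvPowerSeries.C b) * taylor (MvPowerSeries.C x) (G.map (evZ (vx t)))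

theorem eisP_eval (t : τ → F) (x b : F) (G : (ZP τ)[X]) (w : MvPowerSeries τ F) :
    (eisP t x b G).eval w = w - MvPowerSeries.C b * evP (vx t) (w + MvPowerSeries.C x) G := by
  rw [eisP, eval_sub, eval_X, eval_mul, eval_C, taylor_eval, evP_eq]

theorem eisP_coeff (t : τ → F) (x b : F) (G : (ZP τ)[X]) (j : ℕ) :
    (eisP t x b G).coeff j = ((if 1 = j then 1 else 0 : ℕ) : MvPowerSeries τ F) -
      MvPowerSeries.C b * evP (vx t) (MvPowerSeries.C x) (hasseDeriv j G) := by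
  have e : hasseDeriv j (G.map (evZ (vx t))) = (hasseDeriv j G).map (evZ (vx t)) := by
    refine Polynomial.ext fun i => ?_
    rw [coeff_map, hasseDeriv_coeff, hasseDeriv_coeff, coeff_map, map_mul, map_natCast]
  rw [eisP, coeff_sub, coeff_C_mul, taylor_coeff, evP_eq, e, coeff_X]
  split_ifs <;> simp

theorem eisP_deg (t : τ → F) (x b : F) {G : (ZP τ)[X]} {n : ℕ} (h : G.natDegree ≤ n)
    (h1 : 1 ≤ n) : (eisP t x b G).natDegree ≤ n := by
  refine (natDegree_sub_le _ _).trans (max_le (natDegree_X_le.trans h1) ?_)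
  refine (natDegree_C_mul_le _ _).trans ?_
  rw [natDegree_taylor]
  exact natDegree_map_le.trans h

theorem eis_cc (t : τ → F) (w : MvPowerSeries τ F) (G : (ZP τ)[X]) :
    MvPowerSeries.constantCoeff (evP (vx t) w G) = evP t (MvPowerSeries.constantCoeff w) G := by
  rw [map_evP]
  simp [vx]

theorem eisP_c0 {t : τ → F} {x : F} (b : F) {G : (ZP τ)[X]} (h : evP t x G = 0) :
    MvPowerSeries.constantCoeff ((eisP t x b G).coeff 0) = 0 := by
  rw [eisP_coeff, map_sub, map_mul, eis_cc, hasseDeriv_zero', MvPowerSeries.constantCoeff_C,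
    MvPowerSeries.constantCoeff_C, h]
  simp

theorem eisP_c1 {t : τ → F} {x b : F} {G : (ZP τ)[X]} (h : b * evP t x (derivative G) = 1) :
    MvPowerSeries.constantCoeff ((eisP t x b G).coeff 1) = 0 := by
  rw [eisP_coeff, map_sub, map_mul, eis_cc, hasseDeriv_one', MvPowerSeries.constantCoeff_C,
    MvPowerSeries.constantCoeff_C, h]
  simp

theorem eisP_map (φ : F →+* F') (t : τ → F) (x b : F) (G : (ZP τ)[X]) (n : ℕ) :
    MvPowerSeries.map φ ((fun u => (eisP t x b G).eval u)^[n] 0) =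
      (fun u => (eisP (fun i => φ (t i)) (φ x) (φ b) G).eval u)^[n] 0 := by
  induction n with
  | zero => simp
  | succ n ih =>
    rw [Function.iterate_succ_apply', Function.iterate_succ_apply', ← ih, eisP_eval, eisP_eval,
      map_sub, map_mul, map_evP, map_add, MvPowerSeries.map_C, MvPowerSeries.map_C]
    have e : (fun i => MvPowerSeries.map φ (vx t i)) = vx fun i => φ (t i) := by
      funext i
      simp [vx]
    rw [e]

theorem eis_hasse {G : (ZP τ)[X]} {a : ℕ} (h : SzP a G) (j : ℕ) :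
    SzP (2 * a) (hasseDeriv j G) := by
  refine ⟨(natDegree_hasseDeriv_le _ _).trans ((Nat.sub_le _ _).trans (h.1.trans (by omega))),
    fun i => ?_⟩
  rw [hasseDeriv_coeff]
  by_cases k : i + j ≤ a
  · have := (Sz.C (τ := τ) (a := a) (c := ((i + j).choose j : ℕ)) (by
      rw [Int.natAbs_natCast]
      exact (Nat.choose_le_two_pow _ _).trans (Nat.pow_le_pow_right two_pos k))).mul (h.2 (i + j))
    rwa [map_natCast, ← two_mul] at this
  · rw [coeff_eq_zero_of_natDegree_lt (h.1.trans_lt (not_le.1 k)), mul_zero]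
    exact sz_zero

theorem eis_opt (t : τ → F) (x : F) (G : (ZP τ)[X]) :
    evP t x G = evZ (fun o : Option τ => o.elim x t)
      ((MvPolynomial.optionEquivLeft ℤ τ).symm G) := by
  rw [evZ_opt, AlgEquiv.apply_symm_apply]
  rfl

theorem eis_memC {c : F} (h : IsIntegral ℤ c) : MvPowerSeries.C c ∈ eisS τ F 1 := fun κ => by
  classical
  rw [one_pow, one_mul, MvPowerSeries.coeff_C]
  split_ifs
  · exact h
  · exact isIntegral_zero

theorem eis_memX (i : τ) : MvPowerSeries.X i ∈ eisS τ F 1 := fun κ => by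
  classical
  rw [one_pow, one_mul, MvPowerSeries.coeff_X]
  split_ifs
  · exact isIntegral_one
  · exact isIntegral_zero

theorem eis_natC (d : ℕ) (c : F) :
    (d : MvPowerSeries τ F) * MvPowerSeries.C c = MvPowerSeries.C ((d : F) * c) := by
  rw [map_mul, map_natCast]

theorem eisP_den {t : τ → F} {x b : F} {G : (ZP τ)[X]} {a d e : ℕ} (hG : SzP a G)
    (hd : ∀ o : Option τ, IsIntegral ℤ ((d : F) * o.elim x t)) (he : IsIntegral ℤ ((e : F) * b))
    (j : ℕ) : ((d ^ (4 * a + 1) * e : ℕ) : MvPowerSeries τ F) * (eisP t x b G).coeff j ∈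
      eisS τ F 1 := by
  have h1 := eis_ev_den (eisS τ F 1) (d := d) (a := 4 * a + 1)
    (u := fun o : Option τ => o.elim (MvPowerSeries.C x) (vx t)) (fun o => by
      cases o with
      | none => exact (eis_natC d x).symm ▸ eis_memC (hd none)
      | some i =>
        change (d : MvPowerSeries τ F) * (MvPowerSeries.X i + MvPowerSeries.C (t i)) ∈ _
        rw [mul_add, eis_natC]
        exact add_mem (mul_mem (natCast_mem _ d) (eis_memX i)) (eis_memC (hd (some i))))
    _ ((eis_hasse hG j).opt.1.trans (by omega))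
  rw [eisP_coeff, mul_sub, eis_opt, Nat.cast_mul, Nat.cast_pow, mul_comm _ (e : MvPowerSeries τ F),
    mul_mul_mul_comm, eis_natC]
  exact sub_mem (mul_mem (mul_mem (natCast_mem _ e) (pow_mem (natCast_mem _ d) _))
    (natCast_mem _ _)) (mul_mem (eis_memC he) h1)

theorem eisP_size {t : τ → ℂ} {x b : ℂ} {G : (ZP τ)[X]} {a β : ℕ} (hG : SzP a G) (h1 : 1 ≤ a)
    (hd : ∀ o : Option τ, ‖o.elim x t‖ ≤ 2 ^ a) (he : ‖b‖ ≤ 2 ^ β) :
    ∑ j ∈ range ((eisP t x b G).natDegree + 1), eisN 1 ((eisP t x b G).coeff j) ≤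
      2 ^ ((4 * a + 1) * (a + 2) + β + a + 1) := by
  have k : ∀ {z : ℂ} {n : ℕ}, ‖z‖ ≤ 2 ^ n → ‖z‖ₑ ≤ 2 ^ n := fun h => by
    rw [enorm_eq_nnnorm]
    exact_mod_cast h
  have k1 : ∀ n : ℕ, (1 : ℝ≥0∞) + 2 ^ n ≤ 2 ^ (n + 1) := fun n => by
    rw [pow_succ, mul_two]
    exact add_le_add_left (one_le_pow₀ one_le_two) _
  have h2 : ∀ j, eisN 1 ((eisP t x b G).coeff j) ≤ 2 ^ ((4 * a + 1) * (a + 2) + β + 1) := by
    intro j
    have s := (eis_hasse hG j).opt
    rw [show 2 * (2 * a) + 1 = 4 * a + 1 by ring] at s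
    have h3 := eisN_ev (n := a + 1)
      (u := fun o : Option τ => o.elim (MvPowerSeries.C x) (vx t)) (fun o => by
        cases o with
        | none =>
          exact (eisN_C x).trans_le ((k (hd none)).trans
            (pow_le_pow_right₀ one_le_two a.le_succ))
        | some i =>
          refine eisN_add.trans ?_
          rw [eisN_X, eisN_C]
          exact (add_le_add_right (k (hd (some i))) _).trans (k1 a)) _ s.1 s.2
    rw [eisP_coeff, eis_opt]
    refine eisN_sub.trans ((add_le_add ?_ (eisN_mul.trans ?_)).trans (k1 _))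
    · split_ifs
      · rw [Nat.cast_one, eisN_one]
      · rw [Nat.cast_zero, eisN_zero]
        exact zero_le
    · rw [eisN_C, pow_add, mul_comm]
      exact mul_le_mul' h3 (k he)
  refine (sum_le_card_nsmul _ _ _ fun j _ => h2 j).trans ?_
  rw [card_range, nsmul_eq_mul, Nat.add_right_comm _ a 1, pow_add _ _ a, mul_comm]
  refine mul_le_mul_right ?_ _
  have : (eisP t x b G).natDegree + 1 ≤ 2 ^ a :=
    (Nat.succ_le_succ (eisP_deg t x b hG.1 h1)).trans Nat.lt_two_pow_self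
  exact_mod_cast this

end aux

theorem eis_one {τ E : Type*} [Fintype τ] [Field E] [NumberField E] {G : (ZP τ)[X]} {t : τ → E}
    {x b : E} {a β N : ℕ} (hG : SzP a G) (h1 : 1 ≤ a)
    (hd : ∀ o : Option τ, Ht (o.elim x t) (2 ^ a)) (he : Ht b (2 ^ β)) (h0 : evP t x G = 0)
    (hb : b * evP t x (derivative G) = 1)
    (hN : 2 * ((4 * a + 1) * (a + 2) * (Fintype.card τ + 1) + β + a + 1) ≤ N) :
    ∃ w : MvPowerSeries τ E, MvPowerSeries.constantCoeff w = 0 ∧
      (∀ (φ : E →+* ℂ) (κ : τ →₀ ℕ), ‖φ (MvPowerSeries.coeff κ w)‖ ≤ (2 ^ N) ^ κ.degree) ∧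
      (∃ d : ℕ, 0 < d ∧ d ≤ 2 ^ N ∧ w ∈ eisS τ E d) ∧
      evP (vx t) (w + MvPowerSeries.C x) G = 0 := by
  classical
  obtain ⟨w, w0, w1, w2⟩ := eis_fix (eisP_c0 b h0) (eisP_c1 hb)
  refine ⟨w, w0, fun φ κ => ?_, ?_, ?_⟩
  · obtain ⟨n, hn⟩ := w2 κ
    rw [hn, ← MvPowerSeries.coeff_map, eisP_map]
    refine (eis_size (eisP_c0 _ ?_) (eisP_c1 ?_) (eisP_size hG h1 (fun o => ?_) (he.norm_le φ))
      n κ).trans (pow_le_pow_left₀ (by positivity) (pow_le_pow_right₀ one_le_two ?_) _)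
    · rw [← map_evP, h0, map_zero]
    · rw [← map_evP, ← map_mul, hb, map_one]
    · have := (hd o).norm_le φ
      cases o <;> exact this
    · exact le_trans (by nlinarith [Nat.zero_le ((4 * a + 1) * (a + 2) * Fintype.card τ)]) hN
  · choose d d0 d1 d2 _ using hd
    obtain ⟨e, e0, e1, e2, -⟩ := he
    have D0 : 0 < (∏ o, d o) ^ (4 * a + 1) * e := mul_pos (pow_pos (prod_pos fun o _ => d0 o) _) e0
    refine ⟨((∏ o, d o) ^ (4 * a + 1) * e) ^ 2, pow_pos D0 _, ?_, fun κ => ?_⟩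
    · have k1 : ∏ o, d o ≤ (2 ^ a) ^ (Fintype.card τ + 1) := by
        rw [← Fintype.card_option, ← card_univ]
        exact prod_le_pow_card _ _ _ fun o _ => by exact_mod_cast d1 o
      have k2 : e ≤ 2 ^ β := by exact_mod_cast e1
      refine (Nat.pow_le_pow_left (Nat.mul_le_mul (Nat.pow_le_pow_left k1 _) k2) 2).trans ?_
      rw [← pow_mul, ← pow_mul, ← pow_add, ← pow_mul]
      refine Nat.pow_le_pow_right two_pos (le_trans ?_ hN)
      nlinarith [Nat.zero_le ((4 * a + 1) * (Fintype.card τ + 1))]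
    · obtain ⟨n, hn⟩ := w2 κ
      rw [hn, Nat.cast_pow]
      refine eis_den (eisP_c0 b h0) (eisP_c1 hb) D0 (eisP_den hG (fun o => ?_) e2) n κ
      rw [← prod_erase_mul _ _ (mem_univ o), Nat.cast_mul, mul_assoc]
      exact (isIntegral_natCast _).mul (d2 o)
  · rw [eisP_eval, sub_eq_self, mul_eq_zero] at w1
    refine w1.resolve_left fun h => ?_
    have : b = 0 := by simpa using congrArg MvPowerSeries.constantCoeff h
    rw [this, zero_mul] at hb
    exact zero_ne_one hb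

theorem eis_uniq {τ F : Type*} [Field F] {G : (ZP τ)[X]} {t : τ → F} {z : F}
    {a b : MvPowerSeries τ F} (ha : MvPowerSeries.constantCoeff a = z)
    (hb : MvPowerSeries.constantCoeff b = z) (h1 : evP (vx t) a G = 0) (h2 : evP (vx t) b G = 0)
    (h : evP t z (derivative G) ≠ 0) : a = b := by
  obtain ⟨q, q0, e⟩ := eis_diff (eisP_c1 (inv_mul_cancel₀ h)) (u := a - MvPowerSeries.C z)
    (v := b - MvPowerSeries.C z) (by simp [ha]) (by simp [hb])
  rw [eisP_eval, eisP_eval, sub_add_cancel, sub_add_cancel, h1, h2] at e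
  have e2 : (1 - q) * (a - b) = 0 := by linear_combination e
  refine sub_eq_zero.1 ((mul_eq_zero.1 e2).resolve_left fun k => ?_)
  simpa [q0] using congrArg MvPowerSeries.constantCoeff k

theorem eis (τ σ : Type) [Fintype τ] [Fintype σ] : ∃ c : ℕ, ∀ Λ : ℕ, 2 ≤ Λ → ∀ (E : Type) [Field E]
    [NumberField E] (G : σ → (ZP τ)[X]) (t : τ → E) (x : σ → E), Module.finrank ℚ E ≤ Λ →
      (∀ l, SzP Λ (G l)) → (∀ i, Ht (t i) (2 ^ Λ)) → (∀ l, Ht (x l) (2 ^ Λ)) →
      (∀ l, evP t (x l) (G l) = 0) → (∀ l, evP t (x l) (derivative (G l)) ≠ 0) →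
      ∃ w : σ → MvPowerSeries τ E, Eis (2 ^ Λ ^ c) w ∧
        ∀ l, evP (vx t) (w l + MvPowerSeries.C (x l)) (G l) = 0 := by
  classical
  obtain ⟨c, hc⟩ := ht_ev (Option τ)
  refine ⟨4 * (4 * c + 1) + 6 + Fintype.card τ + 3 + Fintype.card σ,
    fun Λ hΛ E _ _ G t x hE hG ht hx h0 h1 => ?_⟩
  have up : ∀ {n m : ℕ}, n ≤ m → Λ ^ n ≤ Λ ^ m := fun h => Nat.pow_le_pow_right (by omega) h
  have two : ∀ n : ℕ, n + 1 ≤ Λ ^ n := fun n =>
    Nat.lt_two_pow_self.trans_le (Nat.pow_le_pow_left hΛ n)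
  have a2 : Λ + 2 ≤ Λ ^ 2 := by nlinarith
  have a3 : 8 ≤ Λ ^ 3 := Nat.pow_le_pow_left hΛ 3
  have a4 : 4 * Λ + 1 ≤ Λ ^ 4 := by nlinarith
  have hd : ∀ l (o : Option τ), Ht (o.elim (x l) t) (2 ^ Λ) := fun l o => by
    cases o
    exacts [hx l, ht _]
  set L := Λ ^ (4 * c + 1) with hL
  set N := Λ ^ (4 * (4 * c + 1) + 6 + Fintype.card τ + 3) with hN
  have L1 : Λ ≤ L := by simpa using up (Nat.le_add_left 1 (4 * c))
  have N1 : 2 * ((4 * Λ + 1) * (Λ + 2) * (Fintype.card τ + 1) + 2 * L * (L + 1) + Λ + 1) ≤ N := by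
    set M := Λ ^ (4 * (4 * c + 1) + 6 + Fintype.card τ) with hM
    have b1 : (4 * Λ + 1) * (Λ + 2) * (Fintype.card τ + 1) ≤ M := by
      refine (Nat.mul_le_mul (Nat.mul_le_mul a4 a2) (two _)).trans ?_
      rw [← pow_add, ← pow_add]
      exact up (by omega)
    have b2 : 2 * L * (L + 1) ≤ M := by
      have : 2 * L * (L + 1) ≤ L ^ 2 * L ^ 2 := Nat.mul_le_mul (by nlinarith) (by nlinarith)
      refine this.trans ?_
      rw [← pow_add, hL, ← pow_mul]
      exact up (by omega)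
    have b3 : Λ + 2 ≤ M := a2.trans (up (by omega))
    have b4 : M * 8 ≤ N := by
      rw [hN, pow_add]
      exact Nat.mul_le_mul_left _ a3
    omega
  have hb : ∀ l, Ht (evP t (x l) (derivative (G l)))⁻¹ (2 ^ (2 * L * (L + 1))) := fun l => by
    refine ht_inv (hE.trans L1) ?_
    rw [eis_opt]
    refine (hc (Λ ^ 4) (by omega) E _ _ (fun o => (hd l o).mono
      (pow_le_pow_right₀ one_le_two (by omega))) ((hG l).derivative.opt.mono (by omega))).mono
      (pow_le_pow_right₀ one_le_two ?_)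
    rw [← pow_mul]
    exact up (by omega)
  choose w w0 w1 w2 w3 using fun l =>
    eis_one (hG l) (by omega) (hd l) (hb l) (h0 l) (inv_mul_cancel₀ (h1 l)) N1
  choose d d0 d1 d2 using w2
  have N2 : N * (Fintype.card σ + 1) ≤
      Λ ^ (4 * (4 * c + 1) + 6 + Fintype.card τ + 3 + Fintype.card σ) := by
    rw [pow_add _ _ (Fintype.card σ)]
    exact Nat.mul_le_mul_left _ (two _)
  refine ⟨w, ⟨w0, fun l φ κ => (w1 l φ κ).trans ?_, ∏ l, d l, prod_pos fun l _ => d0 l, ?_,
    fun l κ => ?_⟩, w3⟩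
  · push_cast
    exact pow_le_pow_left₀ (by positivity)
      (pow_le_pow_right₀ one_le_two (le_trans (Nat.le_mul_of_pos_right _ (by omega)) N2)) _
  · refine (prod_le_pow_card _ _ _ fun l _ => d1 l).trans ?_
    rw [← pow_mul, card_univ]
    exact Nat.pow_le_pow_right two_pos (le_trans (Nat.mul_le_mul_left _ (by omega)) N2)
  · rw [← prod_erase_mul _ _ (mem_univ l), Nat.cast_mul, mul_pow, mul_assoc]
    exact (eis_nat _ _).mul (d2 l κ)

end

end Pool.Agent.Lib.MP_5591bc_ag.J
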