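import Pool.Agent.Lib.MP_5591bc_ag.J.Sz

/-! The size of a factor. -/

namespace Pool.Agent.Lib.MP_5591bc_ag.J

open Polynomial Finset

noncomputable section

/-- the exponent of a monomial after the substitution of Kronecker -/
def facW {τ : Type*} [Fintype τ] (D : ℕ) (κ : τ →₀ ℕ) : ℕ :=
  ∑ i, κ i * D ^ (Fintype.equivFin τ i : ℕ)

/-- the substitution of Kronecker -/
def facK {τ : Type*} [Fintype τ] (D : ℕ) : ZP τ →+* ℤ[X] :=
  evZ fun i => X ^ D ^ (Fintype.equivFin τ i : ℕ)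

variable {τ : Type*} [Fintype τ] {D : ℕ}

theorem facW_eq {κ : τ →₀ ℕ} (h : ∀ i, κ i < D) :
    facW D κ = finFunctionFinEquiv fun j => (⟨κ ((Fintype.equivFin τ).symm j), h _⟩ : Fin D) := by
  rw [finFunctionFinEquiv_apply, facW, ← (Fintype.equivFin τ).symm.sum_comp]
  simp

theorem facW_lt {κ : τ →₀ ℕ} (h : ∀ i, κ i < D) : facW D κ < D ^ Fintype.card τ := by
  rw [facW_eq h]
  exact Fin.is_lt _

theorem facW_inj {κ κ' : τ →₀ ℕ} (h : ∀ i, κ i < D) (h' : ∀ i, κ' i < D)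
    (e : facW D κ = facW D κ') : κ = κ' := by
  rw [facW_eq h, facW_eq h'] at e
  have e' := finFunctionFinEquiv.injective (Fin.ext e)
  ext i
  simpa using congrFun e' (Fintype.equivFin τ i)

theorem facK_monomial (κ : τ →₀ ℕ) (c : ℤ) :
    facK D (MvPolynomial.monomial κ c) = monomial (facW D κ) c := by
  rw [facK, evZ, MvPolynomial.coe_eval₂Hom, MvPolynomial.eval₂_monomial,
    Finsupp.prod_fintype _ _ (by simp), ← C_mul_X_pow_eq_monomial, facW, ← prod_pow_eq_pow_sum]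
  simp only [eq_intCast, ← pow_mul, mul_comm]

theorem facK_eq (p : ZP τ) :
    facK D p = ∑ κ ∈ p.support, monomial (facW D κ) (p.coeff κ) := by
  conv_lhs => rw [p.as_sum, map_sum]
  simp only [facK_monomial]

omit [Fintype τ] in
theorem fac_lt {p : ZP τ} (h : p.totalDegree < D) {κ : τ →₀ ℕ} (hκ : κ ∈ p.support) (i : τ) :
    κ i < D :=
  ((MvPolynomial.monomial_le_degreeOf i hκ).trans
    (MvPolynomial.degreeOf_le_totalDegree p i)).trans_lt h

theorem facK_coeff {p : ZP τ} (h : p.totalDegree < D) {κ : τ →₀ ℕ} (hκ : κ ∈ p.support) :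
    (facK D p).coeff (facW D κ) = p.coeff κ := by
  rw [facK_eq, finsetSum_coeff, sum_eq_single_of_mem κ hκ, coeff_monomial_same]
  intro κ' hκ' hne
  rw [coeff_monomial, if_neg fun e => hne (facW_inj (fac_lt h hκ') (fac_lt h hκ) e)]

theorem facK_deg {p : ZP τ} (h : p.totalDegree < D) :
    (facK D p).natDegree ≤ D ^ Fintype.card τ := by
  rw [facK_eq]
  exact natDegree_sum_le_of_forall_le _ _ fun κ hκ =>
    (natDegree_monomial_le _).trans (facW_lt (fac_lt h hκ)).le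

theorem facK_ne {p : ZP τ} (h : p.totalDegree < D) (hp : p ≠ 0) : facK D p ≠ 0 := by
  obtain ⟨κ, hκ⟩ := MvPolynomial.support_nonempty.2 hp
  intro e
  have := facK_coeff h hκ
  rw [e, coeff_zero] at this
  exact MvPolynomial.mem_support_iff.1 hκ this.symm

theorem facK_le (p : ZP τ) (j : ℕ) :
    ((facK D p).coeff j).natAbs ≤ ∑ κ ∈ p.support, (p.coeff κ).natAbs := by
  rw [facK_eq, finsetSum_coeff]
  refine (Int.natAbs_sum_le _ _).trans (sum_le_sum fun κ _ => ?_)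
  rw [coeff_monomial]
  split_ifs <;> simp

theorem fac_norm (f : ℤ[X]) (j : ℕ) :
    ‖(f.map (Int.castRingHom ℂ)).coeff j‖ = ((f.coeff j).natAbs : ℝ) := by
  rw [coeff_map, eq_intCast, Complex.norm_intCast, Nat.cast_natAbs, Int.cast_abs]

/-- the bound of Mignotte -/
theorem fac_one {f g : ℤ[X]} (h : f * g ≠ 0) {n b : ℕ} (hn : (f * g).natDegree ≤ n)
    (hb : ∀ j, ((f * g).coeff j).natAbs ≤ 2 ^ b) (j : ℕ) : (f.coeff j).natAbs ≤ 2 ^ (2 * n + b) := by
  have hf := left_ne_zero_of_mul h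
  have hg := right_ne_zero_of_mul h
  have h1 := norm_coeff_le_choose_mul_mahlerMeasure_of_one_le_mahlerMeasure j
    (f.map (Int.castRingHom ℂ)) _ (one_le_mahlerMeasure_of_ne_zero hg)
  rw [← Polynomial.map_mul] at h1
  have h2 := mahlerMeasure_le_sum_norm_coeff ((f * g).map (Int.castRingHom ℂ))
  have h3 : (((f * g).map (Int.castRingHom ℂ)).sum fun _ a => ‖a‖) ≤ 2 ^ n * 2 ^ b := by
    refine (sum_le_card_nsmul _ _ (2 ^ b) fun i _ => ?_).trans ?_
    · refine (fac_norm _ _).trans_le ?_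
      exact_mod_cast hb i
    · rw [nsmul_eq_mul]
      gcongr
      have := (card_supp_le_succ_natDegree ((f * g).map (Int.castRingHom ℂ))).trans
        ((Nat.succ_le_succ (natDegree_map_le.trans hn)).trans n.lt_two_pow_self)
      exact_mod_cast this
  have h4 : ((f.map (Int.castRingHom ℂ)).natDegree.choose j : ℝ) ≤ 2 ^ n := by
    have : (f.map (Int.castRingHom ℂ)).natDegree ≤ n :=
      natDegree_map_le.trans ((natDegree_le_of_dvd (dvd_mul_right f g) h).trans hn)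
    exact_mod_cast (Nat.choose_le_two_pow _ _).trans (Nat.pow_le_pow_right two_pos this)
  rw [fac_norm] at h1
  have h5 : ((f.coeff j).natAbs : ℝ) ≤ 2 ^ n * (2 ^ n * 2 ^ b) := by
    exact h1.trans (mul_le_mul h4 (h2.trans h3) (mahlerMeasure_nonneg _) (by positivity))
  have h6 : (2 : ℝ) ^ n * (2 ^ n * 2 ^ b) = 2 ^ (2 * n + b) := by ring
  rw [h6] at h5
  exact_mod_cast h5

theorem fac_num {Λ : ℕ} (h : 2 ≤ Λ) (n : ℕ) :
    2 * (Λ + 1) ^ n + Λ + (n + 1) * Λ ≤ Λ ^ (2 * n + 4) := by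
  have h1 : (Λ + 1) ^ n ≤ Λ ^ (2 * n) := by
    rw [pow_mul]
    exact Nat.pow_le_pow_left (by nlinarith) n
  have h2 : n + 1 ≤ Λ ^ (2 * n) :=
    n.lt_two_pow_self.trans_le ((Nat.pow_le_pow_left h n).trans
      (Nat.pow_le_pow_right (by omega) (by omega)))
  have h3 : 8 * Λ ≤ Λ ^ 4 := by
    have : 2 ^ 3 ≤ Λ ^ 3 := Nat.pow_le_pow_left h 3
    nlinarith
  rw [pow_add]
  generalize Λ ^ (2 * n) = y at h1 h2
  generalize (Λ + 1) ^ n = z at h1
  generalize Λ ^ 4 = u at h3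
  nlinarith [Nat.mul_le_mul_left y h3, Nat.mul_le_mul_right Λ h2, Nat.mul_le_mul_left y h]

omit [Fintype τ] in
/-- substitute `X i ↦ u ^ (Λ + 1) ^ (e i)` and use the Mahler measure -/
theorem fac (τ : Type*) [Fintype τ] : ∃ c : ℕ, ∀ Λ : ℕ, 2 ≤ Λ → ∀ p q : ZP τ, p * q ≠ 0 →
    Sz Λ (p * q) → Sz (Λ ^ c) p := by
  refine ⟨2 * Fintype.card τ + 4, fun Λ hΛ p q h hs => ?_⟩
  have hd : p.totalDegree ≤ Λ :=
    (MvPolynomial.totalDegree_le_of_dvd_of_isDomain (dvd_mul_right p q) h).trans hs.1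
  have hD : (p * q).totalDegree < Λ + 1 := Nat.lt_succ_of_le hs.1
  have h0 := facK_ne hD h
  have h1 := facK_deg hD
  have h2 := fun j => (facK_le (D := Λ + 1) (p * q) j).trans hs.2
  rw [map_mul] at h0 h1 h2
  refine (Sz.of_coeff (b := 2 * (Λ + 1) ^ Fintype.card τ + Λ) hd fun κ => ?_).mono (fac_num hΛ _)
  by_cases hκ : κ ∈ p.support
  · rw [← facK_coeff (Nat.lt_succ_of_le hd) hκ]
    exact fac_one h0 h1 h2 _
  · simp [MvPolynomial.notMem_support_iff.1 hκ]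

omit [Fintype τ] in
theorem facP (τ : Type*) [Fintype τ] : ∃ c : ℕ, ∀ Λ : ℕ, 2 ≤ Λ → ∀ f g : (ZP τ)[X], f * g ≠ 0 →
    SzP Λ (f * g) → SzP (Λ ^ c) f := by
  obtain ⟨c, hc⟩ := fac (Option τ)
  refine ⟨3 * c, fun Λ hΛ f g h hs => ?_⟩
  have h1 := hs.opt
  rw [map_mul] at h1
  have h2 := (hc _ (by omega) _ _ (by rw [← map_mul]; simpa using h) h1).opt
  rw [AlgEquiv.apply_symm_apply] at h2
  refine h2.mono ?_
  rw [pow_mul]
  have : 2 ^ 2 ≤ Λ ^ 2 := Nat.pow_le_pow_left hΛ 2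
  exact Nat.pow_le_pow_left (by nlinarith) c

end

end Pool.Agent.Lib.MP_5591bc_ag.J
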