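import Pool.Agent.Lib.MP_5591bc_ag.J.GapS

/-! The formal branch is the Taylor series of the analytic branch. -/

namespace Pool.Agent.Lib.MP_5591bc_ag.J

open Matrix Filter Topology MvPowerSeries G R W M N E Metric

noncomputable section

variable {τ σ : Type} [Fintype τ] [DecidableEq τ] [Fintype σ] [DecidableEq σ] {Λ : ℕ}
  {G : σ → Polynomial (ZP τ)} {g : Polynomial (ZP τ)} {Ψ : (τ → ℂ) → τ → ℂ}
  {y : (τ → ℂ) × (τ → ℂ) → σ → ℂ} {a a₀ : τ → ℂ} {F : Type} [Field F] [Algebra F ℂ]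
  {u : τ → F} {x : σ → F} {w : σ → MvPowerSeries τ F}

omit [Fintype σ] [DecidableEq σ] in
theorem gapA_ev {f : (τ → ℂ) → ℂ} {p : τ → ℂ} (hf : AnalyticAt ℂ f p) (q : Polynomial (ZP τ)) :
    AnalyticAt ℂ (fun t => evP t (f t) q) p ∧
      tayM (fun t => evP t (f t) q) p = evP (vx p) (tayM f p) q := by
  induction q using Polynomial.induction_on' with
  | add q r hq hr =>
    simp only [map_add]
    exact ⟨hq.1.fun_add hr.1, by rw [tayM_add hq.1 hr.1, hq.2, hr.2]⟩
  | monomial n d =>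
    have e : ∀ {A : Type} [CommRing A] (t : τ → A) (z : A),
        evP t z (Polynomial.monomial n d) = evZ t d * z ^ n := fun t z => by
      simp [evP, Polynomial.eval₂_monomial]
    have h1 : AnalyticAt ℂ (fun t : τ → ℂ => evZ t d) p := by
      simp only [evZ_eq]
      exact an_eval _ p
    have h2 : tayM (fun t : τ → ℂ => evZ t d) p = evZ (vx p) d := by
      simp only [evZ_eq (A := ℂ)]
      rw [tayM_eval, τm_evZ]
    simp only [e]
    exact ⟨h1.fun_mul (hf.fun_pow n), by rw [tayM_mul h1 (hf.fun_pow n), tayM_pow hf, h2]⟩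

omit [Fintype τ] [DecidableEq τ] in
theorem gapA_mp (z : MvPowerSeries τ F) (q : Polynomial (ZP τ)) :
    mpM F (evP (vx u) z q) = evP (vx (pc u)) (mpM F z) q := by
  rw [map_evP]
  congr 2
  funext i
  simp [vx]

omit [Fintype τ] [DecidableEq τ] in
theorem gapA_inj : Function.Injective (mpM F : MvPowerSeries τ F → MvPowerSeries τ ℂ) :=
  fun _ _ e => MvPowerSeries.ext fun κ => (algebraMap F ℂ).injective (congrArg (coeff κ) e)

omit [Fintype τ] [DecidableEq τ] [Fintype σ] [DecidableEq σ] in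
theorem gapA_aeval (v : σ → MvPowerSeries τ F) (T : MvPolynomial σ F) :
    mpM F (MvPolynomial.aeval v T) = MvPolynomial.aeval (fun l => mpM F (v l)) (TM ℂ T) := by
  induction T using MvPolynomial.induction_on with
  | C c => simp [MvPowerSeries.algebraMap_apply]
  | add p q hp hq => simp only [map_add, hp, hq]
  | mul_X p i hp => simp only [map_mul, hp, MvPolynomial.aeval_X, MvPolynomial.map_X]

omit [DecidableEq τ] [DecidableEq σ] in
theorem gapA_ev_mem (ha : ‖a‖ ≤ 1) : ∀ᶠ t in 𝓝 (Ψ a), sc Λ Ψ a t ∈ ball 0 40 := by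
  have := (sc_ana (Λ := Λ) (Ψ := Ψ) (a := a) (Ψ a)).continuousAt.tendsto
  rw [sc_self] at this
  exact this.eventually (isOpen_ball.mem_nhds (loc_mem ha (by norm_num)))

omit [DecidableEq τ] [DecidableEq σ] in
/-- from `Cel.rt`, `Cel.ne`, `dsc_ne` -/
theorem gap_root {T : MvPolynomial σ ℂ} (h : Cel Λ G g T Ψ y) (hG : ∀ l, 0 < (G l).natDegree)
    (ha : ‖a‖ ≤ 1) (hu : pc u = Ψ a) (hx : pc x = y (a, 0)) :
    (∀ l, evP u (x l) (G l) = 0 ∧ evP u (x l) (Polynomial.derivative (G l)) ≠ 0) ∧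
      MvPolynomial.eval u (MvPolynomial.map (Int.castRingHom F) (den G g)) ≠ 0 := by
  have m := loc_mem ha (by norm_num : (1 : ℝ) < 40)
  have hne : evZ u (den G g) ≠ 0 := fun e => h.ne _ m (by
    rw [loc_th0, ← hu]
    exact (map_evZ (algebraMap F ℂ) u _).symm.trans (by rw [e, map_zero]))
  refine ⟨fun l => ?_, evZ_eq u (den G g) ▸ hne⟩
  have h0 : evP u (x l) (G l) = 0 := (algebraMap F ℂ).injective (by
    have := h.rt _ m l
    rw [loc_th0, ← hu, ← hx] at this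
    rw [map_evP, map_zero]
    exact this)
  refine ⟨h0, dsc_ne (hG l) h0 fun c => hne ?_⟩
  rw [den, map_mul, map_prod, Finset.prod_eq_zero (Finset.mem_univ l) c, zero_mul]

omit [DecidableEq σ] in
/-- `eis_uniq` over the complex numbers -/
theorem gap_tay {T : MvPolynomial σ ℂ} (h : Cel Λ G g T Ψ y) (hG : ∀ l, 0 < (G l).natDegree)
    (b : Br G Ψ y a u x w) (l : σ) : AnalyticAt ℂ (fun t => y (sc Λ Ψ a t)) (Ψ a) ∧
      tayM (fun t => y (sc Λ Ψ a t) l) (Ψ a) = mpM F (w l + C (x l)) := by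
  have m := loc_mem b.na (by norm_num : (1 : ℝ) < 40)
  have h1 : AnalyticAt ℂ (fun t => y (sc Λ Ψ a t)) (Ψ a) :=
    AnalyticAt.comp (g := y) (by rw [sc_self]; exact h.ay _ m) (sc_ana _)
  have h2 : AnalyticAt ℂ (fun t => y (sc Λ Ψ a t) l) (Ψ a) := analyticAt_pi_iff.1 h1 l
  refine ⟨h1, eis_uniq (G := G l) (t := Ψ a) (z := algebraMap F ℂ (x l)) ?_ ?_ ?_ ?_ ?_⟩
  · rw [constantCoeff_tayM h2, sc_self, ← b.hx]
  · rw [constantCoeff_map, map_add, b.c0, constantCoeff_C, zero_add]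
  · rw [← (gapA_ev h2 _).2, tayM_eq_zero_iff (gapA_ev h2 _).1]
    filter_upwards [gapA_ev_mem (Λ := Λ) (Ψ := Ψ) b.na] with t ht
    simpa only [th_sc] using h.rt _ ht l
  · rw [← b.hu, ← gapA_mp, b.rt, map_zero]
  · rw [← b.hu]
    exact fun e => ((gap_root h hG b.na b.hu b.hx).1 l).2 ((algebraMap F ℂ).injective
      (by rw [map_evP, map_zero]; exact e))

omit [DecidableEq σ] in
/-- from `Cel.tr` on the section -/
theorem gap_tr {T : MvPolynomial σ F} (h : Cel Λ G g (TM ℂ T) Ψ y) (hG : ∀ l, 0 < (G l).natDegree)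
    (b : Br G Ψ y a u x w) :
    evP (vx u) (MvPolynomial.aeval (fun l => w l + C (x l)) T) g = 0 := by
  have h1 : ∀ l, AnalyticAt ℂ (fun t => y (sc Λ Ψ a t) l) (Ψ a) := fun l =>
    analyticAt_pi_iff.1 (gap_tay h hG b l).1 l
  obtain ⟨h2, h3⟩ := tayM_mv h1 (TM ℂ T)
  have h4 : mpM F (MvPolynomial.aeval (fun l => w l + C (x l)) T) =
      MvPolynomial.aeval (fun l => mpM F (w l + C (x l))) (TM ℂ T) := by
    exact gapA_aeval _ T
  refine gapA_inj ?_
  rw [gapA_mp, map_zero, b.hu, h4, ← funext fun l => (gap_tay h hG b l).2, ← h3,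
    ← (gapA_ev h2 _).2, tayM_eq_zero_iff (gapA_ev h2 _).1]
  filter_upwards [gapA_ev_mem (Λ := Λ) (Ψ := Ψ) b.na] with t ht
  simpa only [th_sc, MvPolynomial.aeval_eq_eval] using h.tr _ ht

end

end Pool.Agent.Lib.MP_5591bc_ag.J
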