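import Pool.Agent.Lib.MP_5591bc_ag.J.GapS

/-! The arithmetic of the series along the branch. -/

namespace Pool.Agent.Lib.MP_5591bc_ag.J

open Matrix Filter Topology MvPowerSeries G R W M N E Metric

noncomputable section

variable {τ σ : Type} [Fintype τ] [DecidableEq τ] [Fintype σ] [DecidableEq σ] {Λ : ℕ}
  {G : σ → Polynomial (ZP τ)} {g : Polynomial (ZP τ)} {Ψ : (τ → ℂ) → τ → ℂ}
  {y : (τ → ℂ) × (τ → ℂ) → σ → ℂ} {a a₀ : τ → ℂ} {F : Type} [Field F] [Algebra F ℂ]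
  {u : τ → F} {x : σ → F} {w : σ → MvPowerSeries τ F}

/-- `eis`, `gk_adjM`, `gk_subst`, `LserM_map`, `map_subst` -/
theorem gap_pt {K0 ν : Type} [Field K0] [NumberField K0] [Fintype ν] [DecidableEq ν]
    {T : MvPolynomial σ K0} {B : σ → Matrix ν ν (MvPolynomial σ K0)} (h : GalM T B) (τ : Type)
    [Fintype τ] (δ : ℕ) : ∃ c : ℕ, ∀ Λ : ℕ, 2 ≤ Λ → ∀ (E : Type) [Field E] [NumberField E]
      [Algebra K0 E] (G : σ → Polynomial (ZP τ)) (u : τ → E) (x : σ → E), Module.finrank ℚ E ≤ Λ →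
      (∀ l, SzP Λ (G l)) → (∀ i, Ht (u i) (2 ^ Λ)) → (∀ l, Hd (x l) (2 ^ Λ)) →
      (∀ l, evP u (x l) (G l) = 0 ∧ evP u (x l) (Polynomial.derivative (G l)) ≠ 0) →
      MvPolynomial.eval x (TM E T) ≠ 0 → ∃ w : σ → MvPowerSeries τ E,
        (∀ l, constantCoeff (w l) = 0) ∧ (∀ l, evP (vx u) (w l + C (x l)) (G l) = 0) ∧
        (GKm (2 ^ Λ ^ c) fun q : Mo δ ν × Mo δ ν =>
          subst w (Adj δ (GbM (TM E T) (BM E B) x) q.1 q.2)) ∧
        ∀ (L : Type) [Field L] [Algebra K0 L] (φ : E →ₐ[K0] L),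
          (∀ l, evP (vx fun i => φ (u i)) (map (φ : E →+* L) (w l) + C (φ (x l))) (G l) = 0) ∧
          ∀ f : Mo δ ν → E, (GKm (2 ^ Λ ^ c) fun μ => subst (fun l => map (φ : E →+* L) (w l))
            (LserM (TM L T) (BM L B) δ (fun l => φ (x l)) (fun η => φ (f η)) μ)) ∧
            ∀ μ κ, ∃ z, coeff κ (subst (fun l => map (φ : E →+* L) (w l))
              (LserM (TM L T) (BM L B) δ (fun l => φ (x l)) (fun η => φ (f η)) μ)) = φ z := by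
  obtain ⟨c1, h1⟩ := eis τ σ
  obtain ⟨c2, h2⟩ := gk_adjM h
  obtain ⟨c3, h3⟩ := gk_subst τ σ
  refine ⟨c1 + c3 + c2 * δ + 1 + 2, fun Λ hΛ E _ _ _ G u x hE hG hu hx h0 hT => ?_⟩
  obtain ⟨w, hw, hr⟩ := h1 Λ hΛ E G u x hE hG hu (fun l => (hx l).ht) (fun l => (h0 l).1)
    fun l => (h0 l).2
  obtain ⟨k1, k2⟩ := h2 δ E Λ x (by omega) hx hT _ le_rfl
  have up : ∀ {n m : ℕ}, n ≤ m → Λ ^ n ≤ Λ ^ m := fun h => Nat.pow_le_pow_right (by omega) h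
  have two : ∀ n : ℕ, n ≤ Λ ^ n := fun n =>
    Nat.lt_two_pow_self.le.trans (Nat.pow_le_pow_left hΛ n)
  have le : c3 * 2 ^ (c2 * δ * Λ) * 2 ^ Λ ^ c1 ≤ 2 ^ Λ ^ (c1 + c3 + c2 * δ + 1 + 2) := by
    have a1 : Λ ^ c1 ≤ Λ ^ (c1 + c3 + c2 * δ + 1) := up (by omega)
    have a2 : c3 ≤ Λ ^ (c1 + c3 + c2 * δ + 1) := (two c3).trans (up (by omega))
    have a3 : c2 * δ * Λ ≤ Λ ^ (c1 + c3 + c2 * δ + 1) :=
      ((Nat.mul_le_mul_right Λ (two _)).trans_eq (pow_succ _ _).symm).trans (up (by omega))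
    have a4 : Λ ^ (c1 + c3 + c2 * δ + 1) * 4 ≤ Λ ^ (c1 + c3 + c2 * δ + 1 + 2) :=
      (Nat.mul_le_mul_left _ (Nat.pow_le_pow_left hΛ 2)).trans_eq (pow_add _ _ _).symm
    refine (Nat.mul_le_mul_right _ (Nat.mul_le_mul_right _
      (Nat.lt_two_pow_self (n := c3)).le)).trans ?_
    rw [← pow_add, ← pow_add]
    exact Nat.pow_le_pow_right two_pos (by omega)
  have hs : HasSubst w := hasSubst_of_constantCoeff_zero hw.1
  refine ⟨w, hw.1, hr, (h3 E _ _ _ _ w k1 hw).mono le, fun L _ _ φ => ⟨fun l => ?_, fun f => ?_⟩⟩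
  · have := map_evP (MvPowerSeries.map (σ := τ) (φ : E →+* L)) (vx u) (w l + C (x l)) (G l)
    rw [hr l, map_zero] at this
    unfold vx at this ⊢
    simpa using this.symm
  · simp only [LserM_map, ← MvPowerSeries.map_subst hs]
    exact ⟨((h3 E _ _ _ _ w (k2 f) hw).mono le).map _, fun μ κ => ⟨_, coeff_map _ _ _⟩⟩

end

end Pool.Agent.Lib.MP_5591bc_ag.J
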