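import Pool.Agent.Lib.MP_5591bc_ag.J.GapA

/-! Taylor series of the horizontal covectors along the branch. -/

namespace Pool.Agent.Lib.MP_5591bc_ag.J

open Matrix Filter Topology MvPowerSeries G R W M N E Metric

noncomputable section

variable {τ σ : Type} [Fintype τ] [DecidableEq τ] [Fintype σ] [DecidableEq σ] {Λ : ℕ}
  {G : σ → Polynomial (ZP τ)} {g : Polynomial (ZP τ)} {Ψ : (τ → ℂ) → τ → ℂ}
  {y : (τ → ℂ) × (τ → ℂ) → σ → ℂ} {a a₀ : τ → ℂ} {F : Type} [Field F] [Algebra F ℂ]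
  {u : τ → F} {x : σ → F} {w : σ → MvPowerSeries τ F}

variable {ν : Type} [Fintype ν] [DecidableEq ν] {T : MvPolynomial σ F} {T' : MvPolynomial σ ℂ}
  {B : σ → Matrix ν ν (MvPolynomial σ F)} {U : Set (σ → ℂ)} {Q : (σ → ℂ) → Matrix ν ν ℂ} {δ : ℕ}

theorem gapC_sub (h : Cel Λ G g T' Ψ y) (hG : ∀ l, 0 < (G l).natDegree) (b : Br G Ψ y a u x w)
    {f : (σ → ℂ) → ℂ} (hf : AnalyticAt ℂ f (pc x)) :
    AnalyticAt ℂ (fun t => f (y (sc Λ Ψ a t))) (Ψ a) ∧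
      tayM (fun t => f (y (sc Λ Ψ a t))) (Ψ a) = subst (fun l => mpM F (w l)) (tayM f (pc x)) := by
  have e : y (sc Λ Ψ a (Ψ a)) = pc x := by rw [sc_self, b.hx]
  rcases isEmpty_or_nonempty σ with hσ | ⟨⟨l0⟩⟩
  · have h1 : AnalyticAt ℂ (fun t => y (sc Λ Ψ a t)) (Ψ a) := analyticAt_pi_iff.2 hσ.elim
    refine ⟨AnalyticAt.comp (g := f) (e ▸ hf) h1, ?_⟩
    rw [tay_subst h1 (e ▸ hf), e]
    congr 1
    exact funext hσ.elim
  · have h1 := (gap_tay h hG b l0).1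
    refine ⟨AnalyticAt.comp (g := f) (e ▸ hf) h1, ?_⟩
    rw [tay_subst h1 (e ▸ hf), e]
    congr 1
    funext l
    rw [(gap_tay h hG b l).2, map_add, map_C, add_sub_cancel_right]

/-- `tay_subst`, `tayM_base`, `gap_tay` -/
theorem gap_base (h : Cel Λ G g T' Ψ y) (hG : ∀ l, 0 < (G l).natDegree) (b : Br G Ψ y a u x w)
    (ho : IsOpen U) (hQ : FundM T B U Q) (hx : pc x ∈ U) (hT : MvPolynomial.eval x T ≠ 0)
    (v : Mo δ ν → ℂ) (μ : Mo δ ν) :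
    AnalyticAt ℂ (fun t => (v ᵥ* Adj δ (Q (y (sc Λ Ψ a t)) * (Q (pc x))⁻¹)) μ) (Ψ a) ∧
    tayM (fun t => (v ᵥ* Adj δ (Q (y (sc Λ Ψ a t)) * (Q (pc x))⁻¹)) μ) (Ψ a) =
      ∑ β, C (v β) * mpM F (subst w (Adj δ (GbM T B x) β μ)) := by
  obtain ⟨h1, h2⟩ := gapC_sub h hG b (covM_ana hQ (Q (pc x))⁻¹ v μ hx)
  refine ⟨h1, h2.trans ?_⟩
  have hs := hasSubst_of_constantCoeff_zero b.c0
  have hs' : HasSubst fun l => mpM F (w l) := hs.map _
  rw [tayM_base ho hQ hx hT, ← substAlgHom_apply hs', map_sum]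
  refine Finset.sum_congr rfl fun β _ => ?_
  rw [map_mul, substAlgHom_apply, substAlgHom_apply, subst_C, map_subst hs]

/-- `tay_subst`, `tayM_self`, `gap_tay` -/
theorem gap_self (h : Cel Λ G g T' Ψ y) (hG : ∀ l, 0 < (G l).natDegree) (b : Br G Ψ y a u x w)
    (ho : IsOpen U) (hQ : FundM T B U Q) (hx : pc x ∈ U) (hT : MvPolynomial.eval x T ≠ 0)
    (f : Mo δ ν → F) (μ : Mo δ ν) :
    AnalyticAt ℂ (fun t => lamM Q δ x f (y (sc Λ Ψ a t)) μ) (Ψ a) ∧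
    tayM (fun t => lamM Q δ x f (y (sc Λ Ψ a t)) μ) (Ψ a) =
      mpM F (subst w (LserM T B δ x f μ)) := by
  obtain ⟨h1, h2⟩ := gapC_sub h hG b (lamM_ana hQ x f μ hx)
  refine ⟨h1, h2.trans ?_⟩
  rw [tayM_self ho hQ hx hT, map_subst (hasSubst_of_constantCoeff_zero b.c0)]

omit [DecidableEq τ] [Fintype σ] [DecidableEq σ] in
theorem gap_ana {Y : (τ → ℂ) × (τ → ℂ) → Matrix ν ν ℂ}
    (hY : ∀ i j, AnalyticOnNhd ℂ (Y · i j) (ball 0 36)) (v : Mo δ ν → ℂ) (Z : Matrix ν ν ℂ)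
    (μ : Mo δ ν) : AnalyticOnNhd ℂ (fun p => (v ᵥ* Adj δ (Y p * Z)) μ) (ball 0 36) := by
  intro p hp
  refine Finset.analyticAt_fun_sum _ fun β _ => analyticAt_const.fun_mul ?_
  have e : ∀ A : Matrix ν ν ℂ, Adj δ A β μ =
      MvPolynomial.aeval (fun q : ν × ν => A q.1 q.2) (Adj δ (Xm ν) β μ) := fun A => by
    have := congrFun₂ (Adj_map
      (MvPolynomial.aeval (R := ℂ) (fun q : ν × ν => A q.1 q.2)).toRingHom δ (Xm ν)) β μ
    refine Eq.trans ?_ this.symm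
    congr 1
    ext i j
    simp [Xm]
  simp only [e]
  refine AnalyticAt.aeval_mvPolynomial (f := fun p (q : ν × ν) => (Y p * Z) q.1 q.2) (fun q => ?_) _
  exact Finset.analyticAt_fun_sum _ fun k _ => (hY _ _ p hp).fun_mul analyticAt_const

end

end Pool.Agent.Lib.MP_5591bc_ag.J
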