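import Pool.Agent.Lib.MP_5591bc_ag.J.Loc
import Pool.Agent.Lib.MP_5591bc_ag.J.Sub
import Pool.Agent.Lib.MP_5591bc_ag.J.Eis
import Pool.Agent.Lib.MP_5591bc_ag.Z.Gap

/-! The formal branch at a point of a cell. -/

namespace Pool.Agent.Lib.MP_5591bc_ag.J

open MvPowerSeries M

/-- `x + w` is the expansion at `u = Ψ a` of the branch through `x = y (a, 0)` -/
structure Br {τ σ F : Type} [Fintype τ] [Field F] [Algebra F ℂ] (G : σ → Polynomial (ZP τ))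
    (Ψ : (τ → ℂ) → τ → ℂ) (y : (τ → ℂ) × (τ → ℂ) → σ → ℂ) (a : τ → ℂ) (u : τ → F) (x : σ → F)
    (w : σ → MvPowerSeries τ F) : Prop where
  na : ‖a‖ ≤ 1
  hu : pc u = Ψ a
  hx : pc x = y (a, 0)
  c0 : ∀ l, constantCoeff (w l) = 0
  rt : ∀ l, evP (vx u) (w l + C (x l)) (G l) = 0

end Pool.Agent.Lib.MP_5591bc_ag.J
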