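import Pool.Agent.Lib.MP_5591bc_ag.J.Sz
import Pool.Agent.Lib.MP_5591bc_ag.W.Map

/-! Sizes of values. -/

namespace Pool.Agent.Lib.MP_5591bc_ag.J

open Polynomial Finset W

noncomputable section

theorem liou_pow {Λ : ℕ} (h : 2 ≤ Λ) (k j : ℕ) : k * Λ ^ j ≤ Λ ^ (k + j) := by
  rw [pow_add]
  exact Nat.mul_le_mul_right _ (Nat.lt_two_pow_self.le.trans (Nat.pow_le_pow_left h k))

theorem ht_ev (τ : Type*) [Fintype τ] : ∃ c : ℕ, ∀ Λ : ℕ, 2 ≤ Λ → ∀ (E : Type) [Field E]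
    [NumberField E] (u : τ → E) (p : ZP τ), (∀ i, Ht (u i) (2 ^ Λ)) → Sz Λ p →
      Ht (evZ u p) (2 ^ Λ ^ c) := by
  classical
  refine ⟨Fintype.card τ + 2 + 2, fun Λ hΛ E _ _ u p hu hp => ?_⟩
  have k := liou_pow hΛ (Fintype.card τ + 2) 2
  have hn := fun i φ => (hu i).norm_le φ
  choose d d0 d1 d2 _ using hu
  refine ⟨(∏ i, d i) ^ Λ, pow_pos (prod_pos fun i _ => d0 i) _, ?_, ?_, wmap_house fun φ => ?_⟩
  · have e : ((∏ i, d i : ℕ) : ℝ) ≤ (2 ^ Λ) ^ Fintype.card τ := by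
      rw [Nat.cast_prod, ← card_univ, ← prod_const]
      exact prod_le_prod (fun _ _ => Nat.cast_nonneg _) fun i _ => d1 i
    rw [Nat.cast_pow]
    refine (pow_le_pow_left₀ (Nat.cast_nonneg _) e _).trans ?_
    rw [← pow_mul, ← pow_mul]
    exact pow_le_pow_right₀ one_le_two (le_trans (by nlinarith) k)
  · have hD : ∀ i, IsIntegral ℤ (((∏ i, d i : ℕ) : E) * u i) := fun i => by
      rw [← mul_prod_erase univ d (mem_univ i), Nat.cast_mul, mul_right_comm]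
      exact (d2 i).mul (isIntegral_natCast _)
    generalize ∏ i, d i = D at hD
    rw [evZ, MvPolynomial.coe_eval₂Hom, MvPolynomial.eval₂_eq', mul_sum]
    refine IsIntegral.sum _ fun κ hκ => ?_
    have e : ∑ i, κ i ≤ Λ := by
      refine le_trans (le_of_eq ?_) ((MvPolynomial.le_totalDegree hκ).trans hp.1)
      rw [Finsupp.sum_fintype _ _ fun _ => rfl]
    obtain ⟨b, hb⟩ := Nat.exists_eq_add_of_le e
    rw [hb, Nat.cast_pow, pow_add, ← prod_pow_eq_pow_sum, mul_right_comm, mul_left_comm,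
      ← prod_mul_distrib]
    refine (IsIntegral.mul ?_ (IsIntegral.prod _ fun i _ => ?_)).mul ((isIntegral_natCast D).pow b)
    · exact isIntegral_algebraMap
    · rw [← mul_pow]
      exact (hD i).pow _
  · rw [map_evZ]
    refine (hp.norm_le (n := Λ) ((pi_norm_le_iff_of_nonneg (by positivity)).2 fun i =>
      hn i φ)).trans (pow_le_pow_right₀ one_le_two (le_trans (by nlinarith) k))

theorem ht_inv {E : Type} [Field E] [NumberField E] {z : E} {Λ : ℕ} (hE : Module.finrank ℚ E ≤ Λ)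
    (h : Ht z (2 ^ Λ)) : Ht z⁻¹ (2 ^ (2 * Λ * (Λ + 1))) := by
  rcases eq_or_ne z 0 with rfl | z0
  · exact ⟨1, one_pos, by simpa using one_le_pow₀ one_le_two, by simpa using isIntegral_zero,
      wmap_house fun φ => by simp⟩
  have hn := h.norm_le
  obtain ⟨d, d0, d1, d2, -⟩ := h
  have d3 : (d : E) ≠ 0 := Nat.cast_ne_zero.2 d0.ne'
  obtain ⟨N, N0, N1, N2, N3⟩ := gf_inv d2 (mul_ne_zero d3 z0) (A := 2 ^ (2 * Λ)) fun φ => by
    rw [map_mul, map_natCast, norm_mul, Complex.norm_natCast, two_mul, pow_add]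
    exact mul_le_mul d1 (hn φ) (norm_nonneg _) (by positivity)
  have e : z⁻¹ = d * (d * z)⁻¹ := by field_simp
  refine ⟨N, N0, N1.trans ?_, ?_, wmap_house fun φ => ?_⟩
  · rw [← pow_mul]
    exact pow_le_pow_right₀ one_le_two (Nat.mul_le_mul_left _ (by omega))
  · rw [e, mul_left_comm]
    exact (isIntegral_natCast d).mul N2
  · rw [e, map_mul, map_natCast, norm_mul, Complex.norm_natCast]
    refine (mul_le_mul d1 (N3 φ) (norm_nonneg _) (by positivity)).trans ?_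
    rw [← pow_mul, ← pow_add]
    refine pow_le_pow_right₀ one_le_two ?_
    have := Nat.mul_le_mul_left (2 * Λ) ((Nat.sub_le _ 1).trans hE)
    nlinarith

theorem liou (τ : Type*) [Fintype τ] : ∃ c : ℕ, ∀ Λ : ℕ, 2 ≤ Λ → ∀ (t : τ → ℂ) (p : ZP τ), Ar Λ t →
    Sz Λ p → evZ t p ≠ 0 → (2 ^ Λ ^ c)⁻¹ ≤ ‖evZ t p‖ := by
  obtain ⟨c, hc⟩ := ht_ev τ
  refine ⟨4 + 2 * (c + 1), fun Λ hΛ t p ht hp h0 => ?_⟩
  obtain ⟨E, _, _, ι, u, hE, hu, rfl⟩ := ht
  have k1 : Λ ^ c ≤ Λ ^ (c + 1) := Nat.pow_le_pow_right (by omega) c.le_succ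
  have k2 : Λ ≤ Λ ^ (c + 1) := Nat.le_self_pow c.succ_ne_zero _
  have := (ht_inv (hE.trans k2) ((hc Λ hΛ E u p hu hp).mono
    (pow_le_pow_right₀ one_le_two k1))).norm_le ι
  rw [map_inv₀, norm_inv, map_evZ] at this
  rw [inv_le_comm₀ (by positivity) (norm_pos_iff.2 h0)]
  refine this.trans (pow_le_pow_right₀ one_le_two (le_trans ?_ (liou_pow hΛ 4 _)))
  rw [mul_comm 2 (c + 1), pow_mul]
  nlinarith

theorem Ar.norm_le {τ : Type*} [Fintype τ] {Λ : ℕ} {t : τ → ℂ} (h : Ar Λ t) : ‖t‖ ≤ 2 ^ Λ := by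
  obtain ⟨E, _, _, ι, u, -, hu, rfl⟩ := h
  exact (pi_norm_le_iff_of_nonneg (by positivity)).2 fun i => (hu i).norm_le ι

theorem Ar.mono {τ : Type*} {Λ Λ' : ℕ} {t : τ → ℂ} (h : Ar Λ t) (k : Λ ≤ Λ') : Ar Λ' t := by
  obtain ⟨E, _, _, ι, u, hE, hu, e⟩ := h
  exact ⟨E, _, _, ι, u, hE.trans k, fun i => (hu i).mono (pow_le_pow_right₀ one_le_two k), e⟩

end

end Pool.Agent.Lib.MP_5591bc_ag.J
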