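import Pool.Agent.Lib.MP_5591bc_ag.J.Fac

/-! The radical with sizes. -/

namespace Pool.Agent.Lib.MP_5591bc_ag.J

open Polynomial Finset

noncomputable section

/-- the radical over the fraction field, found inside the ring -/
theorem rad_ex {R K : Type*} [CommRing R] [IsDomain R] [UniqueFactorizationMonoid R] [Field K]
    [CharZero K] [Algebra R K] [IsFractionRing R K] (F : R[X]) : F ≠ 0 → ∃ (β : R) (g : R[X]),
      C β ∣ F ∧ g ∣ F ∧ (g.map (algebraMap R K)).Separable ∧ F ∣ C β * g ^ F.natDegree := by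
  induction F using UniqueFactorizationMonoid.induction_on_prime with
  | h₁ => exact fun h => absurd rfl h
  | h₂ x hx => exact fun _ => ⟨1, 1, by simp, by simp, by simp, hx.dvd⟩
  | h₃ a p ha hp ih =>
    intro _
    obtain ⟨β, g, h1, h2, h3, h4⟩ := ih ha
    rw [natDegree_mul hp.ne_zero ha]
    by_cases hd : p.natDegree = 0
    · obtain ⟨r, rfl⟩ := natDegree_eq_zero.1 hd
      refine ⟨r * β, g, ?_, h2.mul_left _, h3, ?_⟩
      · rw [map_mul]
        exact mul_dvd_mul_left _ h1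
      · rw [hd, zero_add, map_mul, mul_assoc]
        exact mul_dvd_mul_left _ h4
    obtain ⟨k, hk⟩ := Nat.exists_eq_succ_of_ne_zero hd
    by_cases hg : p ∣ g
    · refine ⟨β, g, h1.mul_left _, h2.mul_left _, h3, (mul_dvd_mul hg h4).trans ⟨g ^ k, ?_⟩⟩
      rw [hk, Nat.succ_eq_add_one]
      ring
    · have hpr := hp.irreducible.isPrimitive hd
      have hi : Irreducible (p.map (algebraMap R K)) :=
        hpr.irreducible_iff_irreducible_map_fraction_map.1 hp.irreducible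
      refine ⟨β, p * g, h1.mul_left _, mul_dvd_mul_left _ h2, ?_,
        (mul_dvd_mul_left p h4).trans ⟨p ^ (k + a.natDegree) * g ^ (k + 1), ?_⟩⟩
      · rw [Polynomial.map_mul]
        exact hi.separable.mul h3 (hi.coprime_iff_not_dvd.2 fun h =>
          hg (hpr.dvd_of_fraction_map_dvd_fraction_map h))
      · rw [hk, Nat.succ_eq_add_one]
        ring

theorem rad_dsc {R K : Type*} [CommRing R] [Field K] (φ : R →+* K) (hφ : Function.Injective φ)
    {g : R[X]} (h : (g.map φ).Separable) : dsc g ≠ 0 := by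
  intro e
  have h1 := congrArg φ e
  have hd := natDegree_map_eq_of_injective hφ g
  obtain ⟨k, hk⟩ := Nat.exists_eq_add_of_le
    ((natDegree_derivative_le (g.map φ)).trans (Nat.sub_le _ _))
  rw [dsc, map_zero, ← resultant_map_map, ← derivative_map, ← hd] at h1
  generalize g.map φ = G at h h1 hk
  nth_rewrite 2 [hk] at h1
  rw [resultant_add_right_deg _ _ _ _ _ le_rfl] at h1
  exact mul_ne_zero (pow_ne_zero _ (leadingCoeff_ne_zero.2 h.ne_zero))
    (resultant_ne_zero _ _ h) h1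

theorem rad_qm {τ : Type*} {f g : (ZP τ)[X]} (h : g ∣ X * f) (hf : QM f) : QM g := by
  obtain ⟨c, hc, e⟩ := hf
  have h1 := leadingCoeff_dvd_leadingCoeff h
  rw [leadingCoeff_mul, leadingCoeff_X, one_mul, e] at h1
  have h0 : (MvPolynomial.C c : ZP τ) ≠ 0 := by simpa using hc
  have h2 := MvPolynomial.totalDegree_le_of_dvd_of_isDomain h1 h0
  rw [MvPolynomial.totalDegree_C, Nat.le_zero, MvPolynomial.totalDegree_eq_zero_iff_eq_C] at h2
  refine ⟨_, fun h3 => ?_, h2⟩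
  rw [h3, map_zero] at h2
  exact h0 (zero_dvd_iff.1 (h2 ▸ h1))

/-- `g` is the primitive radical of `X * f`, `β` the content of `f` -/
theorem radZ (τ : Type*) [Fintype τ] : ∃ c : ℕ, ∀ Λ : ℕ, 2 ≤ Λ → ∀ f : (ZP τ)[X], f ≠ 0 → SzP Λ f →
    ∃ (g q : (ZP τ)[X]) (β : ZP τ) (N : ℕ), 0 < g.natDegree ∧ g.coeff 0 = 0 ∧ β ≠ 0 ∧ dsc g ≠ 0 ∧
      f * q = C β * g ^ N ∧ N ≤ Λ ^ c ∧ SzP (Λ ^ c) g ∧ SzP (Λ ^ c) q ∧ Sz (Λ ^ c) β ∧
      (QM f → QM g) := by
  obtain ⟨c, hc⟩ := facP τ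
  refine ⟨(3 * c + 2) * (4 * c + 1), fun Λ hΛ f hf hs => ?_⟩
  have hF : X * f ≠ 0 := mul_ne_zero X_ne_zero hf
  obtain ⟨β, g, h1, h2, h3, q, h4⟩ := rad_ex (K := FractionRing (ZP τ)) (X * f) hF
  have hg : g ≠ 0 := ne_zero_of_dvd_ne_zero hF h2
  have hβ : β ≠ 0 := C_ne_zero.1 (ne_zero_of_dvd_ne_zero hF h1)
  have hX : X ∣ g := by
    rcases prime_X.dvd_or_dvd (⟨f * q, by rw [h4, mul_assoc]⟩ : X ∣ C β * g ^ _) with h | h
    · exact absurd (by simpa using X_dvd_iff.1 h) hβ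
    · exact prime_X.dvd_of_dvd_pow h
  have h22 : 2 ^ 2 ≤ Λ ^ 2 := Nat.pow_le_pow_left hΛ 2
  have hsF : SzP (Λ ^ 3) (X * f) := (SzP.X.mul hs).mono (by nlinarith)
  have hΛ3 : 2 ≤ Λ ^ 3 := by nlinarith
  have hN : (X * f).natDegree ≤ Λ ^ 2 := by
    rw [natDegree_X_mul hf]
    nlinarith [hs.1]
  have hfac : ∀ u : (ZP τ)[X], u ∣ X * f → SzP (Λ ^ (3 * c + 2)) u := by
    rintro u ⟨v, e⟩
    refine (hc _ hΛ3 u v (e ▸ hF) (e ▸ hsF)).mono ?_
    rw [← pow_mul]
    exact Nat.pow_le_pow_right (by omega) (by omega)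
  have hb2 : Λ ^ 2 ≤ Λ ^ (3 * c + 2) := Nat.pow_le_pow_right (by omega) (by omega)
  rw [pow_mul]
  generalize Λ ^ (3 * c + 2) = b at hfac hb2
  generalize (X * f).natDegree = N at h4 hN
  have hb : 4 ≤ b := by omega
  have hNb : N ≤ b := hN.trans hb2
  have hbb : b ≤ b ^ (4 * c + 1) := Nat.le_self_pow (by omega) b
  have e : f * (X * q) = C β * g ^ N := by rw [h4]; ring
  have h44 : 4 ^ 2 ≤ b ^ 2 := Nat.pow_le_pow_left hb 2
  have hP : SzP (b ^ 4) (C β * g ^ N) := ((hfac _ h1).mul ((hfac _ h2).pow N)).mono (by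
    nlinarith [Nat.mul_le_mul_right (2 * b + 1) hNb, Nat.mul_le_mul_right (b ^ 2) h44])
  have hq : SzP ((b ^ 4) ^ c) (X * q) := by
    refine hc _ (by nlinarith) _ f ?_ ?_ <;> rw [mul_comm, e]
    · exact mul_ne_zero (C_ne_zero.2 hβ) (pow_ne_zero _ hg)
    · exact hP
  refine ⟨g, X * q, β, N, ?_, X_dvd_iff.1 hX, hβ, rad_dsc _ (IsFractionRing.injective _ _) h3, e,
    hNb.trans hbb, (hfac _ h2).mono hbb, hq.mono ?_, Sz.mono ?_ hbb, rad_qm h2⟩
  · exact lt_of_lt_of_le (by simp) (natDegree_le_of_dvd hX hg)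
  · rw [← pow_mul]
    exact Nat.pow_le_pow_right (by omega) (by omega)
  · simpa using (hfac _ h1).2 0

end

end Pool.Agent.Lib.MP_5591bc_ag.J
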