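import Pool.Agent.Lib.MP_5591bc_ag.M.Set
import Pool.Agent.Lib.MP_5591bc_ag.J.Defs

/-! Integer polynomials of bounded size, cells on a subvariety. -/

namespace Pool.Agent.Lib.MP_5591bc_ag.J

open Polynomial Metric W M

noncomputable section

/-- integer polynomials -/
abbrev ZP (τ : Type*) := MvPolynomial τ ℤ

variable {τ σ : Type*}

/-- degree at most `Λ`, sum of the absolute values of the coefficients at most `2 ^ Λ` -/
def Sz (Λ : ℕ) (p : ZP τ) : Prop :=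
  p.totalDegree ≤ Λ ∧ ∑ κ ∈ p.support, (p.coeff κ).natAbs ≤ 2 ^ Λ

/-- the same for a polynomial in one more variable -/
def SzP (Λ : ℕ) (f : (ZP τ)[X]) : Prop := f.natDegree ≤ Λ ∧ ∀ i, Sz Λ (f.coeff i)

/-- the leading coefficient is a non zero integer -/
def QM (f : (ZP τ)[X]) : Prop := ∃ c : ℤ, c ≠ 0 ∧ f.leadingCoeff = MvPolynomial.C c

/-- value at `t` -/
def evZ {A : Type*} [CommRing A] (t : τ → A) : ZP τ →+* A :=
  MvPolynomial.eval₂Hom (Int.castRingHom A) t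

/-- value at `(t, z)` -/
def evP {A : Type*} [CommRing A] (t : τ → A) (z : A) : (ZP τ)[X] →+* A := eval₂RingHom (evZ t) z

/-- resultant of `g` and its derivative -/
def dsc {A : Type*} [CommRing A] (g : A[X]) : A :=
  resultant g (derivative g) g.natDegree g.natDegree

/-- the variables expanded at `t` -/
def vx {F : Type*} [CommRing F] (t : τ → F) (i : τ) : MvPowerSeries τ F :=
  MvPowerSeries.X i + MvPowerSeries.C (t i)

/-- a point of degree at most `Λ` and size at most `2 ^ Λ` -/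
def Ar (Λ : ℕ) (t : τ → ℂ) : Prop :=
  ∃ (E : Type) (_ : Field E) (_ : NumberField E) (ι : E →+* ℂ) (u : τ → E),
    Module.finrank ℚ E ≤ Λ ∧ (∀ i, Ht (u i) (2 ^ Λ)) ∧ (fun i => ι (u i)) = t

/-- series without constant term, with geometric conjugates and geometric denominators -/
def Eis {F α : Type*} [Field F] (h : ℕ) (w : α → MvPowerSeries τ F) : Prop :=
  (∀ a, MvPowerSeries.constantCoeff (w a) = 0) ∧
  (∀ a (φ : F →+* ℂ) (κ : τ →₀ ℕ), ‖φ (MvPowerSeries.coeff κ (w a))‖ ≤ h ^ κ.degree) ∧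
  ∃ d : ℕ, 0 < d ∧ d ≤ h ∧
    ∀ a (κ : τ →₀ ℕ), IsIntegral ℤ ((d : F) ^ κ.degree * MvPowerSeries.coeff κ (w a))

variable [Fintype τ] [Fintype σ]

/-- the thickened cell map -/
def th (Λ : ℕ) (Ψ : (τ → ℂ) → τ → ℂ) (p : (τ → ℂ) × (τ → ℂ)) : τ → ℂ :=
  Ψ p.1 + ((2 : ℂ) ^ Λ)⁻¹ • p.2

/-- the section of the thickened cell map through `(a, 0)` -/
def sc (Λ : ℕ) (Ψ : (τ → ℂ) → τ → ℂ) (a t : τ → ℂ) : (τ → ℂ) × (τ → ℂ) :=
  (a, (2 : ℂ) ^ Λ • (t - Ψ a))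

/-- the denominator of the system on the subvariety -/
def den (G : σ → (ZP τ)[X]) (g : (ZP τ)[X]) : ZP τ := (∏ l, dsc (G l)) * g.coeff 1

/-- a cell on the variety `G l (t, y l) = 0`, away from `T y = 0` -/
structure Cel (Λ : ℕ) (G : σ → (ZP τ)[X]) (g : (ZP τ)[X]) (T : MvPolynomial σ ℂ)
    (Ψ : (τ → ℂ) → τ → ℂ) (y : (τ → ℂ) × (τ → ℂ) → σ → ℂ) : Prop where
  an : AnalyticOnNhd ℂ Ψ (ball 0 40)
  bd : ∀ a ∈ ball (0 : τ → ℂ) 40, ‖Ψ a‖ ≤ 2 ^ Λ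
  ay : AnalyticOnNhd ℂ y (ball 0 40)
  rt : ∀ p ∈ ball (0 : (τ → ℂ) × (τ → ℂ)) 40, ∀ l, evP (th Λ Ψ p) (y p l) (G l) = 0
  ne : ∀ p ∈ ball (0 : (τ → ℂ) × (τ → ℂ)) 40, evZ (th Λ Ψ p) (den G g) ≠ 0
  tr : ∀ p ∈ ball (0 : (τ → ℂ) × (τ → ℂ)) 40, evP (th Λ Ψ p) (MvPolynomial.eval (y p) T) g = 0
  tn : ∀ p ∈ ball (0 : (τ → ℂ) × (τ → ℂ)) 40, MvPolynomial.eval (y p) T ≠ 0

/-- the arithmetic data at a point -/
structure DatJ {K L A : Type*} [Field K] [Field L] [CharZero L] [Algebra K L] (Λ : ℕ)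
    (s : τ → K) (T : MvPolynomial τ L) (x : τ → L) (Φ : A → MvPowerSeries τ L) : Prop where
  ne : MvPolynomial.eval x T ≠ 0
  fld : ∃ F : IntermediateField ℚ L, Module.finrank ℚ F ≤ Λ ∧ (∀ y : K, algebraMap K L y ∈ F) ∧
    (∀ l, x l ∈ F) ∧ ∀ α κ, MvPowerSeries.coeff κ (Φ α) ∈ F
  gk : GKm (2 ^ Λ) Φ
  den : ∃ d : ℕ, 0 < d ∧ d ≤ 2 ^ Λ ∧ ∀ l, IsIntegral ℤ ((d : L) * (x l - algebraMap K L (s l)))
  hou : ∀ l (φ : L →+* ℂ), ‖φ (x l - algebraMap K L (s l))‖ ≤ 2 ^ Λ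

end

end Pool.Agent.Lib.MP_5591bc_ag.J
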