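import Pool.Agent.Lib.MP_5591bc_ag.J.SzA

/-! Sizes of integer polynomials. -/

namespace Pool.Agent.Lib.MP_5591bc_ag.J

open Polynomial Metric Finset W M

noncomputable section

variable {τ τ' : Type*} {a b n : ℕ} {p q : ZP τ} {f g : (ZP τ)[X]}

theorem Sz.mono (h : Sz a p) (k : a ≤ b) : Sz b p := by
  exact ⟨h.1.trans k, h.2.trans (Nat.pow_le_pow_right two_pos k)⟩

theorem Sz.C {c : ℤ} (h : c.natAbs ≤ 2 ^ a) : Sz a (MvPolynomial.C c : ZP τ) := by
  exact sz_mon (κ := 0) (by simp) h

theorem Sz.X (i : τ) : Sz 1 (MvPolynomial.X i : ZP τ) := by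
  exact sz_mon (κ := Finsupp.single i 1) (by simp) (by simp)

theorem Sz.neg (h : Sz a p) : Sz a (-p) := by
  simpa [Sz] using h

theorem Sz.add (h : Sz a p) (h' : Sz a q) : Sz (a + 1) (p + q) := by
  exact ⟨(MvPolynomial.totalDegree_add _ _).trans ((max_le h.1 h'.1).trans a.le_succ),
    (szL_add p q).trans ((add_le_add h.2 h'.2).trans_eq (by ring))⟩

theorem Sz.mul (h : Sz a p) (h' : Sz b q) : Sz (a + b) (p * q) := by
  exact ⟨(MvPolynomial.totalDegree_mul _ _).trans (add_le_add h.1 h'.1),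
    (szL_mul p q).trans ((Nat.mul_le_mul h.2 h'.2).trans_eq (by ring))⟩

theorem Sz.pow (h : Sz a p) (n : ℕ) : Sz (n * a) (p ^ n) := by
  induction n with
  | zero => simpa using Sz.C (τ := τ) (a := 0) (c := 1) (by simp)
  | succ n ih => rw [pow_succ, Nat.succ_mul]; exact ih.mul h

theorem Sz.sum {ι : Type*} {s : Finset ι} {u : ι → ZP τ} (h : ∀ i ∈ s, Sz a (u i))
    (hs : #s ≤ 2 ^ n) : Sz (a + n) (∑ i ∈ s, u i) := by
  refine ⟨MvPolynomial.totalDegree_finsetSum_le fun i hi => (h i hi).1.trans (a.le_add_right n),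
    (szL_sum s u).trans ((sum_le_card_nsmul _ _ _ fun i hi => (h i hi).2).trans ?_)⟩
  rw [smul_eq_mul, pow_add, mul_comm]
  exact Nat.mul_le_mul_left _ hs

theorem Sz.prod {ι : Type*} {s : Finset ι} {u : ι → ZP τ} (h : ∀ i ∈ s, Sz a (u i)) :
    Sz (#s * a) (∏ i ∈ s, u i) := by
  classical
  induction s using Finset.induction_on with
  | empty => simpa using Sz.C (τ := τ) (a := 0) (c := 1) (by simp)
  | insert i s hi ih =>
    rw [prod_insert hi, card_insert_of_notMem hi, Nat.succ_mul, add_comm]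
    exact (h i (mem_insert_self _ _)).mul (ih fun j hj => h j (mem_insert_of_mem hj))

theorem Sz.det {ι : Type*} [Fintype ι] [DecidableEq ι] {M : Matrix ι ι (ZP τ)}
    (h : ∀ i j, Sz a (M i j)) : Sz (Fintype.card ι * (a + Fintype.card ι)) M.det := by
  rw [Matrix.det_apply, mul_add]
  refine Sz.sum (fun e _ => ?_) ?_
  · have := Sz.prod (s := univ) fun i _ => h (e i) i
    rcases Int.units_eq_one_or (Equiv.Perm.sign e) with k | k <;> rw [k]
    · simpa using this
    · simpa using this.neg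
  · rw [card_univ, Fintype.card_perm, pow_mul]
    exact (Nat.factorial_le_pow _).trans (Nat.pow_le_pow_left Nat.lt_two_pow_self.le _)

/-- substitution -/
theorem Sz.ev (h : Sz a p) {u : τ → ZP τ'} (hu : ∀ i, Sz b (u i)) : Sz (a * (b + 1)) (evZ u p) := by
  have := sz_lin (p := p) (D := a * b) (N := 2 ^ (a * b))
    (fun κ => ∏ i ∈ κ.support, u i ^ κ i) fun κ hk => by
      have e : ∀ s : Finset τ, Sz ((∑ i ∈ s, κ i) * b) (∏ i ∈ s, u i ^ κ i) := fun s => by
        classical
        induction s using Finset.induction_on with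
        | empty => simpa using Sz.C (τ := τ') (a := 0) (c := 1) (by simp)
        | insert i s hi ih =>
          rw [prod_insert hi, sum_insert hi, add_mul]
          exact ((hu i).pow _).mul ih
      exact (e κ.support).mono (Nat.mul_le_mul_right b (sz_deg h hk))
  rw [sz_ev_eq]
  exact ⟨this.1.trans (Nat.mul_le_mul_left a b.le_succ),
    this.2.trans ((Nat.mul_le_mul_right _ h.2).trans_eq (by ring))⟩

theorem Sz.rename (h : Sz a p) (e : τ → τ') : Sz a (MvPolynomial.rename e p) := by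
  refine ⟨(MvPolynomial.totalDegree_rename_le _ _).trans h.1, le_trans ?_ h.2⟩
  conv_lhs => rw [p.as_sum, map_sum]
  exact (szL_sum _ _).trans (sum_le_sum fun κ _ => by rw [MvPolynomial.rename_monomial, szL_mon])

theorem Sz.coeff_le (h : Sz a p) (κ : τ →₀ ℕ) : (p.coeff κ).natAbs ≤ 2 ^ a := by
  by_cases hk : κ ∈ p.support
  · exact (single_le_sum (f := fun κ => (p.coeff κ).natAbs) (fun _ _ => Nat.zero_le _) hk).trans h.2
  · simp [MvPolynomial.notMem_support_iff.1 hk]

/-- coefficients bounded one by one -/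
theorem Sz.of_coeff [Fintype τ] (hd : p.totalDegree ≤ a) (hc : ∀ κ, (p.coeff κ).natAbs ≤ 2 ^ b) :
    Sz (b + (Fintype.card τ + 1) * a) p := by
  classical
  refine ⟨hd.trans (by nlinarith), (sum_le_card_nsmul _ _ _ fun κ _ => hc κ).trans ?_⟩
  have h1 : #p.support ≤ #(Fintype.piFinset fun _ : τ => range (a + 1)) :=
    card_le_card_of_injOn (fun κ => ⇑κ) (fun κ hk => by
      exact Fintype.mem_piFinset.2 fun i => mem_range.2 (Nat.lt_succ_of_le
        ((Finsupp.le_degree i κ).trans ((MvPolynomial.le_totalDegree hk).trans hd))))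
      fun _ _ _ _ e => DFunLike.coe_injective e
  rw [Fintype.card_piFinset, prod_const, card_range, card_univ] at h1
  have h2 : (a + 1) ^ Fintype.card τ ≤ 2 ^ ((Fintype.card τ + 1) * a) := by
    rw [mul_comm, pow_mul]
    exact (Nat.pow_le_pow_left Nat.lt_two_pow_self _).trans
      (Nat.pow_le_pow_right (by positivity) (Nat.le_succ _))
  rw [smul_eq_mul, pow_add, mul_comm]
  exact Nat.mul_le_mul_left _ (h1.trans h2)

theorem Sz.norm_le [Fintype τ] (h : Sz a p) {t : τ → ℂ} (ht : ‖t‖ ≤ 2 ^ n) :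
    ‖evZ t p‖ ≤ 2 ^ (a * (n + 1)) := by
  have hR : (1 : ℝ) ≤ 2 ^ n := one_le_pow₀ one_le_two
  have h1 : ∀ i, ‖t i‖ ≤ 2 ^ n := fun i => (norm_le_pi_norm t i).trans ht
  rw [sz_ev_eq]
  refine (sz_norm (R := (2 ^ n) ^ a) _ h (by positivity) fun κ hk =>
    (sz_list hR le_rfl h1 h1 (by simp) κ).1.trans (pow_le_pow_right₀ hR (sz_deg h hk))).trans_eq ?_
  ring

theorem Sz.lip [Fintype τ] (h : Sz a p) {t t' : τ → ℂ} (ht : ‖t‖ ≤ 2 ^ n) (ht' : ‖t'‖ ≤ 2 ^ n) :
    ‖evZ t p - evZ t' p‖ ≤ 2 ^ (a * (n + 2)) * ‖t - t'‖ := by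
  have hR : (1 : ℝ) ≤ 2 ^ n := one_le_pow₀ one_le_two
  rw [sz_ev_eq, sz_ev_eq, ← sum_sub_distrib]
  simp only [← mul_sub]
  refine (sz_norm (R := 2 ^ a * (2 ^ n) ^ a * ‖t - t'‖) _ h (by positivity) fun κ hk =>
    (sz_list hR (norm_nonneg _) (fun i => (norm_le_pi_norm t i).trans ht)
      (fun i => (norm_le_pi_norm t' i).trans ht') (fun i => norm_le_pi_norm (t - t') i)
      κ).2.2.trans ?_).trans_eq (by ring)
  have h1 : (κ.degree : ℝ) ≤ 2 ^ a := by
    exact_mod_cast (sz_deg h hk).trans Nat.lt_two_pow_self.le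
  have h2 := pow_le_pow_right₀ hR (sz_deg h hk)
  gcongr

theorem Sz.opt {P : ZP (Option τ)} (h : Sz a P) : SzP a (MvPolynomial.optionEquivLeft ℤ τ P) := by
  refine ⟨?_, fun i => ?_⟩
  · rw [MvPolynomial.natDegree_optionEquivLeft]
    exact (MvPolynomial.degreeOf_le_totalDegree _ _).trans h.1
  have := sz_lin (p := P) (D := a) (N := 1)
    (fun κ => if κ none = i then MvPolynomial.monomial κ.some 1 else 0) fun κ hk => by
      split_ifs
      · refine ⟨(MvPolynomial.totalDegree_monomial_le _ _).trans (le_trans ?_ (sz_deg h hk)),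
          (szL_mon _ _).le⟩
        change _ ≤ κ.sum fun _ e => e
        rw [Finsupp.sum_option_index κ (fun _ e => e) (fun _ => rfl) fun _ _ _ => rfl]
        exact Nat.le_add_left _ _
      · simp [szL]
  have e : (MvPolynomial.optionEquivLeft ℤ τ P).coeff i = ∑ κ ∈ P.support, MvPolynomial.C
      (P.coeff κ) * if κ none = i then MvPolynomial.monomial κ.some 1 else 0 := by
    conv_lhs => rw [P.as_sum, map_sum, finsetSum_coeff]
    refine sum_congr rfl fun κ _ => ?_
    rw [MvPolynomial.optionEquivLeft_monomial, coeff_monomial]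
    split_ifs
    · rw [MvPolynomial.C_mul_monomial, mul_one]
    · rw [mul_zero]
  rw [e]
  exact ⟨this.1, this.2.trans ((mul_one _).trans_le h.2)⟩

theorem SzP.opt (h : SzP a f) : Sz (2 * a + 1) ((MvPolynomial.optionEquivLeft ℤ τ).symm f) := by
  have e : ∀ c : ZP τ, (MvPolynomial.optionEquivLeft ℤ τ).symm (C c) =
      MvPolynomial.rename some c := fun c => by
    rw [AlgEquiv.symm_apply_eq]
    induction c using MvPolynomial.induction_on with
    | C c => simp
    | add p q hp hq => simp [← hp, ← hq]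
    | mul_X p i hp => simp [← hp]
  rw [f.as_sum_range_C_mul_X_pow' (Nat.lt_succ_of_le h.1), map_sum]
  have k : ∀ i ∈ range (a + 1), ((MvPolynomial.optionEquivLeft ℤ τ).symm
      (C (f.coeff i) * X ^ i)).totalDegree ≤ 2 * a + 1 ∧
      szL ((MvPolynomial.optionEquivLeft ℤ τ).symm (C (f.coeff i) * X ^ i)) ≤ 2 ^ a := fun i hi => by
    rw [map_mul, map_pow, e, MvPolynomial.optionEquivLeft_symm_X, MvPolynomial.X_pow_eq_monomial]
    have h1 := (h.2 i).rename some
    refine ⟨(MvPolynomial.totalDegree_mul _ _).trans ((add_le_add h1.1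
      (MvPolynomial.totalDegree_monomial_le _ _)).trans ?_), (szL_mul _ _).trans ?_⟩
    · have := mem_range.1 hi
      simp
      omega
    · rw [szL_mon]
      exact (mul_one _).trans_le h1.2
  refine ⟨MvPolynomial.totalDegree_finsetSum_le fun i hi => (k i hi).1,
    (szL_sum _ _).trans ((sum_le_card_nsmul _ _ _ fun i hi => (k i hi).2).trans ?_)⟩
  rw [card_range, smul_eq_mul]
  refine (Nat.mul_le_mul_right _ Nat.lt_two_pow_self).trans ?_
  rw [← pow_add]
  exact Nat.pow_le_pow_right two_pos (by omega)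

theorem SzP.mono (h : SzP a f) (k : a ≤ b) : SzP b f := by
  exact ⟨h.1.trans k, fun i => (h.2 i).mono k⟩

theorem SzP.C (h : Sz a p) : SzP a (C p) := by
  refine ⟨by simp, fun i => ?_⟩
  rw [coeff_C]
  split_ifs
  exacts [h, sz_zero]

theorem SzP.X : SzP 1 (X : (ZP τ)[X]) := by
  simpa using (Sz.X (none : Option τ)).opt

theorem SzP.sub (h : SzP a f) (h' : SzP a g) : SzP (a + 1) (f - g) := by
  exact ⟨(natDegree_sub_le _ _).trans ((max_le h.1 h'.1).trans a.le_succ), fun i => by
    rw [coeff_sub, sub_eq_add_neg]; exact (h.2 i).add (h'.2 i).neg⟩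

theorem SzP.mul (h : SzP a f) (h' : SzP b g) : SzP (2 * (a + b + 1)) (f * g) := by
  have := (h.opt.mul h'.opt).opt
  rw [map_mul, AlgEquiv.apply_symm_apply, AlgEquiv.apply_symm_apply] at this
  exact this.mono (by omega)

theorem SzP.pow (h : SzP a f) (n : ℕ) : SzP (n * (2 * a + 1)) (f ^ n) := by
  have := (h.opt.pow n).opt
  rwa [map_pow, AlgEquiv.apply_symm_apply] at this

theorem SzP.derivative (h : SzP a f) : SzP (2 * a) (derivative f) := by
  refine ⟨(natDegree_derivative_le f).trans ((Nat.sub_le _ _).trans (h.1.trans (by omega))),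
    fun i => ?_⟩
  rw [coeff_derivative]
  by_cases hi : i + 1 ≤ a
  · have := (h.2 (i + 1)).mul (Sz.C (a := a) (c := ((i + 1 : ℕ) : ℤ))
      (hi.trans Nat.lt_two_pow_self.le))
    rw [two_mul]
    simpa using this
  · rw [coeff_eq_zero_of_natDegree_lt (h.1.trans_lt (by omega)), zero_mul]
    exact sz_zero

theorem SzP.res (h : SzP a f) (h' : SzP a g) {m n : ℕ} (hm : m ≤ b) (hn : n ≤ b) :
    Sz (2 * b * (a + 2 * b)) (resultant f g m n) := by
  have := Sz.det (a := a) (M := sylvester f g m n) fun i j => by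
    rw [sylvester, Matrix.of_apply]
    refine j.addCases (fun j => ?_) fun j => ?_
    · rw [Fin.addCases_left]
      split_ifs
      exacts [h'.2 _, sz_zero]
    · rw [Fin.addCases_right]
      split_ifs
      exacts [h.2 _, sz_zero]
  rw [Fintype.card_fin] at this
  exact this.mono (Nat.mul_le_mul (by omega) (by omega))

theorem SzP.dsc (h : SzP a f) : Sz (8 * a ^ 2) (dsc f) := by
  exact ((h.mono (by omega)).res h.derivative h.1 h.1).mono (by nlinarith)

theorem sz_opt {A : Type*} [CommRing A] (t : Option τ → A) (P : ZP (Option τ)) :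
    evZ t P = evP (fun i => t (some i)) (t none) (MvPolynomial.optionEquivLeft ℤ τ P) := by
  induction P using MvPolynomial.induction_on with
  | C c => simp [evZ, evP]
  | add p q hp hq => simp only [map_add, hp, hq]
  | mul_X p i hp =>
    simp only [map_mul, hp]
    cases i <;> simp [evZ, evP]

theorem SzP.norm_le [Fintype τ] (h : SzP a f) {t : τ → ℂ} {z : ℂ} (ht : ‖t‖ ≤ 2 ^ n)
    (hz : ‖z‖ ≤ 2 ^ n) : ‖evP t z f‖ ≤ 2 ^ ((2 * a + 1) * (n + 1)) := by
  have e := sz_opt (fun o : Option τ => o.elim z t) ((MvPolynomial.optionEquivLeft ℤ τ).symm f)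
  rw [AlgEquiv.apply_symm_apply] at e
  have := h.opt.norm_le (n := n) (t := fun o : Option τ => o.elim z t)
    ((pi_norm_le_iff_of_nonneg (by positivity)).2 fun o => by
      cases o
      exacts [hz, (norm_le_pi_norm t _).trans ht])
  rwa [e] at this

variable {A A' : Type*} [CommRing A] [CommRing A']

theorem map_evZ (φ : A →+* A') (t : τ → A) (p : ZP τ) : φ (evZ t p) = evZ (fun i => φ (t i)) p := by
  exact DFunLike.congr_fun (show φ.comp (evZ t) = evZ fun i => φ (t i) from
    MvPolynomial.ringHom_ext (by simp [evZ]) (by simp [evZ])) p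

theorem map_evP (φ : A →+* A') (t : τ → A) (z : A) (f : (ZP τ)[X]) :
    φ (evP t z f) = evP (fun i => φ (t i)) (φ z) f := by
  exact DFunLike.congr_fun (show φ.comp (evP t z) = evP (fun i => φ (t i)) (φ z) from
    Polynomial.ringHom_ext (by simp [evP, map_evZ]) (by simp [evP])) f

theorem evP_eq (t : τ → A) (z : A) (f : (ZP τ)[X]) : evP t z f = (f.map (evZ t)).eval z := by
  rw [eval_map]; rfl

theorem evZ_opt (t : Option τ → A) (P : ZP (Option τ)) :
    evZ t P = evP (fun i => t (some i)) (t none) (MvPolynomial.optionEquivLeft ℤ τ P) := by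
  exact sz_opt t P

theorem evZ_rename (t : τ' → A) (e : τ → τ') (p : ZP τ) :
    evZ t (MvPolynomial.rename e p) = evZ (fun i => t (e i)) p := by
  exact MvPolynomial.eval₂_rename _ _ _ _

theorem evZ_eq (t : τ → A) (p : ZP τ) :
    evZ t p = MvPolynomial.eval t (MvPolynomial.map (Int.castRingHom A) p) := by
  rw [MvPolynomial.eval_map]; rfl

theorem τm_evZ (t : τ → A) (p : ZP τ) :
    τm t (MvPolynomial.map (Int.castRingHom A) p) = evZ (vx t) p := by
  induction p using MvPolynomial.induction_on with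
  | C c => simp [evZ]
  | add p q hp hq => simp only [map_add, hp, hq]
  | mul_X p i hp => simp only [map_mul, hp]; simp [evZ, vx, τm]

/-- the identity of Bezout at a point -/
theorem dsc_bez (g : (ZP τ)[X]) (h : 0 < g.natDegree) : ∃ u v : (ZP τ)[X],
    g * u + derivative g * v = C (dsc g) := by
  obtain ⟨u, v, -, -, e⟩ := exists_mul_add_mul_eq_C_resultant g (derivative g) le_rfl
    ((natDegree_derivative_le g).trans (Nat.sub_le _ _)) (Or.inl h.ne')
  exact ⟨u, v, e⟩

theorem dsc_ne {g : (ZP τ)[X]} (h : 0 < g.natDegree) {t : τ → A} {z : A} (h0 : evP t z g = 0)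
    (h1 : evZ t (dsc g) ≠ 0) : evP t z (derivative g) ≠ 0 := by
  obtain ⟨u, v, e⟩ := dsc_bez g h
  intro h2
  have := congrArg (evP t z) e
  rw [map_add, map_mul, map_mul, h0, h2, zero_mul, zero_mul, add_zero] at this
  exact h1 (by simpa [evP] using this.symm)

end

end Pool.Agent.Lib.MP_5591bc_ag.J
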