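import Pool.Agent.Lib.MP_5591bc_ag.J.Set

/-! The sum of the absolute values of the coefficients. -/

namespace Pool.Agent.Lib.MP_5591bc_ag.J

open Polynomial Metric Finset W M

noncomputable section

variable {τ τ' : Type*} {a : ℕ} {p : ZP τ}

/-- sum of the absolute values of the coefficients -/
def szL (p : ZP τ) : ℕ := ∑ κ ∈ p.support, (p.coeff κ).natAbs

theorem szL_eq {s : Finset (τ →₀ ℕ)} (h : p.support ⊆ s) :
    szL p = ∑ κ ∈ s, (p.coeff κ).natAbs :=
  sum_subset h fun κ _ hk => by rw [MvPolynomial.notMem_support_iff.1 hk, Int.natAbs_zero]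

theorem szL_add (p q : ZP τ) : szL (p + q) ≤ szL p + szL q := by
  classical
  rw [szL_eq (p := p + q) MvPolynomial.support_add, szL_eq (p := p) subset_union_left,
    szL_eq (p := q) subset_union_right, ← sum_add_distrib]
  exact sum_le_sum fun κ _ => by rw [MvPolynomial.coeff_add]; exact Int.natAbs_add_le _ _

theorem szL_sum {ι : Type*} (s : Finset ι) (u : ι → ZP τ) :
    szL (∑ i ∈ s, u i) ≤ ∑ i ∈ s, szL (u i) :=
  le_sum_of_subadditive szL (by simp [szL]) szL_add s u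

theorem szL_mon (κ : τ →₀ ℕ) (c : ℤ) : szL (MvPolynomial.monomial κ c) = c.natAbs := by
  classical
  rw [szL_eq MvPolynomial.support_monomial_subset, sum_singleton, MvPolynomial.coeff_monomial,
    if_pos rfl]

theorem szL_mul (p q : ZP τ) : szL (p * q) ≤ szL p * szL q := by
  conv_lhs => rw [p.as_sum, q.as_sum, sum_mul_sum]
  rw [szL, szL, szL, sum_mul_sum]
  refine (szL_sum _ _).trans (sum_le_sum fun κ _ => (szL_sum _ _).trans (sum_le_sum fun κ' _ => ?_))
  rw [MvPolynomial.monomial_mul, szL_mon, Int.natAbs_mul]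

theorem sz_zero : Sz a (0 : ZP τ) := ⟨by simp, by simp⟩

theorem sz_mon {κ : τ →₀ ℕ} {c : ℤ} (h : κ.sum (fun _ e => e) ≤ a) (hc : c.natAbs ≤ 2 ^ a) :
    Sz a (MvPolynomial.monomial κ c) :=
  ⟨(MvPolynomial.totalDegree_monomial_le _ _).trans h, (szL_mon κ c).trans_le hc⟩

/-- images of the monomials -/
theorem sz_lin {D N : ℕ} (G : (τ →₀ ℕ) → ZP τ')
    (h : ∀ κ ∈ p.support, (G κ).totalDegree ≤ D ∧ szL (G κ) ≤ N) :
    (∑ κ ∈ p.support, MvPolynomial.C (p.coeff κ) * G κ).totalDegree ≤ D ∧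
      szL (∑ κ ∈ p.support, MvPolynomial.C (p.coeff κ) * G κ) ≤ szL p * N := by
  refine ⟨MvPolynomial.totalDegree_finsetSum_le fun κ hk =>
    (MvPolynomial.totalDegree_mul _ _).trans (by
      rw [MvPolynomial.totalDegree_C, zero_add]; exact (h κ hk).1), (szL_sum _ _).trans ?_⟩
  rw [szL, sum_mul]
  exact sum_le_sum fun κ hk => (szL_mul _ _).trans
    (Nat.mul_le_mul (szL_mon 0 _).le (h κ hk).2)

theorem sz_ev_eq {A : Type*} [CommRing A] (t : τ → A) (p : ZP τ) :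
    evZ t p = ∑ κ ∈ p.support, ((p.coeff κ : ℤ) : A) * ∏ i ∈ κ.support, t i ^ κ i :=
  MvPolynomial.eval₂_eq _ _ _

theorem sz_norm {R : ℝ} (G : (τ →₀ ℕ) → ℂ) (hp : Sz a p) (hR : 0 ≤ R)
    (h : ∀ κ ∈ p.support, ‖G κ‖ ≤ R) :
    ‖∑ κ ∈ p.support, ((p.coeff κ : ℤ) : ℂ) * G κ‖ ≤ 2 ^ a * R := by
  have h1 : ((szL p : ℕ) : ℝ) ≤ 2 ^ a := by exact_mod_cast hp.2
  refine (norm_sum_le _ _).trans (le_trans ?_ (mul_le_mul_of_nonneg_right h1 hR))
  rw [szL, Nat.cast_sum, sum_mul]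
  refine sum_le_sum fun κ hk => ?_
  rw [norm_mul, Complex.norm_intCast, Nat.cast_natAbs, Int.cast_abs]
  exact mul_le_mul_of_nonneg_left (h κ hk) (abs_nonneg _)

theorem sz_list {R e : ℝ} (hR : 1 ≤ R) (he : 0 ≤ e) {t t' : τ → ℂ} (h : ∀ i, ‖t i‖ ≤ R)
    (h' : ∀ i, ‖t' i‖ ≤ R) (hd : ∀ i, ‖t i - t' i‖ ≤ e) (κ : τ →₀ ℕ) :
    ‖κ.prod fun i k => t i ^ k‖ ≤ R ^ κ.degree ∧ ‖κ.prod fun i k => t' i ^ k‖ ≤ R ^ κ.degree ∧
    ‖(κ.prod fun i k => t i ^ k) - κ.prod fun i k => t' i ^ k‖ ≤ κ.degree * R ^ κ.degree * e := by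
  induction κ using Finsupp.induction_linear with
  | zero => simp
  | add κ κ' h1 h2 =>
    simp only [Finsupp.prod_add_index' (fun _ => pow_zero _) fun _ _ _ => pow_add _ _ _, map_add,
      pow_add, norm_mul, Nat.cast_add]
    refine ⟨mul_le_mul h1.1 h2.1 (norm_nonneg _) (by positivity),
      mul_le_mul h1.2.1 h2.2.1 (norm_nonneg _) (by positivity), ?_⟩
    rw [← sub_add_sub_cancel _ ((κ.prod fun i k => t' i ^ k) * κ'.prod fun i k => t i ^ k),
      ← sub_mul, ← mul_sub]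
    refine (norm_add_le _ _).trans ?_
    rw [norm_mul, norm_mul]
    have a1 := mul_le_mul h1.2.2 h2.1 (norm_nonneg _) (by positivity)
    have a2 := mul_le_mul h1.2.1 h2.2.2 (norm_nonneg _) (by positivity)
    linarith
  | single i k =>
    have e1 : ∀ s : τ → ℂ, ((Finsupp.single i k).prod fun i k => s i ^ k) = s i ^ k := fun s =>
      Finsupp.prod_single_index (pow_zero _)
    simp only [e1, Finsupp.degree_single, norm_pow]
    refine ⟨pow_le_pow_left₀ (norm_nonneg _) (h i) k, pow_le_pow_left₀ (norm_nonneg _) (h' i) k, ?_⟩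
    rw [← geom_sum₂_mul, norm_mul]
    refine mul_le_mul ((norm_sum_le _ _).trans ?_) (hd i) (norm_nonneg _) (by positivity)
    refine (sum_le_card_nsmul _ _ (R ^ k) fun j hj => ?_).trans (by simp)
    rw [norm_mul, norm_pow, norm_pow]
    refine (mul_le_mul (pow_le_pow_left₀ (norm_nonneg _) (h i) _) (pow_le_pow_left₀ (norm_nonneg _)
      (h' i) _) (by positivity) (by positivity)).trans ?_
    rw [← pow_add]
    exact pow_le_pow_right₀ hR (by have := mem_range.1 hj; omega)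

theorem sz_deg (h : Sz a p) {κ : τ →₀ ℕ} (hk : κ ∈ p.support) : κ.degree ≤ a :=
  (MvPolynomial.le_totalDegree hk).trans h.1

end

end Pool.Agent.Lib.MP_5591bc_ag.J
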